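import Mathlib
import Pool.Agent.H586R3.CT8

/-!
# Branches of a bivariate polynomial near a regular point
(a variant of `exists_branches` of `Pool.Agent.H586R3.CT7`, with the same proof)
-/

set_option autoImplicit false

open MeasureTheory Metric Set Filter Topology Complex
open scoped ContDiff ENNReal Polynomial

namespace Pool.Agent.T2h27.SA

open Pool.Agent.H586R3.CT

open Polynomial in
/-- holomorphic branches of an irreducible bivariate polynomial near a good point -/
theorem branches' (P : ℂ[X][X]) {R : ℂ[X]} {U V : ℂ[X][X]}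
    (h : U * P + V * derivative P = C R) {z₀ : ℂ} (hz : R.eval z₀ ≠ 0)
    (hl : P.leadingCoeff.eval z₀ ≠ 0) :
    ∃ r > 0, ∃ A : Fin P.natDegree → ℂ → ℂ, (∀ j, DifferentiableOn ℂ (A j) (ball z₀ r)) ∧
      (∀ i j, i ≠ j → ∀ z ∈ ball z₀ r, A i z ≠ A j z) ∧
      (∀ z ∈ ball z₀ r, ∀ w, P.evalEval z w = 0 → ∃ j, w = A j z) ∧
      ∀ z ∈ ball z₀ r, ∀ j, P.evalEval z (A j z) = 0 := by
  classical
  have hdeg : ∀ z, P.leadingCoeff.eval z ≠ 0 →
      (P.map (evalRingHom z)).natDegree = P.natDegree := by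
    intro z hz'
    exact natDegree_map_of_leadingCoeff_ne_zero _ (by simpa using hz')
  have hne0 : ∀ z, P.leadingCoeff.eval z ≠ 0 → P.map (evalRingHom z) ≠ 0 := by
    intro z hz' h0
    have h1 : (P.map (evalRingHom z)).coeff P.natDegree = 0 := by rw [h0, coeff_zero]
    rw [coeff_map] at h1
    exact hz' h1
  have hee : ∀ z w, P.evalEval z w = (P.map (evalRingHom z)).eval w := fun z w =>
    (map_evalRingHom_eval z w P).symm
  set p₀ : ℂ[X] := P.map (evalRingHom z₀) with hp₀
  have hsep : p₀.Separable := by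
    refine ⟨C (R.eval z₀)⁻¹ * U.map (evalRingHom z₀), C (R.eval z₀)⁻¹ * V.map (evalRingHom z₀), ?_⟩
    have h1 := congrArg (Polynomial.map (evalRingHom z₀)) h
    rw [Polynomial.map_add, Polynomial.map_mul, Polynomial.map_mul, ← derivative_map,
      Polynomial.map_C, ← hp₀, coe_evalRingHom] at h1
    rw [mul_assoc, mul_assoc, ← mul_add, h1, ← C_mul, inv_mul_cancel₀ hz, C_1]
  have hnodup : p₀.roots.Nodup := nodup_roots hsep
  have hcard : Multiset.card p₀.roots = P.natDegree := by
    rw [← hdeg z₀ hl]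
    exact IsAlgClosed.card_roots_eq_natDegree
  have hcard' : p₀.roots.toFinset.card = P.natDegree := by
    rw [Multiset.toFinset_card_of_nodup hnodup, hcard]
  set e := (p₀.roots.toFinset.equivFinOfCardEq hcard').symm with he
  set w : Fin P.natDegree → ℂ := fun j => (e j : ℂ) with hw
  have hwinj : Function.Injective w := fun i j hij => e.injective (Subtype.ext hij)
  have hwroot : ∀ j, p₀.eval (w j) = 0 := by
    intro j
    have h1 := (e j).2
    rw [Multiset.mem_toFinset, mem_roots (hne0 z₀ hl)] at h1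
    exact h1
  have hwder : ∀ j, (derivative p₀).eval (w j) ≠ 0 := by
    intro j h0
    obtain ⟨a, b, hab⟩ := hsep
    have h1 := congrArg (Polynomial.eval (w j)) hab
    rw [eval_add, eval_mul, eval_mul, hwroot j, h0] at h1
    simp at h1
  set f : ℂ × ℂ → ℂ := fun p => P.evalEval p.1 p.2 with hf
  have hfc : ContDiff ℂ 1 f := (contDiff_evalEval P).of_le le_top
  have hinv : ∀ j, (fderiv ℂ f (z₀, w j) ∘L .inr ℂ ℂ ℂ).IsInvertible := by
    intro j
    have h1 : HasFDerivAt f (fderiv ℂ f (z₀, w j)) (z₀, w j) :=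
      (hfc.differentiable one_ne_zero _).hasFDerivAt
    have h2 : HasFDerivAt (fun v : ℂ => (z₀, v)) (ContinuousLinearMap.inr ℂ ℂ ℂ) (w j) :=
      hasFDerivAt_prodMk_right z₀ (w j)
    have h3 : HasFDerivAt (fun v : ℂ => f (z₀, v))
        (fderiv ℂ f (z₀, w j) ∘L .inr ℂ ℂ ℂ) (w j) := HasFDerivAt.comp (w j) h1 h2
    have h4 : HasDerivAt (fun v : ℂ => f (z₀, v)) ((derivative p₀).eval (w j)) (w j) := by
      have h5 : (fun v : ℂ => f (z₀, v)) = fun v => p₀.eval v := by
        funext v
        exact hee z₀ v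
      rw [h5]
      exact p₀.hasDerivAt (w j)
    have h6 := h3.unique h4.hasFDerivAt
    rw [h6]
    refine ⟨ContinuousLinearEquiv.unitsEquivAut ℂ (Units.mk0 _ (hwder j)), ?_⟩
    ext
    simp
  set A : Fin P.natDegree → ℂ → ℂ := fun j =>
    (hfc.contDiffAt (x := (z₀, w j))).implicitFunction one_ne_zero (hinv j) with hA
  have hA0 : ∀ j, A j z₀ = w j := fun j =>
    (hfc.contDiffAt (x := (z₀, w j))).implicitFunction_apply_self one_ne_zero (hinv j)
  have hAf : ∀ j, ∀ᶠ z in 𝓝 z₀, f (z, A j z) = 0 := by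
    intro j
    have h1 := (hfc.contDiffAt (x := (z₀, w j))).eventually_apply_implicitFunction
      one_ne_zero (hinv j)
    have h2 : f (z₀, w j) = 0 := by
      rw [← hwroot j]
      exact hee z₀ (w j)
    rw [h2] at h1
    exact h1
  have hAc : ∀ j, ContDiffAt ℂ 1 (A j) z₀ := fun j =>
    (hfc.contDiffAt (x := (z₀, w j))).contDiffAt_implicitFunction one_ne_zero (hinv j)
  have hAd : ∀ j, ∀ᶠ z in 𝓝 z₀, DifferentiableAt ℂ (A j) z := by
    intro j
    filter_upwards [(hAc j).eventually (by simp)] with z hz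
    exact hz.differentiableAt one_ne_zero
  have hAne : ∀ i j, i ≠ j → ∀ᶠ z in 𝓝 z₀, A i z ≠ A j z := by
    intro i j hij
    apply ((hAc i).continuousAt.ne_iff_eventually_ne (hAc j).continuousAt).1
    rw [hA0, hA0]
    exact fun h => hij (hwinj h)
  have hAl : ∀ᶠ z in 𝓝 z₀, P.leadingCoeff.eval z ≠ 0 :=
    P.leadingCoeff.continuous.continuousAt.eventually_ne hl
  have hall : ∀ᶠ z in 𝓝 z₀, (∀ j, f (z, A j z) = 0) ∧ (∀ j, DifferentiableAt ℂ (A j) z) ∧
      (∀ i j, i ≠ j → A i z ≠ A j z) ∧ P.leadingCoeff.eval z ≠ 0 := by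
    have h1 : ∀ᶠ z in 𝓝 z₀, ∀ j, f (z, A j z) = 0 := eventually_all.2 hAf
    have h2 : ∀ᶠ z in 𝓝 z₀, ∀ j, DifferentiableAt ℂ (A j) z := eventually_all.2 hAd
    have h3 : ∀ᶠ z in 𝓝 z₀, ∀ i j, i ≠ j → A i z ≠ A j z := by
      refine eventually_all.2 fun i => eventually_all.2 fun j => ?_
      by_cases hij : i = j
      · exact Eventually.of_forall fun z h => absurd hij h
      · filter_upwards [hAne i j hij] with z hz _ using hz
    filter_upwards [h1, h2, h3, hAl] with z a b c d using ⟨a, b, c, d⟩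
  obtain ⟨r, hr, hball⟩ := Metric.eventually_nhds_iff_ball.1 hall
  refine ⟨r, hr, A, fun j z hz => ((hball z hz).2.1 j).differentiableWithinAt,
    fun i j hij z hz => (hball z hz).2.2.1 i j hij, ?_, fun z hz j => (hball z hz).1 j⟩
  intro z hz v hv
  obtain ⟨h1, -, h3, h4⟩ := hball z hz
  have hsub : Finset.univ.image (fun j => A j z) ⊆ (P.map (evalRingHom z)).roots.toFinset := by
    intro u hu
    obtain ⟨j, -, rfl⟩ := Finset.mem_image.1 hu
    rw [Multiset.mem_toFinset, mem_roots (hne0 z h4)]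
    have h5 := h1 j
    rw [hf] at h5
    simp only [hee] at h5
    exact h5
  have hcard2 : (P.map (evalRingHom z)).roots.toFinset.card ≤
      (Finset.univ.image (fun j => A j z)).card := by
    rw [Finset.card_image_of_injective _ (fun i j hij => by
      by_contra hne
      exact h3 i j hne hij), Finset.card_univ, Fintype.card_fin]
    exact (Multiset.toFinset_card_le _).trans ((card_roots' _).trans (hdeg z h4).le)
  have heq := Finset.eq_of_subset_of_card_le hsub hcard2
  have hvm : v ∈ (P.map (evalRingHom z)).roots.toFinset := by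
    rw [Multiset.mem_toFinset, mem_roots (hne0 z h4)]
    rw [hee] at hv
    exact hv
  rw [← heq] at hvm
  obtain ⟨j, -, hj⟩ := Finset.mem_image.1 hvm
  exact ⟨j, hj.symm⟩

end Pool.Agent.T2h27.SA
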