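import Mathlib
import Pool.Agent.T2h27.SA.P1

/-!
# Multivalued functions: the covering space and lifts over half-planes
-/

set_option autoImplicit false

open Metric Set Filter Topology Complex

namespace Pool.Agent.T2h27.SA

/-- a `d`-valued holomorphic function without branch points on the set `Reg` -/
structure Mult (Reg : Set ℂ) (Z : ℂ → ℂ → Prop) (d : ℕ) : Prop where
  loc : ∀ x ∈ Reg, ∃ r > 0, ball x r ⊆ Reg ∧ ∃ A : Fin d → ℂ → ℂ,
    (∀ j, DifferentiableOn ℂ (A j) (ball x r)) ∧
    (∀ i j, i ≠ j → ∀ z ∈ ball x r, A i z ≠ A j z) ∧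
    (∀ z ∈ ball x r, ∀ w, Z z w ↔ ∃ j, w = A j z)

variable {Reg : Set ℂ} {Z : ℂ → ℂ → Prop} {d : ℕ}

/-- the total space -/
abbrev Tot (Z : ℂ → ℂ → Prop) : Type := {p : ℂ × ℂ // Z p.1 p.2}

/-- the projection -/
def prj (Z : ℂ → ℂ → Prop) (e : Tot Z) : ℂ := e.1.1

lemma prj_continuous (Z : ℂ → ℂ → Prop) : Continuous (prj Z) :=
  continuous_fst.comp continuous_subtype_val

theorem Mult.covering (h : Mult Reg Z d) : IsCoveringMapOn (prj Z) Reg := by
  intro x hx
  obtain ⟨r, hr, hsub, A, hA, hne, hZ⟩ := h.loc x hx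
  apply IsEvenlyCovered.to_isEvenlyCovered_preimage (I := Fin d)
  refine ⟨inferInstance, ball x r, mem_ball_self hr, isOpen_ball,
    isOpen_ball.preimage (prj_continuous Z), ?_⟩
  have hidx : ∀ e : (prj Z) ⁻¹' ball x r, ∃ j, e.1.1.2 = A j e.1.1.1 := fun e =>
    (hZ _ e.2 _).1 e.1.2
  choose idx hidx using hidx
  have huniq : ∀ (e : (prj Z) ⁻¹' ball x r) (j : Fin d), e.1.1.2 = A j e.1.1.1 → idx e = j := by
    intro e j hj
    by_contra hcon
    exact hne _ _ hcon _ e.2 ((hidx e).symm.trans hj)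
  have hAc : ∀ j, Continuous fun e : (prj Z) ⁻¹' ball x r => A j e.1.1.1 := by
    intro j
    exact (hA j).continuousOn.comp_continuous
      ((prj_continuous Z).comp continuous_subtype_val) (fun e => e.2)
  have hidxc : Continuous idx := by
    rw [continuous_iff_isClosed]
    intro S _
    have : idx ⁻¹' S = ⋃ j ∈ S, {e | e.1.1.2 = A j e.1.1.1} := by
      ext e
      simp only [mem_preimage, mem_iUnion, exists_prop]
      constructor
      · intro he
        exact ⟨idx e, he, hidx e⟩
      · rintro ⟨j, hj, hj2⟩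
        rw [huniq e j hj2]
        exact hj
    rw [this]
    apply (Set.toFinite S).isClosed_biUnion
    intro j _
    exact isClosed_eq (continuous_snd.comp (continuous_subtype_val.comp continuous_subtype_val)) (hAc j)
  refine ⟨{ toFun := fun e => (⟨prj Z e.1, e.2⟩, idx e)
            invFun := fun q => ⟨⟨(q.1.1, A q.2 q.1.1), (hZ _ q.1.2 _).2 ⟨q.2, rfl⟩⟩, q.1.2⟩
            left_inv := ?_
            right_inv := ?_
            continuous_toFun := ?_
            continuous_invFun := ?_ }, ?_⟩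
  · intro e
    apply Subtype.ext
    apply Subtype.ext
    apply Prod.ext
    · rfl
    · exact (hidx e).symm
  · rintro ⟨z, j⟩
    apply Prod.ext
    · rfl
    · exact huniq _ j rfl
  · apply Continuous.prodMk
    · exact ((prj_continuous Z).comp continuous_subtype_val).subtype_mk _
    · exact hidxc
  · rw [continuous_prod_of_discrete_right]
    intro j
    apply Continuous.subtype_mk
    apply Continuous.subtype_mk
    apply Continuous.prodMk continuous_subtype_val
    exact (hA j).continuousOn.comp_continuous continuous_subtype_val (fun e => e.2)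
  · intro e
    rfl

/-- the half-plane -/
abbrev HP (c : ℝ) : Type := {τ : ℂ // τ.re < c}

lemma HP_open (c : ℝ) : IsOpen {τ : ℂ | τ.re < c} := isOpen_lt Complex.continuous_re continuous_const

lemma HP_convex (c : ℝ) : Convex ℝ {τ : ℂ | τ.re < c} := convex_halfSpace_re_lt c

lemma HP_nonempty (c : ℝ) : {τ : ℂ | τ.re < c}.Nonempty := ⟨((c - 1 : ℝ) : ℂ), by
  show ((c - 1 : ℝ) : ℂ).re < c
  rw [Complex.ofReal_re]; linarith⟩

instance (c : ℝ) : ContractibleSpace (HP c) := (HP_convex c).contractibleSpace (HP_nonempty c)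

instance (c : ℝ) : LocallyPathConnectedSpace (HP c) := (HP_open c).locallyPathConnectedSpace

/-- lifts through the covering -/
theorem Mult.lift (h : Mult Reg Z d) {c : ℝ} (f : C(HP c, ℂ)) (hf : ∀ a, f a ∈ Reg) (a₀ : HP c)
    {w₀ : ℂ} (hw : Z (f a₀) w₀) :
    ∃! F : C(HP c, Tot Z), F a₀ = ⟨(f a₀, w₀), hw⟩ ∧ prj Z ∘ F = f :=
  h.covering.existsUnique_continuousMap_lifts f rfl hf

end Pool.Agent.T2h27.SA
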