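import Mathlib
import Pool.Agent.T2h27.SA.P2

/-!
# Multivalued functions: global branches over half-planes and the Puiseux coordinate
-/

set_option autoImplicit false

open Metric Set Filter Topology Complex

namespace Pool.Agent.T2h27.SA

variable {Reg : Set ℂ} {Z : ℂ → ℂ → Prop} {d : ℕ}

theorem Mult.halfplane (h : Mult Reg Z d) (z₀ : ℂ) (c : ℝ)
    (hreg : ∀ τ : ℂ, τ.re < c → z₀ + Complex.exp τ ∈ Reg) :
    ∃ (N : ℕ) (a : Fin d → ℂ → ℂ), 0 < N ∧
      (∀ j, ∀ τ : ℂ, τ.re < c → DifferentiableAt ℂ (a j) τ) ∧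
      (∀ τ : ℂ, τ.re < c → ∀ w, Z (z₀ + Complex.exp τ) w ↔ ∃ j, w = a j τ) ∧
      (∀ i j, i ≠ j → ∀ τ : ℂ, τ.re < c → a i τ ≠ a j τ) ∧
      (∀ j, ∀ τ : ℂ, τ.re < c → a j (τ + N * (2 * Real.pi * I)) = a j τ) := by
  classical
  let f : C(HP c, ℂ) := ⟨fun τ => z₀ + Complex.exp τ.1, by fun_prop⟩
  have hf : ∀ τ, f τ ∈ Reg := fun τ => hreg τ.1 τ.2
  obtain ⟨a₀', ha₀'⟩ := HP_nonempty c
  let a₀ : HP c := ⟨a₀', ha₀'⟩
  obtain ⟨r, hr, hsub, A, hA, hne, hZ⟩ := h.loc (f a₀) (hf a₀)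
  have hw : ∀ j, Z (f a₀) (A j (f a₀)) := fun j => (hZ _ (mem_ball_self hr) _).2 ⟨j, rfl⟩
  have hF : ∀ j, ∃ F : C(HP c, Tot Z), F a₀ = ⟨(f a₀, A j (f a₀)), hw j⟩ ∧ prj Z ∘ F = f :=
    fun j => (h.lift f hf a₀ (hw j)).exists
  choose F hF0 hFf using hF
  have hfst : ∀ j τ, (F j τ).1.1 = f τ := fun j τ => congrFun (hFf j) τ
  have hZF : ∀ j τ, Z (f τ) (F j τ).1.2 := by
    intro j τ
    have := (F j τ).2
    rwa [hfst j τ] at this
  -- uniqueness of lifts
  have huniq : ∀ (G₁ G₂ : C(HP c, Tot Z)), prj Z ∘ G₁ = f → prj Z ∘ G₂ = f → ∀ τ,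
      (G₁ τ).1.2 = (G₂ τ).1.2 → G₁ = G₂ := by
    intro G₁ G₂ h₁ h₂ τ hτ
    have e1 : (G₁ τ).1.1 = f τ := congrFun h₁ τ
    have e2 : (G₂ τ).1.1 = f τ := congrFun h₂ τ
    have hZ1 : Z (f τ) (G₁ τ).1.2 := by
      have := (G₁ τ).2
      rwa [e1] at this
    apply (h.lift f hf τ hZ1).unique ⟨_, h₁⟩ ⟨_, h₂⟩
    · apply Subtype.ext
      exact Prod.ext e1 rfl
    · apply Subtype.ext
      exact Prod.ext e2 hτ.symm
  have hdist : ∀ i j, i ≠ j → ∀ τ, (F i τ).1.2 ≠ (F j τ).1.2 := by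
    intro i j hij τ hτ
    have h1 := huniq (F i) (F j) (hFf i) (hFf j) τ hτ
    have h2 : (F i a₀).1.2 = (F j a₀).1.2 := by rw [h1]
    rw [hF0, hF0] at h2
    exact hne i j hij _ (mem_ball_self hr) h2
  have hexh : ∀ τ, ∀ w, Z (f τ) w → ∃ j, w = (F j τ).1.2 := by
    intro τ w hw'
    obtain ⟨r', hr', hsub', A', hA', hne', hZ'⟩ := h.loc (f τ) (hf τ)
    have hσ : ∀ j, ∃ k, (F j τ).1.2 = A' k (f τ) := fun j =>
      (hZ' _ (mem_ball_self hr') _).1 (hZF j τ)
    choose σ hσ using hσ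
    have hinj : Function.Injective σ := by
      intro i j hij
      by_contra hne2
      apply hdist i j hne2 τ
      rw [hσ i, hσ j, hij]
    obtain ⟨k, hk⟩ := (hZ' _ (mem_ball_self hr') _).1 hw'
    obtain ⟨j, hj⟩ := (Finite.injective_iff_surjective.1 hinj) k
    exact ⟨j, by rw [hk, hσ j, hj]⟩
  -- the shift
  have hshift : ∀ τ : HP c, (τ.1 + 2 * Real.pi * I).re < c := by
    intro τ
    have : (τ.1 + 2 * Real.pi * I).re = τ.1.re := by simp
    rw [this]
    exact τ.2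
  let g : C(HP c, HP c) := ⟨fun τ => ⟨τ.1 + 2 * Real.pi * I, hshift τ⟩, by fun_prop⟩
  have hfg : ∀ τ, f (g τ) = f τ := by
    intro τ
    show z₀ + Complex.exp (τ.1 + 2 * Real.pi * I) = z₀ + Complex.exp τ.1
    rw [Complex.exp_add, Complex.exp_two_pi_mul_I, mul_one]
  have hFg : ∀ j, prj Z ∘ ((F j).comp g) = f := by
    intro j
    funext τ
    show prj Z (F j (g τ)) = f τ
    rw [← hfg τ]
    exact congrFun (hFf j) (g τ)
  have hπ : ∀ j, ∃ k, (F j (g a₀)).1.2 = (F k a₀).1.2 := by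
    intro j
    apply hexh
    rw [← hfg a₀]
    exact hZF j (g a₀)
  choose π hπ using hπ
  have hπF : ∀ j, (F j).comp g = F (π j) := fun j =>
    huniq _ _ (hFg j) (hFf (π j)) a₀ (hπ j)
  have hπinj : Function.Injective π := by
    intro i j hij
    by_contra hne2
    apply hdist i j hne2 (g a₀)
    rw [hπ i, hπ j, hij]
  let P : Equiv.Perm (Fin d) := Equiv.ofBijective π (Finite.injective_iff_bijective.1 hπinj)
  have hP : ∀ j, P j = π j := fun j => rfl
  have hN : P ^ (Nat.factorial d) = 1 := by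
    have := pow_card_eq_one' (x := P)
    rwa [Nat.card_eq_fintype_card, Fintype.card_perm, Fintype.card_fin] at this
  -- the functions
  let a : Fin d → ℂ → ℂ := fun j τ => if hτ : τ.re < c then (F j ⟨τ, hτ⟩).1.2 else 0
  have ha : ∀ j τ (hτ : τ.re < c), a j τ = (F j ⟨τ, hτ⟩).1.2 := fun j τ hτ => dif_pos hτ
  have hre : ∀ (n : ℕ) (τ : ℂ), (τ + n * (2 * Real.pi * I)).re = τ.re := by
    intro n τ
    simp
  have hper : ∀ (n : ℕ) (j : Fin d) (τ : ℂ), τ.re < c →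
      a j (τ + n * (2 * Real.pi * I)) = a ((P ^ n) j) τ := by
    intro n
    induction n with
    | zero => intro j τ hτ; simp
    | succ n ih =>
      intro j τ hτ
      have e1 : τ + ((n + 1 : ℕ) : ℂ) * (2 * Real.pi * I) =
          (τ + n * (2 * Real.pi * I)) + 2 * Real.pi * I := by push_cast; ring
      have h1 : (τ + n * (2 * Real.pi * I)).re < c := by rw [hre]; exact hτ
      have h2 : ((τ + n * (2 * Real.pi * I)) + 2 * Real.pi * I).re < c := hshift ⟨_, h1⟩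
      rw [e1, ha j _ h2]
      have h3 : F j ⟨(τ + n * (2 * Real.pi * I)) + 2 * Real.pi * I, h2⟩ =
          F (π j) ⟨τ + n * (2 * Real.pi * I), h1⟩ := by
        rw [← hπF j]
        rfl
      rw [h3, ← ha (π j) _ h1, ih (π j) τ hτ, pow_succ, Equiv.Perm.mul_apply]
      rfl
  refine ⟨Nat.factorial d, a, Nat.factorial_pos d, ?_, ?_, ?_, ?_⟩
  · intro j τ₁ hτ₁
    obtain ⟨r', hr', hsub', A', hA', hne', hZ'⟩ := h.loc (f ⟨τ₁, hτ₁⟩) (hf ⟨τ₁, hτ₁⟩)
    obtain ⟨k, hk⟩ := (hZ' _ (mem_ball_self hr') _).1 (hZF j ⟨τ₁, hτ₁⟩)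
    have hfc : Continuous fun τ : ℂ => z₀ + Complex.exp τ := by fun_prop
    have hball : ∀ᶠ τ in 𝓝 τ₁, z₀ + Complex.exp τ ∈ ball (f ⟨τ₁, hτ₁⟩) r' :=
      hfc.continuousAt.eventually (isOpen_ball.mem_nhds (mem_ball_self hr'))
    have hHP : ∀ᶠ τ in 𝓝 τ₁, τ.re < c := (HP_open c).mem_nhds hτ₁
    have hac : ContinuousAt (a j) τ₁ := by
      have h1 : ContinuousOn (a j) {τ : ℂ | τ.re < c} := by
        rw [continuousOn_iff_continuous_domRestrict]
        have h2 : Set.domRestrict {τ : ℂ | τ.re < c} (a j) = fun τ => (F j τ).1.2 := by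
          funext τ
          exact ha j τ.1 τ.2
        rw [h2]
        exact continuous_snd.comp (continuous_subtype_val.comp (F j).continuous)
      exact h1.continuousAt ((HP_open c).mem_nhds hτ₁)
    have hAc : ∀ i, ContinuousAt (fun τ : ℂ => A' i (z₀ + Complex.exp τ)) τ₁ := by
      intro i
      apply ContinuousAt.comp (f := fun τ : ℂ => z₀ + Complex.exp τ) (g := A' i)
      · exact (hA' i).continuousOn.continuousAt (isOpen_ball.mem_nhds (mem_ball_self hr'))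
      · exact hfc.continuousAt
    have hneq : ∀ᶠ τ in 𝓝 τ₁, ∀ i, i ≠ k → a j τ ≠ A' i (z₀ + Complex.exp τ) := by
      rw [Filter.eventually_all]
      intro i
      by_cases hik : i = k
      · exact Eventually.of_forall fun τ h' => absurd hik h'
      · have h2 : a j τ₁ ≠ A' i (z₀ + Complex.exp τ₁) := by
          rw [ha j τ₁ hτ₁, hk]
          exact hne' k i (Ne.symm hik) _ (mem_ball_self hr')
        filter_upwards [(hac.ne_iff_eventually_ne (hAc i)).1 h2] with τ hτ _ using hτ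
    have heq : ∀ᶠ τ in 𝓝 τ₁, a j τ = A' k (z₀ + Complex.exp τ) := by
      filter_upwards [hball, hHP, hneq] with τ h1 h2 h3
      have h4 : Z (z₀ + Complex.exp τ) (a j τ) := by
        rw [ha j τ h2]
        exact hZF j ⟨τ, h2⟩
      obtain ⟨i, hi⟩ := (hZ' _ h1 _).1 h4
      by_cases hik : i = k
      · rw [← hik]; exact hi
      · exact absurd hi (h3 i hik)
    have hd : DifferentiableAt ℂ (fun τ : ℂ => A' k (z₀ + Complex.exp τ)) τ₁ := by
      apply DifferentiableAt.comp (g := A' k) (f := fun τ : ℂ => z₀ + Complex.exp τ)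
      · exact (hA' k).differentiableAt (isOpen_ball.mem_nhds (mem_ball_self hr'))
      · fun_prop
    exact hd.congr_of_eventuallyEq heq
  · intro τ hτ w
    constructor
    · intro hw'
      obtain ⟨j, hj⟩ := hexh ⟨τ, hτ⟩ w hw'
      exact ⟨j, by rw [ha j τ hτ]; exact hj⟩
    · rintro ⟨j, rfl⟩
      rw [ha j τ hτ]
      exact hZF j ⟨τ, hτ⟩
  · intro i j hij τ hτ
    rw [ha i τ hτ, ha j τ hτ]
    exact hdist i j hij ⟨τ, hτ⟩
  · intro j τ hτ
    rw [hper _ j τ hτ, hN]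
    rfl

/-- **Puiseux coordinate**: the branches become single valued in `s`, `z = z₀ + s ^ N`. -/
theorem Mult.puiseux (h : Mult Reg Z d) (z₀ : ℂ) {ρ₀ : ℝ} (hρ₀ : 0 < ρ₀)
    (hreg : ∀ z : ℂ, z ≠ z₀ → ‖z - z₀‖ < ρ₀ → z ∈ Reg) :
    ∃ (N : ℕ) (ρ : ℝ) (B : Fin d → ℂ → ℂ), 0 < N ∧ 0 < ρ ∧
      (∀ s : ℂ, s ≠ 0 → ‖s‖ < ρ → ‖s ^ N‖ < ρ₀) ∧
      (∀ j, ∀ s : ℂ, s ≠ 0 → ‖s‖ < ρ → DifferentiableAt ℂ (B j) s) ∧
      (∀ s : ℂ, s ≠ 0 → ‖s‖ < ρ → ∀ w, Z (z₀ + s ^ N) w ↔ ∃ j, w = B j s) ∧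
      (∀ i j, i ≠ j → ∀ s : ℂ, s ≠ 0 → ‖s‖ < ρ → B i s ≠ B j s) := by
  set c := Real.log ρ₀ with hc
  have hreg' : ∀ τ : ℂ, τ.re < c → z₀ + Complex.exp τ ∈ Reg := by
    intro τ hτ
    apply hreg
    · intro h0
      have : Complex.exp τ = 0 := by
        have := sub_eq_zero.2 h0
        rwa [add_sub_cancel_left] at this
      exact Complex.exp_ne_zero _ this
    · rw [add_sub_cancel_left, Complex.norm_exp]
      rw [← Real.lt_log_iff_exp_lt hρ₀]
      exact hτ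
  obtain ⟨N, a, hN, had, haZ, hane, hper⟩ := h.halfplane z₀ c hreg'
  have hNC : (N : ℂ) ≠ 0 := by exact_mod_cast hN.ne'
  have hNR : (0 : ℝ) < N := by exact_mod_cast hN
  -- integer periods
  have hreint : ∀ (n : ℤ) (τ : ℂ), (τ + n * (N * (2 * Real.pi * I))).re = τ.re := by
    intro n τ
    simp
  have hpernat : ∀ (n : ℕ) (j) (τ : ℂ), τ.re < c → a j (τ + n * (N * (2 * Real.pi * I))) = a j τ := by
    intro n
    induction n with
    | zero => intro j τ _; simp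
    | succ n ih =>
      intro j τ hτ
      have e1 : τ + ((n + 1 : ℕ) : ℂ) * (N * (2 * Real.pi * I)) =
        (τ + n * (N * (2 * Real.pi * I))) + N * (2 * Real.pi * I) := by push_cast; ring
      rw [e1, hper j _ (by
        have := hreint n τ
        simp only [Int.cast_natCast] at this
        rw [this]; exact hτ), ih j τ hτ]
  have hperint : ∀ (n : ℤ) (j) (τ : ℂ), τ.re < c → a j (τ + n * (N * (2 * Real.pi * I))) = a j τ := by
    intro n j τ hτ
    obtain ⟨m, rfl | rfl⟩ := n.eq_nat_or_neg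
    · have := hpernat m j τ hτ
      simpa using this
    · have h1 : (τ + ((-(m : ℤ) : ℤ) : ℂ) * (N * (2 * Real.pi * I))).re < c := by
        rw [hreint]; exact hτ
      have h2 := hpernat m j _ h1
      have e1 : τ + ((-(m : ℤ) : ℤ) : ℂ) * (N * (2 * Real.pi * I)) + m * (N * (2 * Real.pi * I)) = τ := by
        push_cast; ring
      rw [e1] at h2
      exact h2.symm
  set ρ := Real.exp (c / N) with hρ
  have hlog : ∀ s : ℂ, s ≠ 0 → ‖s‖ < ρ → (N * Complex.log s).re < c := by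
    intro s hs hsρ
    have h1 : ((N : ℂ) * Complex.log s).re = N * Real.log ‖s‖ := by
      have : (N : ℂ) = ((N : ℝ) : ℂ) := by push_cast; rfl
      rw [this, Complex.re_ofReal_mul, Complex.log_re]
    rw [h1]
    have h2 : Real.log ‖s‖ < c / N := by
      rw [Real.log_lt_iff_lt_exp (norm_pos_iff.2 hs)]
      exact hsρ
    rw [lt_div_iff₀ hNR] at h2
    linarith
  have hexpN : ∀ s : ℂ, s ≠ 0 → Complex.exp (N * Complex.log s) = s ^ N := by
    intro s hs
    rw [Complex.exp_nat_mul, Complex.exp_log hs]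
  refine ⟨N, ρ, fun j s => a j (N * Complex.log s), hN, Real.exp_pos _, ?_, ?_, ?_, ?_⟩
  · intro s hs hsρ
    rw [← hexpN s hs, Complex.norm_exp, ← Real.lt_log_iff_exp_lt hρ₀]
    exact hlog s hs hsρ
  · intro j s₀ hs₀ hs₀ρ
    -- a local branch of the logarithm
    set ℓ : ℂ → ℂ := fun s => Complex.log (s / s₀) + Complex.log s₀ with hℓ
    have hd1 : DifferentiableAt ℂ ℓ s₀ := by
      apply DifferentiableAt.add_const
      apply DifferentiableAt.clog (by fun_prop)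
      rw [div_self hs₀]
      simp
    have hne0 : ∀ᶠ s in 𝓝 s₀, s ≠ 0 := isOpen_ne.mem_nhds hs₀
    have hnρ : ∀ᶠ s in 𝓝 s₀, ‖s‖ < ρ := continuous_norm.continuousAt.eventually_lt
      continuousAt_const hs₀ρ
    have heq : ∀ᶠ s in 𝓝 s₀, a j (N * Complex.log s) = a j (N * ℓ s) := by
      filter_upwards [hne0, hnρ] with s hs hsρ
      have h1 : Complex.exp (Complex.log s) = Complex.exp (ℓ s) := by
        rw [Complex.exp_log hs]
        simp only [hℓ]
        rw [Complex.exp_add, Complex.exp_log hs₀, Complex.exp_log (div_ne_zero hs hs₀)]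
        field_simp
      obtain ⟨n, hn⟩ := Complex.exp_eq_exp_iff_exists_int.1 h1
      have h2 : (N : ℂ) * Complex.log s = N * ℓ s + n * (N * (2 * Real.pi * I)) := by
        rw [hn]; ring
      have h3 : ((N : ℂ) * ℓ s).re < c := by
        have := hlog s hs hsρ
        rwa [h2, hreint] at this
      rw [h2, hperint n j _ h3]
    have hℓs₀ : ℓ s₀ = Complex.log s₀ := by
      simp [hℓ, div_self hs₀]
    have hd2 : DifferentiableAt ℂ (fun s => a j (N * ℓ s)) s₀ := by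
      apply DifferentiableAt.comp (g := a j) (f := fun s => (N : ℂ) * ℓ s)
      · apply had
        rw [hℓs₀]
        exact hlog s₀ hs₀ hs₀ρ
      · exact hd1.const_mul _
    exact hd2.congr_of_eventuallyEq heq
  · intro s hs hsρ w
    rw [← hexpN s hs]
    exact haZ _ (hlog s hs hsρ) w
  · intro i j hij s hs hsρ
    exact hane i j hij _ (hlog s hs hsρ)

end Pool.Agent.T2h27.SA
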