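import Mathlib
import Pool.Agent.T2h27.SA.P3

/-!
# Puiseux expansions for a bivariate polynomial
-/

set_option autoImplicit false

open Metric Set Filter Topology Complex
open scoped Polynomial

namespace Pool.Agent.T2h27.SA

open Pool.Agent.H586R3.CT

open Polynomial in
theorem mult_of_poly (Q : ℂ[X][X]) {Rr : ℂ[X]} {U V : ℂ[X][X]}
    (hUV : U * Q + V * derivative Q = C Rr) :
    Mult {z : ℂ | Rr.eval z ≠ 0 ∧ Q.leadingCoeff.eval z ≠ 0} (fun z w => Q.evalEval z w = 0)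
      Q.natDegree := by
  refine ⟨fun x hx => ?_⟩
  obtain ⟨r, hr, A, hA, hne, h1, h2⟩ := branches' Q hUV hx.1 hx.2
  have ho : IsOpen {z : ℂ | Rr.eval z ≠ 0 ∧ Q.leadingCoeff.eval z ≠ 0} :=
    (isOpen_ne.preimage Rr.continuous).inter (isOpen_ne.preimage Q.leadingCoeff.continuous)
  obtain ⟨r', hr', hsub⟩ := Metric.isOpen_iff.1 ho x hx
  refine ⟨min r r', lt_min hr hr', (ball_subset_ball (min_le_right _ _)).trans hsub, A,
    fun j => (hA j).mono (ball_subset_ball (min_le_left _ _)),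
    fun i j hij z hz => hne i j hij z (ball_subset_ball (min_le_left _ _) hz), ?_⟩
  intro z hz w
  have hz' := ball_subset_ball (min_le_left r r') hz
  constructor
  · exact h1 z hz' w
  · rintro ⟨j, rfl⟩
    exact h2 z hz' j

open Polynomial in
/-- growth of the roots near a point -/
theorem root_growth (Q : ℂ[X][X]) (hQ0 : Q ≠ 0) (z₀ : ℂ) :
    ∃ (k : ℕ) (b : ℝ) (r : ℝ), 0 < r ∧ 0 ≤ b ∧ ∀ z : ℂ, z ≠ z₀ → ‖z - z₀‖ < r →
      ∀ w, Q.evalEval z w = 0 → ‖(z - z₀) ^ k * w‖ ≤ b := by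
  have hl : Q.leadingCoeff ≠ 0 := leadingCoeff_ne_zero.2 hQ0
  obtain ⟨l₁, hl₁, hnd⟩ := Q.leadingCoeff.exists_eq_pow_rootMultiplicity_mul_and_not_dvd hl z₀
  set k := Q.leadingCoeff.rootMultiplicity z₀ with hk
  have hl₁0 : l₁.eval z₀ ≠ 0 := by
    intro h0
    exact hnd (dvd_iff_isRoot.2 h0)
  -- lower bound for the cofactor
  have hlow : ∀ᶠ z in 𝓝 z₀, ‖l₁.eval z₀‖ / 2 < ‖l₁.eval z‖ := by
    apply continuousAt_const.eventually_lt l₁.continuous.norm.continuousAt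
    have := norm_pos_iff.2 hl₁0
    linarith
  -- upper bounds for the coefficients
  have hup : ∀ i, ∀ᶠ z in 𝓝 z₀, ‖(Q.coeff i).eval z‖ < ‖(Q.coeff i).eval z₀‖ + 1 := by
    intro i
    apply (Q.coeff i).continuous.norm.continuousAt.eventually_lt continuousAt_const
    linarith
  have hupall : ∀ᶠ z in 𝓝 z₀, ∀ i ∈ Finset.range Q.natDegree,
      ‖(Q.coeff i).eval z‖ < ‖(Q.coeff i).eval z₀‖ + 1 := by
    rw [Filter.eventually_all_finset]
    intro i _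
    exact hup i
  obtain ⟨r, hr, hball⟩ := Metric.eventually_nhds_iff_ball.1 (hlow.and hupall)
  set b₀ : ℝ := ∑ i ∈ Finset.range Q.natDegree, (‖(Q.coeff i).eval z₀‖ + 1) with hb₀
  have hb₀0 : 0 ≤ b₀ := Finset.sum_nonneg fun i _ => by positivity
  have hb₀1 : ∀ i ∈ Finset.range Q.natDegree, ‖(Q.coeff i).eval z₀‖ + 1 ≤ b₀ := fun i hi =>
    Finset.single_le_sum (f := fun i => ‖(Q.coeff i).eval z₀‖ + 1)
        (fun i _ => by positivity) hi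
  clear_value b₀
  have hln : 0 ≤ ‖l₁.eval z₀‖ / 2 := by
    have := norm_nonneg (l₁.eval z₀)
    linarith
  refine ⟨k, b₀ / (‖l₁.eval z₀‖ / 2) + 1, min r 1, lt_min hr one_pos,
    add_nonneg (div_nonneg hb₀0 hln) zero_le_one, ?_⟩
  intro z hz hzr w hw
  have hzb : z ∈ ball z₀ r := by
    rw [mem_ball, dist_eq_norm]; exact hzr.trans_le (min_le_left _ _)
  obtain ⟨h1, h2⟩ := hball z hzb
  have hz1 : ‖z - z₀‖ ≤ 1 := (hzr.trans_le (min_le_right _ _)).le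
  have hzn : 0 < ‖z - z₀‖ := norm_pos_iff.2 (sub_ne_zero.2 hz)
  have hlead : Q.leadingCoeff.eval z = (z - z₀) ^ k * l₁.eval z := by
    conv_lhs => rw [hl₁]
    simp
  have hl₁z : l₁.eval z ≠ 0 := by
    intro h0
    rw [h0, norm_zero] at h1
    have := norm_nonneg (l₁.eval z₀)
    linarith
  have hleadne : Q.leadingCoeff.eval z ≠ 0 := by
    rw [hlead]
    exact mul_ne_zero (pow_ne_zero _ (sub_ne_zero.2 hz)) hl₁z
  set p : ℂ[X] := Q.map (evalRingHom z) with hp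
  have hpdeg : p.natDegree = Q.natDegree :=
    natDegree_map_of_leadingCoeff_ne_zero _ (by simpa using hleadne)
  have hpc : ∀ i, p.coeff i = (Q.coeff i).eval z := by
    intro i
    rw [hp, coeff_map, coe_evalRingHom]
  have hplead : p.leadingCoeff = Q.leadingCoeff.eval z := by
    rw [leadingCoeff, hpdeg, hpc]
    rfl
  have hp0 : p ≠ 0 := by
    intro h0
    rw [h0, leadingCoeff_zero] at hplead
    exact hleadne hplead.symm
  have hroot : p.IsRoot w := by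
    rw [IsRoot, hp, map_evalRingHom_eval]
    exact hw
  have hcb : ‖w‖ < (cauchyBound p : ℝ) := by
    have := NNReal.coe_lt_coe.2 (hroot.norm_lt_cauchyBound hp0)
    simpa using this
  have hcb2 : (cauchyBound p : ℝ) ≤ b₀ / ‖Q.leadingCoeff.eval z‖ + 1 := by
    unfold cauchyBound
    rw [hplead, hpdeg]
    push_cast
    gcongr
    have h3 : Finset.sup (Finset.range Q.natDegree) (fun x => ‖p.coeff x‖₊) ≤ b₀.toNNReal := by
      apply Finset.sup_le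
      intro i hi
      rw [← NNReal.coe_le_coe, coe_nnnorm, Real.coe_toNNReal _ hb₀0, hpc]
      exact (h2 i hi).le.trans (hb₀1 i hi)
    have h4 := NNReal.coe_le_coe.2 h3
    rwa [Real.coe_toNNReal _ hb₀0] at h4
  have hkn : ‖(z - z₀) ^ k‖ ≤ 1 := by
    rw [norm_pow]
    exact pow_le_one₀ (norm_nonneg _) hz1
  have hkpos : 0 < ‖(z - z₀) ^ k‖ := by
    rw [norm_pow]; positivity
  have hl₁pos : 0 < ‖l₁.eval z‖ := norm_pos_iff.2 hl₁z
  rw [norm_mul]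
  calc ‖(z - z₀) ^ k‖ * ‖w‖ ≤ ‖(z - z₀) ^ k‖ * (b₀ / ‖Q.leadingCoeff.eval z‖ + 1) := by
        apply mul_le_mul_of_nonneg_left (hcb.le.trans hcb2) (norm_nonneg _)
    _ = b₀ / ‖l₁.eval z‖ + ‖(z - z₀) ^ k‖ := by
        rw [hlead, norm_mul]
        field_simp
    _ ≤ b₀ / (‖l₁.eval z₀‖ / 2) + 1 := by
        have h5 := norm_pos_iff.2 hl₁0
        exact add_le_add (div_le_div_of_nonneg_left hb₀0 (by linarith) h1.le) hkn

open Polynomial in
/-- Puiseux expansions -/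
theorem poly_puiseux (Q : ℂ[X][X]) (hQ0 : Q ≠ 0) {Rr : ℂ[X]} (hRr : Rr ≠ 0) {U V : ℂ[X][X]}
    (hUV : U * Q + V * derivative Q = C Rr) (z₀ : ℂ) :
    ∃ (N : ℕ) (ρ : ℝ) (B : Fin Q.natDegree → ℂ → ℂ) (M : ℕ) (b : ℝ), 0 < N ∧ 0 < ρ ∧
      (∀ s : ℂ, s ≠ 0 → ‖s‖ < ρ → Rr.eval (z₀ + s ^ N) ≠ 0 ∧ Q.leadingCoeff.eval (z₀ + s ^ N) ≠ 0) ∧
      (∀ j, ∀ s : ℂ, s ≠ 0 → ‖s‖ < ρ → DifferentiableAt ℂ (B j) s) ∧
      (∀ s : ℂ, s ≠ 0 → ‖s‖ < ρ → ∀ w, Q.evalEval (z₀ + s ^ N) w = 0 ↔ ∃ j, w = B j s) ∧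
      (∀ i j, i ≠ j → ∀ s : ℂ, s ≠ 0 → ‖s‖ < ρ → B i s ≠ B j s) ∧
      (∀ j, ∀ s : ℂ, s ≠ 0 → ‖s‖ < ρ → ‖s ^ M * B j s‖ ≤ b) := by
  have hl : Q.leadingCoeff ≠ 0 := leadingCoeff_ne_zero.2 hQ0
  obtain ⟨k, b, r, hr, hb, hgr⟩ := root_growth Q hQ0 z₀
  -- a punctured disc of regular points
  have hfin : ({z : ℂ | Rr.eval z = 0} ∪ {z : ℂ | Q.leadingCoeff.eval z = 0}).Finite :=
    (finite_zeros hRr).union (finite_zeros hl)
  have hpun : ∀ᶠ z in 𝓝[≠] z₀, z ∉ ({z : ℂ | Rr.eval z = 0} ∪ {z : ℂ | Q.leadingCoeff.eval z = 0}) := by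
    have h1 : (({z : ℂ | Rr.eval z = 0} ∪ {z : ℂ | Q.leadingCoeff.eval z = 0}) \ {z₀}).Finite :=
      hfin.subset sdiff_subset
    have h2 : ∀ᶠ z in 𝓝 z₀,
        z ∉ (({z : ℂ | Rr.eval z = 0} ∪ {z : ℂ | Q.leadingCoeff.eval z = 0}) \ {z₀}) :=
      h1.isClosed.isOpen_compl.mem_nhds (by simp)
    filter_upwards [h2.filter_mono nhdsWithin_le_nhds, self_mem_nhdsWithin] with z g1 g2 g3
    exact g1 ⟨g3, g2⟩
  rw [eventually_nhdsWithin_iff] at hpun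
  obtain ⟨r₁, hr₁, hr₁b⟩ := Metric.eventually_nhds_iff_ball.1 hpun
  have hregr : ∀ z : ℂ, z ≠ z₀ → ‖z - z₀‖ < min r r₁ →
      z ∈ {z : ℂ | Rr.eval z ≠ 0 ∧ Q.leadingCoeff.eval z ≠ 0} := by
    intro z hz hzr
    have h1 := hr₁b z (by rw [mem_ball, dist_eq_norm]; exact hzr.trans_le (min_le_right _ _)) hz
    rw [mem_union, not_or] at h1
    exact h1
  obtain ⟨N, ρ, B, hN, hρ, hsN, hBd, hBZ, hBne⟩ :=
    (mult_of_poly Q hUV).puiseux z₀ (lt_min hr hr₁) hregr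
  have hzne : ∀ s : ℂ, s ≠ 0 → z₀ + s ^ N ≠ z₀ := by
    intro s hs h0
    have h1 : s ^ N = 0 := by
      have := sub_eq_zero.2 h0
      rwa [add_sub_cancel_left] at this
    exact pow_ne_zero N hs h1
  refine ⟨N, ρ, B, N * k, b, hN, hρ, ?_, hBd, hBZ, hBne, ?_⟩
  · intro s hs hsρ
    exact hregr _ (hzne s hs) (by rw [add_sub_cancel_left]; exact hsN s hs hsρ)
  · intro j s hs hsρ
    have h1 := hgr (z₀ + s ^ N) (hzne s hs)
      (by rw [add_sub_cancel_left]; exact (hsN s hs hsρ).trans_le (min_le_left _ _))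
      (B j s) ((hBZ s hs hsρ _).2 ⟨j, rfl⟩)
    rw [add_sub_cancel_left, ← pow_mul] at h1
    exact h1

end Pool.Agent.T2h27.SA
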