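import Mathlib

/-!
# One-dimensional lemmas on local supporting slopes
-/

set_option autoImplicit false

open Metric Set Filter Topology Complex

namespace Pool.Agent.T2h27.SA

/-- a local support line is a global support line -/
theorem convex_support {F : ℝ → ℝ} {a b : ℝ} (hF : ContinuousOn F (Icc a b))
    (hloc : ∀ s ∈ Icc a b, ∃ m : ℝ, ∀ᶠ s' in 𝓝 s, F s + m * (s' - s) ≤ F s')
    {t m : ℝ} (ht : t ∈ Icc a b) (hm : ∀ᶠ s' in 𝓝 t, F t + m * (s' - t) ≤ F s') :
    ∀ s ∈ Icc a b, F t + m * (s - t) ≤ F s := by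
  -- the statement to the right
  have right : ∀ (F : ℝ → ℝ) (a b : ℝ), ContinuousOn F (Icc a b) →
      (∀ s ∈ Icc a b, ∃ m : ℝ, ∀ᶠ s' in 𝓝 s, F s + m * (s' - s) ≤ F s') →
      ∀ t m : ℝ, t ∈ Icc a b → (∀ᶠ s' in 𝓝 t, F t + m * (s' - t) ≤ F s') →
      ∀ s ∈ Icc a b, t < s → F t + m * (s - t) ≤ F s := by
    intro F a b hF hloc t m ht hm s₁ hs₁ hlt
    by_contra hcon
    rw [not_le] at hcon
    obtain ⟨ε, hε0, hε⟩ : ∃ ε : ℝ, 0 < ε ∧ F s₁ + ε * (s₁ - t) < F t + m * (s₁ - t) := by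
      refine ⟨(F t + m * (s₁ - t) - F s₁) / (2 * (s₁ - t)), ?_, ?_⟩
      · apply div_pos (by linarith) (by linarith)
      · have : 0 < s₁ - t := by linarith
        rw [div_mul_eq_mul_div, mul_div_mul_right _ _ this.ne']
        linarith
    set φ : ℝ → ℝ := fun s => F s - m * (s - t) + ε * (s - t) with hφ
    have hsub : Icc t s₁ ⊆ Icc a b := Icc_subset_Icc ht.1 hs₁.2
    have hφc : ContinuousOn φ (Icc t s₁) := by
      apply ContinuousOn.add
      · exact (hF.mono hsub).sub (by fun_prop)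
      · fun_prop
    obtain ⟨τ₁, hτ₁, hτ₁max⟩ := isCompact_Icc.exists_isMaxOn (nonempty_Icc.2 hlt.le) hφc
    set Mx := φ τ₁ with hMx
    set E : Set ℝ := Icc t s₁ ∩ φ ⁻¹' {Mx} with hE
    have hEc : IsCompact E := by
      apply IsCompact.of_isClosed_subset isCompact_Icc _ inter_subset_left
      exact hφc.preimage_isClosed_of_isClosed isClosed_Icc isClosed_singleton
    have hEne : E.Nonempty := ⟨τ₁, hτ₁, rfl⟩
    have hτ₀ := hEc.sSup_mem hEne
    set τ₀ := sSup E with hτ₀def
    have hle : ∀ s ∈ Icc t s₁, φ s ≤ φ τ₀ := by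
      intro s hs
      have h1 : φ τ₀ = Mx := hτ₀.2
      rw [h1]
      exact hτ₁max hs
    -- `t` is not a maximiser
    have ht0 : t < τ₀ := by
      rcases lt_or_eq_of_le hτ₀.1.1 with h | h
      · exact h
      · exfalso
        have h2 : ∀ᶠ s in 𝓝[>] t, φ t < φ s := by
          filter_upwards [mem_nhdsWithin_of_mem_nhds hm, self_mem_nhdsWithin] with s hs hst
          have hst' : t < s := hst
          simp only [hφ]
          nlinarith
        have h3 : ∀ᶠ s in 𝓝[>] t, s ∈ Icc t s₁ := by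
          filter_upwards [Ioo_mem_nhdsGT hlt] with s hs using ⟨hs.1.le, hs.2.le⟩
        obtain ⟨s, hs1, hs2⟩ := (h2.and h3).exists
        have h4 := hle s hs2
        rw [← h] at h4
        linarith
    have hs0 : τ₀ < s₁ := by
      rcases lt_or_eq_of_le hτ₀.1.2 with h | h
      · exact h
      · exfalso
        have h4 := hle t ⟨le_rfl, hlt.le⟩
        rw [h] at h4
        simp only [hφ] at h4
        linarith
    obtain ⟨m₀, hm₀⟩ := hloc τ₀ (hsub hτ₀.1)
    have hnear : ∀ᶠ s in 𝓝 τ₀, s ∈ Icc t s₁ := Icc_mem_nhds ht0 hs0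
    have hsupp : ∀ᶠ s in 𝓝 τ₀, φ τ₀ + (m₀ - m + ε) * (s - τ₀) ≤ φ s ∧ φ s ≤ φ τ₀ := by
      filter_upwards [hm₀, hnear] with s h5 h6
      refine ⟨?_, hle s h6⟩
      simp only [hφ]
      linarith
    set c := m₀ - m + ε with hc
    have hc1 : c ≤ 0 := by
      by_contra h
      rw [not_le] at h
      obtain ⟨s, hs1, hs2⟩ := ((eventually_nhdsWithin_of_eventually_nhds (s := Ioi τ₀) hsupp).and
        self_mem_nhdsWithin).exists
      have hs2' : τ₀ < s := hs2
      nlinarith
    have hc2 : 0 ≤ c := by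
      by_contra h
      rw [not_le] at h
      obtain ⟨s, hs1, hs2⟩ := ((eventually_nhdsWithin_of_eventually_nhds (s := Iio τ₀) hsupp).and
        self_mem_nhdsWithin).exists
      have hs2' : s < τ₀ := hs2
      nlinarith
    have hc0 : c = 0 := le_antisymm hc1 hc2
    obtain ⟨s, ⟨hs1, hs3⟩, hs2⟩ := ((eventually_nhdsWithin_of_eventually_nhds (s := Ioi τ₀)
      (hsupp.and hnear)).and self_mem_nhdsWithin).exists
    have hs2' : τ₀ < s := hs2
    have hsE : s ∈ E := by
      refine ⟨hs3, ?_⟩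
      have h7 : φ τ₀ = Mx := hτ₀.2
      have h8 : φ τ₀ ≤ φ s := by
        have := hs1.1
        rw [hc0] at this
        linarith
      show φ s = Mx
      linarith [hs1.2]
    have := le_csSup hEc.bddAbove hsE
    linarith
  intro s hs
  rcases lt_trichotomy t s with h | h | h
  · exact right F a b hF hloc t m ht hm s hs h
  · rw [h]; simp
  · -- reflect
    have hneg : ∀ y : ℝ, y ∈ Icc (-b) (-a) → -y ∈ Icc a b := by
      intro y hy
      exact ⟨by linarith [hy.2], by linarith [hy.1]⟩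
    have h1 := right (fun s => F (-s)) (-b) (-a)
      (hF.comp continuous_neg.continuousOn (fun y hy => hneg y hy))
      (by
        intro y hy
        obtain ⟨m', hm'⟩ := hloc (-y) (hneg y hy)
        refine ⟨-m', ?_⟩
        have := (continuous_neg.tendsto y).eventually hm'
        filter_upwards [this] with s' hs'
        linarith)
      (-t) (-m) ⟨by linarith [ht.2], by linarith [ht.1]⟩
      (by
        have hm' : ∀ᶠ s' in 𝓝 (- -t), F t + m * (s' - t) ≤ F s' := by rw [neg_neg]; exact hm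
        have := (continuous_neg.tendsto (-t)).eventually hm'
        filter_upwards [this] with s' hs'
        rw [neg_neg]
        linarith)
      (-s) ⟨by linarith [hs.2], by linarith [hs.1]⟩ (by linarith)
    simp only [neg_neg] at h1
    linarith

/-- first order local support -/
def LS (f : ℝ → ℝ) (m τ : ℝ) : Prop := ∀ η > 0, ∀ᶠ s in 𝓝 τ, f τ + m * (s - τ) - η * |s - τ| ≤ f s

lemma LS.sub_hasDerivAt {f G : ℝ → ℝ} {m g τ : ℝ} (hf : LS f m τ) (hG : HasDerivAt G g τ) :
    LS (fun s => f s - G s) (m - g) τ := by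
  intro η hη
  have h1 := hf (η / 2) (by positivity)
  have h2 := (hasDerivAt_iff_isLittleO.1 hG).def (show 0 < η / 2 by positivity)
  filter_upwards [h1, h2] with s hs1 hs2
  rw [Real.norm_eq_abs, Real.norm_eq_abs, smul_eq_mul] at hs2
  have := (abs_le.1 hs2).2
  nlinarith

lemma LS.zero_of_max {f : ℝ → ℝ} {c τ : ℝ} (h : LS f c τ) (hmax : ∀ᶠ s in 𝓝 τ, f s ≤ f τ) :
    c = 0 := by
  apply le_antisymm
  · by_contra hc
    rw [not_le] at hc
    obtain ⟨s, ⟨hs1, hs3⟩, hs2⟩ := ((eventually_nhdsWithin_of_eventually_nhds (s := Ioi τ)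
      ((h (c / 2) (by positivity)).and hmax)).and self_mem_nhdsWithin).exists
    have hs2' : 0 < s - τ := sub_pos.2 hs2
    rw [abs_of_pos hs2'] at hs1
    nlinarith
  · by_contra hc
    rw [not_le] at hc
    obtain ⟨s, ⟨hs1, hs3⟩, hs2⟩ := ((eventually_nhdsWithin_of_eventually_nhds (s := Iio τ)
      ((h (-c / 2) (by linarith)).and hmax)).and self_mem_nhdsWithin).exists
    have hs2' : s - τ < 0 := sub_neg.2 hs2
    rw [abs_of_neg hs2'] at hs1
    nlinarith

lemma LS.right_lt {f : ℝ → ℝ} {c τ : ℝ} (h : LS f c τ) (hc : 0 < c) :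
    ∀ᶠ s in 𝓝[>] τ, f τ < f s := by
  filter_upwards [mem_nhdsWithin_of_mem_nhds (h (c / 2) (by positivity)), self_mem_nhdsWithin]
    with s hs1 hs2
  have hs2' : 0 < s - τ := sub_pos.2 hs2
  rw [abs_of_pos hs2'] at hs1
  nlinarith

lemma LS.neg {f : ℝ → ℝ} {c τ : ℝ} (h : LS f c τ) : LS (fun s => f (-s)) (-c) (-τ) := by
  intro η hη
  have h1 : ∀ᶠ s in 𝓝 (- -τ), f τ + c * (s - τ) - η * |s - τ| ≤ f s := by
    rw [neg_neg]; exact h η hη
  have := (continuous_neg.tendsto (-τ)).eventually h1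
  filter_upwards [this] with s hs
  rw [neg_neg]
  have e : |(-s) - τ| = |s - -τ| := by rw [← abs_neg]; congr 1; ring
  rw [e] at hs
  linarith

/-- **Global touching on an interval where the slopes are ordered.** -/
theorem glob {ι : Type*} [Finite ι] {f G g : ℝ → ℝ} {a b : ℝ} (hf : ContinuousOn f (Icc a b))
    (hG : ∀ s ∈ Icc a b, HasDerivAt G (g s) s) (hg : ContinuousOn g (Icc a b)) (sl : ι → ℝ → ℝ)
    (hsl : ∀ k, ContinuousOn (sl k) (Icc a b))
    (hLS : ∀ s ∈ Icc a b, ∃ k, LS f (sl k s) s)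
    (hord : ∀ k, (∀ s ∈ Icc a b, sl k s = g s) ∨ (∀ s ∈ Icc a b, sl k s < g s) ∨
      (∀ s ∈ Icc a b, g s < sl k s)) {t : ℝ} (ht : t ∈ Icc a b) (hLt : LS f (g t) t) :
    ∀ s ∈ Icc a b, f t - G t ≤ f s - G s := by
  have right : ∀ (f G g : ℝ → ℝ) (a b : ℝ), ContinuousOn f (Icc a b) →
      (∀ s ∈ Icc a b, HasDerivAt G (g s) s) → ContinuousOn g (Icc a b) → ∀ (sl : ι → ℝ → ℝ),
      (∀ k, ContinuousOn (sl k) (Icc a b)) → (∀ s ∈ Icc a b, ∃ k, LS f (sl k s) s) →
      (∀ k, (∀ s ∈ Icc a b, sl k s = g s) ∨ (∀ s ∈ Icc a b, sl k s < g s) ∨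
        (∀ s ∈ Icc a b, g s < sl k s)) →
      ∀ t ∈ Icc a b, LS f (g t) t → ∀ s ∈ Icc a b, t < s → f t - G t ≤ f s - G s := by
    intro f G g a b hf hG hg sl hsl hLS hord t ht hLt s₁ hs₁ hlt
    by_contra hcon
    rw [not_le] at hcon
    -- the gap below
    have hgap : ∀ k, ∃ ε₀ > 0, ∀ s ∈ Icc a b, sl k s < g s → sl k s ≤ g s - ε₀ := by
      intro k
      rcases hord k with h | h | h
      · exact ⟨1, one_pos, fun s hs hlt' => absurd (h s hs) hlt'.ne⟩
      · obtain ⟨s₀, hs₀, hmin⟩ := isCompact_Icc.exists_isMinOn (nonempty_of_mem ht)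
          (hg.sub (hsl k))
        refine ⟨g s₀ - sl k s₀, sub_pos.2 (h s₀ hs₀), fun s hs _ => ?_⟩
        have h5 : g s₀ - sl k s₀ ≤ g s - sl k s := hmin hs
        linarith
      · exact ⟨1, one_pos, fun s hs hlt' => absurd (h s hs) (not_lt.2 hlt'.le)⟩
    choose ε₀ hε₀ hε₀' using hgap
    obtain ⟨εm, hεm0, hεm⟩ : ∃ εm > 0, ∀ k, εm ≤ ε₀ k := by
      cases isEmpty_or_nonempty ι with
      | inl h => exact ⟨1, one_pos, fun k => (h.false k).elim⟩
      | inr h =>
        obtain ⟨k₀, hk₀⟩ := Finite.exists_min ε₀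
        exact ⟨ε₀ k₀, hε₀ k₀, hk₀⟩
    obtain ⟨ε, hε0, hεlt, hε⟩ : ∃ ε : ℝ, 0 < ε ∧ ε < εm ∧
        (f s₁ - G s₁) + ε * (s₁ - t) < f t - G t := by
      have hpos : 0 < s₁ - t := by linarith
      refine ⟨min (εm / 2) ((f t - G t - (f s₁ - G s₁)) / (2 * (s₁ - t))), ?_, ?_, ?_⟩
      · apply lt_min (by positivity)
        apply div_pos (by linarith) (by linarith)
      · exact (min_le_left _ _).trans_lt (by linarith)
      · have h6 := min_le_right (εm / 2) ((f t - G t - (f s₁ - G s₁)) / (2 * (s₁ - t)))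
        have h7 : (f t - G t - (f s₁ - G s₁)) / (2 * (s₁ - t)) * (s₁ - t) =
            (f t - G t - (f s₁ - G s₁)) / 2 := by
          field_simp
        nlinarith
    set φ : ℝ → ℝ := fun s => (f s - G s) - (-ε * s) with hφ
    have hsub : Icc t s₁ ⊆ Icc a b := Icc_subset_Icc ht.1 hs₁.2
    have hlinder : ∀ s : ℝ, HasDerivAt (fun s : ℝ => -ε * s) (-ε) s := by
      intro s
      simpa using (hasDerivAt_id s).const_mul (-ε)
    have hφLS : ∀ s ∈ Icc a b, ∀ m, LS f m s → LS φ (m - g s - -ε) s := by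
      intro s hs m hm
      exact (hm.sub_hasDerivAt (hG s hs)).sub_hasDerivAt (hlinder s)
    have hφc : ContinuousOn φ (Icc t s₁) := by
      have hGc : ContinuousOn G (Icc a b) := fun s hs => (hG s hs).continuousAt.continuousWithinAt
      exact ((hf.mono hsub).sub (hGc.mono hsub)).sub (by fun_prop)
    obtain ⟨τ₀, hτ₀, hmax⟩ := isCompact_Icc.exists_isMaxOn (nonempty_Icc.2 hlt.le) hφc
    have ht0 : t < τ₀ := by
      rcases lt_or_eq_of_le hτ₀.1 with h | h
      · exact h
      · exfalso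
        have h8 := (hφLS t ht (g t) hLt).right_lt (by linarith)
        obtain ⟨s, hs1, hs2⟩ := (h8.and (Ioo_mem_nhdsGT hlt)).exists
        have h9 : φ s ≤ φ τ₀ := hmax ⟨hs2.1.le, hs2.2.le⟩
        rw [← h] at h9
        linarith
    have hs0 : τ₀ < s₁ := by
      rcases lt_or_eq_of_le hτ₀.2 with h | h
      · exact h
      · exfalso
        have h9 : φ t ≤ φ τ₀ := hmax ⟨le_rfl, hlt.le⟩
        rw [h] at h9
        simp only [hφ] at h9
        nlinarith
    obtain ⟨k, hk⟩ := hLS τ₀ (hsub hτ₀)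
    have hz := (hφLS τ₀ (hsub hτ₀) _ hk).zero_of_max (by
      filter_upwards [Icc_mem_nhds ht0 hs0] with s hs using hmax hs)
    have hlt2 : sl k τ₀ < g τ₀ := by linarith
    have := hε₀' k τ₀ (hsub hτ₀) hlt2
    have := hεm k
    linarith
  intro s hs
  rcases lt_trichotomy t s with h | h | h
  · exact right f G g a b hf hG hg sl hsl hLS hord t ht hLt s hs h
  · rw [h]
  · have hneg : ∀ y : ℝ, y ∈ Icc (-b) (-a) → -y ∈ Icc a b := by
      intro y hy
      exact ⟨by linarith [hy.2], by linarith [hy.1]⟩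
    have h1 := right (fun s => f (-s)) (fun s => G (-s)) (fun s => -g (-s)) (-b) (-a)
      (hf.comp continuous_neg.continuousOn (fun y hy => hneg y hy))
      (by
        intro y hy
        have h2 := (hG (-y) (hneg y hy)).comp y (hasDerivAt_neg y)
        rw [mul_neg_one] at h2
        exact h2)
      ((hg.comp continuous_neg.continuousOn (fun y hy => hneg y hy)).neg)
      (fun k s => -(sl k (-s)))
      (fun k => ((hsl k).comp continuous_neg.continuousOn (fun y hy => hneg y hy)).neg)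
      (by
        intro y hy
        obtain ⟨k, hk⟩ := hLS (-y) (hneg y hy)
        refine ⟨k, ?_⟩
        have := hk.neg
        rwa [neg_neg] at this)
      (by
        intro k
        rcases hord k with h | h | h
        · left
          intro y hy
          rw [h _ (hneg y hy)]
        · right; right
          intro y hy
          have := h _ (hneg y hy)
          linarith
        · right; left
          intro y hy
          have := h _ (hneg y hy)
          linarith)
      (-t) ⟨by linarith [ht.2], by linarith [ht.1]⟩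
      (by
        have := hLt.neg
        simpa using this)
      (-s) ⟨by linarith [hs.2], by linarith [hs.1]⟩ (by linarith)
    simpa using h1

/-- second order local support in the plane propagates to convex sets -/
theorem sub_of_local {Ω : Set ℂ} (hconv : Convex ℝ Ω) {u : ℂ → ℝ}
    (hu : ContinuousOn u Ω) {C : ℝ}
    (hloc : ∀ z ∈ Ω, ∃ p : ℂ, ∀ᶠ w in 𝓝 z, u z + (p * (w - z)).re - C * ‖w - z‖ ^ 2 ≤ u w)
    {z : ℂ} (hz : z ∈ Ω) {p : ℂ}
    (hp : ∀ᶠ w in 𝓝 z, u z + (p * (w - z)).re - C * ‖w - z‖ ^ 2 ≤ u w) :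
    ∀ w ∈ Ω, u z + (p * (w - z)).re - C * ‖w - z‖ ^ 2 ≤ u w := by
  intro w hw
  set v := w - z with hv
  have hseg : ∀ s ∈ Icc (0 : ℝ) 1, z + s * v ∈ Ω := by
    intro s hs
    have := hconv hz hw (a := 1 - s) (b := s) (by linarith [hs.2]) hs.1 (by ring)
    convert this using 1
    simp only [Complex.real_smul, hv]
    push_cast
    ring
  set F : ℝ → ℝ := fun s => u (z + s * v) + C * s ^ 2 * ‖v‖ ^ 2 with hF
  have hline : Continuous fun s : ℝ => z + s * v := by fun_prop
  have hFc : ContinuousOn F (Icc 0 1) := by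
    apply ContinuousOn.add
    · exact hu.comp hline.continuousOn hseg
    · fun_prop
  have hlocF : ∀ s ∈ Icc (0 : ℝ) 1, ∀ q : ℂ,
      (∀ᶠ w in 𝓝 (z + s * v), u (z + s * v) + (q * (w - (z + s * v))).re -
        C * ‖w - (z + s * v)‖ ^ 2 ≤ u w) →
      ∀ᶠ s' in 𝓝 s, F s + ((q * v).re + 2 * C * s * ‖v‖ ^ 2) * (s' - s) ≤ F s' := by
    intro s hs q hq
    have h1 := (hline.tendsto s).eventually hq
    filter_upwards [h1] with s' hs'
    have e1 : z + (s' : ℂ) * v - (z + s * v) = ((s' - s : ℝ) : ℂ) * v := by push_cast; ring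
    rw [e1] at hs'
    have e2 : (q * (((s' - s : ℝ) : ℂ) * v)).re = (s' - s) * (q * v).re := by
      have : q * (((s' - s : ℝ) : ℂ) * v) = ((s' - s : ℝ) : ℂ) * (q * v) := by ring
      rw [this, Complex.re_ofReal_mul]
    rw [e2, norm_mul, Complex.norm_real, Real.norm_eq_abs, mul_pow, sq_abs] at hs'
    simp only [hF]
    nlinarith
  have h2 := convex_support hFc (fun s hs => by
    obtain ⟨q, hq⟩ := hloc _ (hseg s hs)
    exact ⟨_, hlocF s hs q hq⟩) (t := 0) ⟨le_rfl, zero_le_one⟩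
    (hlocF 0 ⟨le_rfl, zero_le_one⟩ p (by simpa using hp)) 1 ⟨zero_le_one, le_rfl⟩
  simp only [hF, Complex.ofReal_zero, zero_mul, add_zero, mul_zero, Complex.ofReal_one, one_mul,
    one_pow, mul_one, sub_zero] at h2
  have e3 : z + v = w := by rw [hv]; ring
  rw [e3] at h2
  have : (0 : ℝ) ^ 2 = 0 := by norm_num
  rw [this] at h2
  linarith

end Pool.Agent.T2h27.SA
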