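import Mathlib
import Pool.Agent.T2h27.SA.S7

/-!
# The abstract local theorem: types along curves
-/

set_option autoImplicit false

open Metric Set Filter Topology Complex

namespace Pool.Agent.T2h27.SA

/-- second order touching on the ball -/
def Lt (u : ℂ → ℝ) (R C : ℝ) (p : ℂ) (z : ℂ) : Prop :=
  ∀ w ∈ ball (0 : ℂ) R, u z + (p * (w - z)).re - C * ‖w - z‖ ^ 2 ≤ u w

lemma LS_of_sub {u : ℂ → ℝ} {z p : ℂ} {C : ℝ}
    (h : ∀ᶠ w in 𝓝 z, u z + (p * (w - z)).re - C * ‖w - z‖ ^ 2 ≤ u w) {σ : ℝ → ℂ} {v : ℂ} {t : ℝ}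
    (hσ : HasDerivAt σ v t) (hz : σ t = z) : LS (fun s => u (σ s)) ((p * v).re) t := by
  subst hz
  intro η hη
  have h1 : ∀ᶠ s in 𝓝 t, u (σ t) + (p * (σ s - σ t)).re - C * ‖σ s - σ t‖ ^ 2 ≤ u (σ s) :=
    hσ.continuousAt.eventually h
  set K : ℝ := ‖p‖ + 1 with hK
  have hK0 : 0 < K := by positivity
  have h2 := (hasDerivAt_iff_isLittleO.1 hσ).def (show 0 < min 1 (η / (2 * K)) by positivity)
  set D : ℝ := |C| * (‖v‖ + 1) ^ 2 + 1 with hD
  have hD0 : 0 < D := by positivity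
  have h3 : ∀ᶠ s in 𝓝 t, |s - t| < η / (2 * D) := by
    have := Metric.ball_mem_nhds t (show 0 < η / (2 * D) by positivity)
    filter_upwards [this] with s hs
    rwa [mem_ball, Real.dist_eq] at hs
  filter_upwards [h1, h2, h3] with s hs1 hs2 hs3
  rw [Real.norm_eq_abs, Complex.real_smul] at hs2
  set e : ℂ := σ s - σ t - ((s - t : ℝ) : ℂ) * v with he
  have he1 : ‖e‖ ≤ min 1 (η / (2 * K)) * |s - t| := hs2
  have he2 : ‖e‖ ≤ |s - t| := he1.trans (by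
    have := min_le_left (1 : ℝ) (η / (2 * K))
    nlinarith [abs_nonneg (s - t)])
  have he3 : ‖e‖ ≤ η / (2 * K) * |s - t| := he1.trans (by
    apply mul_le_mul_of_nonneg_right (min_le_right _ _) (abs_nonneg _))
  have hdec : σ s - σ t = ((s - t : ℝ) : ℂ) * v + e := by rw [he]; ring
  have hre : (p * (σ s - σ t)).re = (s - t) * (p * v).re + (p * e).re := by
    rw [hdec, mul_add, Complex.add_re]
    congr 1
    have : p * (((s - t : ℝ) : ℂ) * v) = ((s - t : ℝ) : ℂ) * (p * v) := by ring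
    rw [this, Complex.re_ofReal_mul]
  have hpe : -(‖p‖ * ‖e‖) ≤ (p * e).re := by
    have := (abs_le.1 (Complex.abs_re_le_norm (p * e))).1
    rwa [norm_mul] at this
  have hn : ‖σ s - σ t‖ ≤ |s - t| * (‖v‖ + 1) := by
    rw [hdec]
    refine (norm_add_le _ _).trans ?_
    rw [norm_mul, Complex.norm_real, Real.norm_eq_abs]
    linarith
  have hn2 : ‖σ s - σ t‖ ^ 2 ≤ (|s - t| * (‖v‖ + 1)) ^ 2 := by
    apply pow_le_pow_left₀ (norm_nonneg _) hn
  have hCn : C * ‖σ s - σ t‖ ^ 2 ≤ D * |s - t| ^ 2 := by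
    calc C * ‖σ s - σ t‖ ^ 2 ≤ |C| * ‖σ s - σ t‖ ^ 2 := by
          apply mul_le_mul_of_nonneg_right (le_abs_self _) (by positivity)
      _ ≤ |C| * (|s - t| * (‖v‖ + 1)) ^ 2 := by
          apply mul_le_mul_of_nonneg_left hn2 (abs_nonneg _)
      _ = (|C| * (‖v‖ + 1) ^ 2) * |s - t| ^ 2 := by ring
      _ ≤ D * |s - t| ^ 2 := by
          apply mul_le_mul_of_nonneg_right _ (by positivity)
          rw [hD]; linarith
  have hD2 : D * |s - t| ^ 2 ≤ η / 2 * |s - t| := by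
    have h5 : D * |s - t| ≤ η / 2 := by
      rw [lt_div_iff₀ (by positivity)] at hs3
      linarith
    calc D * |s - t| ^ 2 = (D * |s - t|) * |s - t| := by ring
      _ ≤ η / 2 * |s - t| := mul_le_mul_of_nonneg_right h5 (abs_nonneg _)
  have hpe2 : ‖p‖ * ‖e‖ ≤ η / 2 * |s - t| := by
    calc ‖p‖ * ‖e‖ ≤ K * (η / (2 * K) * |s - t|) := by
          apply mul_le_mul _ he3 (norm_nonneg _) hK0.le
          rw [hK]; linarith
      _ = η / 2 * |s - t| := by field_simp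
  rw [hre] at hs1
  linarith

/-- data of the abstract local theorem -/
structure Loc (ι : Type*) (u : ℂ → ℝ) (A H : ι → ℂ → ℂ) (R C : ℝ) : Prop where
  hR : 0 < R
  hu : ContinuousOn u (ball 0 R)
  hA : ∀ j, DifferentiableOn ℂ (A j) (ball 0 R)
  hH : ∀ j, ∀ z ∈ ball (0 : ℂ) R, HasDerivAt (H j) (A j z) z
  hH0 : ∀ j, H j 0 = 0
  hne : ∀ i j, i ≠ j → ¬ (∀ᶠ z in 𝓝 (0 : ℂ), A i z = A j z)
  hL : ∀ z ∈ ball (0 : ℂ) R, ∃ j, Lt u R C (A j z) z

variable {ι : Type*} [Finite ι] {u : ℂ → ℝ} {A H : ι → ℂ → ℂ} {R C : ℝ}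

lemma Loc.HC (h : Loc ι u A H R C) (j : ι) : ContinuousOn (H j) (ball 0 R) :=
  fun z hz => (h.hH j z hz).continuousAt.continuousWithinAt

lemma Lt.local {u : ℂ → ℝ} {R C : ℝ} {p z : ℂ} (h : Lt u R C p z) (hz : z ∈ ball (0 : ℂ) R) :
    ∀ᶠ w in 𝓝 z, u z + (p * (w - z)).re - C * ‖w - z‖ ^ 2 ≤ u w := by
  filter_upwards [isOpen_ball.mem_nhds hz] with w hw using h w hw

/-- touching is a closed condition -/
lemma Loc.closed (h : Loc ι u A H R C) (j : ι) {z : ℂ} (hz : z ∈ ball (0 : ℂ) R)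
    (hcl : ∃ᶠ y in 𝓝 z, Lt u R C (A j y) y) : Lt u R C (A j z) z := by
  intro w hw
  have hc : ContinuousAt (fun y => u y + (A j y * (w - y)).re - C * ‖w - y‖ ^ 2) z := by
    have h1 := h.hu.continuousAt (isOpen_ball.mem_nhds hz)
    have h2 := (h.hA j).continuousOn.continuousAt (isOpen_ball.mem_nhds hz)
    apply ContinuousAt.sub
    · apply h1.add
      exact Complex.continuous_re.continuousAt.comp (h2.mul (by fun_prop))
    · fun_prop
  by_contra hcon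
  rw [not_le] at hcon
  have h3 := hc.eventually (lt_mem_nhds hcon)
  obtain ⟨y, hy1, hy2⟩ := (hcl.and_eventually h3).exists
  have := hy1 w hw
  linarith

/-- types along a curve germ: near the start all types have the constant of the origin -/
theorem Loc.curve (h : Loc ι u A H R C) {Γ Γ' : ℝ → ℂ} (hΓ0 : Tendsto Γ (𝓝[>] 0) (𝓝 0))
    (hder : ∀ᶠ s in 𝓝[>] (0 : ℝ), HasDerivAt Γ (Γ' s) s ∧ ContinuousAt Γ' s)
    (hord : ∀ i j, (∀ᶠ s in 𝓝[>] (0 : ℝ), (A i (Γ s) * Γ' s).re = (A j (Γ s) * Γ' s).re) ∨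
      (∀ᶠ s in 𝓝[>] (0 : ℝ), (A i (Γ s) * Γ' s).re < (A j (Γ s) * Γ' s).re) ∨
      (∀ᶠ s in 𝓝[>] (0 : ℝ), (A j (Γ s) * Γ' s).re < (A i (Γ s) * Γ' s).re)) :
    ∀ᶠ s in 𝓝[>] (0 : ℝ), ∀ j, Lt u R C (A j (Γ s)) (Γ s) → u (Γ s) = u 0 + (H j (Γ s)).re := by
  have h0 : (0 : ℂ) ∈ ball (0 : ℂ) R := mem_ball_self h.hR
  have hball : ∀ᶠ s in 𝓝[>] (0 : ℝ), Γ s ∈ ball (0 : ℂ) R :=
    hΓ0.eventually (isOpen_ball.mem_nhds h0)
  -- types which are not frequent
  have hfreq : ∀ᶠ s in 𝓝[>] (0 : ℝ), ∀ j, Lt u R C (A j (Γ s)) (Γ s) →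
      ∃ᶠ s in 𝓝[>] (0 : ℝ), Lt u R C (A j (Γ s)) (Γ s) := by
    rw [Filter.eventually_all]
    intro j
    by_cases hj : ∃ᶠ s in 𝓝[>] (0 : ℝ), Lt u R C (A j (Γ s)) (Γ s)
    · exact Eventually.of_forall fun s _ => hj
    · rw [not_frequently] at hj
      filter_upwards [hj] with s hs hs2 using absurd hs2 hs
  -- an interval on which everything holds
  have hord' : ∀ᶠ b in 𝓝[>] (0 : ℝ), ∀ i j,
      (∀ s ∈ Ioo (0 : ℝ) b, (A i (Γ s) * Γ' s).re = (A j (Γ s) * Γ' s).re) ∨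
      (∀ s ∈ Ioo (0 : ℝ) b, (A i (Γ s) * Γ' s).re < (A j (Γ s) * Γ' s).re) ∨
      (∀ s ∈ Ioo (0 : ℝ) b, (A j (Γ s) * Γ' s).re < (A i (Γ s) * Γ' s).re) := by
    have hI : ∀ {P : ℝ → Prop}, (∀ᶠ s in 𝓝[>] (0 : ℝ), P s) →
        ∀ᶠ b in 𝓝[>] (0 : ℝ), ∀ s ∈ Ioo (0 : ℝ) b, P s := by
      intro P hP
      obtain ⟨u', hu', hu2⟩ := (mem_nhdsGT_iff_exists_Ioo_subset).1 hP
      have hu0 : (0 : ℝ) < u' := hu'
      filter_upwards [Ioo_mem_nhdsGT hu0] with b hb s hs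
      exact hu2 ⟨hs.1, hs.2.trans hb.2⟩
    rw [Filter.eventually_all]
    intro i
    rw [Filter.eventually_all]
    intro j
    rcases hord i j with h1 | h1 | h1
    · filter_upwards [hI h1] with b hb using Or.inl hb
    · filter_upwards [hI h1] with b hb using Or.inr (Or.inl hb)
    · filter_upwards [hI h1] with b hb using Or.inr (Or.inr hb)
  obtain ⟨ε, hε0, hε⟩ := (mem_nhdsGT_iff_exists_Ioo_subset).1 (hball.and (hder.and hfreq))
  obtain ⟨b, hb1, hb2⟩ := (hord'.and (Ioo_mem_nhdsGT (show (0 : ℝ) < ε from hε0))).exists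
  filter_upwards [Ioo_mem_nhdsGT hb2.1] with s hs j hj
  have hsε : s ∈ Ioo 0 ε := ⟨hs.1, hs.2.trans hb2.2⟩
  have hfr := (hε hsε).2.2 j hj
  -- the constant is the same at all occurrences
  have hconst : ∀ s' ∈ Ioo (0 : ℝ) s, Lt u R C (A j (Γ s')) (Γ s') →
      u (Γ s) - (H j (Γ s)).re = u (Γ s') - (H j (Γ s')).re := by
    intro s' hs' hj'
    have hsub : ∀ t ∈ Icc s' s, t ∈ Ioo 0 ε := fun t ht =>
      ⟨hs'.1.trans_le ht.1, ht.2.trans_lt hsε.2⟩
    have hsubb : ∀ t ∈ Icc s' s, t ∈ Ioo 0 b := fun t ht =>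
      ⟨hs'.1.trans_le ht.1, ht.2.trans_lt hs.2⟩
    have hΓc : ContinuousOn Γ (Icc s' s) := fun t ht =>
      (hε (hsub t ht)).2.1.1.continuousAt.continuousWithinAt
    have hΓ'c : ContinuousOn Γ' (Icc s' s) := fun t ht =>
      (hε (hsub t ht)).2.1.2.continuousWithinAt
    have hmaps : MapsTo Γ (Icc s' s) (ball 0 R) := fun t ht => (hε (hsub t ht)).1
    have hslc : ∀ k, ContinuousOn (fun t => (A k (Γ t) * Γ' t).re) (Icc s' s) := fun k =>
      Complex.continuous_re.comp_continuousOn (((h.hA k).continuousOn.comp hΓc hmaps).mul hΓ'c)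
    have hLS : ∀ t ∈ Icc s' s, ∀ k, Lt u R C (A k (Γ t)) (Γ t) →
        LS (fun t => u (Γ t)) ((A k (Γ t) * Γ' t).re) t := by
      intro t ht k hk
      exact LS_of_sub (hk.local (hmaps ht)) (hε (hsub t ht)).2.1.1 rfl
    have hglob := fun t ht hLt => glob (ι := ι) (f := fun t => u (Γ t))
      (G := fun t => (H j (Γ t)).re) (g := fun t => (A j (Γ t) * Γ' t).re) (a := s') (b := s)
      (h.hu.comp hΓc hmaps)
      (by
        intro t ht
        have g1 := (h.hH j _ (hmaps ht)).comp_of_eq t (hε (hsub t ht)).2.1.1 rfl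
        exact (Complex.reCLM.hasFDerivAt (x := H j (Γ t))).comp_hasDerivAt t g1)
      (hslc j) (fun k t => (A k (Γ t) * Γ' t).re) hslc
      (by
        intro t ht
        obtain ⟨k, hk⟩ := h.hL _ (hmaps ht)
        exact ⟨k, hLS t ht k hk⟩)
      (by
        intro k
        rcases hb1 k j with h1 | h1 | h1
        · exact Or.inl fun t ht => h1 t (hsubb t ht)
        · exact Or.inr (Or.inl fun t ht => h1 t (hsubb t ht))
        · exact Or.inr (Or.inr fun t ht => h1 t (hsubb t ht)))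
      (t := t) ht hLt
    have hs's : s' ≤ s := hs'.2.le
    have e1 := hglob s ⟨hs's, le_rfl⟩ (hLS s ⟨hs's, le_rfl⟩ j hj) s' ⟨le_rfl, hs's⟩
    have e2 := hglob s' ⟨le_rfl, hs's⟩ (hLS s' ⟨le_rfl, hs's⟩ j hj') s ⟨hs's, le_rfl⟩
    exact le_antisymm e1 e2
  -- the limit at the origin
  have hlim : Tendsto (fun s' => u (Γ s') - (H j (Γ s')).re) (𝓝[>] 0) (𝓝 (u 0 - (H j 0).re)) := by
    have h1 : ContinuousAt u 0 := h.hu.continuousAt (isOpen_ball.mem_nhds h0)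
    have h2 : ContinuousAt (H j) 0 := (h.HC j).continuousAt (isOpen_ball.mem_nhds h0)
    exact (h1.tendsto.comp hΓ0).sub ((Complex.continuous_re.tendsto _).comp (h2.tendsto.comp hΓ0))
  rw [h.hH0, Complex.zero_re, sub_zero] at hlim
  have key : u (Γ s) - (H j (Γ s)).re = u 0 := by
    by_contra hne
    have hev := hlim.eventually (isOpen_ne.mem_nhds (Ne.symm hne))
    obtain ⟨s', hs'1, hs'2, hs'3⟩ := (hfr.and_eventually (hev.and (Ioo_mem_nhdsGT hs.1))).exists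
    exact hs'2 (hconst s' hs'3 hs'1).symm
  linarith

end Pool.Agent.T2h27.SA
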