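import Mathlib
import Pool.Agent.T2h27.SA.S8

/-!
# The abstract local theorem: holomorphic curve germs and zero curves
-/

set_option autoImplicit false

open Metric Set Filter Topology Complex

namespace Pool.Agent.T2h27.SA

lemma analytic_sign {q : ℝ → ℝ} (hq : AnalyticAt ℝ q 0) :
    (∀ᶠ s in 𝓝[>] (0 : ℝ), q s = 0) ∨ (∀ᶠ s in 𝓝[>] (0 : ℝ), q s < 0) ∨
      (∀ᶠ s in 𝓝[>] (0 : ℝ), 0 < q s) := by
  rcases hq.eventually_eq_zero_or_eventually_ne_zero with h | h
  · left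
    exact h.filter_mono nhdsWithin_le_nhds
  · right
    have h1 : ∀ᶠ s in 𝓝[>] (0 : ℝ), q s ≠ 0 ∧ ContinuousAt q s := by
      have h2 : ∀ᶠ s in 𝓝[>] (0 : ℝ), q s ≠ 0 :=
        h.filter_mono (nhdsWithin_mono _ fun s hs => ne_of_gt hs)
      have h3 : ∀ᶠ s in 𝓝[>] (0 : ℝ), ContinuousAt q s :=
        (hq.eventually_analyticAt.mono fun s hs => hs.continuousAt).filter_mono nhdsWithin_le_nhds
      exact h2.and h3
    obtain ⟨b, hb0, hb⟩ := (mem_nhdsGT_iff_exists_Ioo_subset).1 h1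
    have hb0' : (0 : ℝ) < b := hb0
    have hc : ContinuousOn q (Ioo 0 b) := fun s hs => (hb hs).2.continuousWithinAt
    by_cases hneg : ∃ s ∈ Ioo 0 b, q s < 0
    · left
      obtain ⟨s₀, hs₀, hqs₀⟩ := hneg
      filter_upwards [Ioo_mem_nhdsGT hb0'] with s hs
      by_contra hcon
      rw [not_lt] at hcon
      have h0 : (0 : ℝ) ∈ q '' Ioo 0 b :=
        isPreconnected_Ioo.intermediate_value hs₀ hs hc ⟨hqs₀.le, hcon⟩
      obtain ⟨s', hs', hs'2⟩ := h0
      exact (hb hs').1 hs'2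
    · right
      push Not at hneg
      filter_upwards [Ioo_mem_nhdsGT hb0'] with s hs
      exact lt_of_le_of_ne (hneg s hs) (Ne.symm (hb hs).1)

lemma analytic_re_real {F : ℂ → ℂ} (hF : AnalyticAt ℂ F 0) :
    AnalyticAt ℝ (fun s : ℝ => (F (s : ℂ)).re) 0 := by
  have h1 : AnalyticAt ℝ F ((0 : ℝ) : ℂ) := by
    rw [Complex.ofReal_zero]
    exact hF.restrictScalars
  have h2 : AnalyticAt ℝ (fun s : ℝ => F (s : ℂ)) 0 :=
    h1.comp_of_eq (Complex.ofRealCLM.analyticAt 0) rfl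
  exact (Complex.reCLM.analyticAt _).comp h2

/-- local normal form of a holomorphic germ -/
theorem normal_form {D : ℂ → ℂ} (hD : AnalyticAt ℂ D 0) (hD0 : D 0 = 0)
    (hne : ¬ ∀ᶠ z in 𝓝 (0 : ℂ), D z = 0) :
    ∃ (m : ℕ) (φ G : ℂ → ℂ), 0 < m ∧ AnalyticAt ℂ φ 0 ∧ AnalyticAt ℂ G 0 ∧ φ 0 = 0 ∧ G 0 = 0 ∧
      deriv G 0 ≠ 0 ∧ (∀ᶠ z in 𝓝 (0 : ℂ), D z = φ z ^ m) ∧ (∀ᶠ z in 𝓝 (0 : ℂ), G (φ z) = z) ∧
      (∀ᶠ w in 𝓝 (0 : ℂ), φ (G w) = w) := by
  obtain ⟨m, g, hg, hg0, hDg⟩ := hD.exists_eventuallyEq_pow_smul_nonzero_iff.2 hne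
  have hm : 0 < m := by
    rcases Nat.eq_zero_or_pos m with h | h
    · exfalso
      have h1 := hDg.self_of_nhds
      rw [hD0, h, pow_zero, one_smul] at h1
      exact hg0 h1.symm
    · exact h
  obtain ⟨c, hc⟩ := IsAlgClosed.exists_pow_nat_eq (g 0) hm
  have hc0 : c ≠ 0 := by
    intro h
    rw [h, zero_pow hm.ne'] at hc
    exact hg0 hc.symm
  set root : ℂ → ℂ := fun z => c * Complex.exp (Complex.log (g z / g 0) / m) with hroot
  have hra : AnalyticAt ℂ root 0 := by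
    have h1 : AnalyticAt ℂ (fun z => g z / g 0) 0 := hg.div analyticAt_const hg0
    have h2 : AnalyticAt ℂ (fun z => Complex.log (g z / g 0)) 0 :=
      h1.clog (by rw [div_self hg0]; simp)
    exact analyticAt_const.mul (h2.div_const).cexp
  have hr0 : root 0 = c := by
    simp [hroot, div_self hg0]
  have hgne : ∀ᶠ z in 𝓝 (0 : ℂ), g z ≠ 0 := hg.continuousAt.eventually_ne hg0
  have hrm : ∀ᶠ z in 𝓝 (0 : ℂ), root z ^ m = g z := by
    filter_upwards [hgne] with z hz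
    simp only [hroot]
    rw [mul_pow, ← Complex.exp_nat_mul, hc]
    have hm' : (m : ℂ) ≠ 0 := by exact_mod_cast hm.ne'
    rw [mul_div_cancel₀ _ hm', Complex.exp_log (div_ne_zero hz hg0)]
    field_simp
  set φ : ℂ → ℂ := fun z => z * root z with hφ
  have hφa : AnalyticAt ℂ φ 0 := analyticAt_id.mul hra
  have hφ0 : φ 0 = 0 := by simp [hφ]
  have hder : HasDerivAt φ c 0 := by
    have h1 := (hasDerivAt_id (0 : ℂ)).mul hra.differentiableAt.hasDerivAt
    simp only [id, zero_mul, add_zero, one_mul, hr0] at h1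
    exact h1
  have hd : deriv φ 0 ≠ 0 := by rw [hder.deriv]; exact hc0
  set G := hφa.hasStrictDerivAt.localInverse _ _ _ hd with hG
  have hGa : AnalyticAt ℂ G 0 := by
    have := hφa.analyticAt_localInverse hd
    rwa [hφ0] at this
  have hleft : ∀ᶠ z in 𝓝 (0 : ℂ), G (φ z) = z :=
    HasStrictDerivAt.eventually_left_inverse hφa.hasStrictDerivAt hd
  have hright : ∀ᶠ w in 𝓝 (0 : ℂ), φ (G w) = w := by
    have := HasStrictDerivAt.eventually_right_inverse hφa.hasStrictDerivAt hd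
    rwa [hφ0] at this
  have hG0 : G 0 = 0 := by
    have := hleft.self_of_nhds
    rwa [hφ0] at this
  have hGd : deriv G 0 ≠ 0 := by
    have h1 := HasStrictDerivAt.to_localInverse hφa.hasStrictDerivAt hd
    rw [hφ0] at h1
    rw [h1.hasDerivAt.deriv]
    exact inv_ne_zero hd
  refine ⟨m, φ, G, hm, hφa, hGa, hφ0, hG0, hGd, ?_, hleft, hright⟩
  filter_upwards [hDg, hrm] with z h1 h2
  rw [h1, sub_zero, smul_eq_mul]
  simp only [hφ]
  rw [mul_pow, h2]

variable {ι : Type*} [Finite ι] {u : ℂ → ℝ} {A H : ι → ℂ → ℂ} {R C : ℝ}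

omit [Finite ι] in
lemma Loc.Aan (h : Loc ι u A H R C) (j : ι) : AnalyticAt ℂ (A j) 0 :=
  (h.hA j).analyticAt (isOpen_ball.mem_nhds (mem_ball_self h.hR))

omit [Finite ι] in
lemma Loc.Han (h : Loc ι u A H R C) (j : ι) : AnalyticAt ℂ (H j) 0 := by
  have : DifferentiableOn ℂ (H j) (ball 0 R) := fun z hz =>
    (h.hH j z hz).differentiableAt.differentiableWithinAt
  exact this.analyticAt (isOpen_ball.mem_nhds (mem_ball_self h.hR))

/-- holomorphic curve germs -/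
theorem Loc.holo_curve (h : Loc ι u A H R C) {γ : ℂ → ℂ} (hγ : AnalyticAt ℂ γ 0) (hγ0 : γ 0 = 0) :
    ∀ᶠ s : ℝ in 𝓝[>] (0 : ℝ), ∀ j, Lt u R C (A j (γ s)) (γ s) →
      u (γ s) = u 0 + (H j (γ s)).re := by
  have hof : Tendsto (fun s : ℝ => (s : ℂ)) (𝓝 0) (𝓝 (0 : ℂ)) := by
    have := Complex.continuous_ofReal.tendsto 0
    rwa [Complex.ofReal_zero] at this
  apply h.curve (Γ := fun s : ℝ => γ s) (Γ' := fun s : ℝ => deriv γ s)
  · have h1 : Tendsto γ (𝓝 0) (𝓝 0) := by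
      have := hγ.continuousAt.tendsto
      rwa [hγ0] at this
    exact (h1.comp hof).mono_left nhdsWithin_le_nhds
  · have h1 : ∀ᶠ s : ℝ in 𝓝 0, AnalyticAt ℂ γ (s : ℂ) := hof.eventually hγ.eventually_analyticAt
    filter_upwards [h1.filter_mono nhdsWithin_le_nhds] with s hs
    refine ⟨hs.differentiableAt.hasDerivAt.comp_ofReal, ?_⟩
    exact ContinuousAt.comp (f := fun s : ℝ => (s : ℂ)) (g := deriv γ) hs.deriv.continuousAt
      Complex.continuous_ofReal.continuousAt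
  · intro i j
    have hF : ∀ i, AnalyticAt ℂ (fun τ => A i (γ τ) * deriv γ τ) 0 := fun i =>
      ((h.Aan i).comp_of_eq hγ hγ0).mul hγ.deriv
    have h1 := analytic_sign (analytic_re_real ((hF i).sub (hF j)))
    simp only [Pi.sub_apply, Complex.sub_re] at h1
    rcases h1 with h1 | h1 | h1
    · left
      filter_upwards [h1] with s hs
      linarith
    · right; left
      filter_upwards [h1] with s hs
      linarith
    · right; right
      filter_upwards [h1] with s hs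
      linarith

omit [Finite ι] in
lemma Loc.H_ne (h : Loc ι u A H R C) {i j : ι} (hij : i ≠ j) :
    ¬ ∀ᶠ z in 𝓝 (0 : ℂ), H i z - H j z = 0 := by
  intro hev
  apply h.hne i j hij
  have h1 : ∀ᶠ z in 𝓝 (0 : ℂ), ∀ᶠ w in 𝓝 z, H i w - H j w = 0 := hev.eventually_nhds
  filter_upwards [h1, isOpen_ball.mem_nhds (mem_ball_self h.hR)] with z hz hzb
  have h2 : HasDerivAt (fun w => H i w - H j w) (A i z - A j z) z := (h.hH i z hzb).sub (h.hH j z hzb)
  have h3 : HasDerivAt (fun w => H i w - H j w) 0 z := by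
    refine (hasDerivAt_const z (0 : ℂ)).congr_of_eventuallyEq ?_
    exact hz
  exact sub_eq_zero.1 (h2.unique h3)

/-- zero curves of the differences -/
theorem Loc.zero_curve (h : Loc ι u A H R C) {i j : ι} (hij : i ≠ j) :
    ∀ᶠ z in 𝓝 (0 : ℂ), z ≠ 0 → (H i z).re = (H j z).re →
      ∀ k, Lt u R C (A k z) z → u z = u 0 + (H k z).re := by
  obtain ⟨m, φ, G, hm, hφa, hGa, hφ0, hG0, hGd, hDφ, hGφ, hφG⟩ := normal_form
    ((h.Han i).sub (h.Han j)) (by simp [h.hH0]) (h.H_ne hij)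
  have hfin : {ω : ℂ | ω ^ (2 * m) = -1}.Finite := by
    have hp : (Polynomial.X ^ (2 * m) - Polynomial.C (-1 : ℂ)) ≠ 0 :=
      Polynomial.X_pow_sub_C_ne_zero (by omega) _
    refine ((Polynomial.X ^ (2 * m) - Polynomial.C (-1 : ℂ)).roots.toFinset.finite_toSet).subset ?_
    intro ω hω
    rw [Finset.mem_coe, Multiset.mem_toFinset, Polynomial.mem_roots hp, Polynomial.IsRoot,
      Polynomial.eval_sub, Polynomial.eval_pow, Polynomial.eval_X, Polynomial.eval_C]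
    have : ω ^ (2 * m) = -1 := hω
    rw [this]; ring
  have hev : ∀ᶠ s : ℝ in 𝓝[>] (0 : ℝ), ∀ ω ∈ {ω : ℂ | ω ^ (2 * m) = -1},
      ∀ k, Lt u R C (A k (G (ω * s))) (G (ω * s)) → u (G (ω * s)) = u 0 + (H k (G (ω * s))).re := by
    rw [hfin.eventually_all]
    intro ω _
    apply h.holo_curve (γ := fun τ => G (ω * τ))
    · exact hGa.comp_of_eq (analyticAt_const.mul analyticAt_id) (by simp)
    · simp [hG0]
  obtain ⟨ε, hε0, hε⟩ := (mem_nhdsGT_iff_exists_Ioo_subset).1 hev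
  have hε0' : (0 : ℝ) < ε := hε0
  have hφt : ∀ᶠ z in 𝓝 (0 : ℂ), ‖φ z‖ < ε := by
    have h1 := hφa.continuousAt.norm
    have h2 : ‖φ 0‖ < ε := by rw [hφ0, norm_zero]; exact hε0'
    exact h1.eventually (gt_mem_nhds h2)
  filter_upwards [hφt, hDφ, hGφ] with z h1 h2 h3 hz hre
  have hφz : φ z ≠ 0 := by
    intro h4
    rw [h4, hG0] at h3
    exact hz h3.symm
  set s : ℝ := ‖φ z‖ with hs
  have hs0 : 0 < s := norm_pos_iff.2 hφz
  have hsC : (s : ℂ) ≠ 0 := by exact_mod_cast hs0.ne'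
  set ω : ℂ := φ z / s with hω
  have hωs : ω * s = φ z := by rw [hω]; field_simp
  have hωn : ‖ω‖ = 1 := by
    rw [hω, norm_div, Complex.norm_real, Real.norm_of_nonneg hs0.le, ← hs, div_self hs0.ne']
  have hωm : ω ^ (2 * m) = -1 := by
    have h5 : (φ z ^ m).re = 0 := by
      rw [← h2]
      simp [hre]
    have h6 : (ω ^ m).re = 0 := by
      have h7 : φ z ^ m = ((s ^ m : ℝ) : ℂ) * ω ^ m := by
        rw [← hωs, mul_pow]
        push_cast
        ring
      rw [h7, Complex.re_ofReal_mul] at h5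
      rcases mul_eq_zero.1 h5 with h8 | h8
      · exact absurd h8 (pow_pos hs0 m).ne'
      · exact h8
    have h9 : ‖ω ^ m‖ = 1 := by rw [norm_pow, hωn, one_pow]
    have h10 : (ω ^ m).im ^ 2 = 1 := by
      have h11 : ‖ω ^ m‖ ^ 2 = (ω ^ m).re * (ω ^ m).re + (ω ^ m).im * (ω ^ m).im := by
        rw [Complex.sq_norm, Complex.normSq_apply]
      rw [h9, h6] at h11
      nlinarith
    rw [mul_comm, pow_mul]
    apply Complex.ext
    · rw [sq, Complex.mul_re, h6, Complex.neg_re, Complex.one_re]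
      nlinarith
    · rw [sq, Complex.mul_im, h6, Complex.neg_im, Complex.one_im]
      ring
  have h12 := hε ⟨hs0, h1⟩ ω hωm
  rw [hωs, h3] at h12
  exact h12

end Pool.Agent.T2h27.SA
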