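import Mathlib
import Pool.Agent.T2h27.SA.S9

/-!
# The abstract local theorem: slices and sectors
-/

set_option autoImplicit false

open Metric Set Filter Topology Complex

namespace Pool.Agent.T2h27.SA

/-- the combinatorial argument on a slice -/
theorem slice {ι : Type*} [Finite ι] {f : ℝ → ℝ} {G : ι → ℝ → ℝ} {T : ι → ℝ → Prop} {a b c₀ : ℝ}
    (hab : a ≤ b) (hfc : ContinuousOn f (Icc a b)) (hGc : ∀ k, ContinuousOn (G k) (Icc a b))
    (hT : ∀ y ∈ Icc a b, ∃ k, T k y)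
    (hTc : ∀ k, ∀ y ∈ Icc a b, (∃ᶠ y' in 𝓝[Icc a b] y, T k y') → T k y)
    (hglob : ∀ y ∈ Icc a b, ∀ k, T k y → ∀ y' ∈ Icc a b, f y - G k y ≤ f y' - G k y')
    (hmono : ∀ i j, i ≠ j → StrictMonoOn (fun y => G i y - G j y) (Icc a b) ∨
      StrictAntiOn (fun y => G i y - G j y) (Icc a b))
    (ha : ∀ k, T k a → f a = c₀ + G k a) (hb : ∀ k, T k b → f b = c₀ + G k b)
    (hzero : ∀ y ∈ Icc a b, ∀ i j, i ≠ j → G i y = G j y → ∀ k, T k y → f y = c₀ + G k y) :
    ∀ y ∈ Icc a b, ∃ k, T k y ∧ f y = c₀ + G k y := by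
  set Z : Set ℝ := {y | y ∈ Icc a b ∧ ∃ k, T k y ∧ f y = c₀ + G k y} with hZ
  have hZc : IsClosed Z := by
    rw [isClosed_iff_frequently]
    intro y hy
    have hyI : y ∈ Icc a b := by
      have : ∃ᶠ y' in 𝓝 y, y' ∈ Icc a b := hy.mono fun y' h => h.1
      exact isClosed_Icc.mem_of_frequently_of_tendsto this tendsto_id
    refine ⟨hyI, ?_⟩
    have h1 : ∃ᶠ y' in 𝓝[Icc a b] y, ∃ k, T k y' ∧ f y' = c₀ + G k y' := by
      rw [frequently_nhdsWithin_iff]
      exact hy.mono fun y' h => ⟨h.2, h.1⟩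
    obtain ⟨k, hk⟩ : ∃ k, ∃ᶠ y' in 𝓝[Icc a b] y, T k y' ∧ f y' = c₀ + G k y' := by
      by_contra hcon
      push Not at hcon
      apply h1
      have h2 : ∀ᶠ y' in 𝓝[Icc a b] y, ∀ k, T k y' → f y' ≠ c₀ + G k y' := by
        rw [Filter.eventually_all]
        exact hcon
      filter_upwards [h2] with y' hy' hcon'
      obtain ⟨k, hk⟩ := hcon'
      exact hy' k hk.1 hk.2
    refine ⟨k, hTc k y hyI (hk.mono fun y' h => h.1), ?_⟩
    have h3 : ContinuousWithinAt (fun y => f y - (c₀ + G k y)) (Icc a b) y :=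
      (hfc y hyI).sub ((hGc k y hyI).const_add c₀ |>.congr (fun _ _ => rfl) rfl)
    by_contra hne
    have h4 : f y - (c₀ + G k y) ≠ 0 := sub_ne_zero.2 hne
    have h5 := h3.eventually_ne h4
    obtain ⟨y', hy'1, hy'2⟩ := (hk.and_eventually h5).exists
    exact hy'2 (sub_eq_zero.2 hy'1.2)
  intro y₀ hy₀
  by_contra hcon
  have hy₀Z : y₀ ∉ Z := fun h => hcon h.2
  have haZ : a ∈ Z := by
    obtain ⟨k, hk⟩ := hT a ⟨le_rfl, hab⟩
    exact ⟨⟨le_rfl, hab⟩, k, hk, ha k hk⟩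
  have hbZ : b ∈ Z := by
    obtain ⟨k, hk⟩ := hT b ⟨hab, le_rfl⟩
    exact ⟨⟨hab, le_rfl⟩, k, hk, hb k hk⟩
  -- the nearest points
  have hPc : IsCompact (Z ∩ Icc a y₀) := isCompact_Icc.inter_left hZc
  have hPne : (Z ∩ Icc a y₀).Nonempty := ⟨a, haZ, le_rfl, hy₀.1⟩
  have hQc : IsCompact (Z ∩ Icc y₀ b) := isCompact_Icc.inter_left hZc
  have hQne : (Z ∩ Icc y₀ b).Nonempty := ⟨b, hbZ, hy₀.2, le_rfl⟩
  have hp := hPc.sSup_mem hPne
  have hq := hQc.sInf_mem hQne
  set p := sSup (Z ∩ Icc a y₀) with hpdef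
  set q := sInf (Z ∩ Icc y₀ b) with hqdef
  have hpy : p < y₀ := lt_of_le_of_ne hp.2.2 (fun h => hy₀Z (h ▸ hp.1))
  have hqy : y₀ < q := lt_of_le_of_ne hq.2.1 (fun h => hy₀Z (h ▸ hq.1))
  have hpI : p ∈ Icc a b := hp.1.1
  have hqI : q ∈ Icc a b := hq.1.1
  have hbetween : ∀ y ∈ Z, p ≤ y → y ≤ q → y = p ∨ y = q := by
    intro y hy h1 h2
    rcases le_total y y₀ with h3 | h3
    · left
      exact le_antisymm (le_csSup hPc.bddAbove ⟨hy, hy.1.1, h3⟩) h1
    · right
      exact le_antisymm h2 (csInf_le hQc.bddBelow ⟨hy, h3, hy.1.2⟩)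
  obtain ⟨i, hi, hfi⟩ := hp.1.2
  obtain ⟨j, hj, hfj⟩ := hq.1.2
  -- a common type
  obtain ⟨e, hep, heq, hege⟩ : ∃ e, f p = c₀ + G e p ∧ f q = c₀ + G e q ∧
      ∀ y ∈ Icc a b, c₀ + G e y ≤ f y := by
    have hgi : ∀ y ∈ Icc a b, c₀ + G i y ≤ f y := by
      intro y hy
      have := hglob p hpI i hi y hy
      linarith
    have hgj : ∀ y ∈ Icc a b, c₀ + G j y ≤ f y := by
      intro y hy
      have := hglob q hqI j hj y hy
      linarith
    by_cases hij : i = j
    · subst hij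
      exact ⟨i, hfi, hfj, hgi⟩
    · have hDc : ContinuousOn (fun y => G i y - G j y) (Icc p q) :=
        ((hGc i).sub (hGc j)).mono (Icc_subset_Icc hpI.1 hqI.2)
      have hDp : 0 ≤ G i p - G j p := by
        have := hgj p hpI
        linarith
      have hDq : G i q - G j q ≤ 0 := by
        have := hgi q hqI
        linarith
      obtain ⟨y', hy', hD0⟩ := intermediate_value_Icc' (hpy.trans hqy).le hDc ⟨hDq, hDp⟩
      have hy'I : y' ∈ Icc a b := ⟨hpI.1.trans hy'.1, hy'.2.trans hqI.2⟩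
      have hG0 : G i y' = G j y' := by
        have : G i y' - G j y' = 0 := hD0
        linarith
      have hy'Z : y' ∈ Z := by
        obtain ⟨k, hk⟩ := hT y' hy'I
        exact ⟨hy'I, k, hk, hzero y' hy'I i j hij hG0 k hk⟩
      rcases hbetween y' hy'Z hy'.1 hy'.2 with h | h
      · rw [h] at hG0
        exact ⟨j, by rw [hfi, hG0], hfj, hgj⟩
      · rw [h] at hG0
        exact ⟨i, hfi, by rw [hfj, hG0], hgi⟩
  obtain ⟨k, hk⟩ := hT y₀ hy₀
  have h1 := hglob y₀ hy₀ k hk p hpI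
  have h2 := hglob y₀ hy₀ k hk q hqI
  have h3 := hege y₀ hy₀
  by_cases hke : k = e
  · subst hke
    exact hcon ⟨k, hk, by linarith⟩
  · rcases hmono e k (Ne.symm hke) with hm | hm
    · have := hm hpI hy₀ hpy
      simp only at this
      linarith
    · have := hm hy₀ hqI hqy
      simp only at this
      linarith

/-- a direction avoiding finitely many lines -/
lemma exists_dir {κ : Type*} [Finite κ] (c : κ → ℂ) (hc : ∀ k, c k ≠ 0) :
    ∃ t : ℝ, ∀ k, (c k * (t + I)).re ≠ 0 := by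
  have hfin : (⋃ k, {t : ℝ | (c k * (t + I)).re = 0}).Finite := by
    apply Set.finite_iUnion
    intro k
    apply Set.Subsingleton.finite
    intro s hs t ht
    have e1 : ∀ s : ℝ, (c k * (s + I)).re = (c k).re * s - (c k).im := by
      intro s
      simp
    have hs' : (c k).re * s - (c k).im = 0 := by rw [← e1]; exact hs
    have ht' : (c k).re * t - (c k).im = 0 := by rw [← e1]; exact ht
    have hre : (c k).re ≠ 0 := by
      intro h
      rw [h] at hs'
      apply hc k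
      apply Complex.ext
      · exact h
      · rw [Complex.zero_im]; linarith
    have : (c k).re * (s - t) = 0 := by linarith
    rcases mul_eq_zero.1 this with h | h
    · exact absurd h hre
    · linarith
  obtain ⟨t, ht⟩ := hfin.infinite_compl.nonempty
  refine ⟨t, fun k hk => ht ?_⟩
  exact mem_iUnion.2 ⟨k, hk⟩

variable {ι : Type*} [Finite ι] {u : ℂ → ℝ} {A H : ι → ℂ → ℂ} {R C : ℝ}

/-- sectors -/
theorem Loc.sector (h : Loc ι u A H R C) {ω₀ : ℂ} (hω₀ : ω₀ ≠ 0) :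
    ∃ t : ℝ, ∃ η > 0, ∃ ε > 0, ∀ x ∈ Ioo (0 : ℝ) ε, ∀ y : ℝ, |y| ≤ η * x →
      ∃ k, Lt u R C (A k (x * ω₀ + y * (ω₀ * (t + I)))) (x * ω₀ + y * (ω₀ * (t + I))) ∧
        u (x * ω₀ + y * (ω₀ * (t + I))) = u 0 + (H k (x * ω₀ + y * (ω₀ * (t + I)))).re := by
  classical
  -- leading terms of the differences
  have hlead : ∀ p : {p : ι × ι // p.1 ≠ p.2}, ∃ (m : ℕ) (g : ℂ → ℂ), AnalyticAt ℂ g 0 ∧ g 0 ≠ 0 ∧
      ∀ᶠ z in 𝓝 (0 : ℂ), A p.1.1 z - A p.1.2 z = z ^ m * g z := by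
    intro p
    have h1 : ¬ ∀ᶠ z in 𝓝 (0 : ℂ), (A p.1.1 - A p.1.2) z = 0 := by
      intro hev
      apply h.hne p.1.1 p.1.2 p.2
      filter_upwards [hev] with z hz
      exact sub_eq_zero.1 hz
    obtain ⟨m, g, hg, hg0, hev⟩ :=
      ((h.Aan p.1.1).sub (h.Aan p.1.2)).exists_eventuallyEq_pow_smul_nonzero_iff.2 h1
    refine ⟨m, g, hg, hg0, ?_⟩
    filter_upwards [hev] with z hz
    rw [sub_zero, smul_eq_mul] at hz
    exact hz
  choose m g hg hg0 hlead using hlead
  obtain ⟨t, ht⟩ := exists_dir (fun p : {p : ι × ι // p.1 ≠ p.2} => ω₀ ^ m p * g p 0 * ω₀)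
    (fun p => mul_ne_zero (mul_ne_zero (pow_ne_zero _ hω₀) (hg0 p)) hω₀)
  set n : ℂ := ω₀ * (t + I) with hn
  -- definiteness
  have hdef : ∀ p : {p : ι × ι // p.1 ≠ p.2},
      (∀ᶠ q : ℝ × ℝ in 𝓝 (0, 0), 0 < q.1 →
        ((A p.1.1 (q.1 * (ω₀ + q.2 * n)) - A p.1.2 (q.1 * (ω₀ + q.2 * n))) * n).re < 0) ∨
      (∀ᶠ q : ℝ × ℝ in 𝓝 (0, 0), 0 < q.1 →
        0 < ((A p.1.1 (q.1 * (ω₀ + q.2 * n)) - A p.1.2 (q.1 * (ω₀ + q.2 * n))) * n).re) := by
    intro p
    have hline : Continuous fun q : ℝ × ℝ => (q.1 : ℂ) * (ω₀ + q.2 * n) := by fun_prop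
    have hlt : Tendsto (fun q : ℝ × ℝ => (q.1 : ℂ) * (ω₀ + q.2 * n)) (𝓝 (0, 0)) (𝓝 0) := by
      have := hline.tendsto (0, 0)
      simpa using this
    have hc : ContinuousAt (fun q : ℝ × ℝ =>
        ((ω₀ + q.2 * n) ^ m p * g p (q.1 * (ω₀ + q.2 * n)) * n).re) (0, 0) := by
      apply Complex.continuous_re.continuousAt.comp
      apply ContinuousAt.mul _ continuousAt_const
      apply ContinuousAt.mul
      · fun_prop
      · apply ContinuousAt.comp (g := g p) (f := fun q : ℝ × ℝ => (q.1 : ℂ) * (ω₀ + q.2 * n))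
        · simp only [Complex.ofReal_zero, zero_mul, add_zero]
          exact (hg p).continuousAt
        · exact hline.continuousAt
    have hval : ((ω₀ + ((0 : ℝ) : ℂ) * n) ^ m p * g p (((0 : ℝ) : ℂ) * (ω₀ + ((0 : ℝ) : ℂ) * n)) * n).re ≠ 0 := by
      have h1 := ht p
      simp only [Complex.ofReal_zero, zero_mul, add_zero]
      rw [hn, ← mul_assoc]
      exact h1
    have hexp : ∀ᶠ q : ℝ × ℝ in 𝓝 (0, 0),
        ((A p.1.1 (q.1 * (ω₀ + q.2 * n)) - A p.1.2 (q.1 * (ω₀ + q.2 * n))) * n).re =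
        q.1 ^ m p * ((ω₀ + q.2 * n) ^ m p * g p (q.1 * (ω₀ + q.2 * n)) * n).re := by
      filter_upwards [hlt.eventually (hlead p)] with q hq
      rw [hq]
      have : ((q.1 : ℂ) * (ω₀ + q.2 * n)) ^ m p * g p (q.1 * (ω₀ + q.2 * n)) * n =
          ((q.1 ^ m p : ℝ) : ℂ) * ((ω₀ + q.2 * n) ^ m p * g p (q.1 * (ω₀ + q.2 * n)) * n) := by
        rw [mul_pow]
        push_cast
        ring
      rw [this, Complex.re_ofReal_mul]
    rcases lt_or_gt_of_ne hval with h1 | h1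
    · left
      filter_upwards [hexp, hc.eventually (gt_mem_nhds h1)] with q hq1 hq2 hq3
      rw [hq1]
      exact mul_neg_of_pos_of_neg (pow_pos hq3 _) hq2
    · right
      filter_upwards [hexp, hc.eventually (lt_mem_nhds h1)] with q hq1 hq2 hq3
      rw [hq1]
      exact mul_pos (pow_pos hq3 _) hq2
  have hdef' : ∀ᶠ δ in 𝓝[>] (0 : ℝ), ∀ p : {p : ι × ι // p.1 ≠ p.2},
      (∀ q ∈ ball ((0, 0) : ℝ × ℝ) δ, 0 < q.1 →
        ((A p.1.1 (q.1 * (ω₀ + q.2 * n)) - A p.1.2 (q.1 * (ω₀ + q.2 * n))) * n).re < 0) ∨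
      (∀ q ∈ ball ((0, 0) : ℝ × ℝ) δ, 0 < q.1 →
        0 < ((A p.1.1 (q.1 * (ω₀ + q.2 * n)) - A p.1.2 (q.1 * (ω₀ + q.2 * n))) * n).re) := by
    rw [Filter.eventually_all]
    intro p
    rcases hdef p with h1 | h1
    · obtain ⟨δ, hδ0, hδ⟩ := Metric.eventually_nhds_iff_ball.1 h1
      filter_upwards [Ioo_mem_nhdsGT hδ0] with δ' hδ'
      exact Or.inl fun q hq => hδ q (ball_subset_ball hδ'.2.le hq)
    · obtain ⟨δ, hδ0, hδ⟩ := Metric.eventually_nhds_iff_ball.1 h1
      filter_upwards [Ioo_mem_nhdsGT hδ0] with δ' hδ'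
      exact Or.inr fun q hq => hδ q (ball_subset_ball hδ'.2.le hq)
  obtain ⟨δ, hδ, hδ0⟩ := (hdef'.and self_mem_nhdsWithin).exists
  have hδ0' : (0 : ℝ) < δ := hδ0
  set η : ℝ := δ / 2 with hη
  have hη0 : 0 < η := by positivity
  -- the boundary rays
  have hray : ∀ d : ℂ, ∀ᶠ s : ℝ in 𝓝[>] (0 : ℝ), ∀ j, Lt u R C (A j (s * d)) (s * d) →
      u (s * d) = u 0 + (H j (s * d)).re := by
    intro d
    exact h.holo_curve (γ := fun τ => τ * d) (analyticAt_id.mul analyticAt_const) (by simp)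
  -- the zero curves
  have hzc : ∀ᶠ z in 𝓝 (0 : ℂ), z ≠ 0 → ∀ i j, i ≠ j → (H i z).re = (H j z).re →
      ∀ k, Lt u R C (A k z) z → u z = u 0 + (H k z).re := by
    have : ∀ᶠ z in 𝓝 (0 : ℂ), ∀ i j, i ≠ j → z ≠ 0 → (H i z).re = (H j z).re →
      ∀ k, Lt u R C (A k z) z → u z = u 0 + (H k z).re := by
      rw [Filter.eventually_all]
      intro i
      rw [Filter.eventually_all]
      intro j
      by_cases hij : i = j
      · exact Eventually.of_forall fun z h' => absurd hij h'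
      · filter_upwards [h.zero_curve hij] with z hz _ using hz
    filter_upwards [this] with z hz hz0 i j hij using hz i j hij hz0
  obtain ⟨ρ, hρ0, hρ⟩ := Metric.eventually_nhds_iff_ball.1 hzc
  have hall : ∀ᶠ x : ℝ in 𝓝[>] (0 : ℝ),
      (∀ j, Lt u R C (A j (x * (ω₀ + η * n))) (x * (ω₀ + η * n)) →
        u (x * (ω₀ + η * n)) = u 0 + (H j (x * (ω₀ + η * n))).re) ∧
      (∀ j, Lt u R C (A j (x * (ω₀ - η * n))) (x * (ω₀ - η * n)) →
        u (x * (ω₀ - η * n)) = u 0 + (H j (x * (ω₀ - η * n))).re) ∧ x < δ ∧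
      x * (‖ω₀‖ + η * ‖n‖) < min R ρ := by
    have h1 : ∀ᶠ x in 𝓝 (0 : ℝ), x * (‖ω₀‖ + η * ‖n‖) < min R ρ := by
      have hc : Continuous fun x : ℝ => x * (‖ω₀‖ + η * ‖n‖) := by fun_prop
      exact hc.continuousAt.eventually_lt continuousAt_const
        (by rw [zero_mul]; exact lt_min h.hR hρ0)
    exact (hray _).and ((hray _).and ((eventually_nhdsWithin_of_eventually_nhds
      (gt_mem_nhds hδ0')).and (eventually_nhdsWithin_of_eventually_nhds h1)))
  obtain ⟨ε, hε0, hε⟩ := (mem_nhdsGT_iff_exists_Ioo_subset).1 hall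
  refine ⟨t, η, hη0, ε, hε0, ?_⟩
  intro x hx
  obtain ⟨hx1, hx2, hx3, hx4⟩ := hε hx
  have hx0 : 0 < x := hx.1
  -- the slice
  set σ : ℝ → ℂ := fun y => x * ω₀ + y * n with hσ
  set b : ℝ := η * x with hb
  have hb0 : 0 < b := by positivity
  have hσd : ∀ y, HasDerivAt σ n y := by
    intro y
    have h1 : HasDerivAt (fun y : ℝ => (y : ℂ) * n) n y := by
      simpa using (Complex.ofRealCLM.hasDerivAt (x := y)).mul_const n
    exact h1.const_add _
  have hσc : Continuous σ := by fun_prop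
  have hσn : ∀ y ∈ Icc (-b) b, ‖σ y‖ < min R ρ := by
    intro y hy
    refine lt_of_le_of_lt ?_ hx4
    simp only [hσ]
    refine (norm_add_le _ _).trans ?_
    rw [norm_mul, norm_mul, Complex.norm_real, Complex.norm_real, Real.norm_of_nonneg hx0.le,
      Real.norm_eq_abs]
    have : |y| ≤ η * x := abs_le.2 ⟨hy.1, hy.2⟩
    nlinarith [norm_nonneg n]
  have hσR : ∀ y ∈ Icc (-b) b, σ y ∈ ball (0 : ℂ) R := fun y hy => by
    rw [mem_ball_zero_iff]; exact (hσn y hy).trans_le (min_le_left _ _)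
  have hσρ : ∀ y ∈ Icc (-b) b, σ y ∈ ball (0 : ℂ) ρ := fun y hy => by
    rw [mem_ball_zero_iff]; exact (hσn y hy).trans_le (min_le_right _ _)
  have hσ0 : ∀ y, σ y ≠ 0 := by
    intro y h0
    have h1 : ω₀ * ((x + y * t : ℝ) + (y : ℝ) * I) = 0 := by
      rw [← h0, hσ, hn]
      push_cast
      ring
    rcases mul_eq_zero.1 h1 with h2 | h2
    · exact hω₀ h2
    · have h3 := congrArg Complex.re h2
      have h4 := congrArg Complex.im h2
      simp at h3 h4
      rw [h4] at h3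
      linarith
  have hσxy : ∀ y : ℝ, σ y = (x : ℂ) * (ω₀ + ((y / x : ℝ) : ℂ) * n) := by
    intro y
    simp only [hσ]
    have : (x : ℂ) ≠ 0 := by exact_mod_cast hx0.ne'
    push_cast
    field_simp
  have hqball : ∀ y ∈ Icc (-b) b, ((x, y / x) : ℝ × ℝ) ∈ ball ((0, 0) : ℝ × ℝ) δ := by
    intro y hy
    rw [mem_ball, Prod.dist_eq]
    apply max_lt
    · simp only [Real.dist_eq, sub_zero, abs_of_pos hx0]; exact hx3
    · simp only [Real.dist_eq, sub_zero]
      rw [abs_div, abs_of_pos hx0, div_lt_iff₀ hx0]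
      have : |y| ≤ η * x := abs_le.2 ⟨hy.1, hy.2⟩
      have : η * x < δ * x := by rw [hη]; nlinarith
      linarith
  have hstrict : ∀ i j, i ≠ j → (∀ y ∈ Icc (-b) b, (A i (σ y) * n).re < (A j (σ y) * n).re) ∨
      (∀ y ∈ Icc (-b) b, (A j (σ y) * n).re < (A i (σ y) * n).re) := by
    intro i j hij
    rcases hδ ⟨(i, j), hij⟩ with h1 | h1
    · left
      intro y hy
      have h2 := h1 (x, y / x) (hqball y hy) hx0
      simp only at h2
      rw [← hσxy, sub_mul, Complex.sub_re] at h2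
      linarith
    · right
      intro y hy
      have h2 := h1 (x, y / x) (hqball y hy) hx0
      simp only at h2
      rw [← hσxy, sub_mul, Complex.sub_re] at h2
      linarith
  have hGd : ∀ k, ∀ y ∈ Icc (-b) b, HasDerivAt (fun y => (H k (σ y)).re) ((A k (σ y) * n).re) y := by
    intro k y hy
    have g1 := (h.hH k _ (hσR y hy)).comp_of_eq y (hσd y) rfl
    exact (Complex.reCLM.hasFDerivAt (x := H k (σ y))).comp_hasDerivAt y g1
  have hslc : ∀ k, ContinuousOn (fun y => (A k (σ y) * n).re) (Icc (-b) b) := fun k =>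
    Complex.continuous_re.comp_continuousOn
      (((h.hA k).continuousOn.comp hσc.continuousOn hσR).mul continuousOn_const)
  have hfc : ContinuousOn (fun y => u (σ y)) (Icc (-b) b) := h.hu.comp hσc.continuousOn hσR
  have hslice := slice (ι := ι) (f := fun y => u (σ y)) (G := fun k y => (H k (σ y)).re)
    (T := fun k y => Lt u R C (A k (σ y)) (σ y)) (a := -b) (b := b) (c₀ := u 0) (by linarith)
    hfc (fun k y hy => (hGd k y hy).continuousAt.continuousWithinAt)
    (fun y hy => h.hL _ (hσR y hy))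
    (by
      intro k y hy hfr
      apply h.closed k (hσR y hy)
      have h1 : ∃ᶠ y' in 𝓝 y, Lt u R C (A k (σ y')) (σ y') := hfr.filter_mono nhdsWithin_le_nhds
      exact (hσc.tendsto y).frequently h1)
    (by
      intro y hy k hk
      exact glob (ι := ι) hfc (hGd k) (hslc k) (fun k y => (A k (σ y) * n).re) hslc
        (by
          intro y hy
          obtain ⟨k, hk⟩ := h.hL _ (hσR y hy)
          exact ⟨k, LS_of_sub (hk.local (hσR y hy)) (hσd y) rfl⟩)
        (by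
          intro i
          by_cases hik : i = k
          · left; intro y _; rw [hik]
          · rcases hstrict i k hik with h1 | h1
            · exact Or.inr (Or.inl h1)
            · exact Or.inr (Or.inr h1))
        hy (LS_of_sub (hk.local (hσR y hy)) (hσd y) rfl))
    (by
      intro i j hij
      have hdd : ∀ y ∈ Icc (-b) b, HasDerivAt (fun y => (H i (σ y)).re - (H j (σ y)).re)
          ((A i (σ y) * n).re - (A j (σ y) * n).re) y := fun y hy => (hGd i y hy).sub (hGd j y hy)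
      have hcc : ContinuousOn (fun y => (H i (σ y)).re - (H j (σ y)).re) (Icc (-b) b) :=
        fun y hy => (hdd y hy).continuousAt.continuousWithinAt
      rcases hstrict i j hij with h1 | h1
      · right
        apply strictAntiOn_of_deriv_neg (convex_Icc _ _) hcc
        intro y hy
        rw [interior_Icc] at hy
        have hy' : y ∈ Icc (-b) b := ⟨hy.1.le, hy.2.le⟩
        rw [(hdd y hy').deriv]
        linarith [h1 y hy']
      · left
        apply strictMonoOn_of_deriv_pos (convex_Icc _ _) hcc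
        intro y hy
        rw [interior_Icc] at hy
        have hy' : y ∈ Icc (-b) b := ⟨hy.1.le, hy.2.le⟩
        rw [(hdd y hy').deriv]
        linarith [h1 y hy'])
    (by
      intro k hk
      have e1 : σ (-b) = x * (ω₀ - η * n) := by
        simp only [hσ, hb]; push_cast; ring
      simp only [e1] at hk ⊢
      exact hx2 k hk)
    (by
      intro k hk
      have e1 : σ b = x * (ω₀ + η * n) := by
        simp only [hσ, hb]; push_cast; ring
      simp only [e1] at hk ⊢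
      exact hx1 k hk)
    (by
      intro y hy i j hij hG k hk
      exact hρ (σ y) (hσρ y hy) (hσ0 y) i j hij hG k hk)
  intro y hy
  exact hslice y (abs_le.1 hy)

/-- **The abstract local theorem.** -/
theorem Loc.main (h : Loc ι u A H R C) :
    ∀ᶠ z in 𝓝 (0 : ℂ), ∃ k, Lt u R C (A k z) z ∧ u z = u 0 + (H k z).re := by
  have key : ∀ ω₀ ∈ sphere (0 : ℂ) 1, ∃ δ > 0, ∀ z : ℂ, 0 < ‖z‖ → ‖z‖ < δ →
      ‖z / ‖z‖ - ω₀‖ < δ → ∃ k, Lt u R C (A k z) z ∧ u z = u 0 + (H k z).re := by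
    intro ω₀ hω₀
    have hn1 : ‖ω₀‖ = 1 := by simpa using hω₀
    have hne : ω₀ ≠ 0 := by
      intro h0
      rw [h0, norm_zero] at hn1
      exact zero_ne_one hn1
    obtain ⟨t, η, hη0, ε, hε0, hsec⟩ := h.sector hne
    -- coordinates
    set Y : ℂ → ℝ := fun z => (z / ω₀).im with hY
    set X : ℂ → ℝ := fun z => (z / ω₀).re - t * (z / ω₀).im with hX
    have hdecomp : ∀ z : ℂ, z = X z * ω₀ + Y z * (ω₀ * (t + I)) := by
      intro z
      have h1 : z = ω₀ * (z / ω₀) := by field_simp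
      conv_lhs => rw [h1, ← Complex.re_add_im (z / ω₀)]
      simp only [hX, hY]
      push_cast
      ring
    have hXc : Continuous X := by
      simp only [hX]
      fun_prop
    have hYc : Continuous Y := by
      simp only [hY]
      fun_prop
    have hX1 : X ω₀ = 1 := by simp [hX, div_self hne]
    have hY0 : Y ω₀ = 0 := by simp [hY, div_self hne]
    have hev : ∀ᶠ ω in 𝓝 ω₀, 0 < X ω ∧ X ω < 2 ∧ |Y ω| ≤ η * X ω := by
      have h1 : ∀ᶠ ω in 𝓝 ω₀, 1 / 2 < X ω :=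
        continuousAt_const.eventually_lt hXc.continuousAt (by rw [hX1]; norm_num)
      have h2 : ∀ᶠ ω in 𝓝 ω₀, X ω < 2 :=
        hXc.continuousAt.eventually_lt continuousAt_const (by rw [hX1]; norm_num)
      have h3 : ∀ᶠ ω in 𝓝 ω₀, |Y ω| < η / 2 :=
        hYc.abs.continuousAt.eventually_lt continuousAt_const
          (by rw [hY0, abs_zero]; positivity)
      filter_upwards [h1, h2, h3] with ω g1 g2 g3
      refine ⟨by linarith, g2, ?_⟩
      nlinarith
    obtain ⟨δ, hδ0, hδ⟩ := Metric.eventually_nhds_iff_ball.1 hev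
    refine ⟨min δ (ε / 2), by positivity, fun z hz0 hz1 hz2 => ?_⟩
    set ω : ℂ := z / ‖z‖ with hω
    have hωb : ω ∈ ball ω₀ δ := by
      rw [mem_ball, dist_eq_norm]
      exact hz2.trans_le (min_le_left _ _)
    obtain ⟨g1, g2, g3⟩ := hδ ω hωb
    have hzω : z = ‖z‖ * ω := by
      rw [hω]
      have : (‖z‖ : ℂ) ≠ 0 := by exact_mod_cast hz0.ne'
      field_simp
    have hXz : X z = ‖z‖ * X ω := by
      simp only [hX]
      have e1 : z / ω₀ = ((‖z‖ : ℝ) : ℂ) * (ω / ω₀) := by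
        conv_lhs => rw [hzω]
        ring
      rw [e1, Complex.re_ofReal_mul, Complex.im_ofReal_mul]
      ring
    have hYz : Y z = ‖z‖ * Y ω := by
      simp only [hY]
      have e1 : z / ω₀ = ((‖z‖ : ℝ) : ℂ) * (ω / ω₀) := by
        conv_lhs => rw [hzω]
        ring
      rw [e1, Complex.im_ofReal_mul]
    have h4 := hsec (X z) ⟨by rw [hXz]; positivity, by
      rw [hXz]
      have h5 : ‖z‖ < ε / 2 := hz1.trans_le (min_le_right _ _)
      nlinarith⟩ (Y z) (by
        rw [hXz, hYz, abs_mul, abs_of_pos hz0]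
        nlinarith)
    rwa [← hdecomp z] at h4
  choose! δ hδ0 hδ using key
  obtain ⟨s, hs, hcov⟩ := (isCompact_sphere (0 : ℂ) 1).elim_nhds_subcover
    (fun ω => ball ω (δ ω)) (fun ω hω => ball_mem_nhds ω (hδ0 ω hω))
  have hm : ∀ᶠ z in 𝓝 (0 : ℂ), ∀ ω ∈ s, ‖z‖ < δ ω := by
    rw [Filter.eventually_all_finset]
    intro ω hω
    have := ball_mem_nhds (0 : ℂ) (hδ0 ω (hs ω hω))
    filter_upwards [this] with z hz
    simpa using hz
  filter_upwards [hm] with z hz
  by_cases hz0 : z = 0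
  · obtain ⟨k, hk⟩ := h.hL 0 (mem_ball_self h.hR)
    refine ⟨k, by rw [hz0]; exact hk, ?_⟩
    rw [hz0, h.hH0]
    simp
  · have hzn : 0 < ‖z‖ := norm_pos_iff.2 hz0
    have hsph : z / ‖z‖ ∈ sphere (0 : ℂ) 1 := by
      rw [mem_sphere_zero_iff_norm, norm_div, Complex.norm_real, norm_norm, div_self hzn.ne']
    obtain ⟨ω, hω, hωb⟩ := mem_iUnion₂.1 (hcov hsph)
    apply hδ ω (hs ω hω) z hzn (hz ω hω)
    rw [mem_ball, dist_eq_norm] at hωb
    exact hωb

end Pool.Agent.T2h27.SA
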