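import Mathlib
import Pool.Agent.T2h27.SA.S10

/-!
# Coincidence of zero curves
-/

set_option autoImplicit false

open Metric Set Filter Topology Complex
open scoped ComplexConjugate

namespace Pool.Agent.T2h27.SA

lemma analyticAt_conj_conj {f : ℂ → ℂ} {x : ℂ} (hf : AnalyticAt ℂ f (conj x)) :
    AnalyticAt ℂ (fun w => conj (f (conj w))) x := by
  rw [Complex.analyticAt_iff_eventually_differentiableAt]
  have h1 : ∀ᶠ v in 𝓝 (conj x), DifferentiableAt ℂ f v :=
    Complex.analyticAt_iff_eventually_differentiableAt.1 hf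
  have h2 : ∀ᶠ w in 𝓝 x, DifferentiableAt ℂ f (conj w) :=
    (Complex.continuous_conj.tendsto x).eventually h1
  filter_upwards [h2] with w hw
  have h3 := hw.conj_conj
  rw [Complex.conj_conj] at h3
  exact h3

/-- local injectivity -/
lemma inj_near {f : ℂ → ℂ} {x : ℂ} (hf : AnalyticAt ℂ f x) (hd : deriv f x ≠ 0) :
    ∃ V ∈ 𝓝 x, InjOn f V := by
  have h := HasStrictDerivAt.eventually_left_inverse hf.hasStrictDerivAt hd
  refine ⟨_, h, ?_⟩
  intro a ha b hb hab
  have ha' : hf.hasStrictDerivAt.localInverse _ _ _ hd (f a) = a := ha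
  have hb' : hf.hasStrictDerivAt.localInverse _ _ _ hd (f b) = b := hb
  rw [← ha', ← hb', hab]

/-- if the zero curves of two harmonic functions without critical points share a sequence
accumulating at the point, then they coincide near the point -/
theorem zero_set {D E : ℂ → ℂ} {s₀ : ℂ} (hD : AnalyticAt ℂ D s₀) (hE : AnalyticAt ℂ E s₀)
    (hD' : deriv D s₀ ≠ 0) (hE' : deriv E s₀ ≠ 0) (hD0 : (D s₀).re = 0)
    (hfr : ∃ᶠ s in 𝓝[≠] s₀, (D s).re = 0 ∧ (E s).re = 0) :
    ∀ᶠ s in 𝓝 s₀, (E s).re = 0 ↔ (D s).re = 0 := by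
  set w₀ := D s₀ with hw₀
  set g := hD.hasStrictDerivAt.localInverse _ _ _ hD' with hg
  have hga : AnalyticAt ℂ g w₀ := hD.analyticAt_localInverse hD'
  have hleft : ∀ᶠ s in 𝓝 s₀, g (D s) = s :=
    HasStrictDerivAt.eventually_left_inverse hD.hasStrictDerivAt hD'
  have hright : ∀ᶠ w in 𝓝 w₀, D (g w) = w :=
    HasStrictDerivAt.eventually_right_inverse hD.hasStrictDerivAt hD'
  have hgw : g w₀ = s₀ := hleft.self_of_nhds
  have hgd : deriv g w₀ ≠ 0 := by
    have h1 := HasStrictDerivAt.to_localInverse hD.hasStrictDerivAt hD'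
    rw [h1.hasDerivAt.deriv]
    exact inv_ne_zero hD'
  set F : ℂ → ℂ := fun w => E (g w) with hF
  have hFa : AnalyticAt ℂ F w₀ := hE.comp_of_eq hga hgw
  have hFd : deriv F w₀ ≠ 0 := by
    have h1 : HasDerivAt E (deriv E s₀) (g w₀) := by
      rw [hgw]; exact hE.differentiableAt.hasDerivAt
    have h2 := h1.comp w₀ hga.differentiableAt.hasDerivAt
    have h3 : deriv F w₀ = deriv E s₀ * deriv g w₀ := h2.deriv
    rw [h3]
    exact mul_ne_zero hE' hgd
  have hrefl0 : -conj w₀ = w₀ := by
    apply Complex.ext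
    · rw [Complex.neg_re, Complex.conj_re, hD0, neg_zero]
    · simp
  have hconjw : conj w₀ = -w₀ := by rw [← neg_eq_iff_eq_neg]; exact hrefl0
  set G : ℂ → ℂ := fun w => -conj (F (-conj w)) with hG
  have hGa : AnalyticAt ℂ G w₀ := by
    have h1 : AnalyticAt ℂ (fun v => F (-v)) (conj w₀) := by
      apply hFa.comp_of_eq (analyticAt_id.neg)
      rw [hconjw]
      simp
    exact (analyticAt_conj_conj h1).neg
  have hcoin : ∃ᶠ w in 𝓝[≠] w₀, F w = G w := by
    have h1 : Tendsto D (𝓝[≠] s₀) (𝓝[≠] w₀) := by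
      apply tendsto_nhdsWithin_iff.2 ⟨hD.continuousAt.tendsto.mono_left nhdsWithin_le_nhds, ?_⟩
      obtain ⟨V, hV, hinj⟩ := inj_near hD hD'
      filter_upwards [mem_nhdsWithin_of_mem_nhds hV, self_mem_nhdsWithin] with s hs1 hs2 hs3
      exact hs2 (hinj hs1 (mem_of_mem_nhds hV) hs3)
    have h2 : ∃ᶠ s in 𝓝[≠] s₀, F (D s) = G (D s) := by
      refine (hfr.and_eventually (hleft.filter_mono nhdsWithin_le_nhds)).mono ?_
      rintro s ⟨⟨h3, h4⟩, h5⟩
      have h6 : -conj (D s) = D s := by
        apply Complex.ext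
        · rw [Complex.neg_re, Complex.conj_re, h3, neg_zero]
        · simp
      simp only [hG, h6]
      simp only [hF, h5]
      apply Complex.ext
      · rw [Complex.neg_re, Complex.conj_re, h4, neg_zero]
      · simp
    exact h1.frequently h2
  have hFG : ∀ᶠ w in 𝓝 w₀, F w = G w := (hFa.frequently_eq_iff_eventually_eq hGa).1 hcoin
  obtain ⟨V, hV, hinj⟩ := inj_near hFa hFd
  have hreflt : Tendsto (fun w : ℂ => -conj w) (𝓝 w₀) (𝓝 w₀) := by
    have h1 : Tendsto (fun w : ℂ => -conj w) (𝓝 w₀) (𝓝 (-conj w₀)) :=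
      (Complex.continuous_conj.neg).tendsto w₀
    rwa [hrefl0] at h1
  have key : ∀ᶠ w in 𝓝 w₀, (F w).re = 0 ↔ w.re = 0 := by
    filter_upwards [hFG, hV, hreflt.eventually hV] with w h1 h2 h3
    constructor
    · intro h4
      have h5 : F (-conj w) = F w := by
        have h6 : F w = -conj (F (-conj w)) := h1
        have h7 : conj (F w) = -F (-conj w) := by
          rw [h6, map_neg, Complex.conj_conj]
        have h8 : conj (F w) = -F w := by
          apply Complex.ext
          · rw [Complex.conj_re, Complex.neg_re, h4, neg_zero]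
          · simp
        rw [h8] at h7
        exact (neg_injective h7).symm
      have h9 := hinj h3 h2 h5
      have h10 := congrArg Complex.re h9
      rw [Complex.neg_re, Complex.conj_re] at h10
      linarith
    · intro h4
      have h5 : -conj w = w := by
        apply Complex.ext
        · rw [Complex.neg_re, Complex.conj_re, h4, neg_zero]
        · simp
      have h6 : F w = -conj (F (-conj w)) := h1
      rw [h5] at h6
      have h7 := congrArg Complex.re h6
      rw [Complex.neg_re, Complex.conj_re] at h7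
      linarith
  filter_upwards [hleft, hD.continuousAt.eventually key] with s h1 h2
  rw [← h2]
  simp only [hF, h1]

end Pool.Agent.T2h27.SA
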