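import Mathlib
import Pool.Agent.T2h27.SA.S11

/-!
# Structure of the exceptional set near the origin
-/

set_option autoImplicit false

open Metric Set Filter Topology Complex
open scoped ComplexConjugate

namespace Pool.Agent.T2h27.SA

/-- data of the local structure theorem -/
structure KLoc (ι : Type*) (u : ℂ → ℝ) (A H : ι → ℂ → ℂ) (R C : ℝ) (K : Set ℂ) : Prop
    extends Loc ι u A H R C where
  hKc : IsClosed K
  hoff : ∀ z ∈ ball (0 : ℂ) R, z ≠ 0 → z ∉ K →
    ∃ j, ∀ᶠ w in 𝓝 z, u w - (H j w).re = u z - (H j z).re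
  hon : ∀ z ∈ ball (0 : ℂ) R, z ≠ 0 → ∀ j,
    (∀ᶠ w in 𝓝 z, u w - (H j w).re = u z - (H j z).re) → z ∉ K
  hdense : ∀ z ∈ ball (0 : ℂ) R, ∀ V ∈ 𝓝 z, ∃ w ∈ V, w ∉ K
  hpt : ∀ i j, i ≠ j → ∀ z ∈ ball (0 : ℂ) R, z ≠ 0 → A i z ≠ A j z

lemma hasDerivAt_re {f : ℝ → ℂ} {f' : ℂ} {t : ℝ} (h : HasDerivAt f f' t) :
    HasDerivAt (fun s => (f s).re) f'.re t :=
  (Complex.reCLM.hasFDerivAt (x := f t)).comp_hasDerivAt t h

lemma re_const_deriv {D : ℂ → ℂ} {d z : ℂ} {c : ℝ} (h : HasDerivAt D d z)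
    (hc : ∀ᶠ w in 𝓝 z, (D w).re = c) : d = 0 := by
  have h1 : HasDerivAt (fun t : ℝ => z + (t : ℂ) * conj d) (conj d) 0 := by
    have h2 : HasDerivAt (fun y : ℝ => (y : ℂ) * conj d) (conj d) 0 := by
      simpa using (Complex.ofRealCLM.hasDerivAt (x := (0 : ℝ))).mul_const (conj d)
    exact h2.const_add _
  have h3 : HasDerivAt (fun t : ℝ => D (z + (t : ℂ) * conj d)) (d * conj d) 0 :=
    h.comp_of_eq (0 : ℝ) h1 (by simp)
  have h4 : HasDerivAt (fun t : ℝ => (D (z + (t : ℂ) * conj d)).re) ((d * conj d).re) 0 :=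
    hasDerivAt_re h3
  have h5 : HasDerivAt (fun t : ℝ => (D (z + (t : ℂ) * conj d)).re) 0 0 := by
    refine (hasDerivAt_const (0 : ℝ) c).congr_of_eventuallyEq ?_
    have h6 : Tendsto (fun t : ℝ => z + (t : ℂ) * conj d) (𝓝 0) (𝓝 z) := by
      have := h1.continuousAt.tendsto
      simpa using this
    exact h6.eventually hc
  have h7 := h4.unique h5
  rw [Complex.mul_conj, Complex.ofReal_re] at h7
  exact Complex.normSq_eq_zero.1 h7

variable {ι : Type*} [Finite ι] {u : ℂ → ℝ} {A H : ι → ℂ → ℂ} {R C : ℝ} {K : Set ℂ}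

omit [Finite ι] in
/-- a touching type at a point where the function has a type is this type -/
lemma KLoc.type_eq (h : KLoc ι u A H R C K) {z : ℂ} (hz : z ∈ ball (0 : ℂ) R) (hz0 : z ≠ 0) {j k : ι}
    (hj : ∀ᶠ w in 𝓝 z, u w - (H j w).re = u z - (H j z).re) (hk : Lt u R C (A k z) z) : k = j := by
  by_contra hne
  apply h.hpt k j hne z hz hz0
  rw [← sub_eq_zero]
  set d := A k z - A j z with hd
  have h1 : HasDerivAt (fun t : ℝ => z + (t : ℂ) * conj d) (conj d) 0 := by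
    have h2 : HasDerivAt (fun y : ℝ => (y : ℂ) * conj d) (conj d) 0 := by
      simpa using (Complex.ofRealCLM.hasDerivAt (x := (0 : ℝ))).mul_const (conj d)
    exact h2.const_add _
  have hz' : z + ((0 : ℝ) : ℂ) * conj d = z := by simp
  have h2 : LS (fun t : ℝ => u (z + (t : ℂ) * conj d)) ((A k z * conj d).re) 0 :=
    LS_of_sub (hk.local hz) h1 hz'
  have h3 : HasDerivAt (fun t : ℝ => H j (z + (t : ℂ) * conj d)) (A j z * conj d) 0 :=
    (h.hH j z hz).comp_of_eq (0 : ℝ) h1 hz'.symm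
  have h4 : HasDerivAt (fun t : ℝ => (H j (z + (t : ℂ) * conj d)).re) ((A j z * conj d).re) 0 :=
    hasDerivAt_re h3
  have h5 := (h2.sub_hasDerivAt h4).zero_of_max (by
    have h6 : Tendsto (fun t : ℝ => z + (t : ℂ) * conj d) (𝓝 0) (𝓝 z) := by
      have := h1.continuousAt.tendsto
      rwa [hz'] at this
    filter_upwards [h6.eventually hj] with t ht
    rw [ht, hz'])
  rw [← Complex.sub_re, ← sub_mul, ← hd, Complex.mul_conj, Complex.ofReal_re] at h5
  exact Complex.normSq_eq_zero.1 h5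

/-- the function is equal to a primitive with the constant of the origin -/
def GT (u : ℂ → ℝ) (H : ι → ℂ → ℂ) (j : ι) (z : ℂ) : Prop := ∀ᶠ w in 𝓝 z, u w = u 0 + (H j w).re

omit [Finite ι] in
lemma GT.nhds {j : ι} {z : ℂ} (h : GT u H j z) : ∀ᶠ w in 𝓝 z, GT u H j w := h.eventually_nhds

omit [Finite ι] in
lemma KLoc.GT_unique (h : KLoc ι u A H R C K) {z : ℂ} (hz : z ∈ ball (0 : ℂ) R) (hz0 : z ≠ 0) {i j : ι}
    (hi : GT u H i z) (hj : GT u H j z) : i = j := by
  by_contra hne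
  apply h.hpt i j hne z hz hz0
  rw [← sub_eq_zero]
  apply re_const_deriv ((h.hH i z hz).sub (h.hH j z hz)) (c := 0)
  filter_upwards [hi, hj] with w h1 h2
  rw [Pi.sub_apply, Complex.sub_re]
  linarith

/-- the good neighbourhood -/
lemma KLoc.good (h : KLoc ι u A H R C K) : ∃ ρ > 0, ρ ≤ R ∧
    ∀ z ∈ ball (0 : ℂ) ρ, z ≠ 0 → z ∉ K → ∃ j, GT u H j z := by
  obtain ⟨ρ, hρ0, hρ⟩ := Metric.eventually_nhds_iff_ball.1 h.toLoc.main
  refine ⟨min ρ R, lt_min hρ0 h.hR, min_le_right _ _, ?_⟩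
  intro z hz hz0 hzK
  have hzR : z ∈ ball (0 : ℂ) R := ball_subset_ball (min_le_right _ _) hz
  obtain ⟨j, hj⟩ := h.hoff z hzR hz0 hzK
  obtain ⟨k, hk1, hk2⟩ := hρ z (ball_subset_ball (min_le_left _ _) hz)
  have hkj := h.type_eq hzR hz0 hj hk1
  subst hkj
  refine ⟨k, ?_⟩
  filter_upwards [hj] with w hw
  linarith

/-- points of the exceptional set are on zero curves -/
lemma KLoc.on_curve (h : KLoc ι u A H R C K) {ρ : ℝ} (hρR : ρ ≤ R)
    (hgood : ∀ z ∈ ball (0 : ℂ) ρ, z ≠ 0 → z ∉ K → ∃ j, GT u H j z) {z : ℂ}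
    (hz : z ∈ ball (0 : ℂ) ρ) (hz0 : z ≠ 0) (hzK : z ∈ K) :
    ∃ i j, i ≠ j ∧ (H i z - H j z).re = 0 := by
  by_contra hcon
  push Not at hcon
  have hzR : z ∈ ball (0 : ℂ) R := ball_subset_ball hρR hz
  have hHc : ∀ i, ContinuousAt (fun w => u 0 + (H i w).re) z := fun i =>
    continuousAt_const.add (Complex.continuous_re.continuousAt.comp (h.hH i z hzR).continuousAt)
  have huc : ContinuousAt u z := h.hu.continuousAt (isOpen_ball.mem_nhds hzR)
  have hnear : ∀ᶠ w in 𝓝 z, ∀ i, u z ≠ u 0 + (H i z).re → u w ≠ u 0 + (H i w).re := by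
    rw [Filter.eventually_all]
    intro i
    by_cases hi : u z = u 0 + (H i z).re
    · exact Eventually.of_forall fun w hw => absurd hi hw
    · filter_upwards [(huc.ne_iff_eventually_ne (hHc i)).1 hi] with w hw _ using hw
  have hne0 : ∀ᶠ w in 𝓝 z, w ≠ 0 := isOpen_ne.mem_nhds hz0
  have hbr : ∀ᶠ w in 𝓝 z, w ∈ ball (0 : ℂ) ρ := isOpen_ball.mem_nhds hz
  have hall := hnear.and (hne0.and hbr)
  -- the index
  obtain ⟨w₁, ⟨g1, g2, g3⟩, hw₁K⟩ := h.hdense z hzR _ hall
  obtain ⟨j, hj⟩ := hgood w₁ g3 g2 hw₁K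
  have hjz : u z = u 0 + (H j z).re := by
    by_contra hne
    exact g1 j hne hj.self_of_nhds
  have huniq : ∀ i, u z = u 0 + (H i z).re → i = j := by
    intro i hi
    by_contra hne
    apply hcon i j hne
    rw [Complex.sub_re]
    linarith
  -- off `K` the function is `H j`
  have hoff : ∀ᶠ w in 𝓝 z, w ∉ K → u w = u 0 + (H j w).re := by
    filter_upwards [hall] with w hw hwK
    obtain ⟨i, hi⟩ := hgood w hw.2.2 hw.2.1 hwK
    have hij : i = j := by
      apply huniq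
      by_contra hne
      exact hw.1 i hne hi.self_of_nhds
    rw [← hij]
    exact hi.self_of_nhds
  have hev : ∀ᶠ w in 𝓝 z, u w - (H j w).re = u z - (H j z).re := by
    have h1 := hoff.eventually_nhds
    have hRev : ∀ᶠ w in 𝓝 z, w ∈ ball (0 : ℂ) R := isOpen_ball.mem_nhds hzR
    filter_upwards [h1, hRev] with w hw hwR
    have hc : ContinuousAt (fun w => u w - (u 0 + (H j w).re)) w :=
      (h.hu.continuousAt (isOpen_ball.mem_nhds hwR)).sub
        (continuousAt_const.add (Complex.continuous_re.continuousAt.comp (h.hH j w hwR).continuousAt))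
    have h2 : u w - (u 0 + (H j w).re) = 0 := by
      by_contra hne
      have h3 := hc.eventually_ne hne
      obtain ⟨w', ⟨h4, h5⟩, h6⟩ := h.hdense w hwR _ (hw.and h3)
      exact h5 (sub_eq_zero.2 (h4 h6))
    linarith
  exact h.hon z hzR hz0 j hev hzK

/-- a locally constant type on a preconnected set is constant -/
lemma type_const {S : Set ℂ} (hS : IsPreconnected S) {P : ι → ℂ → Prop}
    (hex : ∀ w ∈ S, ∃ j, P j w) (hopen : ∀ w ∈ S, ∀ j, P j w → ∀ᶠ w' in 𝓝[S] w, P j w')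
    (huniq : ∀ w ∈ S, ∀ i j, P i w → P j w → i = j) {w₁ : ℂ} (hw₁ : w₁ ∈ S) :
    ∃ j, ∀ w ∈ S, P j w := by
  classical
  let _ : TopologicalSpace ι := ⊥
  have : DiscreteTopology ι := ⟨rfl⟩
  have : Nonempty ι := ⟨(hex w₁ hw₁).choose⟩
  choose! τ hτ using hex
  have hc : ContinuousOn τ S := by
    intro w hw
    have h1 : ∀ᶠ w' in 𝓝[S] w, τ w' = τ w := by
      filter_upwards [hopen w hw _ (hτ w hw), self_mem_nhdsWithin] with w' h2 h3
      exact huniq w' h3 _ _ (hτ w' h3) h2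
    exact (tendsto_const_nhds (x := τ w)).congr' (h1.mono fun _ h => h.symm)
  refine ⟨τ w₁, fun w hw => ?_⟩
  have := hS.constant hc hw hw₁
  rw [← this]
  exact hτ w hw

/-- local analysis at a point of the exceptional set -/
lemma KLoc.local_open (h : KLoc ι u A H R C K) {ρ : ℝ} (hρR : ρ ≤ R)
    (hgood : ∀ z ∈ ball (0 : ℂ) ρ, z ≠ 0 → z ∉ K → ∃ j, GT u H j z) {s₀ : ℂ}
    (hs : s₀ ∈ ball (0 : ℂ) ρ) (hs0 : s₀ ≠ 0) (hsK : s₀ ∈ K) {i j : ι} (hij : i ≠ j)
    (hD0 : (H i s₀ - H j s₀).re = 0)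
    (hfr : ∀ i' j', i' ≠ j' → (H i' s₀ - H j' s₀).re = 0 →
      ∃ᶠ s in 𝓝[≠] s₀, (H i s - H j s).re = 0 ∧ (H i' s - H j' s).re = 0) :
    ∀ᶠ s in 𝓝 s₀, (H i s - H j s).re = 0 → s ∈ K := by
  have hsR : s₀ ∈ ball (0 : ℂ) R := ball_subset_ball hρR hs
  have hHd : ∀ k, DifferentiableOn ℂ (H k) (ball 0 R) := fun k z hz =>
    (h.hH k z hz).differentiableAt.differentiableWithinAt
  have hDan : ∀ i' j', AnalyticAt ℂ (fun s => H i' s - H j' s) s₀ := fun i' j' =>
    ((hHd i').analyticAt (isOpen_ball.mem_nhds hsR)).sub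
      ((hHd j').analyticAt (isOpen_ball.mem_nhds hsR))
  have hDd : ∀ i' j', i' ≠ j' → deriv (fun s => H i' s - H j' s) s₀ ≠ 0 := by
    intro i' j' hne
    rw [show (fun s => H i' s - H j' s) = H i' - H j' from rfl,
      ((h.hH i' s₀ hsR).sub (h.hH j' s₀ hsR)).deriv]
    exact sub_ne_zero.2 (h.hpt i' j' hne s₀ hsR hs0)
  set D : ℂ → ℂ := fun s => H i s - H j s with hD
  -- (1) near the point the exceptional set is on the curve
  have h1 : ∀ᶠ s in 𝓝 s₀, s ∈ K → (D s).re = 0 := by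
    have h2 : ∀ᶠ s in 𝓝 s₀, ∀ i' j', i' ≠ j' → (H i' s - H j' s).re = 0 → (D s).re = 0 := by
      rw [Filter.eventually_all]
      intro i'
      rw [Filter.eventually_all]
      intro j'
      by_cases hne : i' = j'
      · exact Eventually.of_forall fun s h' => absurd hne h'
      · by_cases h0 : (H i' s₀ - H j' s₀).re = 0
        · have h3 := zero_set (hDan i j) (hDan i' j') (hDd i j hij) (hDd i' j' hne) hD0
            (hfr i' j' hne h0)
          filter_upwards [h3] with s hs3 _ hs4 using hs3.1 hs4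
        · have h4 : ContinuousAt (fun s => (H i' s - H j' s).re) s₀ :=
            Complex.continuous_re.continuousAt.comp (hDan i' j').continuousAt
          filter_upwards [h4.eventually_ne h0] with s hs4 _ hs5 using absurd hs5 hs4
    have hne0 : ∀ᶠ w in 𝓝 s₀, w ≠ 0 := isOpen_ne.mem_nhds hs0
    have hbr : ∀ᶠ w in 𝓝 s₀, w ∈ ball (0 : ℂ) ρ := isOpen_ball.mem_nhds hs
    filter_upwards [h2, hne0, hbr] with s g1 g2 g3 g4
    obtain ⟨i', j', hne, h5⟩ := h.on_curve hρR hgood g3 g2 g4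
    exact g1 i' j' hne h5
  -- the local inverse
  set w₀ := D s₀ with hw₀
  have hw0re : w₀.re = 0 := hD0
  set g := (hDan i j).hasStrictDerivAt.localInverse _ _ _ (hDd i j hij) with hg
  have hga : AnalyticAt ℂ g w₀ := (hDan i j).analyticAt_localInverse (hDd i j hij)
  have hleft : ∀ᶠ s in 𝓝 s₀, g (D s) = s :=
    HasStrictDerivAt.eventually_left_inverse (hDan i j).hasStrictDerivAt (hDd i j hij)
  have hright : ∀ᶠ w in 𝓝 w₀, D (g w) = w :=
    HasStrictDerivAt.eventually_right_inverse (hDan i j).hasStrictDerivAt (hDd i j hij)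
  have hgw : g w₀ = s₀ := hleft.self_of_nhds
  have hgt : Tendsto g (𝓝 w₀) (𝓝 s₀) := by
    have := hga.continuousAt.tendsto
    rwa [hgw] at this
  have hNE : ∀ᶠ s in 𝓝 s₀, (s ∈ K → (D s).re = 0) ∧ s ≠ 0 ∧ s ∈ ball (0 : ℂ) ρ := by
    have hne0 : ∀ᶠ w in 𝓝 s₀, w ≠ 0 := isOpen_ne.mem_nhds hs0
    have hbr : ∀ᶠ w in 𝓝 s₀, w ∈ ball (0 : ℂ) ρ := isOpen_ball.mem_nhds hs
    exact h1.and (hne0.and hbr)
  have hallw : ∀ᶠ w in 𝓝 w₀, D (g w) = w ∧ ContinuousAt g w ∧
      ((g w ∈ K → (D (g w)).re = 0) ∧ g w ≠ 0 ∧ g w ∈ ball (0 : ℂ) ρ) :=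
    hright.and ((hga.eventually_analyticAt.mono fun w hw => hw.continuousAt).and
      (hgt.eventually hNE))
  obtain ⟨r, hr0, hr⟩ := Metric.eventually_nhds_iff_ball.1 hallw
  have hgR : ∀ w ∈ ball w₀ r, g w ∈ ball (0 : ℂ) R := fun w hw =>
    ball_subset_ball hρR (hr w hw).2.2.2.2
  -- the type on a half ball
  have htype : ∀ σ : ℝ, σ ≠ 0 → ∃ k, ∀ w ∈ ball w₀ r ∩ {w | 0 < σ * w.re}, GT u H k (g w) := by
    intro σ hσ
    set S : Set ℂ := ball w₀ r ∩ {w | 0 < σ * w.re} with hS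
    have hconv : Convex ℝ S := by
      apply (convex_ball _ _).inter
      have : {w : ℂ | 0 < σ * w.re} = (σ • Complex.reLm) ⁻¹' (Ioi 0) := by
        ext w
        simp
      rw [this]
      exact (convex_Ioi 0).linear_preimage _
    have hnotK : ∀ w ∈ S, g w ∉ K := by
      intro w hw hK
      have h5 := (hr w hw.1).2.2.1 hK
      rw [(hr w hw.1).1] at h5
      have h6 : 0 < σ * w.re := hw.2
      rw [h5, mul_zero] at h6
      exact lt_irrefl _ h6
    -- a point of the half ball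
    have hpt : w₀ + ((r / 2 * (σ / |σ|) : ℝ) : ℂ) ∈ S := by
      constructor
      · have h20 : |r / 2 * (σ / |σ|)| = r / 2 := by
          have h21 : |(σ / |σ|)| = 1 := by rw [abs_div, abs_abs, div_self (abs_ne_zero.2 hσ)]
          rw [abs_mul, h21, mul_one, abs_of_pos (by positivity)]
        rw [mem_ball, dist_eq_norm, add_sub_cancel_left, Complex.norm_real, Real.norm_eq_abs, h20]
        linarith
      · show 0 < σ * (w₀ + ((r / 2 * (σ / |σ|) : ℝ) : ℂ)).re
        rw [Complex.add_re, hw0re, zero_add, Complex.ofReal_re]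
        have h7 : σ * (r / 2 * (σ / |σ|)) = r / 2 * |σ| := by
          have : σ * σ = |σ| * |σ| := (abs_mul_abs_self σ).symm
          have h8 : |σ| ≠ 0 := abs_ne_zero.2 hσ
          field_simp
          nlinarith
        rw [h7]
        positivity
    exact type_const hconv.isPreconnected (P := fun k w => GT u H k (g w))
      (fun w hw => hgood _ (hr w hw.1).2.2.2.2 (hr w hw.1).2.2.2.1 (hnotK w hw))
      (fun w hw k hk =>
        ((hr w hw.1).2.1.eventually hk.nhds).filter_mono nhdsWithin_le_nhds)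
      (fun w hw i' j' hi' hj' =>
        h.GT_unique (hgR w hw.1) (hr w hw.1).2.2.2.1 hi' hj') hpt
  obtain ⟨a, ha⟩ := htype 1 one_ne_zero
  obtain ⟨b, hb⟩ := htype (-1) (by norm_num)
  -- density of the half balls
  have hdens : ∀ w ∈ ball w₀ r, ∀ σ : ℝ, σ ≠ 0 → w.re = 0 →
      ∃ᶠ w' in 𝓝 w, w' ∈ ball w₀ r ∩ {w | 0 < σ * w.re} := by
    intro w hw σ hσ hwre
    have h8 : Tendsto (fun t : ℝ => w + ((t * σ : ℝ) : ℂ)) (𝓝[>] 0) (𝓝 w) := by
      have h9 : Continuous fun t : ℝ => w + ((t * σ : ℝ) : ℂ) := by fun_prop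
      have h10 := h9.tendsto 0
      simp only [zero_mul, Complex.ofReal_zero, add_zero] at h10
      exact h10.mono_left nhdsWithin_le_nhds
    apply h8.frequently
    apply Eventually.frequently
    filter_upwards [h8.eventually (isOpen_ball.mem_nhds hw), self_mem_nhdsWithin] with t g1 g2
    refine ⟨g1, ?_⟩
    show 0 < σ * (w + ((t * σ : ℝ) : ℂ)).re
    rw [Complex.add_re, hwre, zero_add, Complex.ofReal_re]
    have g3 : (0 : ℝ) < t := g2
    have g4 : 0 < σ * σ := mul_self_pos.2 hσ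
    nlinarith
  have hab : a ≠ b := by
    intro hab
    subst hab
    -- the function is `H a` near the point
    have h9 : ∀ w ∈ ball w₀ r, u (g w) = u 0 + (H a (g w)).re := by
      intro w hw
      rcases lt_trichotomy w.re 0 with h10 | h10 | h10
      · exact (hb w ⟨hw, by show 0 < -1 * w.re; linarith⟩).self_of_nhds
      · by_contra hne
        have hcu : ContinuousAt (fun w => u (g w)) w :=
          ContinuousAt.comp (f := g) (g := u) (h.hu.continuousAt (isOpen_ball.mem_nhds (hgR w hw)))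
            (hr w hw).2.1
        have hcH : ContinuousAt (fun w => u 0 + (H a (g w)).re) w := by
          apply continuousAt_const.add
          apply Complex.continuous_re.continuousAt.comp
          exact ContinuousAt.comp (f := g) (g := H a) (h.hH a _ (hgR w hw)).continuousAt
            (hr w hw).2.1
        have h11 := (hcu.ne_iff_eventually_ne hcH).1 hne
        obtain ⟨w', h12, h13⟩ := ((hdens w hw 1 one_ne_zero h10).and_eventually h11).exists
        exact h13 (ha w' h12).self_of_nhds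
      · exact (ha w ⟨hw, by show 0 < 1 * w.re; linarith⟩).self_of_nhds
    apply h.hon s₀ hsR hs0 a _ hsK
    have hDs : ∀ᶠ s in 𝓝 s₀, D s ∈ ball w₀ r :=
      (hDan i j).continuousAt.eventually (isOpen_ball.mem_nhds (mem_ball_self hr0))
    have h14 : ∀ᶠ s in 𝓝 s₀, u s = u 0 + (H a s).re := by
      filter_upwards [hDs, hleft] with s g1 g2
      have := h9 _ g1
      rwa [g2] at this
    have h15 := h14.self_of_nhds
    filter_upwards [h14] with s hs14
    rw [hs14, h15]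
    ring
  -- conclusion
  have hDs : ∀ᶠ s in 𝓝 s₀, D s ∈ ball w₀ r :=
    (hDan i j).continuousAt.eventually (isOpen_ball.mem_nhds (mem_ball_self hr0))
  filter_upwards [hDs, hleft, hNE] with s g1 g2 g3 g4
  by_contra hsK'
  obtain ⟨k, hk⟩ := hgood s g3.2.2 g3.2.1 hsK'
  have hkg : GT u H k (g (D s)) := by rw [g2]; exact hk
  have hev : ∀ᶠ w' in 𝓝 (D s), GT u H k (g w') := (hr _ g1).2.1.eventually hkg.nhds
  have hka : k = a := by
    obtain ⟨w', h12, h13⟩ := ((hdens _ g1 1 one_ne_zero g4).and_eventually hev).exists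
    exact h.GT_unique (hgR w' h12.1) (hr w' h12.1).2.2.2.1 h13 (ha w' h12)
  have hkb : k = b := by
    obtain ⟨w', h12, h13⟩ := ((hdens _ g1 (-1) (by norm_num) g4).and_eventually hev).exists
    exact h.GT_unique (hgR w' h12.1) (hr w' h12.1).2.2.2.1 h13 (hb w' h12)
  exact hab (hka.symm.trans hkb)

end Pool.Agent.T2h27.SA
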