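import Mathlib
import Pool.Agent.T2h27.SA.S12

/-!
# The exceptional set is a finite union of curve germs
-/

set_option autoImplicit false

open Metric Set Filter Topology Complex
open scoped ComplexConjugate

namespace Pool.Agent.T2h27.SA

variable {ι : Type*} [Finite ι] {u : ℂ → ℝ} {A H : ι → ℂ → ℂ} {R C : ℝ} {K : Set ℂ}

lemma tendsto_ofReal0 : Tendsto (fun s : ℝ => (s : ℂ)) (𝓝 0) (𝓝 (0 : ℂ)) := by
  have := Complex.continuous_ofReal.tendsto 0
  rwa [Complex.ofReal_zero] at this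

lemma eventually_Ioo {P : ℝ → Prop} (hP : ∀ᶠ s in 𝓝[>] (0 : ℝ), P s) :
    ∀ᶠ b in 𝓝[>] (0 : ℝ), ∀ s ∈ Ioo (0 : ℝ) b, P s := by
  obtain ⟨u', hu', hu2⟩ := (mem_nhdsGT_iff_exists_Ioo_subset).1 hP
  have hu0 : (0 : ℝ) < u' := hu'
  filter_upwards [Ioo_mem_nhdsGT hu0] with b hb s hs
  exact hu2 ⟨hs.1, hs.2.trans hb.2⟩

/-- a curve germ is contained in the exceptional set or disjoint from it -/
theorem KLoc.curve_all (h : KLoc ι u A H R C K) {i j : ι} (hij : i ≠ j) {f : ℂ → ℂ}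
    (hf : AnalyticAt ℂ f 0) (hf0 : f 0 = 0) (hf' : deriv f 0 ≠ 0)
    (hre : ∀ᶠ t : ℝ in 𝓝[>] (0 : ℝ), (H i (f t) - H j (f t)).re = 0) :
    (∀ᶠ t : ℝ in 𝓝[>] (0 : ℝ), f t ∈ K) ∨ (∀ᶠ t : ℝ in 𝓝[>] (0 : ℝ), f t ∉ K) := by
  classical
  obtain ⟨ρ, hρ0, hρR, hgood⟩ := h.good
  have hft : Tendsto f (𝓝 0) (𝓝 0) := by
    have := hf.continuousAt.tendsto
    rwa [hf0] at this
  have hfrt : Tendsto (fun t : ℝ => f t) (𝓝[>] 0) (𝓝 0) :=
    (hft.comp tendsto_ofReal0).mono_left nhdsWithin_le_nhds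
  have hne : ∀ᶠ t : ℝ in 𝓝[>] (0 : ℝ), f t ≠ 0 := by
    have h1 : ∀ᶠ z in 𝓝[≠] (0 : ℂ), f z ≠ 0 := by
      have := hf.differentiableAt.hasDerivAt.eventually_ne hf' (c := (0 : ℂ))
      simpa [hf0] using this
    have h2 : Tendsto (fun t : ℝ => (t : ℂ)) (𝓝[>] 0) (𝓝[≠] 0) := by
      apply tendsto_nhdsWithin_iff.2 ⟨tendsto_ofReal0.mono_left nhdsWithin_le_nhds, ?_⟩
      filter_upwards [self_mem_nhdsWithin] with t ht
      have ht' : (0 : ℝ) < t := ht
      rw [mem_compl_singleton_iff]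
      exact_mod_cast ht'.ne'
    exact h2.eventually h1
  have hball : ∀ᶠ t : ℝ in 𝓝[>] (0 : ℝ), f t ∈ ball (0 : ℂ) ρ :=
    hfrt.eventually (isOpen_ball.mem_nhds (mem_ball_self hρ0))
  have hder : ∀ᶠ t : ℝ in 𝓝[>] (0 : ℝ), AnalyticAt ℂ f t ∧ deriv f t ≠ 0 := by
    have h1 : ∀ᶠ z in 𝓝 (0 : ℂ), AnalyticAt ℂ f z ∧ deriv f z ≠ 0 :=
      hf.eventually_analyticAt.and (hf.deriv.continuousAt.eventually_ne hf')
    exact (tendsto_ofReal0.mono_left nhdsWithin_le_nhds).eventually h1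
  have hpairs : ∀ᶠ b in 𝓝[>] (0 : ℝ), ∀ i' j',
      (∀ t ∈ Ioo (0 : ℝ) b, (H i' (f t) - H j' (f t)).re = 0) ∨
      (∀ t ∈ Ioo (0 : ℝ) b, (H i' (f t) - H j' (f t)).re ≠ 0) := by
    rw [Filter.eventually_all]
    intro i'
    rw [Filter.eventually_all]
    intro j'
    have h1 : AnalyticAt ℂ (fun τ => H i' (f τ) - H j' (f τ)) 0 :=
      ((h.Han i').comp_of_eq hf hf0).sub ((h.Han j').comp_of_eq hf hf0)
    rcases analytic_sign (analytic_re_real h1) with h2 | h2 | h2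
    · filter_upwards [eventually_Ioo h2] with b hb using Or.inl hb
    · filter_upwards [eventually_Ioo h2] with b hb using Or.inr fun t ht => (hb t ht).ne
    · filter_upwards [eventually_Ioo h2] with b hb using Or.inr fun t ht => (hb t ht).ne'
  obtain ⟨b, ⟨hb1, hb2⟩, hb0⟩ := ((hpairs.and (eventually_Ioo
    (hre.and (hne.and (hball.and hder))))).and self_mem_nhdsWithin).exists
  have hb0' : (0 : ℝ) < b := hb0
  -- locally constant
  set τ : ℝ → Bool := fun t => decide (f t ∈ K) with hτ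
  have hcont : ContinuousOn τ (Ioo 0 b) := by
    intro t ht
    obtain ⟨g1, g2, g3, g4, g5⟩ := hb2 t ht
    have hfc : Tendsto (fun t : ℝ => f t) (𝓝 t) (𝓝 (f t)) :=
      ContinuousAt.comp (f := fun t : ℝ => (t : ℂ)) (g := f) g4.continuousAt
        Complex.continuous_ofReal.continuousAt
    have hIt : ∀ᶠ t' in 𝓝 t, t' ∈ Ioo 0 b := Ioo_mem_nhds ht.1 ht.2
    have hev : ∀ᶠ t' in 𝓝 t, τ t' = τ t := by
      by_cases hK : f t ∈ K
      · have h3 := h.local_open hρR hgood g3 g2 hK hij g1 (by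
          intro i' j' hne' h0
          have hall : ∀ s ∈ Ioo (0 : ℝ) b, (H i' (f s) - H j' (f s)).re = 0 := by
            rcases hb1 i' j' with h4 | h4
            · exact h4
            · exact absurd h0 (h4 t ht)
          -- the curve accumulates
          have h5 : Tendsto (fun s : ℝ => f s) (𝓝[≠] t) (𝓝[≠] (f t)) := by
            apply tendsto_nhdsWithin_iff.2 ⟨hfc.mono_left nhdsWithin_le_nhds, ?_⟩
            have h6 : HasDerivAt (fun s : ℝ => f s) (deriv f t) t :=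
              g4.differentiableAt.hasDerivAt.comp_ofReal
            exact h6.eventually_ne g5
          apply h5.frequently
          apply Eventually.frequently
          filter_upwards [hIt.filter_mono nhdsWithin_le_nhds] with s hs
          exact ⟨(hb2 s hs).1, hall s hs⟩)
        filter_upwards [hfc.eventually h3, hIt] with t' h7 h8
        have h9 : f t' ∈ K := h7 (hb2 t' h8).1
        simp [hτ, hK, h9]
      · have h3 : ∀ᶠ t' : ℝ in 𝓝 t, f t' ∉ K := hfc.eventually (h.hKc.isOpen_compl.mem_nhds hK)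
        filter_upwards [h3] with t' h9
        simp [hτ, hK, h9]
    have : ContinuousAt τ t := (tendsto_const_nhds (x := τ t)).congr' (hev.mono fun _ h' => h'.symm)
    exact this.continuousWithinAt
  have hconst := fun {x y : ℝ} (hx : x ∈ Ioo 0 b) (hy : y ∈ Ioo 0 b) =>
    isPreconnected_Ioo.constant hcont hx hy
  by_cases hex : ∃ t ∈ Ioo (0 : ℝ) b, f t ∈ K
  · obtain ⟨t, ht, htK⟩ := hex
    left
    filter_upwards [Ioo_mem_nhdsGT hb0'] with s hs
    have := hconst hs ht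
    simp only [hτ, decide_eq_decide] at this
    exact this.2 htK
  · right
    push Not at hex
    filter_upwards [Ioo_mem_nhdsGT hb0'] with s hs using hex s hs

/-- **The exceptional set near the origin is a finite union of curve germs.** -/
theorem KLoc.curves (h : KLoc ι u A H R C K) :
    ∃ F : Set (ℂ → ℂ), F.Finite ∧ (∀ f ∈ F, AnalyticAt ℂ f 0 ∧ f 0 = 0 ∧ deriv f 0 ≠ 0 ∧
      ∀ᶠ t : ℝ in 𝓝[>] (0 : ℝ), f t ∈ K) ∧
      ∀ ε > 0, ∀ᶠ z in 𝓝 (0 : ℂ), z ∈ K → z ≠ 0 → ∃ f ∈ F, ∃ t ∈ Ioo (0 : ℝ) ε, z = f t := by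
  classical
  have hnf : ∀ p : {p : ι × ι // p.1 ≠ p.2}, ∃ (m : ℕ) (φ G : ℂ → ℂ), 0 < m ∧ AnalyticAt ℂ φ 0 ∧
      AnalyticAt ℂ G 0 ∧ φ 0 = 0 ∧ G 0 = 0 ∧ deriv G 0 ≠ 0 ∧
      (∀ᶠ z in 𝓝 (0 : ℂ), H p.1.1 z - H p.1.2 z = φ z ^ m) ∧ (∀ᶠ z in 𝓝 (0 : ℂ), G (φ z) = z) ∧
      (∀ᶠ w in 𝓝 (0 : ℂ), φ (G w) = w) := fun p =>
    normal_form ((h.Han p.1.1).sub (h.Han p.1.2)) (by simp [h.hH0]) (h.H_ne p.2)
  choose m φ G hm hφa hGa hφ0 hG0 hGd hDφ hGφ hφG using hnf
  have hfin : ∀ p, {ω : ℂ | ω ^ (2 * m p) = -1}.Finite := by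
    intro p
    have hp : (Polynomial.X ^ (2 * m p) - Polynomial.C (-1 : ℂ)) ≠ 0 :=
      Polynomial.X_pow_sub_C_ne_zero (by have := hm p; omega) _
    refine ((Polynomial.X ^ (2 * m p) - Polynomial.C (-1 : ℂ)).roots.toFinset.finite_toSet).subset ?_
    intro ω hω
    rw [Finset.mem_coe, Multiset.mem_toFinset, Polynomial.mem_roots hp, Polynomial.IsRoot,
      Polynomial.eval_sub, Polynomial.eval_pow, Polynomial.eval_X, Polynomial.eval_C]
    have : ω ^ (2 * m p) = -1 := hω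
    rw [this]; ring
  set F₀ : Set (ℂ → ℂ) := ⋃ p, (fun ω : ℂ => fun τ : ℂ => G p (ω * τ)) '' {ω : ℂ | ω ^ (2 * m p) = -1}
    with hF₀
  have hF₀fin : F₀.Finite := Set.finite_iUnion fun p => (hfin p).image _
  -- properties of the curves
  have hprop : ∀ f ∈ F₀, AnalyticAt ℂ f 0 ∧ f 0 = 0 ∧ deriv f 0 ≠ 0 ∧
      ((∀ᶠ t : ℝ in 𝓝[>] (0 : ℝ), f t ∈ K) ∨ (∀ᶠ t : ℝ in 𝓝[>] (0 : ℝ), f t ∉ K)) := by
    intro f hf
    obtain ⟨p, hp⟩ := mem_iUnion.1 hf
    obtain ⟨ω, hω, rfl⟩ := hp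
    have hω' : ω ^ (2 * m p) = -1 := hω
    have hω0 : ω ≠ 0 := by
      intro h0
      rw [h0, zero_pow (by have := hm p; omega)] at hω'
      norm_num at hω'
    have hlin : HasDerivAt (fun τ : ℂ => ω * τ) ω 0 := by
      simpa using (hasDerivAt_id (0 : ℂ)).const_mul ω
    have ha : AnalyticAt ℂ (fun τ : ℂ => G p (ω * τ)) 0 :=
      (hGa p).comp_of_eq (analyticAt_const.mul analyticAt_id) (by simp)
    have h0 : G p (ω * 0) = 0 := by rw [mul_zero]; exact hG0 p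
    have hd : deriv (fun τ : ℂ => G p (ω * τ)) 0 ≠ 0 := by
      have h1 : HasDerivAt (G p) (deriv (G p) 0) (ω * 0) := by
        rw [mul_zero]; exact (hGa p).differentiableAt.hasDerivAt
      have h2 := h1.comp (0 : ℂ) hlin
      have h3 : deriv (fun τ : ℂ => G p (ω * τ)) 0 = deriv (G p) 0 * ω := h2.deriv
      rw [h3]
      exact mul_ne_zero (hGd p) hω0
    refine ⟨ha, h0, hd, ?_⟩
    apply h.curve_all p.2 ha h0 hd
    have hωre : (ω ^ m p).re = 0 := by
      have h4 : (ω ^ m p) ^ 2 = -1 := by rw [← pow_mul, mul_comm]; exact hω'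
      have h5 := congrArg Complex.re h4
      have h6 := congrArg Complex.im h4
      rw [sq, Complex.mul_re, Complex.neg_re, Complex.one_re] at h5
      rw [sq, Complex.mul_im, Complex.neg_im, Complex.one_im] at h6
      have h7 : (ω ^ m p).re * (ω ^ m p).im = 0 := by linarith
      rcases mul_eq_zero.1 h7 with h8 | h8
      · exact h8
      · rw [h8] at h5
        nlinarith [sq_nonneg (ω ^ m p).re]
    have hωt : Tendsto (fun t : ℝ => ω * (t : ℂ)) (𝓝[>] 0) (𝓝 0) := by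
      have h9 : Continuous fun t : ℝ => ω * (t : ℂ) := by fun_prop
      have h10 := h9.tendsto 0
      simp only [Complex.ofReal_zero, mul_zero] at h10
      exact h10.mono_left nhdsWithin_le_nhds
    have hGt : Tendsto (G p) (𝓝 0) (𝓝 0) := by
      have := (hGa p).continuousAt.tendsto
      rwa [hG0 p] at this
    filter_upwards [(hGt.comp hωt).eventually (hDφ p), hωt.eventually (hφG p)] with t h11 h12
    have h13 : H p.1.1 (G p (ω * t)) - H p.1.2 (G p (ω * t)) = (ω * t) ^ m p := by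
      have h14 : H p.1.1 (G p (ω * t)) - H p.1.2 (G p (ω * t)) = φ p (G p (ω * t)) ^ m p := h11
      rw [h14, h12]
    show (H p.1.1 (G p (ω * t)) - H p.1.2 (G p (ω * t))).re = 0
    rw [h13, mul_pow]
    have h15 : ω ^ m p * (t : ℂ) ^ m p = ((t ^ m p : ℝ) : ℂ) * ω ^ m p := by push_cast; ring
    rw [h15, Complex.re_ofReal_mul, hωre, mul_zero]
  set F : Set (ℂ → ℂ) := {f ∈ F₀ | ∀ᶠ t : ℝ in 𝓝[>] (0 : ℝ), f t ∈ K} with hF
  refine ⟨F, hF₀fin.subset (fun f hf => hf.1), ?_, ?_⟩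
  · intro f hf
    obtain ⟨g1, g2, g3, -⟩ := hprop f hf.1
    exact ⟨g1, g2, g3, hf.2⟩
  · intro ε hε
    -- a common parameter interval
    have hbad : ∀ᶠ b in 𝓝[>] (0 : ℝ), ∀ f ∈ F₀, f ∉ F → ∀ t ∈ Ioo (0 : ℝ) b, f t ∉ K := by
      rw [hF₀fin.eventually_all]
      intro f hf
      by_cases hfF : f ∈ F
      · exact Eventually.of_forall fun b h' => absurd hfF h'
      · rcases (hprop f hf).2.2.2 with h1 | h1
        · exact absurd ⟨hf, h1⟩ hfF
        · filter_upwards [eventually_Ioo h1] with b hb _ using hb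
    obtain ⟨b, hb1, hb2⟩ := (hbad.and (Ioo_mem_nhdsGT hε)).exists
    obtain ⟨ρ, hρ0, hρR, hgood⟩ := h.good
    have hφt : ∀ᶠ z in 𝓝 (0 : ℂ), ∀ p, ‖φ p z‖ < b ∧ H p.1.1 z - H p.1.2 z = φ p z ^ m p ∧
        G p (φ p z) = z := by
      rw [Filter.eventually_all]
      intro p
      have h1 : ∀ᶠ z in 𝓝 (0 : ℂ), ‖φ p z‖ < b :=
        (hφa p).continuousAt.norm.eventually_lt continuousAt_const
          (by rw [hφ0 p, norm_zero]; exact hb2.1)
      filter_upwards [h1, hDφ p, hGφ p] with z g1 g2 g3 using ⟨g1, g2, g3⟩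
    filter_upwards [hφt, ball_mem_nhds (0 : ℂ) hρ0] with z hz hzρ hzK hz0
    obtain ⟨i, j, hij, hre⟩ := h.on_curve hρR hgood hzρ hz0 hzK
    obtain ⟨h1, h2, h3⟩ := hz ⟨(i, j), hij⟩
    set p : {p : ι × ι // p.1 ≠ p.2} := ⟨(i, j), hij⟩ with hp
    have hφz : φ p z ≠ 0 := by
      intro h4
      rw [h4, hG0] at h3
      exact hz0 h3.symm
    set s : ℝ := ‖φ p z‖ with hs
    have hs0 : 0 < s := norm_pos_iff.2 hφz
    have hsC : (s : ℂ) ≠ 0 := by exact_mod_cast hs0.ne'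
    set ω : ℂ := φ p z / s with hω
    have hωs : ω * s = φ p z := by rw [hω]; field_simp
    have hωn : ‖ω‖ = 1 := by
      rw [hω, norm_div, Complex.norm_real, Real.norm_of_nonneg hs0.le, ← hs, div_self hs0.ne']
    have hωm : ω ^ (2 * m p) = -1 := by
      have h5 : (φ p z ^ m p).re = 0 := by
        rw [← h2]
        exact hre
      have h6 : (ω ^ m p).re = 0 := by
        have h7 : φ p z ^ m p = ((s ^ m p : ℝ) : ℂ) * ω ^ m p := by
          rw [← hωs, mul_pow]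
          push_cast
          ring
        rw [h7, Complex.re_ofReal_mul] at h5
        rcases mul_eq_zero.1 h5 with h8 | h8
        · exact absurd h8 (pow_pos hs0 _).ne'
        · exact h8
      have h9 : ‖ω ^ m p‖ = 1 := by rw [norm_pow, hωn, one_pow]
      have h10 : (ω ^ m p).im ^ 2 = 1 := by
        have h11 : ‖ω ^ m p‖ ^ 2 = (ω ^ m p).re * (ω ^ m p).re + (ω ^ m p).im * (ω ^ m p).im := by
          rw [Complex.sq_norm, Complex.normSq_apply]
        rw [h9, h6] at h11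
        nlinarith
      rw [mul_comm, pow_mul]
      apply Complex.ext
      · rw [sq, Complex.mul_re, h6, Complex.neg_re, Complex.one_re]
        nlinarith
      · rw [sq, Complex.mul_im, h6, Complex.neg_im, Complex.one_im]
        ring
    have hzf : z = G p (ω * s) := by rw [hωs]; exact h3.symm
    have hfF₀ : (fun τ : ℂ => G p (ω * τ)) ∈ F₀ := mem_iUnion.2 ⟨p, ω, hωm, rfl⟩
    have hfF : (fun τ : ℂ => G p (ω * τ)) ∈ F := by
      by_contra hcon
      have := hb1 _ hfF₀ hcon s ⟨hs0, h1⟩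
      apply this
      show G p (ω * s) ∈ K
      rw [← hzf]
      exact hzK
    exact ⟨_, hfF, s, ⟨hs0, h1.trans hb2.2⟩, hzf⟩

end Pool.Agent.T2h27.SA
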