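import Mathlib

/-!
# Regularised logarithmic kernels
-/

set_option autoImplicit false

open MeasureTheory Metric Set Filter Topology Complex
open scoped ENNReal ComplexConjugate Real

namespace Pool.Agent.T2h27.SA

/-- the average of the Cauchy kernel over a disc -/
noncomputable def kk (r : ℝ) (z : ℂ) : ℂ := conj z / ((max (‖z‖ ^ 2) (r ^ 2) : ℝ) : ℂ)

/-- the profile of the regularised logarithm -/
noncomputable def ph (r : ℝ) (t : ℝ) : ℝ :=
  Real.log r - 1 / 2 + ∫ s in (0 : ℝ)..t, (2 * max s (r ^ 2))⁻¹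

/-- the average of the logarithmic kernel over a disc -/
noncomputable def lk (r : ℝ) (z : ℂ) : ℝ := ph r (‖z‖ ^ 2)

/-- the average of the logarithmic kernel over a circle -/
noncomputable def mk (r : ℝ) (z : ℂ) : ℝ := Real.log r + Real.posLog (r⁻¹ * ‖z‖)

lemma ph_cont {r : ℝ} (hr : 0 < r) : Continuous fun s : ℝ => (2 * max s (r ^ 2))⁻¹ := by
  apply Continuous.inv₀ (by fun_prop)
  intro s
  have : 0 < max s (r ^ 2) := lt_max_of_lt_right (by positivity)
  positivity

lemma hasDerivAt_ph {r : ℝ} (hr : 0 < r) (t : ℝ) :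
    HasDerivAt (ph r) ((2 * max t (r ^ 2))⁻¹) t := by
  have h := intervalIntegral.integral_hasDerivAt_right ((ph_cont hr).intervalIntegrable 0 t)
    (ph_cont hr).aestronglyMeasurable.stronglyMeasurableAtFilter (ph_cont hr).continuousAt
  exact h.const_add _

lemma ph_of_le {r : ℝ} (hr : 0 < r) {t : ℝ} (ht : t ≤ r ^ 2) (ht0 : 0 ≤ t) :
    ph r t = Real.log r - 1 / 2 + t / (2 * r ^ 2) := by
  unfold ph
  have : ∫ s in (0 : ℝ)..t, (2 * max s (r ^ 2))⁻¹ = ∫ _ in (0 : ℝ)..t, (2 * r ^ 2)⁻¹ := by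
    apply intervalIntegral.integral_congr
    intro s hs
    rw [uIcc_of_le ht0] at hs
    show (2 * max s (r ^ 2))⁻¹ = (2 * r ^ 2)⁻¹
    rw [max_eq_right (hs.2.trans ht)]
  rw [this, intervalIntegral.integral_const, sub_zero, smul_eq_mul, div_eq_mul_inv t]

lemma ph_of_ge {r : ℝ} (hr : 0 < r) {t : ℝ} (ht : r ^ 2 ≤ t) :
    ph r t = Real.log t / 2 := by
  have h1 : ph r t = ph r (r ^ 2) + ∫ s in (r ^ 2)..t, (2 * max s (r ^ 2))⁻¹ := by
    unfold ph
    rw [add_assoc, intervalIntegral.integral_add_adjacent_intervals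
      ((ph_cont hr).intervalIntegrable _ _) ((ph_cont hr).intervalIntegrable _ _)]
  have h2 : ∫ s in (r ^ 2)..t, (2 * max s (r ^ 2))⁻¹ = ∫ s in (r ^ 2)..t, (1 / 2) * s⁻¹ := by
    apply intervalIntegral.integral_congr
    intro s hs
    rw [uIcc_of_le ht] at hs
    show (2 * max s (r ^ 2))⁻¹ = (1 / 2) * s⁻¹
    rw [max_eq_left hs.1, mul_inv]
    norm_num
  have hr2 : 0 < r ^ 2 := by positivity
  rw [h1, h2, ph_of_le hr le_rfl (by positivity), intervalIntegral.integral_const_mul,
    integral_inv_of_pos hr2 (hr2.trans_le ht), Real.log_div (hr2.trans_le ht).ne' hr2.ne',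
    Real.log_pow]
  field_simp
  push_cast
  ring

lemma lk_of_ge {r : ℝ} (hr : 0 < r) {z : ℂ} (hz : r ≤ ‖z‖) : lk r z = Real.log ‖z‖ := by
  unfold lk
  rw [ph_of_ge hr (by gcongr), Real.log_pow]
  push_cast
  ring

lemma lk_of_le {r : ℝ} (hr : 0 < r) {z : ℂ} (hz : ‖z‖ ≤ r) :
    lk r z = Real.log r - 1 / 2 + ‖z‖ ^ 2 / (2 * r ^ 2) := by
  unfold lk
  rw [ph_of_le hr (by gcongr) (by positivity)]

lemma mk_of_ge {r : ℝ} (hr : 0 < r) {z : ℂ} (hz : r ≤ ‖z‖) : mk r z = Real.log ‖z‖ := by
  unfold mk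
  have h1 : 1 ≤ |r⁻¹ * ‖z‖| := by
    rw [abs_of_nonneg (by positivity), ← div_eq_inv_mul, le_div_iff₀ hr, one_mul]
    exact hz
  rw [Real.posLog_eq_log h1, Real.log_mul (by positivity) (hr.trans_le hz).ne', Real.log_inv]
  ring

lemma mk_of_le {r : ℝ} (hr : 0 < r) {z : ℂ} (hz : ‖z‖ ≤ r) : mk r z = Real.log r := by
  unfold mk
  have h1 : |r⁻¹ * ‖z‖| ≤ 1 := by
    rw [abs_of_nonneg (by positivity), ← div_eq_inv_mul, div_le_one hr]
    exact hz
  rw [(Real.posLog_eq_zero_iff _).2 h1, add_zero]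

lemma lk_sub_mk {r : ℝ} (hr : 0 < r) (z : ℂ) :
    |lk r z - mk r z| ≤ (closedBall (0 : ℂ) r).indicator (fun _ => (1 / 2 : ℝ)) z := by
  by_cases hz : ‖z‖ ≤ r
  · rw [indicator_of_mem (mem_closedBall_zero_iff.2 hz), lk_of_le hr hz, mk_of_le hr hz, abs_le]
    have h1 : ‖z‖ ^ 2 / (2 * r ^ 2) ≤ 1 / 2 := by
      rw [div_le_div_iff₀ (by positivity) (by norm_num)]
      have : ‖z‖ ^ 2 ≤ r ^ 2 := by gcongr
      linarith
    have h2 : 0 ≤ ‖z‖ ^ 2 / (2 * r ^ 2) := by positivity
    constructor <;> linarith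
  · rw [indicator_of_notMem (by simpa using hz)]
    rw [lk_of_ge hr (not_le.1 hz).le, mk_of_ge hr (not_le.1 hz).le, sub_self, abs_zero]

lemma mk_continuous (r : ℝ) : Continuous (mk r) := by
  unfold mk
  exact continuous_const.add (Real.continuous_posLog.comp (by fun_prop))

lemma mk_abs_le {r : ℝ} (hr : 0 < r) (z : ℂ) : |mk r z| ≤ |Real.log r| + r⁻¹ * ‖z‖ := by
  unfold mk
  have h1 : Real.posLog (r⁻¹ * ‖z‖) ≤ r⁻¹ * ‖z‖ := by
    rw [Real.posLog_apply, max_le_iff]
    refine ⟨by positivity, ?_⟩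
    exact (Real.log_le_self (by positivity))
  have h2 : 0 ≤ Real.posLog (r⁻¹ * ‖z‖) := Real.posLog_nonneg
  refine (abs_add_le _ _).trans ?_
  rw [abs_of_nonneg h2]
  linarith

/-- sub-mean value property of the kernel -/
lemma mk_sub_mean {r : ℝ} (hr : 0 < r) (c ζ : ℂ) (R : ℝ) :
    mk r (c - ζ) ≤ Real.circleAverage (fun z => mk r (z - ζ)) c R := by
  by_cases hR : R = 0
  · rw [hR, Real.circleAverage_zero]
  have hci : CircleIntegrable (fun z => mk r (z - ζ)) c R :=
    (((mk_continuous r).comp (by fun_prop)).continuousOn).circleIntegrable'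
  have h1 : Real.log r ≤ Real.circleAverage (fun z => mk r (z - ζ)) c R := by
    have h2 : Real.circleAverage (fun _ : ℂ => Real.log r) c R = Real.log r :=
      Real.circleAverage_const _ _ _
    rw [← h2]
    apply Real.circleAverage_mono (by fun_prop) hci
    intro x _
    unfold mk
    linarith [Real.posLog_nonneg (x := r⁻¹ * ‖x - ζ‖)]
  have h3 : Real.log ‖c - ζ‖ ≤ Real.circleAverage (fun z => mk r (z - ζ)) c R ∨ c - ζ = 0 := by
    by_cases hcζ : c - ζ = 0
    · exact Or.inr hcζ
    left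
    have h4 := circleAverage_log_norm_sub_const_eq_log_radius_add_posLog (a := ζ) (c := c) hR
    have h5 : Real.log ‖c - ζ‖ ≤ Real.log R + Real.posLog (R⁻¹ * ‖c - ζ‖) := by
      have h6 : Real.log (R⁻¹ * ‖c - ζ‖) ≤ Real.posLog (R⁻¹ * ‖c - ζ‖) := by
        rw [Real.posLog_apply]
        exact le_max_right _ _
      rw [Real.log_mul (inv_ne_zero hR) (norm_ne_zero_iff.2 hcζ), Real.log_inv] at h6
      linarith
    refine h5.trans (h4.symm.le.trans ?_)
    have hci2 : CircleIntegrable (fun z => Real.log ‖z - ζ‖) c R := by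
      apply MeromorphicOn.circleIntegrable_log_norm
      intro z _
      fun_prop
    have h7 : Real.circleAverage (fun z => Real.log r + Real.posLog (r⁻¹ * ‖z - ζ‖)) c R =
      Real.circleAverage (fun z => mk r (z - ζ)) c R := rfl
    rw [← h7]
    have hci3 : CircleIntegrable (fun z => Real.log ‖z - ζ‖) c R := hci2
    -- compare through the integral, away from the point
    have hle : ∀ z : ℂ, z ≠ ζ → Real.log ‖z - ζ‖ ≤ mk r (z - ζ) := by
      intro z hz
      unfold mk
      have h8 : Real.log (r⁻¹ * ‖z - ζ‖) ≤ Real.posLog (r⁻¹ * ‖z - ζ‖) := by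
        rw [Real.posLog_apply]
        exact le_max_right _ _
      rw [Real.log_mul (inv_ne_zero hr.ne') (norm_ne_zero_iff.2 (sub_ne_zero.2 hz)),
        Real.log_inv] at h8
      linarith
    set g : ℂ → ℝ := fun z => if z = ζ then mk r 0 else Real.log ‖z - ζ‖ with hg
    have hcg : Real.circleAverage (fun z => Real.log ‖z - ζ‖) c R = Real.circleAverage g c R := by
      apply Real.circleAverage_congr_codiscreteWithin _ hR
      have : {z : ℂ | z ≠ ζ} ∈ codiscreteWithin (sphere c |R|) := by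
        apply mem_codiscreteWithin.2 ?_
        intro x hx
        rw [disjoint_principal_right]
        have : {x}ᶜ ∈ 𝓝[≠] x := self_mem_nhdsWithin
        by_cases hxζ : x = ζ
        · subst hxζ
          filter_upwards [self_mem_nhdsWithin] with y hy
          intro hy2
          exact hy2.2 hy
        · have : {ζ}ᶜ ∈ 𝓝[≠] x := mem_nhdsWithin_of_mem_nhds (isOpen_compl_singleton.mem_nhds hxζ)
          filter_upwards [this] with y hy
          intro hy2
          exact hy2.2 hy
      filter_upwards [this] with z hz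
      rw [hg]
      simp [hz]
    have hcg' : CircleIntegrable g c R := by
      refine (circleIntegrable_congr_codiscreteWithin (f₁ := fun z => Real.log ‖z - ζ‖) ?_).1 hci3
      have : {z : ℂ | z ≠ ζ} ∈ codiscreteWithin (sphere c |R|) := by
        apply mem_codiscreteWithin.2 ?_
        intro x hx
        rw [disjoint_principal_right]
        by_cases hxζ : x = ζ
        · subst hxζ
          filter_upwards [self_mem_nhdsWithin] with y hy
          intro hy2
          exact hy2.2 hy
        · have : {ζ}ᶜ ∈ 𝓝[≠] x := mem_nhdsWithin_of_mem_nhds (isOpen_compl_singleton.mem_nhds hxζ)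
          filter_upwards [this] with y hy
          intro hy2
          exact hy2.2 hy
      filter_upwards [this] with z hz
      rw [hg]
      simp [hz]
    rw [hcg]
    apply Real.circleAverage_mono hcg' hci
    intro z _
    by_cases hz : z = ζ
    · rw [hg]
      simp [hz]
    · rw [hg]
      simp only [hz, if_false]
      exact hle z hz
  by_cases hcr : ‖c - ζ‖ ≤ r
  · rw [mk_of_le hr hcr]
    exact h1
  · rw [mk_of_ge hr (not_le.1 hcr).le]
    rcases h3 with h3 | h3
    · exact h3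
    · exfalso
      apply hcr
      rw [h3, norm_zero]
      exact hr.le

end Pool.Agent.T2h27.SA
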