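import Mathlib
import Pool.Agent.H586R3.CT8
import Pool.Agent.T2h27.SA.S1

/-!
# The Cauchy transform of a disc
-/

set_option autoImplicit false

open MeasureTheory Metric Set Filter Topology Complex
open scoped ENNReal ComplexConjugate Real

namespace Pool.Agent.T2h27.SA

open Pool.Agent.H586R3.CT

/-- polar coordinates on a disc -/
lemma integral_polar_ball (x : ℂ) (r : ℝ) {f : ℂ → ℂ} (hfm : Measurable f)
    (hf : IntegrableOn f (ball x r)) :
    ∫ z in ball x r, f z =
      ∫ ρ in Ioo 0 r, ∫ θ in Ioo (-Real.pi) Real.pi, (ρ : ℂ) * f (cp x ρ θ) := by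
  have h1 : ∫ z in ball x r, f z = ∫ z, (ball (0 : ℂ) r).indicator (fun z => f (x + z)) z := by
    rw [← integral_indicator measurableSet_ball, ← integral_add_left_eq_self _ x]
    apply integral_congr_ae
    refine Eventually.of_forall fun z => ?_
    by_cases hz : z ∈ ball (0 : ℂ) r
    · have : x + z ∈ ball x r := by
        rw [mem_ball, dist_eq_norm, add_sub_cancel_left]; simpa using hz
      simp only [indicator_of_mem hz, indicator_of_mem this]
    · have : x + z ∉ ball x r := by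
        rw [mem_ball, dist_eq_norm, add_sub_cancel_left]; simpa using hz
      simp only [indicator_of_notMem hz, indicator_of_notMem this]
  rw [h1, ← Complex.integral_comp_polarCoord_symm]
  have htarget : polarCoord.target = Ioi (0 : ℝ) ×ˢ Ioo (-Real.pi) Real.pi := rfl
  rw [htarget]
  have h2 : ∫ p in Ioi (0 : ℝ) ×ˢ Ioo (-Real.pi) Real.pi, p.1 •
        (ball (0 : ℂ) r).indicator (fun z => f (x + z)) (Complex.polarCoord.symm p) =
      ∫ p in Ioi (0 : ℝ) ×ˢ Ioo (-Real.pi) Real.pi,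
        (Iio r ×ˢ univ).indicator (fun p : ℝ × ℝ => (p.1 : ℂ) * f (cp x p.1 p.2)) p := by
    apply setIntegral_congr_fun (measurableSet_Ioi.prod measurableSet_Ioo)
    rintro ⟨ρ, θ⟩ ⟨hρ, _⟩
    have hρ0 : (0 : ℝ) < ρ := hρ
    have e1 : Complex.polarCoord.symm (ρ, θ) = ρ * Complex.exp (θ * I) := by
      rw [Complex.polarCoord_symm_apply, Complex.exp_mul_I]
      push_cast
      ring
    show ρ • (ball (0 : ℂ) r).indicator (fun z => f (x + z))
      (Complex.polarCoord.symm (ρ, θ)) = (Iio r ×ˢ univ).indicator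
        (fun p : ℝ × ℝ => (p.1 : ℂ) * f (cp x p.1 p.2)) (ρ, θ)
    rw [e1]
    have e2 : ‖(ρ : ℂ) * Complex.exp (θ * I)‖ = ρ := by
      rw [norm_mul, Complex.norm_exp_ofReal_mul_I, mul_one, Complex.norm_real,
        Real.norm_of_nonneg hρ0.le]
    by_cases hr : ρ < r
    · rw [indicator_of_mem (show ((ρ, θ) : ℝ × ℝ) ∈ Iio r ×ˢ univ from ⟨hr, mem_univ _⟩),
        indicator_of_mem]
      · rw [Complex.real_smul]
        rfl
      · rw [mem_ball_zero_iff, e2]; exact hr
    · rw [indicator_of_notMem (show ((ρ, θ) : ℝ × ℝ) ∉ Iio r ×ˢ univ from fun h => hr h.1),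
        indicator_of_notMem]
      · simp
      · rw [mem_ball_zero_iff, e2]; exact hr
  rw [h2, setIntegral_indicator (measurableSet_Iio.prod MeasurableSet.univ)]
  have h3 : Ioi (0 : ℝ) ×ˢ Ioo (-Real.pi) Real.pi ∩ Iio r ×ˢ univ =
      Ioo 0 r ×ˢ Ioo (-Real.pi) Real.pi := by
    ext ⟨a, b⟩
    simp only [mem_inter_iff, mem_prod, mem_Ioi, mem_Ioo, mem_Iio, mem_univ]
    tauto
  rw [h3]
  apply setIntegral_prod
  -- integrability on the rectangle
  have hm : Measurable (fun p : ℝ × ℝ => (p.1 : ℂ) * f (cp x p.1 p.2)) :=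
    (Complex.measurable_ofReal.comp measurable_fst).mul (hfm.comp (cp_continuous x).measurable)
  refine ⟨hm.aestronglyMeasurable, ?_⟩
  rw [hasFiniteIntegral_iff_enorm]
  rw [← Measure.prod_restrict, lintegral_prod _ hm.enorm.aemeasurable]
  have h4 := lintegral_polar_ball x r hfm.enorm
  have h5 : ∫⁻ ρ in Ioo 0 r, ∫⁻ θ in Ioo (-Real.pi) Real.pi, ‖(ρ : ℂ) * f (cp x ρ θ)‖ₑ =
      ∫⁻ ρ in Ioo 0 r, ∫⁻ θ in Ioo (-Real.pi) Real.pi, ENNReal.ofReal ρ * ‖f (cp x ρ θ)‖ₑ := by
    apply setLIntegral_congr_fun measurableSet_Ioo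
    intro ρ hρ
    apply lintegral_congr
    intro θ
    rw [enorm_mul]
    congr 1
    rw [← enorm_norm, Complex.norm_real, Real.norm_of_nonneg hρ.1.le,
      Real.enorm_eq_ofReal hρ.1.le]
  show ∫⁻ ρ in Ioo 0 r, ∫⁻ θ in Ioo (-Real.pi) Real.pi, ‖(ρ : ℂ) * f (cp x ρ θ)‖ₑ < ⊤
  rw [h5, h4]
  exact hf.2

/-- integral of the Cauchy kernel over a circle with respect to the angle -/
lemma integral_cp_inv (x ζ : ℂ) {ρ : ℝ} (hρ : 0 < ρ) (hne : ρ ≠ ‖x - ζ‖) :
    ∫ θ in Ioo (-Real.pi) Real.pi, (cp x ρ θ - ζ)⁻¹ =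
      if ρ < ‖x - ζ‖ then 2 * Real.pi * (x - ζ)⁻¹ else 0 := by
  have hpi : (-Real.pi) ≤ Real.pi := by linarith [Real.pi_pos]
  have h1 := circleIntegral_eq x ρ (fun z => (z - x)⁻¹ * (z - ζ)⁻¹)
  have h2 : ∀ θ : ℝ, (I * (ρ * Complex.exp (θ * I))) * ((cp x ρ θ - x)⁻¹ * (cp x ρ θ - ζ)⁻¹) =
      I * (cp x ρ θ - ζ)⁻¹ := by
    intro θ
    have h3 : cp x ρ θ - x = ρ * Complex.exp (θ * I) := by unfold cp; ring
    have h4 : (ρ : ℂ) * Complex.exp (θ * I) ≠ 0 :=
      mul_ne_zero (by exact_mod_cast hρ.ne') (Complex.exp_ne_zero _)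
    rw [h3, mul_assoc, ← mul_assoc ((ρ : ℂ) * Complex.exp (θ * I)), mul_inv_cancel₀ h4, one_mul]
  simp_rw [h2] at h1
  rw [intervalIntegral.integral_const_mul, intervalIntegral.integral_of_le hpi,
    integral_Ioc_eq_integral_Ioo] at h1
  have key : (∮ z in C(x, ρ), (z - x)⁻¹ * (z - ζ)⁻¹) =
      I * (if ρ < ‖x - ζ‖ then 2 * Real.pi * (x - ζ)⁻¹ else 0) := by
    by_cases hlt : ρ < ‖x - ζ‖
    · rw [if_pos hlt]
      have hne2 : ∀ z ∈ closedBall x ρ, z - ζ ≠ 0 := by
        intro z hz h0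
        rw [mem_closedBall, dist_eq_norm] at hz
        have : z = ζ := sub_eq_zero.1 h0
        rw [this, ← norm_neg, neg_sub] at hz
        linarith
      have h5 := circleIntegral_sub_inv_smul_of_differentiable_on_off_countable
        (E := ℂ) (f := fun z => (z - ζ)⁻¹) (c := x) (w := x) (R := ρ) countable_empty
        (mem_ball_self hρ)
        ((continuousOn_id.sub continuousOn_const).inv₀ hne2)
        (fun z hz => ((differentiableAt_id).sub_const ζ).inv (hne2 z (ball_subset_closedBall hz.1)))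
      simp only [smul_eq_mul] at h5
      rw [h5]
      ring
    · rw [if_neg hlt, mul_zero]
      have hgt : ‖x - ζ‖ < ρ := lt_of_le_of_ne (not_lt.1 hlt) (Ne.symm hne)
      have hζ : ζ ∈ ball x ρ := by
        rw [mem_ball, dist_comm, dist_eq_norm]; exact hgt
      by_cases hxζ : x = ζ
      · subst hxζ
        have h6 : ∀ z : ℂ, (z - x)⁻¹ * (z - x)⁻¹ = (z - x) ^ (-2 : ℤ) := by
          intro z
          rw [← mul_inv, ← sq, zpow_neg]
          rfl
        simp_rw [h6]
        exact circleIntegral.integral_sub_zpow_of_ne (by norm_num) _ _ _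
      · have hd : x - ζ ≠ 0 := sub_ne_zero.2 hxζ
        have h7 : EqOn (fun z : ℂ => (z - x)⁻¹ * (z - ζ)⁻¹)
            (fun z => (x - ζ)⁻¹ * ((z - x)⁻¹ - (z - ζ)⁻¹)) (sphere x ρ) := by
          intro z hz
          have hz1 : z - x ≠ 0 := by
            intro h0
            rw [mem_sphere, dist_eq_norm, h0, norm_zero] at hz
            exact hρ.ne hz
          have hz2 : z - ζ ≠ 0 := by
            intro h0
            have : z = ζ := sub_eq_zero.1 h0
            rw [mem_sphere, dist_eq_norm, this, ← norm_neg, neg_sub] at hz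
            linarith
          show (z - x)⁻¹ * (z - ζ)⁻¹ = (x - ζ)⁻¹ * ((z - x)⁻¹ - (z - ζ)⁻¹)
          field_simp
          ring
        rw [circleIntegral.integral_congr hρ.le h7, circleIntegral.integral_const_mul,
          circleIntegral.integral_sub, circleIntegral.integral_sub_inv_of_mem_ball hζ,
          circleIntegral.integral_sub_inv_of_mem_ball (mem_ball_self hρ), sub_self, mul_zero]
        · apply ContinuousOn.circleIntegrable hρ.le
          apply (continuousOn_id.sub continuousOn_const).inv₀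
          intro z hz h0
          rw [mem_sphere, dist_eq_norm] at hz
          have : ‖z - x‖ = 0 := by
            have : z - x = 0 := h0
            rw [this, norm_zero]
          linarith
        · apply ContinuousOn.circleIntegrable hρ.le
          apply (continuousOn_id.sub continuousOn_const).inv₀
          intro z hz h0
          have : z = ζ := sub_eq_zero.1 h0
          rw [mem_sphere, dist_eq_norm, this, ← norm_neg, neg_sub] at hz
          linarith
  rw [key] at h1
  exact (mul_left_cancel₀ Complex.I_ne_zero h1).symm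

lemma measurable_inv_sub (ζ : ℂ) : Measurable fun w : ℂ => (w - ζ)⁻¹ := by fun_prop

lemma integrableOn_inv_sub (z ζ : ℂ) (r : ℝ) : IntegrableOn (fun w : ℂ => (w - ζ)⁻¹) (ball z r) := by
  refine ⟨(measurable_inv_sub ζ).aestronglyMeasurable, ?_⟩
  rw [hasFiniteIntegral_iff_enorm]
  exact (lintegral_inv_le z r ζ).trans_lt
    (ENNReal.add_lt_top.2 ⟨lintegral_inv_ball_lt_top 1, measure_ball_lt_top⟩)

/-- the Cauchy transform of a disc -/
theorem integral_disc_inv (z ζ : ℂ) {r : ℝ} (hr : 0 < r) :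
    ∫ w in ball z r, (w - ζ)⁻¹ = (Real.pi * r ^ 2 : ℝ) * kk r (z - ζ) := by
  rw [integral_polar_ball z r (measurable_inv_sub ζ) (integrableOn_inv_sub z ζ r)]
  set a : ℝ := ‖z - ζ‖ with ha
  have ha0 : 0 ≤ a := norm_nonneg _
  have h1 : ∫ ρ in Ioo 0 r, ∫ θ in Ioo (-Real.pi) Real.pi, (ρ : ℂ) * (cp z ρ θ - ζ)⁻¹ =
      ∫ ρ in Ioo 0 r, (Iio a).indicator (fun ρ : ℝ => (ρ : ℂ) * (2 * Real.pi * (z - ζ)⁻¹)) ρ := by
    apply integral_congr_ae
    have hae : ∀ᵐ ρ ∂(volume.restrict (Ioo (0 : ℝ) r)), ρ ≠ a := by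
      apply ae_restrict_of_ae
      exact Measure.ae_ne volume a
    filter_upwards [hae, ae_restrict_mem measurableSet_Ioo] with ρ hρ hρm
    rw [integral_const_mul, integral_cp_inv z ζ hρm.1 hρ]
    by_cases hlt : ρ < a
    · rw [if_pos hlt, indicator_of_mem (show ρ ∈ Iio a from hlt)]
    · rw [if_neg hlt, indicator_of_notMem (show ρ ∉ Iio a from hlt), mul_zero]
  rw [h1, setIntegral_indicator measurableSet_Iio]
  have h2 : Ioo 0 r ∩ Iio a = Ioo 0 (min r a) := by
    ext t
    simp only [mem_inter_iff, mem_Ioo, mem_Iio, lt_min_iff]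
    tauto
  have hm0 : (0 : ℝ) ≤ min r a := le_min hr.le ha0
  have h3 : ∫ ρ in Ioo 0 (min r a), (ρ : ℂ) * (2 * Real.pi * (z - ζ)⁻¹) =
      (((min r a) ^ 2 / 2 : ℝ) : ℂ) * (2 * Real.pi * (z - ζ)⁻¹) := by
    rw [integral_mul_const]
    congr 1
    rw [integral_complex_ofReal]
    congr 1
    rw [← integral_Ioc_eq_integral_Ioo, ← intervalIntegral.integral_of_le hm0, integral_id]
    ring
  rw [h2, h3]
  unfold kk
  by_cases hza : z - ζ = 0
  · rw [hza]
    simp
  have hapos : 0 < a := norm_pos_iff.2 hza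
  have hconj : conj (z - ζ) = (a : ℂ) ^ 2 * (z - ζ)⁻¹ := by
    have h4 : (z - ζ) * conj (z - ζ) = (a : ℂ) ^ 2 := by
      rw [Complex.mul_conj, Complex.normSq_eq_norm_sq]
      push_cast
      rfl
    rw [← h4]
    field_simp
  rw [hconj]
  rcases le_total a r with har | har
  · have e1 : max (a ^ 2) (r ^ 2) = r ^ 2 := max_eq_right (by gcongr)
    rw [min_eq_right har, ← ha, e1]
    have hr' : (r : ℂ) ≠ 0 := by exact_mod_cast hr.ne'
    push_cast
    field_simp
  · have e1 : max (a ^ 2) (r ^ 2) = a ^ 2 := max_eq_left (by gcongr)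
    rw [min_eq_left har, ← ha, e1]
    have ha' : (a : ℂ) ≠ 0 := by exact_mod_cast hapos.ne'
    push_cast
    field_simp

end Pool.Agent.T2h27.SA
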