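import Mathlib
import Pool.Agent.H586R3.CT8
import Pool.Agent.T2h27.SA.S2

/-!
# Regularised logarithmic potentials
-/

set_option autoImplicit false

open MeasureTheory Metric Set Filter Topology Complex
open scoped ENNReal ComplexConjugate Real

namespace Pool.Agent.T2h27.SA

open Pool.Agent.H586R3.CT

lemma kk_of_ge {r : ℝ} (hr : 0 < r) {z : ℂ} (hz : r ≤ ‖z‖) : kk r z = z⁻¹ := by
  unfold kk
  have h1 : max (‖z‖ ^ 2) (r ^ 2) = ‖z‖ ^ 2 := max_eq_left (by gcongr)
  have hz0 : z ≠ 0 := by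
    intro h
    rw [h, norm_zero] at hz
    linarith
  rw [h1, Complex.inv_def, Complex.normSq_eq_norm_sq, div_eq_mul_inv]
  push_cast
  rfl

lemma max_sq_pos {r : ℝ} (hr : 0 < r) (a : ℝ) : 0 < max (a ^ 2) (r ^ 2) :=
  lt_max_of_lt_right (by positivity)

lemma kk_norm_le {r : ℝ} (hr : 0 < r) (z : ℂ) : ‖kk r z‖ ≤ r⁻¹ := by
  unfold kk
  have h0 := max_sq_pos hr ‖z‖
  rw [norm_div, Complex.norm_conj, Complex.norm_real, Real.norm_of_nonneg h0.le,
    div_le_iff₀ h0, ← div_eq_inv_mul, le_div_iff₀ hr]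
  rcases le_total ‖z‖ r with h | h
  · exact le_max_of_le_right (by nlinarith)
  · exact le_max_of_le_left (by nlinarith [norm_nonneg z])

lemma kk_continuous {r : ℝ} (hr : 0 < r) : Continuous (kk r) := by
  unfold kk
  apply Continuous.div (by fun_prop) (by fun_prop)
  intro z
  exact_mod_cast (max_sq_pos hr ‖z‖).ne'

lemma ph_continuous {r : ℝ} (hr : 0 < r) : Continuous (ph r) :=
  continuous_iff_continuousAt.2 fun t => (hasDerivAt_ph hr t).continuousAt

lemma lk_continuous {r : ℝ} (hr : 0 < r) : Continuous (lk r) := by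
  unfold lk
  exact (ph_continuous hr).comp (by fun_prop)

lemma hasDerivAt_lk {r : ℝ} (hr : 0 < r) (z v : ℂ) (t : ℝ) :
    HasDerivAt (fun t : ℝ => lk r (z + t * v)) ((kk r (z + t * v) * v).re) t := by
  have h1 : HasDerivAt (fun t : ℝ => ‖z + t * v‖ ^ 2) (2 * (conj (z + t * v) * v).re) t := by
    have h2 : (fun t : ℝ => ‖z + t * v‖ ^ 2) =
        fun t : ℝ => (z.re + t * v.re) ^ 2 + (z.im + t * v.im) ^ 2 := by
      funext s
      rw [Complex.sq_norm, Complex.normSq_apply]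
      simp
      ring
    rw [h2]
    have h3 : HasDerivAt (fun t : ℝ => z.re + t * v.re) (v.re) t := by
      simpa using ((hasDerivAt_id t).mul_const v.re).const_add z.re
    have h4 : HasDerivAt (fun t : ℝ => z.im + t * v.im) (v.im) t := by
      simpa using ((hasDerivAt_id t).mul_const v.im).const_add z.im
    have h5 : HasDerivAt (fun t : ℝ => (z.re + t * v.re) ^ 2 + (z.im + t * v.im) ^ 2)
        (2 * (z.re + t * v.re) * v.re + 2 * (z.im + t * v.im) * v.im) t := by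
      have h6 := (h3.fun_pow 2).add (h4.fun_pow 2)
      refine h6.congr_deriv ?_
      push_cast
      ring
    refine h5.congr_deriv ?_
    simp only [map_add, map_mul, Complex.conj_ofReal, Complex.mul_re, Complex.add_re,
      Complex.add_im, Complex.conj_re, Complex.conj_im, Complex.ofReal_re, Complex.ofReal_im,
      Complex.mul_im]
    ring
  have h6 := (hasDerivAt_ph hr (‖z + t * v‖ ^ 2)).comp t h1
  have h7 : (fun t : ℝ => lk r (z + t * v)) = ph r ∘ (fun t : ℝ => ‖z + t * v‖ ^ 2) := rfl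
  rw [h7]
  refine h6.congr_deriv ?_
  unfold kk
  have h0 := max_sq_pos hr ‖z + t * v‖
  rw [div_mul_eq_mul_div, Complex.div_ofReal_re]
  field_simp

/-- the regularised potentials -/
noncomputable def U (r : ℝ) (μ : Measure ℂ) (z : ℂ) : ℝ := ∫ ζ, lk r (z - ζ) ∂μ

noncomputable def W (r : ℝ) (μ : Measure ℂ) (z : ℂ) : ℝ := ∫ ζ, mk r (z - ζ) ∂μ

noncomputable def Cr (r : ℝ) (μ : Measure ℂ) (z : ℂ) : ℂ := ∫ ζ, kk r (z - ζ) ∂μ

section

variable (μ : Measure ℂ) [IsFiniteMeasure μ] {R₀ : ℝ} (hc : ∀ᵐ ζ ∂μ, ‖ζ‖ ≤ R₀)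

include hc in
lemma integrable_mk {r : ℝ} (hr : 0 < r) (z : ℂ) : Integrable (fun ζ => mk r (z - ζ)) μ := by
  apply Integrable.of_bound
    (((mk_continuous r).comp (by fun_prop : Continuous fun ζ : ℂ => z - ζ)).aestronglyMeasurable)
    (|Real.log r| + r⁻¹ * (‖z‖ + R₀))
  filter_upwards [hc] with ζ hζ
  rw [Real.norm_eq_abs]
  refine (mk_abs_le hr _).trans ?_
  have : ‖z - ζ‖ ≤ ‖z‖ + R₀ := (norm_sub_le _ _).trans (by linarith)
  gcongr

include hc in
lemma integrable_lk {r : ℝ} (hr : 0 < r) (z : ℂ) : Integrable (fun ζ => lk r (z - ζ)) μ := by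
  apply Integrable.of_bound
    (((lk_continuous hr).comp (by fun_prop : Continuous fun ζ : ℂ => z - ζ)).aestronglyMeasurable)
    (|Real.log r| + r⁻¹ * (‖z‖ + R₀) + 1 / 2)
  filter_upwards [hc] with ζ hζ
  rw [Real.norm_eq_abs]
  have h1 := lk_sub_mk hr (z - ζ)
  have h2 : (closedBall (0 : ℂ) r).indicator (fun _ => (1 / 2 : ℝ)) (z - ζ) ≤ 1 / 2 := by
    apply indicator_le_self' (by intro _ _; norm_num)
  have h3 := mk_abs_le hr (z - ζ)
  have h4 : ‖z - ζ‖ ≤ ‖z‖ + R₀ := (norm_sub_le _ _).trans (by linarith)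
  have h5 : r⁻¹ * ‖z - ζ‖ ≤ r⁻¹ * (‖z‖ + R₀) := by gcongr
  have h6 : |lk r (z - ζ)| ≤ |lk r (z - ζ) - mk r (z - ζ)| + |mk r (z - ζ)| := by
    have := abs_add_le (lk r (z - ζ) - mk r (z - ζ)) (mk r (z - ζ))
    rwa [sub_add_cancel] at this
  show |lk r (z - ζ)| ≤ _
  linarith

omit [IsFiniteMeasure μ] in
lemma integrable_kk [IsFiniteMeasure μ] {r : ℝ} (hr : 0 < r) (z : ℂ) :
    Integrable (fun ζ => kk r (z - ζ)) μ :=
  Integrable.of_bound
    (((kk_continuous hr).comp (by fun_prop : Continuous fun ζ : ℂ => z - ζ)).aestronglyMeasurable)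
    r⁻¹ (Eventually.of_forall fun _ => kk_norm_le hr _)

include hc in
lemma hasDerivAt_U {r : ℝ} (hr : 0 < r) (z v : ℂ) (t : ℝ) :
    HasDerivAt (fun t : ℝ => U r μ (z + t * v)) ((Cr r μ (z + t * v) * v).re) t := by
  have h := hasDerivAt_integral_of_dominated_loc_of_deriv_le (μ := μ) (𝕜 := ℝ)
    (F := fun (t : ℝ) ζ => lk r ((z - ζ) + t * v))
    (F' := fun (t : ℝ) ζ => (kk r ((z - ζ) + t * v) * v).re) (x₀ := t)
    (bound := fun _ => r⁻¹ * ‖v‖) (s := univ) univ_mem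
    (Eventually.of_forall fun s => by
      apply Continuous.aestronglyMeasurable
      exact (lk_continuous hr).comp (by fun_prop))
    (by
      have h1 := integrable_lk μ hc hr (z + t * v)
      refine h1.congr (Eventually.of_forall fun ζ => ?_)
      show lk r (z + t * v - ζ) = lk r ((z - ζ) + t * v)
      congr 1
      ring)
    (by
      apply Continuous.aestronglyMeasurable
      exact Complex.continuous_re.comp (((kk_continuous hr).comp (by fun_prop)).mul continuous_const))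
    (Eventually.of_forall fun ζ s _ => by
      rw [Real.norm_eq_abs]
      refine (Complex.abs_re_le_norm _).trans ?_
      rw [norm_mul]
      exact mul_le_mul_of_nonneg_right (kk_norm_le hr _) (norm_nonneg _))
    (integrable_const _)
    (Eventually.of_forall fun ζ s _ => hasDerivAt_lk hr (z - ζ) v s)
  have h2 := h.2
  have e1 : (fun t : ℝ => U r μ (z + t * v)) = fun t : ℝ => ∫ ζ, lk r ((z - ζ) + t * v) ∂μ := by
    funext s
    unfold U
    congr 1
    funext ζ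
    congr 1
    ring
  have e2 : (Cr r μ (z + t * v) * v).re = ∫ ζ, (kk r ((z - ζ) + t * v) * v).re ∂μ := by
    unfold Cr
    rw [← integral_mul_const]
    have h3 := integral_re (𝕜 := ℂ) ((integrable_kk μ hr (z + t * v)).mul_const v)
    have h4 : RCLike.re (∫ ζ, kk r (z + t * v - ζ) * v ∂μ) = (∫ ζ, kk r (z + t * v - ζ) * v ∂μ).re := rfl
    rw [← h4, ← h3]
    congr 1
    funext ζ
    show (kk r (z + t * v - ζ) * v).re = _
    congr 3
    ring
  rw [e1, e2]
  exact h2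

lemma Cr_eq {r : ℝ} (hr : 0 < r) (z : ℂ) :
    Cr r μ z = ((Real.pi * r ^ 2 : ℝ) : ℂ)⁻¹ * ∫ w in ball z r, CT μ w := by
  have h1 : ∫ w in ball z r, CT μ w = ∫ ζ, ∫ w in ball z r, (w - ζ)⁻¹ ∂volume ∂μ :=
    integral_integral_swap (integrable_ker μ z r)
  rw [h1]
  simp_rw [integral_disc_inv z _ hr]
  rw [integral_const_mul, ← mul_assoc, inv_mul_cancel₀, one_mul]
  · rfl
  · have : Real.pi * r ^ 2 ≠ 0 := by positivity
    exact_mod_cast this

lemma volume_ball_toReal (z : ℂ) {r : ℝ} (hr : 0 < r) :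
    volume.real (ball z r) = Real.pi * r ^ 2 := by
  rw [Measure.real, Complex.volume_ball, ENNReal.toReal_mul, ENNReal.toReal_pow,
    ENNReal.toReal_ofReal hr.le]
  simp [mul_comm]

lemma re_Cr_le {r : ℝ} (hr : 0 < r) (z v : ℂ) {b : ℝ}
    (h : ∀ᵐ w : ℂ, w ∈ ball z r → (CT μ w * v).re ≤ b) : (Cr r μ z * v).re ≤ b := by
  have hpos : 0 < Real.pi * r ^ 2 := by positivity
  have hi : IntegrableOn (fun w => CT μ w * v) (ball z r) := (integrableOn_CT μ z r).mul_const v
  have h1 : Cr r μ z * v = ((Real.pi * r ^ 2 : ℝ) : ℂ)⁻¹ * ∫ w in ball z r, CT μ w * v := by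
    rw [Cr_eq μ hr, mul_assoc, integral_mul_const]
  have h2 : (∫ w in ball z r, CT μ w * v).re = ∫ w in ball z r, (CT μ w * v).re :=
    (integral_re (𝕜 := ℂ) hi).symm
  rw [h1, ← Complex.ofReal_inv, Complex.re_ofReal_mul, h2]
  have h3 : ∫ w in ball z r, (CT μ w * v).re ≤ ∫ _ in ball z r, b := by
    apply setIntegral_mono_on_ae hi.re (integrableOn_const measure_ball_lt_top.ne) measurableSet_ball
    exact h
  rw [setIntegral_const, volume_ball_toReal z hr, smul_eq_mul] at h3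
  calc (Real.pi * r ^ 2)⁻¹ * ∫ w in ball z r, (CT μ w * v).re
      ≤ (Real.pi * r ^ 2)⁻¹ * (Real.pi * r ^ 2 * b) := by gcongr
    _ = b := by field_simp

lemma norm_Cr_le {r : ℝ} (hr : 0 < r) (z : ℂ) {M : ℝ}
    (h : ∀ᵐ w : ℂ, w ∈ ball z r → ‖CT μ w‖ ≤ M) : ‖Cr r μ z‖ ≤ M := by
  have hpos : 0 < Real.pi * r ^ 2 := by positivity
  rw [Cr_eq μ hr, norm_mul, norm_inv, Complex.norm_real, Real.norm_of_nonneg hpos.le]
  have h1 : ‖∫ w in ball z r, CT μ w‖ ≤ M * volume.real (ball z r) := by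
    apply norm_setIntegral_le_of_norm_le_const_ae measure_ball_lt_top
    exact (ae_restrict_iff' measurableSet_ball).2 h
  rw [volume_ball_toReal z hr] at h1
  calc (Real.pi * r ^ 2)⁻¹ * ‖∫ w in ball z r, CT μ w‖
      ≤ (Real.pi * r ^ 2)⁻¹ * (M * (Real.pi * r ^ 2)) := by gcongr
    _ = M := by field_simp

include hc in
lemma U_sub_le {r : ℝ} (hr : 0 < r) (z v : ℂ) {b : ℝ}
    (h : ∀ t ∈ Icc (0 : ℝ) 1, (Cr r μ (z + t * v) * v).re ≤ b) :
    U r μ (z + v) - U r μ z ≤ b := by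
  have h1 : ∀ t ∈ Icc (0 : ℝ) 1, HasDerivWithinAt (fun t : ℝ => U r μ (z + t * v))
      ((Cr r μ (z + t * v) * v).re) (Icc 0 1) t := fun t _ =>
    (hasDerivAt_U μ hc hr z v t).hasDerivWithinAt
  obtain ⟨c, hc1, hc2⟩ := exists_hasDerivAt_eq_slope (fun t : ℝ => U r μ (z + t * v))
    (fun t => (Cr r μ (z + t * v) * v).re) (one_pos : (0 : ℝ) < 1)
    (fun t ht => (h1 t ht).continuousWithinAt) (fun t _ => hasDerivAt_U μ hc hr z v t)
  have h2 := h c ⟨hc1.1.le, hc1.2.le⟩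
  simp only [hc2, sub_zero, div_one, Complex.ofReal_one, one_mul, Complex.ofReal_zero, zero_mul,
    add_zero] at h2
  exact h2

end

end Pool.Agent.T2h27.SA
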