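import Mathlib
import Pool.Agent.H586R3.CT8
import Pool.Agent.T2h27.SA.S3

/-!
# The logarithmic potential near regular points
-/

set_option autoImplicit false

open MeasureTheory Metric Set Filter Topology Complex
open scoped ENNReal ComplexConjugate Real

namespace Pool.Agent.T2h27.SA

open Pool.Agent.H586R3.CT

/-- upper density bound -/
lemma ahlfors_upper (μ : Measure ℂ) [IsFiniteMeasure μ] (x : ℂ) {r M : ℝ} (hr : 0 < r)
    (hM : 0 ≤ M) (h : ∀ᵐ w : ℂ, w ∈ ball x (2 * r) → ‖CT μ w‖ ≤ M) :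
    (μ (ball x r)).toReal ≤ 2 * r * M := by
  have h1 := ae_gauss μ x (2 * r)
  have h2 := ae_polar x h (2 * r)
  have h3 : ∀ᵐ ρ ∂(volume.restrict (Ioo (0 : ℝ) (2 * r))),
      (μ (ball x ρ)).toReal ≤ ρ * M := by
    filter_upwards [h1, h2, ae_restrict_mem measurableSet_Ioo] with ρ g1 g2 g3
    have hpi : (-Real.pi) ≤ Real.pi := by linarith [Real.pi_pos]
    rw [circleIntegral_eq, intervalIntegral.integral_of_le hpi, integral_Ioc_eq_integral_Ioo] at g1
    have g4 : ‖∫ θ in Ioo (-Real.pi) Real.pi, (I * (ρ * Complex.exp (θ * I))) * CT μ (cp x ρ θ)‖ ≤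
        (ρ * M) * volume.real (Ioo (-Real.pi) Real.pi) := by
      apply norm_setIntegral_le_of_norm_le_const_ae measure_Ioo_lt_top
      filter_upwards [g2] with θ hθ
      rw [norm_mul, norm_mul, norm_mul, Complex.norm_I, Complex.norm_exp_ofReal_mul_I,
        Complex.norm_real, Real.norm_of_nonneg g3.1.le, one_mul, mul_one]
      apply mul_le_mul_of_nonneg_left _ g3.1.le
      apply hθ
      rw [mem_ball, dist_cp x g3.1.le]
      exact g3.2
    rw [g1, Real.volume_real_Ioo_of_le hpi, norm_mul, Complex.norm_real, norm_mul, norm_mul,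
      Complex.norm_I, mul_one, Complex.norm_real, Real.norm_of_nonneg Real.pi_pos.le,
      Real.norm_of_nonneg ENNReal.toReal_nonneg] at g4
    have e2 : ‖(2 : ℂ)‖ = 2 := by simp
    rw [e2] at g4
    have g5 : 2 * Real.pi * (μ (ball x ρ)).toReal ≤ 2 * Real.pi * (ρ * M) := by linarith
    exact le_of_mul_le_mul_left g5 (by positivity)
  obtain ⟨ρ, hρ1, hρ2⟩ : ∃ ρ ∈ Ioo r (2 * r), (μ (ball x ρ)).toReal ≤ ρ * M := by
    by_contra hcon
    push Not at hcon
    have h4 : ∀ᵐ ρ ∂(volume.restrict (Ioo (0 : ℝ) (2 * r))), ρ ∉ Ioo r (2 * r) := by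
      filter_upwards [h3] with ρ hρ hm
      exact absurd hρ (not_le.2 (hcon ρ hm))
    rw [ae_restrict_iff' measurableSet_Ioo, ae_iff] at h4
    have h5 : Ioo r (2 * r) ⊆ {a | ¬(a ∈ Ioo 0 (2 * r) → a ∉ Ioo r (2 * r))} := by
      intro t ht hcon2
      exact hcon2 ⟨hr.trans ht.1, ht.2⟩ ht
    have h6 := measure_mono_null h5 h4
    rw [Real.volume_Ioo, ENNReal.ofReal_eq_zero] at h6
    linarith
  calc (μ (ball x r)).toReal ≤ (μ (ball x ρ)).toReal :=
        ENNReal.toReal_mono (measure_ne_top μ _) (measure_mono (ball_subset_ball hρ1.1.le))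
    _ ≤ ρ * M := hρ2
    _ ≤ 2 * r * M := by
        apply mul_le_mul_of_nonneg_right hρ1.2.le hM

lemma lk_diff {r : ℝ} (hr : 0 < r) (z : ℂ) :
    |lk r z - lk (r / 2) z| ≤ (closedBall (0 : ℂ) r).indicator (fun _ => (3 / 2 : ℝ)) z := by
  have hr2 : 0 < r / 2 := by positivity
  have hlog : Real.log (r / 2) = Real.log r - Real.log 2 := Real.log_div hr.ne' (by norm_num)
  have hl2 : Real.log 2 ≤ 1 := by
    have := Real.log_le_sub_one_of_pos (show (0 : ℝ) < 2 by norm_num)
    linarith
  have hl20 : 0 ≤ Real.log 2 := Real.log_nonneg (by norm_num)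
  by_cases hz : ‖z‖ ≤ r
  · rw [indicator_of_mem (mem_closedBall_zero_iff.2 hz), lk_of_le hr hz]
    have h1 : ‖z‖ ^ 2 / (2 * r ^ 2) ≤ 1 / 2 := by
      rw [div_le_div_iff₀ (by positivity) (by norm_num)]
      have : ‖z‖ ^ 2 ≤ r ^ 2 := by gcongr
      linarith
    have h2 : 0 ≤ ‖z‖ ^ 2 / (2 * r ^ 2) := by positivity
    by_cases hz2 : ‖z‖ ≤ r / 2
    · rw [lk_of_le hr2 hz2, hlog]
      have h3 : ‖z‖ ^ 2 / (2 * (r / 2) ^ 2) ≤ 1 / 2 := by
        rw [div_le_div_iff₀ (by positivity) (by norm_num)]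
        have : ‖z‖ ^ 2 ≤ (r / 2) ^ 2 := by gcongr
        linarith
      have h4 : 0 ≤ ‖z‖ ^ 2 / (2 * (r / 2) ^ 2) := by positivity
      rw [abs_le]
      constructor <;> linarith
    · rw [lk_of_ge hr2 (not_le.1 hz2).le]
      have h5 : Real.log (r / 2) ≤ Real.log ‖z‖ := Real.log_le_log hr2 (not_le.1 hz2).le
      have h6 : Real.log ‖z‖ ≤ Real.log r := Real.log_le_log (hr2.trans (not_le.1 hz2)) hz
      rw [hlog] at h5
      rw [abs_le]
      constructor <;> linarith
  · rw [indicator_of_notMem (by simpa using hz)]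
    rw [lk_of_ge hr (not_le.1 hz).le, lk_of_ge hr2 (by linarith [not_le.1 hz]), sub_self, abs_zero]

section

variable (μ : Measure ℂ) [IsFiniteMeasure μ] {R₀ : ℝ} (hc : ∀ᵐ ζ ∂μ, ‖ζ‖ ≤ R₀)

lemma integral_indicator_closedBall (z : ℂ) (r c : ℝ) :
    ∫ ζ, (closedBall (0 : ℂ) r).indicator (fun _ => c) (z - ζ) ∂μ =
      (μ (closedBall z r)).toReal * c := by
  have h1 : (fun ζ => (closedBall (0 : ℂ) r).indicator (fun _ => c) (z - ζ)) =
      (closedBall z r).indicator (fun _ => c) := by
    funext ζ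
    by_cases h : ζ ∈ closedBall z r
    · rw [indicator_of_mem h, indicator_of_mem]
      rw [mem_closedBall_zero_iff, ← dist_eq_norm, dist_comm]
      exact h
    · rw [indicator_of_notMem h, indicator_of_notMem]
      rw [mem_closedBall_zero_iff, ← dist_eq_norm, dist_comm]
      exact h
  rw [h1, integral_indicator measurableSet_closedBall, setIntegral_const, smul_eq_mul]
  rfl

lemma integrable_indicator_closedBall (z : ℂ) (r c : ℝ) :
    Integrable (fun ζ => (closedBall (0 : ℂ) r).indicator (fun _ => c) (z - ζ)) μ := by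
  apply Integrable.of_bound (C := |c|)
  · apply Measurable.aestronglyMeasurable
    exact (measurable_const.indicator measurableSet_closedBall).comp (by fun_prop)
  · refine Eventually.of_forall fun ζ => ?_
    rw [Real.norm_eq_abs]
    by_cases h : z - ζ ∈ closedBall (0 : ℂ) r
    · rw [indicator_of_mem h]
    · rw [indicator_of_notMem h, abs_zero]
      exact abs_nonneg _

include hc in
lemma U_diff {r : ℝ} (hr : 0 < r) (z : ℂ) :
    |U r μ z - U (r / 2) μ z| ≤ (μ (closedBall z r)).toReal * (3 / 2) := by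
  unfold U
  rw [← integral_sub (integrable_lk μ hc hr z) (integrable_lk μ hc (by positivity) z),
    ← integral_indicator_closedBall μ z r (3 / 2), ← Real.norm_eq_abs]
  apply norm_integral_le_of_norm_le (integrable_indicator_closedBall μ z r (3 / 2))
  exact Eventually.of_forall fun ζ => lk_diff hr (z - ζ)

include hc in
lemma U_W_diff {r : ℝ} (hr : 0 < r) (z : ℂ) :
    |U r μ z - W r μ z| ≤ (μ (closedBall z r)).toReal * (1 / 2) := by
  unfold U W
  rw [← integral_sub (integrable_lk μ hc hr z) (integrable_mk μ hc hr z),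
    ← integral_indicator_closedBall μ z r (1 / 2), ← Real.norm_eq_abs]
  apply norm_integral_le_of_norm_le (integrable_indicator_closedBall μ z r (1 / 2))
  exact Eventually.of_forall fun ζ => lk_sub_mk hr (z - ζ)

include hc in
lemma W_continuous (r : ℝ) : Continuous (W r μ) := by
  have h1 : W r μ = fun z => ∫ ζ in closedBall 0 R₀, mk r (z - ζ) ∂μ := by
    funext z
    unfold W
    have : μ.restrict (closedBall 0 R₀) = μ := by
      apply Measure.restrict_eq_self_of_ae_mem
      filter_upwards [hc] with ζ hζ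
      simpa using hζ
    rw [this]
  rw [h1]
  apply continuous_parametric_integral_of_continuous (f := fun z ζ => mk r (z - ζ)) _
    (isCompact_closedBall 0 R₀)
  exact (mk_continuous r).comp (by fun_prop)

include hc in
/-- the sub-mean value property of the regularised potentials -/
lemma W_sub_mean {r : ℝ} (hr : 0 < r) (z : ℂ) (R : ℝ) :
    W r μ z ≤ Real.circleAverage (W r μ) z R := by
  have hpi : (0 : ℝ) ≤ 2 * Real.pi := by positivity
  have hint : Integrable (fun p : ℝ × ℂ => mk r (circleMap z R p.1 - p.2))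
      ((volume.restrict (Ioc 0 (2 * Real.pi))).prod μ) := by
    apply Integrable.of_bound (C := |Real.log r| + r⁻¹ * ((‖z‖ + |R|) + R₀))
    · apply Continuous.aestronglyMeasurable
      apply (mk_continuous r).comp
      exact ((continuous_circleMap z R).comp continuous_fst).sub continuous_snd
    · have h1 : ∀ᵐ p ∂((volume.restrict (Ioc (0 : ℝ) (2 * Real.pi))).prod μ), ‖p.2‖ ≤ R₀ :=
        Measure.quasiMeasurePreserving_snd.ae hc
      filter_upwards [h1] with p hp
      rw [Real.norm_eq_abs]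
      refine (mk_abs_le hr _).trans ?_
      have h2 : ‖circleMap z R p.1‖ ≤ ‖z‖ + |R| := by
        rw [circleMap]
        refine (norm_add_le _ _).trans ?_
        rw [norm_mul, Complex.norm_exp_ofReal_mul_I, mul_one, Complex.norm_real, Real.norm_eq_abs]
      have h3 : ‖circleMap z R p.1 - p.2‖ ≤ (‖z‖ + |R|) + R₀ :=
        (norm_sub_le _ _).trans (by linarith)
      gcongr
  have h1 : Real.circleAverage (W r μ) z R =
      ∫ ζ, Real.circleAverage (fun w => mk r (w - ζ)) z R ∂μ := by
    unfold Real.circleAverage W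
    simp_rw [intervalIntegral.integral_of_le hpi, smul_eq_mul]
    rw [integral_const_mul, integral_integral_swap hint]
  rw [h1]
  unfold W
  have hi2 : Integrable (fun ζ => Real.circleAverage (fun w => mk r (w - ζ)) z R) μ := by
    unfold Real.circleAverage
    simp_rw [intervalIntegral.integral_of_le hpi, smul_eq_mul]
    exact hint.integral_prod_right.const_mul _
  exact integral_mono (integrable_mk μ hc hr z) hi2 fun ζ => mk_sub_mean hr z ζ R

end

/-- dyadic radii -/
noncomputable def dr (k : ℕ) : ℝ := (1 / 2) ^ k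

lemma dr_pos (k : ℕ) : 0 < dr k := by unfold dr; positivity

lemma dr_succ (k : ℕ) : dr (k + 1) = dr k / 2 := by
  unfold dr
  rw [pow_succ]
  ring

lemma tendsto_dr : Tendsto dr atTop (𝓝 0) :=
  tendsto_pow_atTop_nhds_zero_of_lt_one (by norm_num) (by norm_num)

lemma dr_anti {m n : ℕ} (h : m ≤ n) : dr n ≤ dr m := by
  unfold dr
  exact pow_le_pow_of_le_one (by norm_num) (by norm_num) h

/-- the logarithmic potential -/
noncomputable def uh (μ : Measure ℂ) (z : ℂ) : ℝ := limUnder atTop (fun k : ℕ => U (dr k) μ z)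

/-- the Cauchy transform is bounded by `M` on the ball -/
def Bd (μ : Measure ℂ) (x : ℂ) (R M : ℝ) : Prop := ∀ᵐ w : ℂ, w ∈ ball x R → ‖CT μ w‖ ≤ M

section

variable (μ : Measure ℂ) [IsFiniteMeasure μ] {R₀ : ℝ} (hc : ∀ᵐ ζ ∂μ, ‖ζ‖ ≤ R₀)

lemma Bd.mono {μ : Measure ℂ} {x : ℂ} {R M : ℝ} (h : Bd μ x R M) {y : ℂ} {s : ℝ}
    (hs : ball y s ⊆ ball x R) : Bd μ y s M := by
  filter_upwards [h] with w hw hwb
  exact hw (hs hwb)

include hc in
lemma U_geom {z : ℂ} {M : ℝ} (hM : 0 ≤ M) {k₀ : ℕ} (h : Bd μ z (4 * dr k₀) M) {k : ℕ}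
    (hk : k₀ ≤ k) : |U (dr k) μ z - U (dr (k + 1)) μ z| ≤ 6 * M * dr k := by
  have hd := dr_pos k
  have h1 := U_diff μ hc hd z
  rw [← dr_succ] at h1
  have h2 : (μ (ball z (2 * dr k))).toReal ≤ 2 * (2 * dr k) * M := by
    apply ahlfors_upper μ z (by positivity) hM
    apply h.mono (ball_subset_ball _)
    have := dr_anti hk
    linarith
  have h3 : (μ (closedBall z (dr k))).toReal ≤ (μ (ball z (2 * dr k))).toReal :=
    ENNReal.toReal_mono (measure_ne_top μ _) (measure_mono (closedBall_subset_ball (by linarith)))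
  calc _ ≤ (μ (closedBall z (dr k))).toReal * (3 / 2) := h1
    _ ≤ (2 * (2 * dr k) * M) * (3 / 2) := by gcongr; exact h3.trans h2
    _ = 6 * M * dr k := by ring

include hc in
/-- convergence of the regularised potentials with a rate -/
lemma U_tendsto {z : ℂ} {M : ℝ} (hM : 0 ≤ M) {k₀ : ℕ} (h : Bd μ z (4 * dr k₀) M) :
    Tendsto (fun k : ℕ => U (dr k) μ z) atTop (𝓝 (uh μ z)) ∧
      ∀ k, k₀ ≤ k → |U (dr k) μ z - uh μ z| ≤ 12 * M * dr k := by
  have hg : ∀ n : ℕ, dist (U (dr (k₀ + n)) μ z) (U (dr (k₀ + (n + 1))) μ z) ≤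
      (12 * M * dr k₀) / 2 / 2 ^ n := by
    intro n
    rw [Real.dist_eq]
    have h1 := U_geom μ hc hM h (k := k₀ + n) (by omega)
    refine h1.trans (le_of_eq ?_)
    unfold dr
    rw [pow_add, one_div_pow 2 n]
    ring
  have hcs := cauchySeq_of_le_geometric_two hg
  have hlim : Tendsto (fun k : ℕ => U (dr k) μ z) atTop (𝓝 (uh μ z)) := by
    obtain ⟨a, ha⟩ := cauchySeq_tendsto_of_complete hcs
    have h2 : Tendsto (fun k : ℕ => U (dr k) μ z) atTop (𝓝 a) := by
      rw [← tendsto_add_atTop_iff_nat k₀]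
      refine ha.congr fun n => ?_
      rw [add_comm]
    unfold uh
    exact tendsto_nhds_limUnder ⟨a, h2⟩
  refine ⟨hlim, fun k hk => ?_⟩
  have h3 : Tendsto (fun n : ℕ => U (dr (k₀ + n)) μ z) atTop (𝓝 (uh μ z)) := by
    have := (tendsto_add_atTop_iff_nat k₀).2 hlim
    refine this.congr fun n => ?_
    rw [add_comm]
  have h4 := dist_le_of_le_geometric_two_of_tendsto hg h3 (k - k₀)
  rw [Real.dist_eq] at h4
  have h5 : k₀ + (k - k₀) = k := by omega
  rw [h5] at h4
  refine h4.trans (le_of_eq ?_)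
  have h6 : dr k = dr k₀ / 2 ^ (k - k₀) := by
    unfold dr
    conv_lhs => rw [← h5, pow_add, one_div_pow 2 (k - k₀)]
    ring
  rw [h6]
  ring

include hc in
/-- Lipschitz bound -/
lemma uh_lip {x : ℂ} {R M : ℝ} (hM : 0 ≤ M) (h : Bd μ x R M) {z w : ℂ} (hz : z ∈ ball x R)
    (hw : w ∈ ball x R) : uh μ w - uh μ z ≤ M * ‖w - z‖ := by
  set δ := min (R - dist z x) (R - dist w x) with hδ
  have hδ0 : 0 < δ := lt_min (sub_pos.2 hz) (sub_pos.2 hw)
  obtain ⟨k₀, hk₀⟩ := ((tendsto_dr.eventually (gt_mem_nhds (show (0 : ℝ) < δ / 4 by positivity)))).exists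
  have hdr : 4 * dr k₀ < δ := by linarith
  have hsub : ∀ y ∈ closedBall x (R - δ), ball y (4 * dr k₀) ⊆ ball x R := by
    intro y hy
    apply ball_subset_ball'
    rw [mem_closedBall] at hy
    linarith
  have hz' : z ∈ closedBall x (R - δ) := by
    rw [mem_closedBall]
    linarith [min_le_left (R - dist z x) (R - dist w x)]
  have hw' : w ∈ closedBall x (R - δ) := by
    rw [mem_closedBall]
    linarith [min_le_right (R - dist z x) (R - dist w x)]
  have h1 := (U_tendsto μ hc hM (h.mono (hsub z hz'))).1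
  have h2 := (U_tendsto μ hc hM (h.mono (hsub w hw'))).1
  have h3 := h2.sub h1
  refine le_of_tendsto h3 ?_
  filter_upwards [eventually_ge_atTop k₀] with k hk
  have h4 := U_sub_le μ hc (dr_pos k) z (w - z) (b := M * ‖w - z‖) (by
    intro t ht
    refine (Complex.re_le_norm _).trans ?_
    rw [norm_mul]
    apply mul_le_mul_of_nonneg_right _ (norm_nonneg _)
    apply norm_Cr_le μ (dr_pos k)
    have hmem : z + t * (w - z) ∈ closedBall x (R - δ) := by
      have hconv := convex_closedBall x (R - δ)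
      have := hconv hz' hw' (a := 1 - t) (b := t) (by linarith [ht.2]) ht.1 (by ring)
      convert this using 1
      simp only [Complex.real_smul]
      push_cast
      ring
    apply h.mono ((ball_subset_ball _).trans (hsub _ hmem))
    have := dr_anti hk
    have := dr_pos k
    linarith)
  simpa using h4

include hc in
lemma uh_continuousOn {x : ℂ} {R M : ℝ} (hM : 0 ≤ M) (h : Bd μ x R M) :
    ContinuousOn (uh μ) (ball x R) := by
  have : LipschitzOnWith (Real.toNNReal M) (uh μ) (ball x R) := by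
    apply LipschitzOnWith.of_dist_le_mul
    intro z hz w hw
    rw [Real.coe_toNNReal M hM, Real.dist_eq, dist_eq_norm, abs_le]
    constructor
    · have := uh_lip μ hc hM h hz hw
      rw [norm_sub_rev] at this
      linarith
    · exact uh_lip μ hc hM h hw hz
  exact this.continuousOn

end

end Pool.Agent.T2h27.SA
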