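import Mathlib
import Pool.Agent.H586R3.CT8
import Pool.Agent.T2h27.SA.S4

/-!
# Monotonicity and the sub-mean value property
-/

set_option autoImplicit false

open MeasureTheory Metric Set Filter Topology Complex
open scoped ENNReal ComplexConjugate Real

namespace Pool.Agent.T2h27.SA

open Pool.Agent.H586R3.CT

section

variable (μ : Measure ℂ) [IsFiniteMeasure μ] {R₀ : ℝ} (hc : ∀ᵐ ζ ∂μ, ‖ζ‖ ≤ R₀)

lemma segment_mem_closedBall {x z v : ℂ} {s : ℝ} (hz : z ∈ closedBall x s)
    (hw : z + v ∈ closedBall x s) {t : ℝ} (ht : t ∈ Icc (0 : ℝ) 1) : z + t * v ∈ closedBall x s := by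
  have hconv := convex_closedBall x s
  have := hconv hz hw (a := 1 - t) (b := t) (by linarith [ht.2]) ht.1 (by ring)
  convert this using 1
  simp only [Complex.real_smul]
  push_cast
  ring

lemma segment_mem_ball {x z v : ℂ} {s : ℝ} (hz : z ∈ ball x s)
    (hw : z + v ∈ ball x s) {t : ℝ} (ht : t ∈ Icc (0 : ℝ) 1) : z + t * v ∈ ball x s := by
  have hconv := convex_ball x s
  have := hconv hz hw (a := 1 - t) (b := t) (by linarith [ht.2]) ht.1 (by ring)
  convert this using 1
  simp only [Complex.real_smul]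
  push_cast
  ring

include hc in
/-- monotonicity along a direction -/
lemma uh_mono {x : ℂ} {R M : ℝ} (hM : 0 ≤ M) (h : Bd μ x R M) {H a : ℂ → ℂ}
    (ha : ContinuousOn a (ball x R)) (hH : ∀ z ∈ ball x R, HasDerivAt H (a z) z) {z v : ℂ}
    (hz : z ∈ ball x R) (hw : z + v ∈ ball x R)
    (hv : ∀ᵐ w : ℂ, w ∈ ball x R → (CT μ w * v).re ≤ (a w * v).re) :
    uh μ (z + v) - (H (z + v)).re ≤ uh μ z - (H z).re := by
  apply le_of_forall_pos_le_add
  intro ε hε
  set δ := min (R - dist z x) (R - dist (z + v) x) with hδ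
  have hδ0 : 0 < δ := lt_min (sub_pos.2 hz) (sub_pos.2 hw)
  have hz' : z ∈ closedBall x (R - δ) := by
    rw [mem_closedBall]
    linarith [min_le_left (R - dist z x) (R - dist (z + v) x)]
  have hw' : z + v ∈ closedBall x (R - δ) := by
    rw [mem_closedBall]
    linarith [min_le_right (R - dist z x) (R - dist (z + v) x)]
  -- uniform continuity of `a` on a compact ball
  have hcomp : IsCompact (closedBall x (R - δ / 2)) := isCompact_closedBall _ _
  have hsubb : closedBall x (R - δ / 2) ⊆ ball x R := closedBall_subset_ball (by linarith)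
  have huc := hcomp.uniformContinuousOn_of_continuous (ha.mono hsubb)
  rw [Metric.uniformContinuousOn_iff] at huc
  obtain ⟨η, hη, huc⟩ := huc (ε / (‖v‖ + 1)) (by positivity)
  obtain ⟨k₀, hk₀⟩ := ((tendsto_dr.eventually (gt_mem_nhds
    (show (0 : ℝ) < min (δ / 8) η by positivity)))).exists
  have hdr1 : 8 * dr k₀ < δ := by linarith [hk₀.trans_le (min_le_left (δ / 8) η)]
  have hdr2 : dr k₀ < η := hk₀.trans_le (min_le_right _ _)
  have hsub : ∀ y ∈ closedBall x (R - δ), ball y (4 * dr k₀) ⊆ ball x R := by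
    intro y hy
    apply ball_subset_ball'
    rw [mem_closedBall] at hy
    linarith
  have h1 := (U_tendsto μ hc hM (h.mono (hsub z hz'))).1
  have h2 := (U_tendsto μ hc hM (h.mono (hsub (z + v) hw'))).1
  have key : ∀ k, k₀ ≤ k → U (dr k) μ (z + v) - (H (z + v)).re ≤ U (dr k) μ z - (H z).re + ε := by
    intro k hk
    have hdk := dr_anti hk
    have hdk0 := dr_pos k
    have hder : ∀ t ∈ Icc (0 : ℝ) 1, HasDerivAt (fun t : ℝ => U (dr k) μ (z + t * v) -
        (H (z + t * v)).re) ((Cr (dr k) μ (z + t * v) * v).re - (a (z + t * v) * v).re) t := by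
      intro t ht
      apply (hasDerivAt_U μ hc hdk0 z v t).sub
      have g1 : HasDerivAt H (a (z + t * v)) (z + t * v) := hH _ (segment_mem_ball hz hw ht)
      have g2 : HasDerivAt (fun s : ℝ => z + (s : ℂ) * v) v t := by
        simpa using ((Complex.ofRealCLM.hasDerivAt (x := t)).mul_const v).const_add z
      have g3 := g1.comp_of_eq t g2 rfl
      exact (Complex.reCLM.hasFDerivAt (x := H (z + t * v))).comp_hasDerivAt t g3
    obtain ⟨c, hc1, hc2⟩ := exists_hasDerivAt_eq_slope (fun t : ℝ => U (dr k) μ (z + t * v) -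
        (H (z + t * v)).re)
      (fun t : ℝ => (Cr (dr k) μ (z + t * v) * v).re - (a (z + t * v) * v).re)
      (one_pos : (0 : ℝ) < 1)
      (fun t ht => (hder t ht).continuousAt.continuousWithinAt)
      (fun t ht => hder t ⟨ht.1.le, ht.2.le⟩)
    have hcI : c ∈ Icc (0 : ℝ) 1 := ⟨hc1.1.le, hc1.2.le⟩
    have hmem : z + c * v ∈ closedBall x (R - δ) := segment_mem_closedBall hz' hw' hcI
    have h3 : (Cr (dr k) μ (z + c * v) * v).re ≤ (a (z + c * v) * v).re + ε := by
      apply re_Cr_le μ hdk0
      filter_upwards [hv] with w hw2 hwb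
      have hwb2 : w ∈ closedBall x (R - δ / 2) := by
        rw [mem_closedBall]
        rw [mem_closedBall] at hmem
        rw [mem_ball] at hwb
        calc dist w x ≤ dist w (z + c * v) + dist (z + c * v) x := dist_triangle _ _ _
          _ ≤ R - δ / 2 := by linarith
      have h4 := hw2 (hsubb hwb2)
      have h5 : dist (a w) (a (z + c * v)) < ε / (‖v‖ + 1) := by
        apply huc w hwb2 (z + c * v)
        · exact closedBall_subset_closedBall (by linarith) hmem
        · rw [mem_ball] at hwb
          linarith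
      have h6 : ((a w - a (z + c * v)) * v).re ≤ ε := by
        refine (Complex.re_le_norm _).trans ?_
        rw [norm_mul]
        rw [dist_eq_norm] at h5
        have h7 : ‖a w - a (z + c * v)‖ * ‖v‖ ≤ (ε / (‖v‖ + 1)) * ‖v‖ :=
          mul_le_mul_of_nonneg_right h5.le (norm_nonneg _)
        refine h7.trans ?_
        rw [div_mul_eq_mul_div, div_le_iff₀ (by positivity)]
        nlinarith [norm_nonneg v]
      have h8 : ((a w - a (z + c * v)) * v).re = (a w * v).re - (a (z + c * v) * v).re := by
        rw [sub_mul, Complex.sub_re]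
      linarith
    simp only [Complex.ofReal_one, one_mul, Complex.ofReal_zero, zero_mul, add_zero, sub_zero,
      div_one] at hc2
    linarith
  have h3 : Tendsto (fun k : ℕ => U (dr k) μ (z + v) - (H (z + v)).re) atTop
      (𝓝 (uh μ (z + v) - (H (z + v)).re)) := h2.sub_const _
  have h4 : Tendsto (fun k : ℕ => U (dr k) μ z - (H z).re + ε) atTop
      (𝓝 (uh μ z - (H z).re + ε)) := (h1.sub_const _).add_const _
  refine le_of_tendsto_of_tendsto h3 h4 ?_
  filter_upwards [eventually_ge_atTop k₀] with k hk using key k hk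

include hc in
/-- the sub-mean value property -/
lemma uh_sub_mean {x : ℂ} {R M : ℝ} (hM : 0 ≤ M) (h : Bd μ x R M) {z : ℂ} {ρ : ℝ} (hρ : 0 ≤ ρ)
    (hz : closedBall z ρ ⊆ ball x R) : uh μ z ≤ Real.circleAverage (uh μ) z ρ := by
  have hcomp : IsCompact (closedBall z ρ) := isCompact_closedBall _ _
  obtain ⟨δ, hδ0, hδ⟩ := hcomp.exists_thickening_subset_open isOpen_ball hz
  have hcont : ContinuousOn (uh μ) (ball x R) := uh_continuousOn μ hc hM h
  have hci : CircleIntegrable (uh μ) z ρ := by
    apply ContinuousOn.circleIntegrable hρ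
    exact hcont.mono (sphere_subset_closedBall.trans hz)
  apply le_of_forall_pos_le_add
  intro ε hε
  obtain ⟨k, hk⟩ := ((tendsto_dr.eventually (gt_mem_nhds
    (show (0 : ℝ) < min (δ / 4) (ε / (2 * (14 * M + 1))) by positivity)))).exists
  have hdk0 := dr_pos k
  have hdr1 : 4 * dr k < δ := by linarith [hk.trans_le (min_le_left _ _)]
  have hdr2 : dr k < ε / (2 * (14 * M + 1)) := hk.trans_le (min_le_right _ _)
  have hsub : ∀ y ∈ closedBall z ρ, ball y (4 * dr k) ⊆ ball x R := by
    intro y hy
    refine Subset.trans ?_ hδ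
    intro w hw
    rw [mem_thickening_iff]
    exact ⟨y, hy, (mem_ball.1 hw).trans hdr1⟩
  have hclose : ∀ y ∈ closedBall z ρ, |W (dr k) μ y - uh μ y| ≤ ε / 2 := by
    intro y hy
    have h1 := (U_tendsto μ hc hM (h.mono (hsub y hy))).2 k le_rfl
    have h2 := U_W_diff μ hc hdk0 y
    have h3 : (μ (ball y (2 * dr k))).toReal ≤ 2 * (2 * dr k) * M := by
      apply ahlfors_upper μ y (by positivity) hM
      apply h.mono ((ball_subset_ball _).trans (hsub y hy))
      linarith
    have h4 : (μ (closedBall y (dr k))).toReal ≤ (μ (ball y (2 * dr k))).toReal :=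
      ENNReal.toReal_mono (measure_ne_top μ _) (measure_mono (closedBall_subset_ball (by linarith)))
    have h5 : |W (dr k) μ y - uh μ y| ≤ |U (dr k) μ y - W (dr k) μ y| + |U (dr k) μ y - uh μ y| := by
      have := abs_sub_abs_le_abs_sub (U (dr k) μ y - W (dr k) μ y) (U (dr k) μ y - uh μ y)
      have e : W (dr k) μ y - uh μ y = (U (dr k) μ y - uh μ y) - (U (dr k) μ y - W (dr k) μ y) := by ring
      rw [e]
      refine (abs_sub _ _).trans ?_
      linarith
    calc |W (dr k) μ y - uh μ y| ≤ (2 * (2 * dr k) * M) * (1 / 2) + 12 * M * dr k := by linarith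
      _ = (14 * M) * dr k := by ring
      _ ≤ (14 * M + 1) * (ε / (2 * (14 * M + 1))) := by
          apply mul_le_mul (by linarith) hdr2.le hdk0.le (by positivity)
      _ = ε / 2 := by field_simp
  have h1 := W_sub_mean μ hc hdk0 z ρ
  have hcz := abs_le.1 (hclose z (mem_closedBall_self hρ))
  have hWi : CircleIntegrable (W (dr k) μ) z ρ :=
    (W_continuous μ hc (dr k)).continuousOn.circleIntegrable hρ
  have h2 : Real.circleAverage (W (dr k) μ) z ρ ≤ Real.circleAverage (fun w => uh μ w + ε / 2) z ρ := by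
    apply Real.circleAverage_mono hWi
    · exact hci.add (circleIntegrable_const _ _ _)
    · intro y hy
      rw [abs_of_nonneg hρ] at hy
      have := abs_le.1 (hclose y (sphere_subset_closedBall hy))
      linarith
  have h3 : Real.circleAverage (fun w => uh μ w + ε / 2) z ρ = Real.circleAverage (uh μ) z ρ + ε / 2 := by
    have := Real.circleAverage_fun_add hci (circleIntegrable_const (ε / 2) z ρ)
    rw [this, Real.circleAverage_const]
  linarith

end

/-- the strict form: equality on the circle -/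
lemma eq_on_circle {g : ℂ → ℝ} {p : ℂ} {ρ c : ℝ} (hρ : 0 ≤ ρ) (hg : ContinuousOn g (sphere p ρ))
    (hle : ∀ w ∈ sphere p ρ, g w ≤ c) (hmean : c ≤ Real.circleAverage g p ρ) :
    ∀ w ∈ sphere p ρ, g w = c := by
  have hpi : (0 : ℝ) ≤ 2 * Real.pi := by positivity
  have hcm : ∀ θ : ℝ, circleMap p ρ θ ∈ sphere p ρ := fun θ => circleMap_mem_sphere p hρ θ
  have hgc : Continuous fun θ : ℝ => g (circleMap p ρ θ) :=
    hg.comp_continuous (continuous_circleMap p ρ) hcm
  have h1 : ∫ θ in (0 : ℝ)..2 * Real.pi, (c - g (circleMap p ρ θ)) = 0 := by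
    apply le_antisymm
    · rw [intervalIntegral.integral_sub (by simp) (hgc.intervalIntegrable _ _),
        intervalIntegral.integral_const, sub_zero, smul_eq_mul]
      unfold Real.circleAverage at hmean
      rw [smul_eq_mul, ← div_eq_inv_mul, le_div_iff₀ (by positivity)] at hmean
      linarith
    · apply intervalIntegral.integral_nonneg hpi
      intro θ _
      linarith [hle _ (hcm θ)]
  have h2 : ∀ θ ∈ Ioc (0 : ℝ) (2 * Real.pi), g (circleMap p ρ θ) = c := by
    by_contra hcon
    push Not at hcon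
    obtain ⟨θ₀, hθ₀, hne⟩ := hcon
    have hpos : 0 < ∫ θ in (0 : ℝ)..2 * Real.pi, (c - g (circleMap p ρ θ)) := by
      apply intervalIntegral.integral_pos (by positivity)
      · exact (continuous_const.sub hgc).continuousOn
      · intro θ _
        linarith [hle _ (hcm θ)]
      · exact ⟨θ₀, ⟨hθ₀.1.le, hθ₀.2⟩, sub_pos.2 (lt_of_le_of_ne (hle _ (hcm θ₀)) hne)⟩
    linarith
  intro w hw
  have h3 : w ∈ circleMap p ρ '' Ioc (0 : ℝ) (2 * Real.pi) := by
    rw [image_circleMap_Ioc, abs_of_nonneg hρ]
    exact hw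
  obtain ⟨θ, hθ, rfl⟩ := h3
  exact h2 θ hθ

end Pool.Agent.T2h27.SA
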