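import Mathlib
import Pool.Agent.H586R3.CT8
import Pool.Agent.T2h27.SA.S5

/-!
# Touching from below at every regular point
-/

set_option autoImplicit false

open MeasureTheory Metric Set Filter Topology Complex
open scoped ENNReal ComplexConjugate Real

namespace Pool.Agent.T2h27.SA

open Pool.Agent.H586R3.CT

/-- the Cauchy transform is equal to `a` almost everywhere near `z` -/
def Ty (μ : Measure ℂ) (a : ℂ → ℂ) (z : ℂ) : Prop :=
  ∃ s > 0, ∀ᵐ w : ℂ, w ∈ ball z s → CT μ w = a w

lemma Ty.of_mem {μ : Measure ℂ} {a : ℂ → ℂ} {z : ℂ} {s : ℝ}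
    (h : ∀ᵐ w : ℂ, w ∈ ball z s → CT μ w = a w) {y : ℂ} (hy : y ∈ ball z s) : Ty μ a y := by
  refine ⟨s - dist y z, sub_pos.2 hy, ?_⟩
  filter_upwards [h] with w hw hwb
  apply hw
  apply ball_subset_ball' _ hwb
  linarith

section

variable (μ : Measure ℂ) [IsFiniteMeasure μ]

lemma CT_continuousAt {z : ℂ} (hz : z ∉ μ.support) : ContinuousAt (CT μ) z := by
  obtain ⟨V, hV, hV0⟩ := Measure.notMem_support_iff_exists.1 hz
  obtain ⟨s, hs, hsV⟩ := Metric.mem_nhds_iff.1 hV
  have h0 : μ (ball z s) = 0 := measure_mono_null hsV hV0
  have hae : ∀ᵐ ζ ∂μ, ζ ∉ ball z s := by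
    rw [← compl_mem_ae_iff] at h0
    exact h0
  unfold CT
  apply continuousAt_of_dominated (bound := fun _ => (s / 2)⁻¹)
  · exact Eventually.of_forall fun w => (by fun_prop : Measurable fun ζ : ℂ => (w - ζ)⁻¹).aestronglyMeasurable
  · filter_upwards [ball_mem_nhds z (show 0 < s / 2 by positivity)] with w hw
    filter_upwards [hae] with ζ hζ
    rw [norm_inv]
    apply inv_anti₀ (by positivity)
    rw [mem_ball, not_lt] at hζ
    rw [mem_ball] at hw
    have := dist_triangle ζ w z
    rw [← dist_eq_norm, dist_comm w ζ]
    linarith
  · exact integrable_const _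
  · filter_upwards [hae] with ζ hζ
    have hne : z - ζ ≠ 0 := by
      intro h
      apply hζ
      rw [← sub_eq_zero.1 h]
      exact mem_ball_self hs
    exact (continuousAt_id.sub continuousAt_const).inv₀ hne

/-- at a point off the support the value determines the type -/
lemma type_of_value {ι : Type*} {x : ℂ} {R : ℝ} (S : Finset ι) (A : ι → ℂ → ℂ)
    (hA : ∀ i ∈ S, ContinuousOn (A i) (ball x R))
    (hne : ∀ i ∈ S, ∀ j ∈ S, i ≠ j → ∀ z ∈ ball x R, A i z ≠ A j z)
    (hval : ∀ᵐ z : ℂ, z ∈ ball x R → ∃ i ∈ S, CT μ z = A i z) {z : ℂ} (hz : z ∈ ball x R)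
    (hzs : z ∉ μ.support) {j : ι} (hj : j ∈ S) (hv : CT μ z = A j z) : Ty μ (A j) z := by
  have h1 : ∀ i ∈ S, i ≠ j → ∀ᶠ w in 𝓝 z, CT μ w ≠ A i w := by
    intro i hi hij
    apply ((CT_continuousAt μ hzs).ne_iff_eventually_ne
      ((hA i hi).continuousAt (isOpen_ball.mem_nhds hz))).1
    rw [hv]
    exact hne j hj i hi (Ne.symm hij) z hz
  have h2 : ∀ᶠ w in 𝓝 z, ∀ i ∈ S, i ≠ j → CT μ w ≠ A i w := by
    rw [Filter.eventually_all_finset]
    intro i hi
    by_cases hij : i = j
    · exact Eventually.of_forall fun w h => absurd hij h
    · filter_upwards [h1 i hi hij] with w hw _ using hw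
  obtain ⟨s, hs, hsb⟩ := Metric.eventually_nhds_iff_ball.1 (h2.and (isOpen_ball.mem_nhds hz))
  refine ⟨s, hs, ?_⟩
  filter_upwards [hval] with w hw hwb
  obtain ⟨i, hi, hiv⟩ := hw (hsb w hwb).2
  by_cases hij : i = j
  · rw [← hij]; exact hiv
  · exact absurd hiv ((hsb w hwb).1 i hi hij)

variable {R₀ : ℝ} (hc : ∀ᵐ ζ ∂μ, ‖ζ‖ ≤ R₀)

include hc in
/-- the potential is equal to the primitive up to a constant where the Cauchy transform has a type -/
lemma uh_const {x : ℂ} {R M : ℝ} (hM : 0 ≤ M) (h : Bd μ x R M) {H a : ℂ → ℂ}
    (ha : ContinuousOn a (ball x R)) (hH : ∀ z ∈ ball x R, HasDerivAt H (a z) z)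
    (hv : ∀ᵐ w : ℂ, w ∈ ball x R → CT μ w = a w) {z w : ℂ}
    (hz : z ∈ ball x R) (hw : w ∈ ball x R) :
    uh μ z - (H z).re = uh μ w - (H w).re := by
  have key : ∀ z w : ℂ, z ∈ ball x R → w ∈ ball x R → uh μ w - (H w).re ≤ uh μ z - (H z).re := by
    intro z w hz hw
    have e : z + (w - z) = w := by ring
    have := uh_mono μ hc hM h ha hH (z := z) (v := w - z) hz (by rw [e]; exact hw) (by
      filter_upwards [hv] with y hy hyb
      rw [hy hyb])
    rwa [e] at this
  exact le_antisymm (key w z hw hz) (key z w hz hw)

include hc in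
/-- **Touching from below**: near a regular point the potential minus the real part of one of the
primitives has a local minimum. -/
theorem touch {ι : Type*} (x : ℂ) {M : ℝ} (hM : 0 ≤ M) (hK : volume μ.support = 0) (n : ℕ) :
    ∀ (S : Finset ι) (A H : ι → ℂ → ℂ) (R : ℝ), S.card = n → 0 < R → Bd μ x R M →
      (∀ i ∈ S, ContinuousOn (A i) (ball x R)) →
      (∀ i ∈ S, ∀ j ∈ S, i ≠ j → ∀ z ∈ ball x R, A i z ≠ A j z) →
      (∀ᵐ z : ℂ, z ∈ ball x R → ∃ i ∈ S, CT μ z = A i z) →
      (∀ i ∈ S, ∀ z ∈ ball x R, HasDerivAt (H i) (A i z) z) →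
      ∃ j ∈ S, ∀ᶠ w in 𝓝 x, uh μ x - (H j x).re ≤ uh μ w - (H j w).re := by
  classical
  induction n with
  | zero =>
    intro S A H R hS hR _ _ _ hval _
    exfalso
    rw [Finset.card_eq_zero] at hS
    subst hS
    have h1 : ∀ᵐ z : ℂ, z ∉ ball x R := by
      filter_upwards [hval] with z hz hzb
      obtain ⟨i, hi, _⟩ := hz hzb
      exact absurd hi (Finset.notMem_empty i)
    have h2 : volume (ball x R) = 0 := by
      rw [← compl_mem_ae_iff]
      exact h1
    exact (measure_ball_pos volume x hR).ne' h2
  | succ n ih =>
    intro S A H R hS hR hB hA hne hval hH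
    have hSne : S.Nonempty := by
      rw [← Finset.card_pos]; omega
    obtain ⟨j, hj, hjmax⟩ := S.exists_max_image (fun i => ‖A i x‖) hSne
    have hxR : x ∈ ball x R := mem_ball_self hR
    by_cases hcl : x ∈ closure {z | Ty μ (A j) z}
    · refine ⟨j, hj, ?_⟩
      set e : ℂ := conj (A j x) with he
      -- the cone of good directions
      have hcone : ∀ᶠ p : ℂ × ℂ in 𝓝 (x, e), ∀ i ∈ S, ((A i p.1) * p.2).re ≤ ((A j p.1) * p.2).re := by
        rw [Filter.eventually_all_finset]
        intro i hi
        by_cases hij : i = j
        · subst hij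
          exact Eventually.of_forall fun p => le_rfl
        · have hcont : ContinuousAt (fun p : ℂ × ℂ => ((A j p.1) * p.2).re - ((A i p.1) * p.2).re)
              (x, e) := by
            have c1 : ContinuousAt (fun p : ℂ × ℂ => A j p.1) (x, e) :=
              ContinuousAt.comp (f := Prod.fst) (g := A j)
                ((hA j hj).continuousAt (isOpen_ball.mem_nhds hxR)) continuousAt_fst
            have c2 : ContinuousAt (fun p : ℂ × ℂ => A i p.1) (x, e) :=
              ContinuousAt.comp (f := Prod.fst) (g := A i)
                ((hA i hi).continuousAt (isOpen_ball.mem_nhds hxR)) continuousAt_fst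
            exact (Complex.continuous_re.continuousAt.comp (c1.mul continuousAt_snd)).sub
              (Complex.continuous_re.continuousAt.comp (c2.mul continuousAt_snd))
          have hpos : 0 < ((A j x) * e).re - ((A i x) * e).re := by
            have h1 : ((A j x) * e).re = ‖A j x‖ ^ 2 := by
              rw [he, Complex.mul_conj, Complex.normSq_eq_norm_sq, Complex.ofReal_re]
            have h2 : A i x - A j x ≠ 0 := sub_ne_zero.2 (hne i hi j hj hij x hxR)
            have h3 : 0 < ‖A i x - A j x‖ ^ 2 := by positivity
            have h4 : ‖A i x - A j x‖ ^ 2 = ‖A i x‖ ^ 2 + ‖A j x‖ ^ 2 - 2 * ((A i x) * e).re := by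
              rw [Complex.sq_norm, Complex.sq_norm, Complex.sq_norm, Complex.normSq_apply,
                Complex.normSq_apply, Complex.normSq_apply, he]
              simp
              ring
            have h5 : ‖A i x‖ ^ 2 ≤ ‖A j x‖ ^ 2 := by
              have := hjmax i hi
              gcongr
            linarith
          filter_upwards [hcont.eventually (lt_mem_nhds hpos)] with p hp
          linarith
      obtain ⟨δ', hδ'0, hδ'⟩ := Metric.eventually_nhds_iff_ball.1 hcone
      set δ := min δ' R with hδ
      have hδ0 : 0 < δ := lt_min hδ'0 hR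
      have hcone2 : ∀ w ∈ ball x δ, ∀ v ∈ ball e δ, ∀ i ∈ S,
          ((A i w) * v).re ≤ ((A j w) * v).re := by
        intro w hw v hv
        apply hδ' (w, v)
        rw [mem_ball, Prod.dist_eq]
        exact max_lt ((mem_ball.1 hw).trans_le (min_le_left _ _))
          ((mem_ball.1 hv).trans_le (min_le_left _ _))
      have hsubR : ball x δ ⊆ ball x R := ball_subset_ball (min_le_right _ _)
      have hBδ : Bd μ x δ M := hB.mono hsubR
      set g : ℂ → ℝ := fun w => uh μ w - (H j w).re with hg
      -- the step size
      obtain ⟨ε, hε0, hε1⟩ : ∃ ε : ℝ, 0 < ε ∧ ε * ‖e‖ < δ / 2 := by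
        refine ⟨δ / (2 * (‖e‖ + 1)) , by positivity, ?_⟩
        rw [div_mul_eq_mul_div, div_lt_iff₀ (by positivity)]
        nlinarith [norm_nonneg e]
      set y : ℂ := x + ε * e with hy
      have hyx : dist y x < δ / 2 := by
        rw [hy, dist_eq_norm, add_sub_cancel_left, norm_mul, Complex.norm_real,
          Real.norm_of_nonneg hε0.le]
        exact hε1
      have hyδ : y ∈ ball x δ := by
        rw [mem_ball]; linarith
      set s₁ := min (δ * ε) (δ / 2) with hs₁
      have hs₁0 : 0 < s₁ := lt_min (by positivity) (by positivity)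
      -- the direction from a nearby point to `y` is good
      have hdir : ∀ w ∈ ball x s₁, ∀ z ∈ ball x δ, ∀ i ∈ S,
          ((A i z) * (y - w)).re ≤ ((A j z) * (y - w)).re := by
        intro w hw z hz i hi
        have h1 : (ε : ℂ)⁻¹ * (y - w) ∈ ball e δ := by
          rw [mem_ball, dist_eq_norm]
          have h2 : (ε : ℂ)⁻¹ * (y - w) - e = (ε : ℂ)⁻¹ * (x - w) := by
            rw [hy]
            have : (ε : ℂ) ≠ 0 := by exact_mod_cast hε0.ne'
            field_simp
            ring
          rw [h2, norm_mul, norm_inv, Complex.norm_real, Real.norm_of_nonneg hε0.le,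
            ← div_eq_inv_mul, div_lt_iff₀ hε0, ← dist_eq_norm, dist_comm]
          exact (mem_ball.1 hw).trans_le (min_le_left _ _)
        have h3 := hcone2 z hz _ h1 i hi
        have h4 : ∀ a : ℂ, (a * ((ε : ℂ)⁻¹ * (y - w))).re = ε⁻¹ * (a * (y - w)).re := by
          intro a
          have : a * ((ε : ℂ)⁻¹ * (y - w)) = ((ε⁻¹ : ℝ) : ℂ) * (a * (y - w)) := by
            push_cast; ring
          rw [this, Complex.re_ofReal_mul]
        rw [h4, h4] at h3
        exact le_of_mul_le_mul_left h3 (by positivity)
      -- monotonicity along the direction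
      have hmono : ∀ w ∈ ball x s₁, ∀ t ∈ Icc (0 : ℝ) 1, ∀ z : ℂ, z ∈ ball x δ →
          z + t * (y - w) ∈ ball x δ → g (z + t * (y - w)) ≤ g z := by
        intro w hw t ht z hz hz2
        apply uh_mono μ hc hM hBδ ((hA j hj).mono hsubR) (fun z hz => hH j hj z (hsubR hz)) hz hz2
        filter_upwards [hval] with p hp hpb
        obtain ⟨i, hi, hiv⟩ := hp (hsubR hpb)
        rw [hiv]
        have h5 := hdir w hw p hpb i hi
        have h6 : ∀ a : ℂ, (a * ((t : ℂ) * (y - w))).re = t * (a * (y - w)).re := by
          intro a
          have : a * ((t : ℂ) * (y - w)) = ((t : ℝ) : ℂ) * (a * (y - w)) := by ring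
          rw [this, Complex.re_ofReal_mul]
        rw [h6, h6]
        exact mul_le_mul_of_nonneg_left h5 ht.1
      have hgc : ContinuousOn g (ball x δ) := by
        apply (uh_continuousOn μ hc hM hBδ).sub
        intro z hz
        exact (Complex.continuous_re.continuousAt.comp
          (hH j hj z (hsubR hz)).continuousAt).continuousWithinAt
      have hs₁δ : ball x s₁ ⊆ ball x δ := ball_subset_ball (by
        have := min_le_right (δ * ε) (δ / 2)
        linarith)
      have h1le : ∀ w ∈ ball x s₁, g y ≤ g w := by
        intro w hw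
        have := hmono w hw 1 ⟨zero_le_one, le_rfl⟩ w (hs₁δ hw)
        simp only [Complex.ofReal_one, one_mul, add_sub_cancel] at this
        exact this hyδ
      -- equality at points of type `j`
      have h2eq : ∀ w ∈ ball x s₁, Ty μ (A j) w → g w = g y := by
        intro w hw hty
        obtain ⟨s, hs, hsty⟩ := hty
        set m := max (dist w x) (dist y x) with hm
        have hmδ : m < δ := max_lt (mem_ball.1 (hs₁δ hw)) (mem_ball.1 hyδ)
        set s' := min s (δ - m) with hs'
        have hs'0 : 0 < s' := lt_min hs (sub_pos.2 hmδ)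
        have hwm : w ∈ closedBall x m := mem_closedBall.2 (le_max_left _ _)
        have hym : y ∈ closedBall x m := mem_closedBall.2 (le_max_right _ _)
        have hseg : ∀ t ∈ Icc (0 : ℝ) 1, w + t * (y - w) ∈ closedBall x m := by
          intro t ht
          apply segment_mem_closedBall hwm _ ht
          rw [add_sub_cancel]; exact hym
        have htube : ∀ t ∈ Icc (0 : ℝ) 1, ball (w + t * (y - w)) s' ⊆ ball x δ := by
          intro t ht
          apply ball_subset_ball'
          have h7 := mem_closedBall.1 (hseg t ht)
          have h8 := min_le_right s (δ - m)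
          linarith
        have hws' : ball w s' ⊆ ball x δ := by
          have := htube 0 ⟨le_rfl, zero_le_one⟩
          simpa using this
        have hconst : ∀ z ∈ ball w s', g z = g w := by
          intro z hz
          have hBw : Bd μ w s' M := hBδ.mono hws'
          exact uh_const μ hc hM hBw ((hA j hj).mono (hws'.trans hsubR))
            (fun z hz => hH j hj z (hsubR (hws' hz)))
            (by
              filter_upwards [hsty] with p hp hpb
              exact hp (ball_subset_ball (min_le_left _ _) hpb)) hz (mem_ball_self hs'0)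
        have htle : ∀ t ∈ Icc (0 : ℝ) 1, ∀ p ∈ ball (w + t * (y - w)) s', g p ≤ g w := by
          intro t ht p hp
          have h9 : p - t * (y - w) ∈ ball w s' := by
            rw [mem_ball, dist_eq_norm] at hp ⊢
            convert hp using 2
            ring
          rw [← hconst _ h9]
          have := hmono w hw t ht (p - t * (y - w)) (hws' h9) (by
            rw [sub_add_cancel]; exact htube t ht hp)
          rwa [sub_add_cancel] at this
        obtain ⟨N, hN⟩ := exists_nat_gt (‖y - w‖ / s')
        have hN0 : 0 < (N : ℝ) := lt_of_le_of_lt (by positivity) hN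
        have hρ : ‖y - w‖ / N < s' := by
          rw [div_lt_iff₀ hN0]
          rw [div_lt_iff₀ hs'0] at hN
          linarith
        have hstep : ∀ k : ℕ, k ≤ N → g (w + ((k : ℝ) / N : ℝ) * (y - w)) = g w := by
          intro k
          induction k with
          | zero => intro _; simp
          | succ k ihk =>
            intro hk
            have hk' := ihk (by omega)
            have htk : ((k : ℝ) / N) ∈ Icc (0 : ℝ) 1 := by
              constructor
              · positivity
              · rw [div_le_one hN0]
                exact_mod_cast (by omega : k ≤ N)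
            set p := w + ((k : ℝ) / N : ℝ) * (y - w) with hp
            have hcb : closedBall p (‖y - w‖ / N) ⊆ ball p s' := closedBall_subset_ball hρ
            have hcb2 : closedBall p (‖y - w‖ / N) ⊆ ball x δ := hcb.trans (htube _ htk)
            have hρ0 : 0 ≤ ‖y - w‖ / N := by positivity
            have hsm := uh_sub_mean μ hc hM hBδ hρ0 hcb2
            have hci : CircleIntegrable (uh μ) p (‖y - w‖ / N) := by
              apply ContinuousOn.circleIntegrable hρ0
              exact (uh_continuousOn μ hc hM hBδ).mono (sphere_subset_closedBall.trans hcb2)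
            have hHc : ContinuousOn (H j) (ball x δ) := fun z hz =>
              (hH j hj z (hsubR hz)).continuousAt.continuousWithinAt
            have hciH : CircleIntegrable (H j) p (‖y - w‖ / N) := by
              apply ContinuousOn.circleIntegrable hρ0
              exact hHc.mono (sphere_subset_closedBall.trans hcb2)
            have hHm : Real.circleAverage (fun z => (H j z).re) p (‖y - w‖ / N) = (H j p).re := by
              have h10 := Complex.reCLM.circleAverage_comp_comm hciH
              have h11 : Real.circleAverage (H j) p (‖y - w‖ / N) = H j p := by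
                apply circleAverage_of_differentiable_on_off_countable countable_empty
                · rw [abs_of_nonneg hρ0]
                  exact hHc.mono hcb2
                · intro z hz
                  rw [abs_of_nonneg hρ0, sdiff_empty] at hz
                  exact (hH j hj z (hsubR (hcb2 (ball_subset_closedBall hz)))).differentiableAt
              rw [h11] at h10
              exact h10
            have hgm : g w ≤ Real.circleAverage g p (‖y - w‖ / N) := by
              have h12 : Real.circleAverage g p (‖y - w‖ / N) =
                  Real.circleAverage (uh μ) p (‖y - w‖ / N) - (H j p).re := by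
                rw [hg, Real.circleAverage_fun_sub hci, hHm]
                apply ContinuousOn.circleIntegrable hρ0
                exact (Complex.continuous_re.comp_continuousOn hHc).mono
                  (sphere_subset_closedBall.trans hcb2)
              rw [h12, ← hk', hg]
              linarith
            have hon := eq_on_circle hρ0 (hgc.mono (sphere_subset_closedBall.trans hcb2))
              (fun z hz => htle _ htk z (hcb (sphere_subset_closedBall hz))) hgm
            apply hon
            rw [mem_sphere, dist_eq_norm, hp]
            have h13 : w + (((k + 1 : ℕ) : ℝ) / N : ℝ) * (y - w) - (w + ((k : ℝ) / N : ℝ) * (y - w)) =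
                ((1 / N : ℝ) : ℂ) * (y - w) := by
              push_cast
              ring
            rw [h13, norm_mul, Complex.norm_real, Real.norm_of_nonneg (by positivity)]
            ring
        have hfin := hstep N le_rfl
        rw [div_self hN0.ne', Complex.ofReal_one, one_mul, add_sub_cancel] at hfin
        exact hfin.symm
      -- equality at `x`
      have hgx : g x = g y := by
        have hx1 : x ∈ closure ({z | Ty μ (A j) z} ∩ ball x s₁) := by
          rw [mem_closure_iff_nhds] at hcl ⊢
          intro t ht
          obtain ⟨z, hz1, hz2⟩ := hcl (t ∩ ball x s₁) (inter_mem ht (ball_mem_nhds x hs₁0))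
          exact ⟨z, hz1.1, hz2, hz1.2⟩
        have hcx : ContinuousAt g x := hgc.continuousAt (ball_mem_nhds x hδ0)
        have hmem : g x ∈ closure {g y} := by
          have := hcx.continuousWithinAt.mem_closure_image
            (s := {z | Ty μ (A j) z} ∩ ball x s₁) hx1
          refine closure_mono ?_ this
          rintro _ ⟨w, ⟨hw1, hw2⟩, rfl⟩
          exact h2eq w hw2 hw1
        rw [closure_singleton] at hmem
        exact hmem
      filter_upwards [ball_mem_nhds x hs₁0] with w hw
      have := h1le w hw
      rw [← hgx] at this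
      exact this
    · -- the type `j` does not occur near `x`
      rw [mem_closure_iff_nhds] at hcl
      push Not at hcl
      obtain ⟨V, hV, hV0⟩ := hcl
      obtain ⟨s, hs, hsV⟩ := Metric.mem_nhds_iff.1 hV
      set R' := min s R with hR'
      have hR'0 : 0 < R' := lt_min hs hR
      have hsubR : ball x R' ⊆ ball x R := ball_subset_ball (min_le_right _ _)
      obtain ⟨i, hi, hi2⟩ := ih (S.erase j) A H R' (by rw [Finset.card_erase_of_mem hj, hS]; rfl)
        hR'0 (hB.mono hsubR)
        (fun i hi => (hA i (Finset.mem_of_mem_erase hi)).mono hsubR)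
        (fun i hi k hk hik z hz => hne i (Finset.mem_of_mem_erase hi) k
          (Finset.mem_of_mem_erase hk) hik z (hsubR hz))
        (by
          have hK' : ∀ᵐ z : ℂ, z ∉ μ.support := by
            rw [← compl_mem_ae_iff] at hK
            exact hK
          filter_upwards [hval, hK'] with z hz1 hz2 hzb
          obtain ⟨i, hi, hiv⟩ := hz1 (hsubR hzb)
          refine ⟨i, Finset.mem_erase.2 ⟨?_, hi⟩, hiv⟩
          intro hij
          subst hij
          have hty := type_of_value μ S A hA hne hval (hsubR hzb) hz2 hi hiv
          have : z ∈ V ∩ {z | Ty μ (A i) z} :=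
            ⟨hsV (ball_subset_ball (min_le_left _ _) hzb), hty⟩
          rw [hV0] at this
          exact this)
        (fun i hi z hz => hH i (Finset.mem_of_mem_erase hi) z (hsubR hz))
      exact ⟨i, Finset.mem_of_mem_erase hi, hi2⟩

end

end Pool.Agent.T2h27.SA
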