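import Mathlib
import Pool.Agent.T2h27.SA.P4
import Pool.Agent.T2h27.SA.S6
import Pool.Agent.T2h27.SA.S13

/-!
# The local model at a point: touching in the Puiseux coordinate
-/

set_option autoImplicit false

open MeasureTheory Metric Set Filter Topology Complex
open scoped ENNReal ComplexConjugate Real

namespace Pool.Agent.T2h27.SA

open Pool.Agent.H586R3.CT

/-- local inverse of the power coordinate -/
lemma local_inv (z₀ : ℂ) {N : ℕ} (hN : 0 < N) {s₁ : ℂ} (hs₁ : s₁ ≠ 0) :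
    ∃ σ : ℂ → ℂ, AnalyticAt ℂ σ (z₀ + s₁ ^ N) ∧ σ (z₀ + s₁ ^ N) = s₁ ∧
      (∀ᶠ z in 𝓝 (z₀ + s₁ ^ N), z₀ + (σ z) ^ N = z) ∧ (∀ᶠ s in 𝓝 s₁, σ (z₀ + s ^ N) = s) := by
  have ha : AnalyticAt ℂ (fun s : ℂ => z₀ + s ^ N) s₁ := by fun_prop
  have hd : deriv (fun s : ℂ => z₀ + s ^ N) s₁ ≠ 0 := by
    have h1 : HasDerivAt (fun s : ℂ => z₀ + s ^ N) (N * s₁ ^ (N - 1)) s₁ :=
      (hasDerivAt_pow N s₁).const_add z₀
    rw [h1.deriv]
    exact mul_ne_zero (by exact_mod_cast hN.ne') (pow_ne_zero _ hs₁)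
  refine ⟨ha.hasStrictDerivAt.localInverse _ _ _ hd, ha.analyticAt_localInverse hd, ?_, ?_, ?_⟩
  · exact (HasStrictDerivAt.eventually_left_inverse ha.hasStrictDerivAt hd).self_of_nhds
  · exact HasStrictDerivAt.eventually_right_inverse ha.hasStrictDerivAt hd
  · exact HasStrictDerivAt.eventually_left_inverse ha.hasStrictDerivAt hd

lemma chart (z₀ : ℂ) {N : ℕ} (hN : 0 < N) {s₁ : ℂ} (hs₁ : s₁ ≠ 0) {V : Set ℂ} (hV : V ∈ 𝓝 s₁) :
    ∃ (r : ℝ) (σ : ℂ → ℂ), 0 < r ∧ σ (z₀ + s₁ ^ N) = s₁ ∧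
      (∀ z ∈ ball (z₀ + s₁ ^ N) r, σ z ∈ V ∧ σ z ≠ 0 ∧ z₀ + (σ z) ^ N = z ∧
        DifferentiableAt ℂ σ z) ∧ (∀ᶠ s in 𝓝 s₁, σ (z₀ + s ^ N) = s) := by
  obtain ⟨σ, h1, h2, h3, h4⟩ := local_inv z₀ hN hs₁
  have h5 : ∀ᶠ z in 𝓝 (z₀ + s₁ ^ N), σ z ∈ V := by
    apply h1.continuousAt
    rw [h2]; exact hV
  have h6 : ∀ᶠ z in 𝓝 (z₀ + s₁ ^ N), σ z ≠ 0 := by
    apply h1.continuousAt.eventually_ne
    rw [h2]; exact hs₁
  have h7 : ∀ᶠ z in 𝓝 (z₀ + s₁ ^ N), DifferentiableAt ℂ σ z :=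
    Complex.analyticAt_iff_eventually_differentiableAt.1 h1
  obtain ⟨r, hr, hb⟩ := Metric.eventually_nhds_iff_ball.1 (h5.and (h6.and (h3.and h7)))
  exact ⟨r, σ, hr, h2, fun z hz => hb z hz, h4⟩

/-- local data at a point -/
structure PD {ι : Type*} (μ : Measure ℂ) (z₀ : ℂ) (N : ℕ) (ρ : ℝ) (B : ι → ℂ → ℂ) : Prop where
  hN : 0 < N
  hρ : 0 < ρ
  hB : ∀ j s, s ≠ 0 → ‖s‖ < ρ → DifferentiableAt ℂ (B j) s
  hne : ∀ i j, i ≠ j → ∀ s, s ≠ 0 → ‖s‖ < ρ → B i s ≠ B j s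
  hval : ∀ᵐ z : ℂ, ∀ s, s ≠ 0 → ‖s‖ < ρ → z₀ + s ^ N = z → ∃ j, CT μ z = B j s

/-- two primitives differ by a constant near a point -/
lemma prim_const {f g f' : ℂ → ℂ} {x : ℂ} (hf : ∀ᶠ s in 𝓝 x, HasDerivAt f (f' s) s)
    (hg : ∀ᶠ s in 𝓝 x, HasDerivAt g (f' s) s) : ∀ᶠ s in 𝓝 x, f s - g s = f x - g x := by
  obtain ⟨r, hr, hb⟩ := Metric.eventually_nhds_iff_ball.1 (hf.and hg)
  filter_upwards [ball_mem_nhds x hr] with s hs
  have hd : DifferentiableOn ℂ (fun s => f s - g s) (ball x r) := fun y hy =>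
    ((hb y hy).1.sub (hb y hy).2).differentiableAt.differentiableWithinAt
  refine isOpen_ball.is_const_of_deriv_eq_zero (convex_ball x r).isPreconnected hd ?_ hs
    (mem_ball_self hr)
  intro y hy
  have := (hb y hy).1.sub (hb y hy).2
  rw [sub_self] at this
  exact this.deriv

section

variable {μ : Measure ℂ} [IsFiniteMeasure μ] {z₀ : ℂ} {N : ℕ} {ρ : ℝ} {ι : Type*}
  {B : ι → ℂ → ℂ}

omit [IsFiniteMeasure μ] in
lemma ae_notMem_support (hK : volume μ.support = 0) : ∀ᵐ z : ℂ, z ∉ μ.support := by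
  rw [← compl_mem_ae_iff] at hK
  exact hK

/-- an almost everywhere property is satisfied somewhere in every ball -/
lemma exists_of_ae {P : ℂ → Prop} (h : ∀ᵐ z : ℂ, P z) (x : ℂ) {r : ℝ} (hr : 0 < r) :
    ∃ z ∈ ball x r, P z := by
  by_contra hcon
  push Not at hcon
  have h1 : ∀ᵐ z : ℂ, z ∉ ball x r := by
    filter_upwards [h] with z hz hzb using hcon z hzb hz
  have h2 : volume (ball x r) = 0 := by
    rw [← compl_mem_ae_iff]
    exact h1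
  exact (measure_ball_pos volume x hr).ne' h2

omit [IsFiniteMeasure μ] in
/-- the standard chart of the local data -/
lemma PD.chart (h : PD μ z₀ N ρ B) {s₁ : ℂ} (hs₁ : s₁ ≠ 0) (hs₁ρ : ‖s₁‖ < ρ) :
    ∃ (r : ℝ) (σ : ℂ → ℂ), 0 < r ∧ σ (z₀ + s₁ ^ N) = s₁ ∧
      (∀ z ∈ ball (z₀ + s₁ ^ N) r, σ z ≠ 0 ∧ ‖σ z‖ < ρ ∧ z₀ + (σ z) ^ N = z ∧
        DifferentiableAt ℂ σ z) ∧ (∀ᶠ s in 𝓝 s₁, σ (z₀ + s ^ N) = s) := by
  have hV : ball (0 : ℂ) ρ ∈ 𝓝 s₁ := isOpen_ball.mem_nhds (by rwa [mem_ball_zero_iff])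
  obtain ⟨r, σ, h1, h2, h3, h4⟩ := SA.chart z₀ h.hN hs₁ hV
  refine ⟨r, σ, h1, h2, ?_, h4⟩
  intro z hz
  obtain ⟨g1, g2, g3, g4⟩ := h3 z hz
  rw [mem_ball_zero_iff] at g1
  exact ⟨g2, g1, g3, g4⟩

/-- off the support the Cauchy transform is one of the branches -/
lemma PD.val_off [Finite ι] (h : PD μ z₀ N ρ B) {s₁ : ℂ} (hs₁ : s₁ ≠ 0) (hs₁ρ : ‖s₁‖ < ρ)
    (hoff : z₀ + s₁ ^ N ∉ μ.support) : ∃ j, CT μ (z₀ + s₁ ^ N) = B j s₁ := by
  obtain ⟨r, σ, hr, hσ, hb, -⟩ := h.chart hs₁ hs₁ρ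
  by_contra hcon
  push Not at hcon
  have hσc : ContinuousAt σ (z₀ + s₁ ^ N) := (hb _ (mem_ball_self hr)).2.2.2.continuousAt
  have h1 : ∀ᶠ z in 𝓝 (z₀ + s₁ ^ N), ∀ j, CT μ z ≠ B j (σ z) := by
    rw [Filter.eventually_all]
    intro j
    have hBc : ContinuousAt (fun z => B j (σ z)) (z₀ + s₁ ^ N) := by
      have : ContinuousAt (B j) (σ (z₀ + s₁ ^ N)) := by
        rw [hσ]; exact (h.hB j s₁ hs₁ hs₁ρ).continuousAt
      exact this.comp hσc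
    apply ((CT_continuousAt μ hoff).ne_iff_eventually_ne hBc).1
    rw [hσ]
    exact hcon j
  obtain ⟨r', hr', hb'⟩ := Metric.eventually_nhds_iff_ball.1 h1
  obtain ⟨z, hz, hzv⟩ := exists_of_ae h.hval (z₀ + s₁ ^ N) (lt_min hr hr')
  obtain ⟨g1, g2, g3, g4⟩ := hb z (ball_subset_ball (min_le_left _ _) hz)
  obtain ⟨j, hj⟩ := hzv (σ z) g1 g2 g3
  exact hb' z (ball_subset_ball (min_le_right _ _) hz) j hj

omit [IsFiniteMeasure μ] in
/-- the local data in the plane near a regular point -/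
lemma PD.plane [Finite ι] (h : PD μ z₀ N ρ B) {s₁ : ℂ} (hs₁ : s₁ ≠ 0) (hs₁ρ : ‖s₁‖ < ρ) :
    ∃ (r M : ℝ) (σ : ℂ → ℂ) (H : ι → ℂ → ℂ), 0 < r ∧ 0 ≤ M ∧ σ (z₀ + s₁ ^ N) = s₁ ∧
      (∀ z ∈ ball (z₀ + s₁ ^ N) r, σ z ≠ 0 ∧ ‖σ z‖ < ρ ∧ z₀ + (σ z) ^ N = z ∧
        DifferentiableAt ℂ σ z) ∧ Bd μ (z₀ + s₁ ^ N) r M ∧
      (∀ j, ContinuousOn (fun z => B j (σ z)) (ball (z₀ + s₁ ^ N) r)) ∧
      (∀ i j, i ≠ j → ∀ z ∈ ball (z₀ + s₁ ^ N) r, B i (σ z) ≠ B j (σ z)) ∧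
      (∀ᵐ z : ℂ, z ∈ ball (z₀ + s₁ ^ N) r → ∃ j, CT μ z = B j (σ z)) ∧
      (∀ j, ∀ z ∈ ball (z₀ + s₁ ^ N) r, HasDerivAt (H j) (B j (σ z)) z) ∧
      (∀ j, ∀ g : ℂ → ℂ, (∀ᶠ s in 𝓝 s₁, HasDerivAt g (N * s ^ (N - 1) * B j s) s) →
        ∀ᶠ s in 𝓝 s₁, g s - H j (z₀ + s ^ N) = g s₁ - H j (z₀ + s₁ ^ N)) := by
  classical
  obtain ⟨r, σ, hr, hσ, hb, hσl⟩ := h.chart hs₁ hs₁ρ
  set z₁ := z₀ + s₁ ^ N with hz₁
  have hd : ∀ j, ∀ z ∈ ball z₁ r, DifferentiableAt ℂ (fun z => B j (σ z)) z := by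
    intro j z hz
    obtain ⟨g1, g2, g3, g4⟩ := hb z hz
    exact (h.hB j (σ z) g1 g2).comp z g4
  -- a bound
  have hbound : ∀ j, ∀ᶠ z in 𝓝 z₁, ‖B j (σ z)‖ < ‖B j s₁‖ + 1 := by
    intro j
    have hc : ContinuousAt (fun z => ‖B j (σ z)‖) z₁ := (hd j z₁ (mem_ball_self hr)).continuousAt.norm
    apply hc.eventually_lt continuousAt_const
    rw [hσ]; linarith
  cases nonempty_fintype ι
  obtain ⟨r', hr', hb'⟩ := Metric.eventually_nhds_iff_ball.1 (Filter.eventually_all.2 hbound)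
  set r₂ := min r r' with hr₂
  have hr₂0 : 0 < r₂ := lt_min hr hr'
  have hsub : ball z₁ r₂ ⊆ ball z₁ r := ball_subset_ball (min_le_left _ _)
  have hsub' : ball z₁ r₂ ⊆ ball z₁ r' := ball_subset_ball (min_le_right _ _)
  have hprim : ∀ j, ∃ H : ℂ → ℂ, ∀ z ∈ ball z₁ r₂, HasDerivAt H (B j (σ z)) z := by
    intro j
    have h1 : DifferentiableOn ℂ (fun z => B j (σ z)) (ball z₁ r₂) := fun z hz =>
      (hd j z (hsub hz)).differentiableWithinAt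
    exact h1.isExactOn_ball
  choose H hH using hprim
  have hval : ∀ᵐ z : ℂ, z ∈ ball z₁ r₂ → ∃ j, CT μ z = B j (σ z) := by
    filter_upwards [h.hval] with z hz hzb
    obtain ⟨g1, g2, g3, g4⟩ := hb z (hsub hzb)
    exact hz (σ z) g1 g2 g3
  refine ⟨r₂, ∑ j, (‖B j s₁‖ + 1), σ, H, hr₂0, Finset.sum_nonneg fun j _ => by positivity, hσ,
    fun z hz => hb z (hsub hz), ?_, ?_, ?_, hval, hH, ?_⟩
  · filter_upwards [hval] with z hz hzb
    obtain ⟨j, hj⟩ := hz hzb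
    rw [hj]
    refine (hb' z (hsub' hzb) j).le.trans ?_
    exact Finset.single_le_sum (f := fun j => ‖B j s₁‖ + 1) (fun i _ => by positivity)
      (Finset.mem_univ j)
  · intro j z hz
    exact (hd j z (hsub hz)).continuousAt.continuousWithinAt
  · intro i j hij z hz
    obtain ⟨g1, g2, g3, g4⟩ := hb z (hsub hz)
    exact h.hne i j hij _ g1 g2
  · intro j g hg
    apply prim_const hg
    have hc : ContinuousAt (fun s : ℂ => z₀ + s ^ N) s₁ := by fun_prop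
    have h1 : ∀ᶠ s in 𝓝 s₁, z₀ + s ^ N ∈ ball z₁ r₂ := hc (ball_mem_nhds z₁ hr₂0)
    filter_upwards [h1, hσl] with s hs hs2
    have h2 := hH j _ hs
    rw [hs2] at h2
    have h3 : HasDerivAt (fun s : ℂ => z₀ + s ^ N) (N * s ^ (N - 1)) s :=
      (hasDerivAt_pow N s).const_add z₀
    have h4 := h2.comp s h3
    rw [mul_comm] at h4
    exact h4

variable {R₀ : ℝ} (hc : ∀ᵐ ζ ∂μ, ‖ζ‖ ≤ R₀)

include hc in
/-- touching in the Puiseux coordinate -/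
theorem PD.touch [Finite ι] (h : PD μ z₀ N ρ B) (hK : volume μ.support = 0) {s₁ : ℂ} (hs₁ : s₁ ≠ 0)
    (hs₁ρ : ‖s₁‖ < ρ) : ∃ j, ∀ g : ℂ → ℂ,
      (∀ᶠ s in 𝓝 s₁, HasDerivAt g (N * s ^ (N - 1) * B j s) s) →
      ∀ᶠ s in 𝓝 s₁, uh μ (z₀ + s₁ ^ N) - (g s₁).re ≤ uh μ (z₀ + s ^ N) - (g s).re := by
  classical
  cases nonempty_fintype ι
  obtain ⟨r, M, σ, H, hr, hM, hσ, hb, hBd, hBc, hne, hval, hH, hg⟩ := h.plane hs₁ hs₁ρ
  obtain ⟨j, -, hj⟩ := SA.touch μ hc (z₀ + s₁ ^ N) hM hK (Finset.univ : Finset ι).card Finset.univ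
    (fun j z => B j (σ z)) H r rfl hr hBd (fun i _ => hBc i)
    (fun i _ k _ hik z hz => hne i k hik z hz)
    (by
      filter_upwards [hval] with z hz hzb
      obtain ⟨i, hi⟩ := hz hzb
      exact ⟨i, Finset.mem_univ i, hi⟩)
    (fun i _ z hz => hH i z hz)
  refine ⟨j, ?_⟩
  intro g hg'
  have hcont : ContinuousAt (fun s : ℂ => z₀ + s ^ N) s₁ := by fun_prop
  filter_upwards [hcont.eventually hj, hg j g hg'] with s hs1 hs2
  have h3 := congrArg Complex.re hs2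
  rw [Complex.sub_re, Complex.sub_re] at h3
  linarith

include hc in
/-- the types off the support -/
theorem PD.off [Finite ι] (h : PD μ z₀ N ρ B) {s₁ : ℂ} (hs₁ : s₁ ≠ 0)
    (hs₁ρ : ‖s₁‖ < ρ) (hoff : z₀ + s₁ ^ N ∉ μ.support) {j : ι} (hj : CT μ (z₀ + s₁ ^ N) = B j s₁)
    {g : ℂ → ℂ} (hg' : ∀ᶠ s in 𝓝 s₁, HasDerivAt g (N * s ^ (N - 1) * B j s) s) :
      ∀ᶠ s in 𝓝 s₁, uh μ (z₀ + s ^ N) - (g s).re = uh μ (z₀ + s₁ ^ N) - (g s₁).re := by
  classical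
  cases nonempty_fintype ι
  obtain ⟨r, M, σ, H, hr, hM, hσ, hb, hBd, hBc, hne, hval, hH, hg⟩ := h.plane hs₁ hs₁ρ
  have hcont : ContinuousAt (fun s : ℂ => z₀ + s ^ N) s₁ := by fun_prop
  set z₁ := z₀ + s₁ ^ N with hz₁
  obtain ⟨s, hs, hsty⟩ := type_of_value μ (x := z₁) (R := r) Finset.univ (fun j z => B j (σ z))
    (fun i _ => hBc i) (fun i _ k _ hik z hz => hne i k hik z hz)
    (by
      filter_upwards [hval] with z hz hzb
      obtain ⟨i, hi⟩ := hz hzb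
      exact ⟨i, Finset.mem_univ i, hi⟩) (mem_ball_self hr) hoff (Finset.mem_univ j)
    (by rw [hσ]; exact hj)
  set r' := min s r with hr'
  have hr'0 : 0 < r' := lt_min hs hr
  have hsub : ball z₁ r' ⊆ ball z₁ r := ball_subset_ball (min_le_right _ _)
  have hsub' : ball z₁ r' ⊆ ball z₁ s := ball_subset_ball (min_le_left _ _)
  have h1 : ∀ z ∈ ball z₁ r', uh μ z - (H j z).re = uh μ z₁ - (H j z₁).re := by
    intro z hz
    apply uh_const μ hc hM (hBd.mono hsub) ((hBc j).mono hsub) (fun z hz => hH j z (hsub hz)) _ hz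
      (mem_ball_self hr'0)
    filter_upwards [hsty] with w hw hwb using hw (hsub' hwb)
  filter_upwards [hcont (ball_mem_nhds z₁ hr'0), hg j g hg'] with s hs1 hs2
  have h2 := h1 _ hs1
  have h3 := congrArg Complex.re hs2
  rw [Complex.sub_re, Complex.sub_re] at h3
  linarith

include hc in
/-- where the function has a type there is no support -/
theorem PD.on [Finite ι] (h : PD μ z₀ N ρ B) (hK : volume μ.support = 0) {s₁ : ℂ} (hs₁ : s₁ ≠ 0)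
    (hs₁ρ : ‖s₁‖ < ρ) {j : ι}
    {g : ℂ → ℂ} (hg' : ∀ᶠ s in 𝓝 s₁, HasDerivAt g (N * s ^ (N - 1) * B j s) s)
    (hcst : ∀ᶠ s in 𝓝 s₁, uh μ (z₀ + s ^ N) - (g s).re = uh μ (z₀ + s₁ ^ N) - (g s₁).re) :
    z₀ + s₁ ^ N ∉ μ.support := by
  classical
  cases nonempty_fintype ι
  obtain ⟨r, M, σ, H, hr, hM, hσ, hb, hBd, hBc, hne, hval, hH, hg⟩ := h.plane hs₁ hs₁ρ
  set z₁ := z₀ + s₁ ^ N with hz₁
  -- the potential is equal to the primitive near the point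
  have h1 : ∀ᶠ z in 𝓝 z₁, uh μ z - (H j z).re = uh μ z₁ - (H j z₁).re := by
    have hσc : Tendsto σ (𝓝 z₁) (𝓝 s₁) := by
      have := (hb z₁ (mem_ball_self hr)).2.2.2.continuousAt.tendsto
      rwa [hσ] at this
    filter_upwards [hσc.eventually hcst, hσc.eventually (hg j g hg'), ball_mem_nhds z₁ hr]
      with z hz1 hz2 hz3
    rw [(hb z hz3).2.2.1] at hz1 hz2
    have h3 := congrArg Complex.re hz2
    rw [Complex.sub_re, Complex.sub_re] at h3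
    linarith
  obtain ⟨r₁, hr₁, hb₁⟩ := Metric.eventually_nhds_iff_ball.1 h1
  set r' := min r₁ r with hr'
  have hr'0 : 0 < r' := lt_min hr₁ hr
  have hsub : ball z₁ r' ⊆ ball z₁ r := ball_subset_ball (min_le_right _ _)
  have hsub' : ball z₁ r' ⊆ ball z₁ r₁ := ball_subset_ball (min_le_left _ _)
  -- the Cauchy transform has the type
  have h2 : ∀ᵐ z : ℂ, z ∈ ball z₁ r' → CT μ z = B j (σ z) := by
    filter_upwards [hval, ae_notMem_support hK] with z hz1 hz2 hzb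
    obtain ⟨k, hk⟩ := hz1 (hsub hzb)
    obtain ⟨s, hs, hsty⟩ := type_of_value μ (x := z₁) (R := r) Finset.univ (fun j z => B j (σ z))
      (fun i _ => hBc i) (fun i _ k _ hik z hz => hne i k hik z hz)
      (by
        filter_upwards [hval] with z hz hzb
        obtain ⟨i, hi⟩ := hz hzb
        exact ⟨i, Finset.mem_univ i, hi⟩) (hsub hzb) hz2 (Finset.mem_univ k) hk
    by_cases hkj : k = j
    · rw [hk, hkj]
    · exfalso
      apply hne k j hkj z (hsub hzb)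
      rw [← sub_eq_zero]
      set s' := min s (r' - dist z z₁) with hs'
      have hs'0 : 0 < s' := lt_min hs (sub_pos.2 hzb)
      have hs'b : ball z s' ⊆ ball z₁ r' := by
        apply ball_subset_ball'
        have := min_le_right s (r' - dist z z₁)
        linarith
      have hs's : ball z s' ⊆ ball z s := ball_subset_ball (min_le_left _ _)
      have h4 : ∀ w ∈ ball z s', uh μ w - (H k w).re = uh μ z - (H k z).re := by
        intro w hw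
        apply uh_const μ hc hM (hBd.mono (hs'b.trans hsub)) ((hBc k).mono (hs'b.trans hsub))
          (fun z hz => hH k z (hsub (hs'b hz))) _ hw (mem_ball_self hs'0)
        filter_upwards [hsty] with w hw hwb using hw (hs's hwb)
      apply re_const_deriv ((hH k z (hsub hzb)).sub (hH j z (hsub hzb)))
        (c := (H k z).re - (H j z).re)
      filter_upwards [ball_mem_nhds z hs'0] with w hw
      have e1 := h4 w hw
      have e2 := hb₁ w (hsub' (hs'b hw))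
      have e3 := hb₁ z (hsub' hzb)
      rw [Pi.sub_apply, Complex.sub_re]
      linarith
  -- there is no mass
  intro hsupp
  rw [Measure.mem_support_iff_forall] at hsupp
  have h5 := ae_gauss μ z₁ r'
  have h6 := ae_polar z₁ h2 r'
  have h7 : ∃ ρ₁ ∈ Ioo (0 : ℝ) r', (∮ z in C(z₁, ρ₁), CT μ z) =
      2 * Real.pi * I * ((μ (ball z₁ ρ₁)).toReal : ℂ) ∧
      ∀ᵐ θ : ℝ ∂(volume.restrict (Ioo (-Real.pi) Real.pi)),
        cp z₁ ρ₁ θ ∈ ball z₁ r' → CT μ (cp z₁ ρ₁ θ) = B j (σ (cp z₁ ρ₁ θ)) := by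
    have hpos : (volume.restrict (Ioo (0 : ℝ) r')) ≠ 0 := by
      rw [Ne, Measure.restrict_eq_zero, Real.volume_Ioo, sub_zero, ENNReal.ofReal_eq_zero, not_le]
      exact hr'0
    have : NeBot (ae (volume.restrict (Ioo (0 : ℝ) r'))) := ae_neBot.2 hpos
    obtain ⟨ρ₁, g1, g2, g3⟩ := (h5.and (h6.and (ae_restrict_mem measurableSet_Ioo))).exists
    exact ⟨ρ₁, g3, g1, g2⟩
  obtain ⟨ρ₁, hρ₁, hgauss, hpol⟩ := h7
  have h8 : (∮ z in C(z₁, ρ₁), CT μ z) = ∮ z in C(z₁, ρ₁), B j (σ z) := by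
    rw [circleIntegral_eq, circleIntegral_eq]
    have hpi : (-Real.pi) ≤ Real.pi := by linarith [Real.pi_pos]
    rw [intervalIntegral.integral_of_le hpi, intervalIntegral.integral_of_le hpi,
      integral_Ioc_eq_integral_Ioo, integral_Ioc_eq_integral_Ioo]
    apply integral_congr_ae
    filter_upwards [hpol] with θ hθ
    rw [hθ (by rw [mem_ball, dist_cp z₁ hρ₁.1.le]; exact hρ₁.2)]
  have h9 : (∮ z in C(z₁, ρ₁), B j (σ z)) = 0 := by
    have hcb : closedBall z₁ ρ₁ ⊆ ball z₁ r := closedBall_subset_ball (hρ₁.2.trans_le (min_le_right _ _))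
    apply Complex.circleIntegral_eq_zero_of_differentiable_on_off_countable hρ₁.1.le
      countable_empty ((hBc j).mono hcb)
    intro z hz
    have hzr := hcb (ball_subset_closedBall hz.1)
    obtain ⟨g1, g2, g3, g4⟩ := hb z hzr
    exact (h.hB j (σ z) g1 g2).comp z g4
  rw [h8, h9] at hgauss
  have h10 : ((μ (ball z₁ ρ₁)).toReal : ℂ) = 0 := by
    rcases mul_eq_zero.1 hgauss.symm with h | h
    · exfalso
      exact Complex.two_pi_I_ne_zero h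
    · exact h
  have h11 : μ (ball z₁ ρ₁) = 0 := by
    rcases (ENNReal.toReal_eq_zero_iff _).1 (by exact_mod_cast h10) with h | h
    · exact h
    · exact absurd h (measure_ne_top μ _)
  exact (hsupp _ (ball_mem_nhds z₁ hρ₁.1)).ne' h11

end

end Pool.Agent.T2h27.SA
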