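import Mathlib
import Pool.Agent.T2h27.SA.S14

/-!
# Averages of the Cauchy transform near a point
-/

set_option autoImplicit false

open MeasureTheory Metric Set Filter Topology Complex
open scoped ENNReal ComplexConjugate Real

namespace Pool.Agent.T2h27.SA

open Pool.Agent.H586R3.CT

/-- the integral of the kernel over a disc -/
noncomputable def gr (z₀ : ℂ) (r : ℝ) (ζ : ℂ) : ℝ≥0∞ := ∫⁻ z in ball z₀ r, ‖(z - ζ)⁻¹‖ₑ

lemma gr_measurable (z₀ : ℂ) (r : ℝ) : Measurable (gr z₀ r) := by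
  unfold gr
  exact Measurable.lintegral_prod_left' (f := fun p : ℂ × ℂ => ‖(p.1 - p.2)⁻¹‖ₑ) (by fun_prop)

lemma lintegral_ball_inv (ζ : ℂ) (r : ℝ) :
    ∫⁻ z in ball ζ r, ‖(z - ζ)⁻¹‖ₑ = ENNReal.ofReal (2 * Real.pi * r) := by
  rw [← lintegral_polar_ball ζ r (by fun_prop)]
  have h1 : ∀ ρ ∈ Ioo (0 : ℝ) r, ∫⁻ θ in Ioo (-Real.pi) Real.pi,
      ENNReal.ofReal ρ * ‖(cp ζ ρ θ - ζ)⁻¹‖ₑ = ENNReal.ofReal (2 * Real.pi) := by
    intro ρ hρ
    have h2 : ∀ θ : ℝ, ENNReal.ofReal ρ * ‖(cp ζ ρ θ - ζ)⁻¹‖ₑ = 1 := by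
      intro θ
      rw [← ofReal_norm, norm_inv, ← dist_eq_norm, dist_cp ζ hρ.1.le,
        ← ENNReal.ofReal_mul hρ.1.le, mul_inv_cancel₀ hρ.1.ne', ENNReal.ofReal_one]
    simp only [h2]
    rw [setLIntegral_one, Real.volume_Ioo]
    congr 1
    ring
  rw [setLIntegral_congr_fun measurableSet_Ioo h1, setLIntegral_const, Real.volume_Ioo, sub_zero,
    ← ENNReal.ofReal_mul (by positivity)]

lemma gr_le (z₀ : ℂ) {r : ℝ} (hr : 0 < r) (ζ : ℂ) : gr z₀ r ζ ≤ ENNReal.ofReal (3 * Real.pi * r) := by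
  have h1 : gr z₀ r ζ ≤ ∫⁻ z in ball z₀ r,
      ((ball ζ r).indicator (fun z => ‖(z - ζ)⁻¹‖ₑ) z + ENNReal.ofReal r⁻¹) := by
    apply lintegral_mono
    intro z
    show ‖(z - ζ)⁻¹‖ₑ ≤ (ball ζ r).indicator (fun z => ‖(z - ζ)⁻¹‖ₑ) z + ENNReal.ofReal r⁻¹
    by_cases hz : z ∈ ball ζ r
    · rw [indicator_of_mem hz]
      exact le_self_add
    · rw [indicator_of_notMem hz, zero_add, ← ofReal_norm, norm_inv]
      apply ENNReal.ofReal_le_ofReal
      rw [mem_ball, not_lt, dist_eq_norm] at hz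
      exact inv_anti₀ hr hz
  refine h1.trans ?_
  rw [lintegral_add_left ((by fun_prop : Measurable fun z : ℂ => ‖(z - ζ)⁻¹‖ₑ).indicator
    measurableSet_ball), setLIntegral_const, Complex.volume_ball]
  have h2 : ∫⁻ z in ball z₀ r, (ball ζ r).indicator (fun z => ‖(z - ζ)⁻¹‖ₑ) z ≤
      ENNReal.ofReal (2 * Real.pi * r) := by
    rw [← lintegral_ball_inv ζ r, ← lintegral_indicator (μ := volume) (measurableSet_ball (x := ζ) (ε := r))]
    exact setLIntegral_le_lintegral _ _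
  have h3 : ENNReal.ofReal r⁻¹ * (ENNReal.ofReal r ^ 2 * (NNReal.pi : ℝ≥0∞)) =
      ENNReal.ofReal (Real.pi * r) := by
    have : (NNReal.pi : ℝ≥0∞) = ENNReal.ofReal Real.pi := by
      rw [ENNReal.ofReal, Real.toNNReal_of_nonneg Real.pi_pos.le]
      rfl
    rw [this, ← ENNReal.ofReal_pow hr.le, ← ENNReal.ofReal_mul (by positivity),
      ← ENNReal.ofReal_mul (by positivity)]
    congr 1
    field_simp
  rw [h3]
  refine (add_le_add_left h2 _).trans ?_
  rw [← ENNReal.ofReal_add (by positivity) (by positivity)]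
  apply ENNReal.ofReal_le_ofReal
  linarith

lemma gr_far (z₀ : ℂ) {r : ℝ} (hr : 0 < r) {ζ : ℂ} (hζ : 2 * r < ‖ζ - z₀‖) :
    gr z₀ r ζ ≤ ENNReal.ofReal (2 * Real.pi * r ^ 2 / ‖ζ - z₀‖) := by
  have h1 : gr z₀ r ζ ≤ ∫⁻ z in ball z₀ r, ENNReal.ofReal (2 / ‖ζ - z₀‖) := by
    apply setLIntegral_mono measurable_const
    intro z hz
    rw [← ofReal_norm, norm_inv]
    apply ENNReal.ofReal_le_ofReal
    rw [mem_ball, dist_eq_norm] at hz
    have h2 : ‖ζ - z₀‖ ≤ ‖z - ζ‖ + ‖z - z₀‖ := by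
      have : ζ - z₀ = -(z - ζ) + (z - z₀) := by ring
      rw [this]
      refine (norm_add_le _ _).trans ?_
      rw [norm_neg]
    have h3 : 0 < ‖ζ - z₀‖ := by linarith
    have h4 : 2 / ‖ζ - z₀‖ = (‖ζ - z₀‖ / 2)⁻¹ := by field_simp
    rw [h4]
    apply inv_anti₀ (by positivity)
    linarith
  refine h1.trans ?_
  rw [setLIntegral_const, Complex.volume_ball]
  have : (NNReal.pi : ℝ≥0∞) = ENNReal.ofReal Real.pi := by
    rw [ENNReal.ofReal, Real.toNNReal_of_nonneg Real.pi_pos.le]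
    rfl
  rw [this, ← ENNReal.ofReal_pow hr.le, ← ENNReal.ofReal_mul (by positivity),
      ← ENNReal.ofReal_mul (by positivity)]
  apply le_of_eq
  congr 1
  ring

/-- the mean of the kernel integral is small when the point has no mass -/
lemma mean_small (ν : Measure ℂ) [IsFiniteMeasure ν] {z₀ : ℂ} (h0 : ν {z₀} = 0) {κ : ℝ} (hκ : 0 < κ) :
    ∀ᶠ r in 𝓝[>] (0 : ℝ), ∫⁻ ζ, gr z₀ r ζ ∂ν < ENNReal.ofReal (κ * r) := by
  have hae : ∀ᵐ ζ ∂ν, ζ ≠ z₀ := by
    rw [← compl_mem_ae_iff] at h0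
    filter_upwards [h0] with ζ hζ
    exact hζ
  have h1 : Tendsto (fun r : ℝ => ∫⁻ ζ, gr z₀ r ζ * ENNReal.ofReal r⁻¹ ∂ν) (𝓝[>] (0 : ℝ))
      (𝓝 (∫⁻ _, 0 ∂ν)) := by
    apply tendsto_lintegral_filter_of_dominated_convergence (fun _ => ENNReal.ofReal (3 * Real.pi))
    · exact Eventually.of_forall fun r => (gr_measurable z₀ r).mul_const _
    · filter_upwards [self_mem_nhdsWithin] with r hr
      have hr0 : 0 < r := hr
      refine Eventually.of_forall fun ζ => ?_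
      refine (mul_le_mul_left (gr_le z₀ hr0 ζ) _).trans ?_
      rw [← ENNReal.ofReal_mul (by positivity)]
      apply ENNReal.ofReal_le_ofReal
      apply le_of_eq
      field_simp
    · rw [lintegral_const]
      exact ENNReal.mul_ne_top ENNReal.ofReal_ne_top (measure_ne_top ν _)
    · filter_upwards [hae] with ζ hζ
      have hpos : 0 < ‖ζ - z₀‖ := norm_pos_iff.2 (sub_ne_zero.2 hζ)
      have h2 : Tendsto (fun r : ℝ => ENNReal.ofReal (2 * Real.pi * r / ‖ζ - z₀‖)) (𝓝[>] (0 : ℝ))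
          (𝓝 0) := by
        have h3 : Tendsto (fun r : ℝ => 2 * Real.pi * r / ‖ζ - z₀‖) (𝓝[>] (0 : ℝ)) (𝓝 0) := by
          have h4 : Continuous fun r : ℝ => 2 * Real.pi * r / ‖ζ - z₀‖ := by fun_prop
          have := h4.tendsto 0
          simp only [mul_zero, zero_div] at this
          exact this.mono_left nhdsWithin_le_nhds
        have := ENNReal.tendsto_ofReal h3
        rwa [ENNReal.ofReal_zero] at this
      refine tendsto_of_tendsto_of_tendsto_of_le_of_le' tendsto_const_nhds h2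
        (Eventually.of_forall fun r => zero_le) ?_
      filter_upwards [Ioo_mem_nhdsGT (show (0 : ℝ) < ‖ζ - z₀‖ / 2 by positivity)] with r hr
      refine (mul_le_mul_left (gr_far z₀ hr.1 (ζ := ζ) (by linarith [hr.2])) _).trans ?_
      rw [← ENNReal.ofReal_mul (by have := hr.1; positivity)]
      apply ENNReal.ofReal_le_ofReal
      apply le_of_eq
      have := hr.1.ne'
      field_simp
  rw [lintegral_zero] at h1
  have h2 := h1.eventually (gt_mem_nhds (show (0 : ℝ≥0∞) < ENNReal.ofReal κ by simpa using hκ))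
  filter_upwards [h2, self_mem_nhdsWithin] with r hr1 hr2
  have hr0 : 0 < r := hr2
  rw [lintegral_mul_const _ (gr_measurable z₀ r)] at hr1
  have h3 := ENNReal.mul_lt_mul_left (a := ENNReal.ofReal r) (by simpa using hr0)
    ENNReal.ofReal_ne_top hr1
  rw [mul_assoc, ← ENNReal.ofReal_mul (by positivity), inv_mul_cancel₀ hr0.ne', ENNReal.ofReal_one,
    mul_one, ← ENNReal.ofReal_mul hκ.le] at h3
  exact h3

lemma lintegral_CT_le (ν : Measure ℂ) [IsFiniteMeasure ν] (z₀ : ℂ) (r : ℝ) :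
    ∫⁻ z in ball z₀ r, ‖CT ν z‖ₑ ≤ ∫⁻ ζ, gr z₀ r ζ ∂ν := by
  unfold gr
  rw [lintegral_lintegral_swap (by fun_prop)]
  apply lintegral_mono
  intro z
  exact enorm_integral_le_lintegral_enorm _

/-- almost everywhere splitting of the Cauchy transform -/
lemma CT_split (μ : Measure ℂ) [IsFiniteMeasure μ] (z₀ : ℂ) :
    ∀ᵐ z : ℂ, CT μ z = ((μ {z₀}).toReal : ℂ) / (z - z₀) + CT (μ.restrict {z₀}ᶜ) z := by
  filter_upwards [ae_integrable μ] with z hz
  unfold CT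
  rw [← integral_add_compl (measurableSet_singleton z₀) hz, integral_singleton, measureReal_def,
    Complex.real_smul, div_eq_mul_inv]

/-- small values near a point without mass -/
lemma small_near (ν : Measure ℂ) [IsFiniteMeasure ν] {z₀ : ℂ} (h0 : ν {z₀} = 0) {ε η : ℝ}
    (hε : 0 < ε) (hη : 0 < η) : ∀ᶠ y in 𝓝[≠] z₀, ∀ P : ℂ → Prop, (∀ᵐ z : ℂ, P z) →
      ∃ z ∈ ball y (ε * ‖y - z₀‖), P z ∧ ‖z - z₀‖ * ‖CT ν z‖ < η := by
  set κ : ℝ := η * Real.pi * ε ^ 2 / (1 + ε) ^ 2 with hκ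
  have hκ0 : 0 < κ := by positivity
  have h1 := mean_small ν h0 hκ0
  rw [eventually_nhdsWithin_iff] at h1 ⊢
  obtain ⟨r₀, hr₀, hb⟩ := Metric.eventually_nhds_iff_ball.1 h1
  have h2 : ball z₀ (r₀ / (1 + ε)) ∈ 𝓝 z₀ := ball_mem_nhds z₀ (by positivity)
  filter_upwards [h2] with y hy hyz P hP
  have hyz' : y ≠ z₀ := hyz
  set t := ‖y - z₀‖ with ht
  have ht0 : 0 < t := norm_pos_iff.2 (sub_ne_zero.2 hyz')
  rw [mem_ball, dist_eq_norm, ← ht, lt_div_iff₀ (by positivity)] at hy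
  set r := t * (1 + ε) with hr
  have hr0 : 0 < r := by positivity
  have h3 := hb r (by rw [mem_ball, Real.dist_eq, sub_zero, abs_of_pos hr0]; exact hy) hr0
  by_contra hcon
  push Not at hcon
  have hsub : ball y (ε * t) ⊆ ball z₀ r := by
    apply ball_subset_ball'
    rw [dist_eq_norm, ← ht, hr]
    linarith
  have h4 : ENNReal.ofReal (η / r) * volume (ball y (ε * t)) ≤ ∫⁻ z in ball z₀ r, ‖CT ν z‖ₑ := by
    calc ENNReal.ofReal (η / r) * volume (ball y (ε * t))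
        = ∫⁻ _ in ball y (ε * t), ENNReal.ofReal (η / r) := by rw [setLIntegral_const]
      _ ≤ ∫⁻ z in ball y (ε * t), ‖CT ν z‖ₑ := by
          apply lintegral_mono_ae
          rw [ae_restrict_iff' measurableSet_ball]
          filter_upwards [hP] with z hz hzb
          have h5 := hcon z hzb hz
          have h6 := hsub hzb
          rw [mem_ball, dist_eq_norm] at h6
          rw [← ofReal_norm]
          apply ENNReal.ofReal_le_ofReal
          rw [div_le_iff₀ hr0]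
          calc η ≤ ‖z - z₀‖ * ‖CT ν z‖ := h5
            _ ≤ r * ‖CT ν z‖ := mul_le_mul_of_nonneg_right h6.le (norm_nonneg _)
            _ = ‖CT ν z‖ * r := mul_comm _ _
      _ ≤ ∫⁻ z in ball z₀ r, ‖CT ν z‖ₑ := lintegral_mono_set hsub
  have h5 := (h4.trans (lintegral_CT_le ν z₀ r)).trans_lt h3
  have hpi : (NNReal.pi : ℝ≥0∞) = ENNReal.ofReal Real.pi := by
    rw [ENNReal.ofReal, Real.toNNReal_of_nonneg Real.pi_pos.le]
    rfl
  rw [Complex.volume_ball, hpi, ← ENNReal.ofReal_pow (by positivity),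
    ← ENNReal.ofReal_mul (by positivity), ← ENNReal.ofReal_mul (by positivity),
    ENNReal.ofReal_lt_ofReal_iff (by positivity)] at h5
  have h6 : κ * r = η / r * ((ε * t) ^ 2 * Real.pi) := by
    rw [hκ, hr]
    field_simp
  linarith

/-- the power map covers balls -/
lemma pow_cover (z₀ : ℂ) {N : ℕ} (hN : 0 < N) {δ : ℝ} (hδ : 0 < δ) :
    ∃ ε > 0, ∀ w₀ : ℂ, w₀ ≠ 0 → ∀ z ∈ ball (z₀ + w₀ ^ N) (ε * ‖w₀‖ ^ N),
      ∃ w : ℂ, ‖w - w₀‖ < δ * ‖w₀‖ ∧ z₀ + w ^ N = z := by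
  have hcont : ContinuousAt (fun q : ℂ => Complex.exp (Complex.log q / N)) 1 := by
    apply Complex.continuous_exp.continuousAt.comp
    apply ContinuousAt.div_const
    exact continuousAt_clog (by simp)
  have h1 : Complex.exp (Complex.log 1 / N) = 1 := by simp
  have h2 : (fun q : ℂ => Complex.exp (Complex.log q / N)) ⁻¹' ball 1 δ ∈ 𝓝 (1 : ℂ) := by
    apply hcont
    show ball 1 δ ∈ 𝓝 (Complex.exp (Complex.log 1 / N))
    rw [h1]
    exact ball_mem_nhds _ hδ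
  obtain ⟨ε, hε, hb⟩ := Metric.mem_nhds_iff.1 h2
  refine ⟨min ε 1, lt_min hε one_pos, ?_⟩
  intro w₀ hw₀ z hz
  have hwN : w₀ ^ N ≠ 0 := pow_ne_zero _ hw₀
  have hwn : 0 < ‖w₀‖ := norm_pos_iff.2 hw₀
  set q : ℂ := (z - z₀) / w₀ ^ N with hq
  have hq1 : ‖q - 1‖ < min ε 1 := by
    have h3 : q - 1 = (z - (z₀ + w₀ ^ N)) / w₀ ^ N := by
      rw [hq]; field_simp; ring
    rw [h3, norm_div, norm_pow, div_lt_iff₀ (by positivity)]
    rwa [mem_ball, dist_eq_norm] at hz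
  have hqb : q ∈ ball (1 : ℂ) ε := by
    rw [mem_ball, dist_eq_norm]; exact hq1.trans_le (min_le_left _ _)
  have hq0 : q ≠ 0 := by
    intro h
    rw [h, zero_sub, norm_neg, norm_one] at hq1
    have := min_le_right ε 1
    linarith
  have h4 : Complex.exp (Complex.log q / N) ∈ ball (1 : ℂ) δ := hb hqb
  refine ⟨w₀ * Complex.exp (Complex.log q / N), ?_, ?_⟩
  · have h5 : w₀ * Complex.exp (Complex.log q / N) - w₀ =
        w₀ * (Complex.exp (Complex.log q / N) - 1) := by ring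
    rw [h5, norm_mul, mul_comm]
    rw [mem_ball, dist_eq_norm] at h4
    exact mul_lt_mul_of_pos_right h4 hwn
  · have hN' : (N : ℂ) ≠ 0 := by exact_mod_cast hN.ne'
    rw [mul_pow, ← Complex.exp_nat_mul, mul_div_cancel₀ _ hN', Complex.exp_log hq0, hq,
      mul_div_cancel₀ _ hwN]
    ring

/-- good points near a given point -/
lemma good_near (ν : Measure ℂ) [IsFiniteMeasure ν] {z₀ : ℂ} (h0 : ν {z₀} = 0) {N : ℕ} (hN : 0 < N)
    {δ η : ℝ} (hδ : 0 < δ) (hη : 0 < η) : ∀ᶠ w₀ in 𝓝[≠] (0 : ℂ), ∀ P : ℂ → Prop, (∀ᵐ z : ℂ, P z) →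
      ∃ w : ℂ, ‖w - w₀‖ < δ * ‖w₀‖ ∧ P (z₀ + w ^ N) ∧ ‖w‖ ^ N * ‖CT ν (z₀ + w ^ N)‖ < η := by
  obtain ⟨ε, hε, hcov⟩ := pow_cover z₀ hN hδ
  have h1 := small_near ν h0 hε hη
  have hT : Tendsto (fun w : ℂ => z₀ + w ^ N) (𝓝[≠] 0) (𝓝[≠] z₀) := by
    apply tendsto_nhdsWithin_of_tendsto_nhds_of_eventually_within
    · have : Continuous fun w : ℂ => z₀ + w ^ N := by fun_prop
      have h2 := this.tendsto 0
      rw [zero_pow hN.ne', add_zero] at h2
      exact h2.mono_left nhdsWithin_le_nhds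
    · filter_upwards [self_mem_nhdsWithin] with w hw
      rw [mem_compl_singleton_iff] at hw ⊢
      intro h
      apply pow_ne_zero N hw
      have := sub_eq_zero.2 h
      rwa [add_sub_cancel_left] at this
  filter_upwards [hT.eventually h1, self_mem_nhdsWithin] with w₀ hw₀ hne P hP
  obtain ⟨z, hz, hPz, hzs⟩ := hw₀ P hP
  rw [add_sub_cancel_left, norm_pow] at hz
  obtain ⟨w, hw1, hw2⟩ := hcov w₀ hne z hz
  refine ⟨w, hw1, by rw [hw2]; exact hPz, ?_⟩
  rw [hw2, ← norm_pow]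
  have : w ^ N = z - z₀ := by rw [← hw2]; ring
  rw [this]
  exact hzs

end Pool.Agent.T2h27.SA
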