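import Mathlib
import Pool.Agent.T2h27.SA.S15

/-!
# The slopes in the Puiseux coordinate after removal of the point mass
-/

set_option autoImplicit false

open MeasureTheory Metric Set Filter Topology Complex
open scoped ENNReal ComplexConjugate Real

namespace Pool.Agent.T2h27.SA

open Pool.Agent.H586R3.CT

/-- slopes with the point mass removed -/
noncomputable def As {ι : Type*} (μ : Measure ℂ) (z₀ : ℂ) (N : ℕ) (B : ι → ℂ → ℂ) (j : ι) (s : ℂ) : ℂ :=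
  N * s ^ (N - 1) * B j s - N * ((μ {z₀}).toReal : ℂ) / s

/-- the potential with the point mass removed in the Puiseux coordinate -/
noncomputable def us (μ : Measure ℂ) (z₀ : ℂ) (N : ℕ) (s : ℂ) : ℝ :=
  uh μ (z₀ + s ^ N) - N * (μ {z₀}).toReal * Real.log ‖s‖

lemma log_quot {s₁ : ℂ} (hs₁ : s₁ ≠ 0) (c : ℂ) :
    ∀ᶠ s in 𝓝 s₁, HasDerivAt (fun s => c * Complex.log (s / s₁)) (c / s) s := by
  have h1 : ∀ᶠ s in 𝓝 s₁, s / s₁ ∈ slitPlane := by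
    have hc : ContinuousAt (fun s : ℂ => s / s₁) s₁ := by fun_prop
    apply hc
    show slitPlane ∈ 𝓝 (s₁ / s₁)
    rw [div_self hs₁]
    exact isOpen_slitPlane.mem_nhds (by simp)
  filter_upwards [h1, isOpen_ne.mem_nhds hs₁] with s hs hs0
  have hs0' : s ≠ 0 := hs0
  have h2 : HasDerivAt (fun s : ℂ => s / s₁) (1 / s₁) s := (hasDerivAt_id s).div_const s₁
  have h3 := (h2.clog hs).const_mul c
  refine h3.congr_deriv ?_
  field_simp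

lemma log_quot_re (s s₁ : ℂ) (hs : s ≠ 0) (hs₁ : s₁ ≠ 0) (c : ℝ) :
    ((c : ℂ) * Complex.log (s / s₁)).re = c * Real.log ‖s‖ - c * Real.log ‖s₁‖ := by
  rw [Complex.re_ofReal_mul, Complex.log_re, norm_div, Real.log_div (norm_ne_zero_iff.2 hs)
    (norm_ne_zero_iff.2 hs₁)]
  ring

/-- second order Taylor bound -/
lemma taylor2 {g a : ℂ → ℂ} {s₁ : ℂ} (hg : ∀ᶠ s in 𝓝 s₁, HasDerivAt g (a s) s)
    (ha : DifferentiableAt ℂ a s₁) {C : ℝ} (hC : ‖deriv a s₁‖ < C) :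
    ∀ᶠ w in 𝓝 s₁, ‖g w - g s₁ - a s₁ * (w - s₁)‖ ≤ C * ‖w - s₁‖ ^ 2 := by
  have h1 : ∀ᶠ w in 𝓝 s₁, ‖a w - a s₁‖ ≤ C * ‖w - s₁‖ := by
    have h2 := (hasDerivAt_iff_isLittleO.1 ha.hasDerivAt).def (sub_pos.2 hC)
    filter_upwards [h2] with w hw
    have e : a w - a s₁ = (a w - a s₁ - (w - s₁) • deriv a s₁) + (w - s₁) • deriv a s₁ := by ring
    rw [e]
    refine (norm_add_le _ _).trans ?_
    rw [norm_smul (w - s₁)]
    nlinarith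
  obtain ⟨r, hr, hb⟩ := Metric.eventually_nhds_iff_ball.1 (h1.and hg)
  filter_upwards [ball_mem_nhds s₁ hr] with w hw
  set G : ℂ → ℂ := fun y => g y - a s₁ * y with hG
  have hCn : 0 ≤ C * ‖w - s₁‖ := by
    have : 0 ≤ ‖deriv a s₁‖ := norm_nonneg _
    have hC0 : 0 < C := by linarith
    positivity
  have h3 : ∀ y ∈ closedBall s₁ ‖w - s₁‖, HasDerivWithinAt G (a y - a s₁) (closedBall s₁ ‖w - s₁‖) y := by
    intro y hy
    have hyb : y ∈ ball s₁ r := by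
      rw [mem_ball]
      rw [mem_closedBall] at hy
      rw [mem_ball, dist_eq_norm] at hw
      exact hy.trans_lt hw
    have h4 := (hb y hyb).2.sub ((hasDerivAt_id y).const_mul (a s₁))
    rw [mul_one] at h4
    exact h4.hasDerivWithinAt
  have h5 : ∀ y ∈ closedBall s₁ ‖w - s₁‖, ‖a y - a s₁‖ ≤ C * ‖w - s₁‖ := by
    intro y hy
    have hyb : y ∈ ball s₁ r := by
      rw [mem_ball]
      rw [mem_closedBall] at hy
      rw [mem_ball, dist_eq_norm] at hw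
      exact hy.trans_lt hw
    refine (hb y hyb).1.trans ?_
    rw [mem_closedBall, dist_eq_norm] at hy
    have : 0 ≤ ‖deriv a s₁‖ := norm_nonneg _
    apply mul_le_mul_of_nonneg_left hy (by linarith)
  have h6 := (convex_closedBall s₁ ‖w - s₁‖).norm_image_sub_le_of_norm_hasDerivWithin_le h3 h5
    (mem_closedBall_self (norm_nonneg _)) (show w ∈ closedBall s₁ ‖w - s₁‖ by
      rw [mem_closedBall, dist_eq_norm])
  have e : g w - g s₁ - a s₁ * (w - s₁) = G w - G s₁ := by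
    rw [hG]; ring
  rw [e]
  refine h6.trans (le_of_eq ?_)
  ring

section

variable {μ : Measure ℂ} [IsFiniteMeasure μ] {z₀ : ℂ} {N : ℕ} {ρ : ℝ} {ι : Type*}
  {B : ι → ℂ → ℂ}

omit [IsFiniteMeasure μ] in
lemma PD.As_diff (h : PD μ z₀ N ρ B) (j : ι) {s : ℂ} (hs : s ≠ 0) (hsρ : ‖s‖ < ρ) :
    DifferentiableAt ℂ (As μ z₀ N B j) s := by
  unfold As
  have := h.hB j s hs hsρ
  apply DifferentiableAt.sub
  · fun_prop
  · exact (differentiableAt_const _).div differentiableAt_id hs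

omit [IsFiniteMeasure μ] in
lemma PD.As_prim (h : PD μ z₀ N ρ B) (j : ι) {s₁ : ℂ} (hs : s₁ ≠ 0) (hsρ : ‖s₁‖ < ρ) :
    ∃ g : ℂ → ℂ, ∀ᶠ s in 𝓝 s₁, HasDerivAt g (As μ z₀ N B j s) s := by
  have h1 : ∀ᶠ s in 𝓝 s₁, s ≠ 0 ∧ ‖s‖ < ρ :=
    (isOpen_ne.eventually_mem hs).and
      ((isOpen_lt continuous_norm continuous_const).eventually_mem hsρ)
  obtain ⟨r, hr, hb⟩ := Metric.eventually_nhds_iff_ball.1 h1
  have h2 : DifferentiableOn ℂ (As μ z₀ N B j) (ball s₁ r) := fun s hs =>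
    (h.As_diff j (hb s hs).1 (hb s hs).2).differentiableWithinAt
  obtain ⟨g, hg⟩ := h2.isExactOn_ball
  refine ⟨g, ?_⟩
  filter_upwards [ball_mem_nhds s₁ hr] with s hs using hg s hs

omit [IsFiniteMeasure μ] in
lemma As_add {j : ι} {s₁ : ℂ} (hs₁ : s₁ ≠ 0) {g : ℂ → ℂ}
    (hg : ∀ᶠ s in 𝓝 s₁, HasDerivAt g (As μ z₀ N B j s) s) :
    ∀ᶠ s in 𝓝 s₁, HasDerivAt (fun s => g s + ((N * (μ {z₀}).toReal : ℝ) : ℂ) * Complex.log (s / s₁))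
      (N * s ^ (N - 1) * B j s) s := by
  filter_upwards [hg, log_quot hs₁ ((N * (μ {z₀}).toReal : ℝ) : ℂ)] with s h1 h2
  refine (h1.add h2).congr_deriv ?_
  unfold As
  push_cast
  ring

variable {R₀ : ℝ} (hc : ∀ᵐ ζ ∂μ, ‖ζ‖ ≤ R₀)

include hc in
theorem PD.touch' [Finite ι] (h : PD μ z₀ N ρ B) (hK : volume μ.support = 0) {s₁ : ℂ} (hs₁ : s₁ ≠ 0)
    (hs₁ρ : ‖s₁‖ < ρ) : ∃ j, ∀ g : ℂ → ℂ, (∀ᶠ s in 𝓝 s₁, HasDerivAt g (As μ z₀ N B j s) s) →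
      ∀ᶠ s in 𝓝 s₁, us μ z₀ N s₁ - (g s₁).re ≤ us μ z₀ N s - (g s).re := by
  obtain ⟨j, hj⟩ := h.touch hc hK hs₁ hs₁ρ
  refine ⟨j, fun g hg => ?_⟩
  filter_upwards [hj _ (As_add hs₁ hg), isOpen_ne.mem_nhds hs₁] with s hs hs0
  rw [Complex.add_re, Complex.add_re, log_quot_re _ _ hs0 hs₁, log_quot_re _ _ hs₁ hs₁] at hs
  unfold us
  linarith

include hc in
theorem PD.off' [Finite ι] (h : PD μ z₀ N ρ B) {s₁ : ℂ} (hs₁ : s₁ ≠ 0)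
    (hs₁ρ : ‖s₁‖ < ρ) (hoff : z₀ + s₁ ^ N ∉ μ.support) {j : ι} (hj : CT μ (z₀ + s₁ ^ N) = B j s₁)
    {g : ℂ → ℂ} (hg : ∀ᶠ s in 𝓝 s₁, HasDerivAt g (As μ z₀ N B j s) s) :
      ∀ᶠ s in 𝓝 s₁, us μ z₀ N s - (g s).re = us μ z₀ N s₁ - (g s₁).re := by
  filter_upwards [h.off hc hs₁ hs₁ρ hoff hj (As_add hs₁ hg), isOpen_ne.mem_nhds hs₁] with s hs hs0
  rw [Complex.add_re, Complex.add_re, log_quot_re _ _ hs0 hs₁, log_quot_re _ _ hs₁ hs₁] at hs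
  unfold us
  linarith

include hc in
theorem PD.on' [Finite ι] (h : PD μ z₀ N ρ B) (hK : volume μ.support = 0) {s₁ : ℂ} (hs₁ : s₁ ≠ 0)
    (hs₁ρ : ‖s₁‖ < ρ) {j : ι} {g : ℂ → ℂ} (hg : ∀ᶠ s in 𝓝 s₁, HasDerivAt g (As μ z₀ N B j s) s)
    (hcst : ∀ᶠ s in 𝓝 s₁, us μ z₀ N s - (g s).re = us μ z₀ N s₁ - (g s₁).re) :
    z₀ + s₁ ^ N ∉ μ.support := by
  apply h.on hc hK hs₁ hs₁ρ (As_add hs₁ hg)
  filter_upwards [hcst, isOpen_ne.mem_nhds hs₁] with s hs hs0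
  rw [Complex.add_re, Complex.add_re, log_quot_re _ _ hs0 hs₁, log_quot_re _ _ hs₁ hs₁]
  unfold us at hs
  linarith

include hc in
/-- second order touching -/
theorem PD.slope [Finite ι] (h : PD μ z₀ N ρ B) (hK : volume μ.support = 0) {s₁ : ℂ} (hs₁ : s₁ ≠ 0)
    (hs₁ρ : ‖s₁‖ < ρ) : ∃ j, ∀ C, ‖deriv (As μ z₀ N B j) s₁‖ < C → ∀ᶠ w in 𝓝 s₁,
      us μ z₀ N s₁ + (As μ z₀ N B j s₁ * (w - s₁)).re - C * ‖w - s₁‖ ^ 2 ≤ us μ z₀ N w := by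
  obtain ⟨j, hj⟩ := h.touch' hc hK hs₁ hs₁ρ
  refine ⟨j, fun C hC => ?_⟩
  obtain ⟨g, hg⟩ := h.As_prim j hs₁ hs₁ρ
  filter_upwards [hj g hg, taylor2 hg (h.As_diff j hs₁ hs₁ρ) hC] with w h1 h2
  have h3 := (abs_le.1 ((Complex.abs_re_le_norm _).trans h2)).1
  rw [Complex.sub_re, Complex.sub_re] at h3
  linarith

include hc in
/-- second order touching off the support -/
theorem PD.slope_off [Finite ι] (h : PD μ z₀ N ρ B) {s₁ : ℂ} (hs₁ : s₁ ≠ 0)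
    (hs₁ρ : ‖s₁‖ < ρ) (hoff : z₀ + s₁ ^ N ∉ μ.support) {j : ι} (hj : CT μ (z₀ + s₁ ^ N) = B j s₁)
    {C : ℝ} (hC : ‖deriv (As μ z₀ N B j) s₁‖ < C) : ∀ᶠ w in 𝓝 s₁,
      us μ z₀ N s₁ + (As μ z₀ N B j s₁ * (w - s₁)).re - C * ‖w - s₁‖ ^ 2 ≤ us μ z₀ N w := by
  obtain ⟨g, hg⟩ := h.As_prim j hs₁ hs₁ρ
  filter_upwards [h.off' hc hs₁ hs₁ρ hoff hj hg, taylor2 hg (h.As_diff j hs₁ hs₁ρ) hC] with w h1 h2
  have h3 := (abs_le.1 ((Complex.abs_re_le_norm _).trans h2)).1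
  rw [Complex.sub_re, Complex.sub_re] at h3
  linarith

include hc in
theorem PD.us_cont [Finite ι] (h : PD μ z₀ N ρ B) {s₁ : ℂ} (hs₁ : s₁ ≠ 0)
    (hs₁ρ : ‖s₁‖ < ρ) : ContinuousAt (us μ z₀ N) s₁ := by
  obtain ⟨r, M, σ, H, hr, hM, hσ, hb, hBd, -⟩ := h.plane hs₁ hs₁ρ
  unfold us
  have h1 : ContinuousAt (uh μ) (z₀ + s₁ ^ N) :=
    (uh_continuousOn μ hc hM hBd).continuousAt (ball_mem_nhds _ hr)
  have h2 : ContinuousAt (fun s : ℂ => z₀ + s ^ N) s₁ := by fun_prop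
  have h3 : ContinuousAt (fun s : ℂ => Real.log ‖s‖) s₁ :=
    (Real.continuousAt_log (norm_ne_zero_iff.2 hs₁)).comp continuous_norm.continuousAt
  exact (ContinuousAt.comp (f := fun s : ℂ => z₀ + s ^ N) h1 h2).sub (continuousAt_const.mul h3)

end

end Pool.Agent.T2h27.SA
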