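import Mathlib
import Pool.Agent.T2h27.SA.S16

/-!
# The slopes are bounded after removal of the point mass
-/

set_option autoImplicit false

open MeasureTheory Metric Set Filter Topology Complex
open scoped ENNReal ComplexConjugate Real

namespace Pool.Agent.T2h27.SA

open Pool.Agent.H586R3.CT

/-- removable singularities for eventually bounded functions -/
lemma exists_extension {F : ℂ → ℂ} (hd : ∀ᶠ s in 𝓝[≠] (0 : ℂ), DifferentiableAt ℂ F s) {b : ℝ}
    (hb : ∀ᶠ s in 𝓝[≠] (0 : ℂ), ‖F s‖ ≤ b) :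
    ∃ G : ℂ → ℂ, AnalyticAt ℂ G 0 ∧ ∀ s, s ≠ 0 → G s = F s := by
  have h1 := hd.and hb
  rw [eventually_nhdsWithin_iff] at h1
  obtain ⟨r, hr, hball⟩ := Metric.eventually_nhds_iff_ball.1 h1
  refine ⟨Function.update F 0 (limUnder (𝓝[≠] 0) F), ?_, fun s hs => Function.update_of_ne hs _ _⟩
  have h2 := Complex.differentiableOn_update_limUnder_of_bddAbove (f := F) (c := 0)
    (ball_mem_nhds (0 : ℂ) hr) (fun s hs => (hball s hs.1 hs.2).1.differentiableWithinAt)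
    ⟨b, by
      rintro _ ⟨s, hs, rfl⟩
      exact (hball s hs.1 hs.2).2⟩
  exact h2.analyticAt (ball_mem_nhds (0 : ℂ) hr)

/-- if `s ^ (K + 1) f` is bounded and `s ^ K f` is not, then `s ^ (K + 1) f` is bounded below -/
lemma lower_of_unbounded {f : ℂ → ℂ} (hd : ∀ᶠ s in 𝓝[≠] (0 : ℂ), DifferentiableAt ℂ f s) {K : ℕ}
    {b : ℝ} (hb : ∀ᶠ s in 𝓝[≠] (0 : ℂ), ‖s ^ (K + 1) * f s‖ ≤ b)
    (hub : ∀ b', ¬ ∀ᶠ s in 𝓝[≠] (0 : ℂ), ‖s ^ K * f s‖ ≤ b') :
    ∃ c > 0, ∀ᶠ s in 𝓝[≠] (0 : ℂ), c ≤ ‖s ^ (K + 1) * f s‖ := by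
  obtain ⟨G, hG, hGF⟩ := exists_extension (F := fun s => s ^ (K + 1) * f s) (by
    filter_upwards [hd] with s hs
    exact (by fun_prop : DifferentiableAt ℂ (fun s : ℂ => s ^ (K + 1)) s).mul hs) hb
  by_cases hG0 : G 0 = 0
  · exfalso
    have h1 := (hasDerivAt_iff_isLittleO.1 hG.differentiableAt.hasDerivAt).def one_pos
    apply hub (1 + ‖deriv G 0‖)
    filter_upwards [h1.filter_mono nhdsWithin_le_nhds, self_mem_nhdsWithin] with s hs hs0
    have hs0' : s ≠ 0 := hs0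
    rw [hG0, sub_zero, sub_zero, one_mul] at hs
    have h2 : ‖G s‖ ≤ (1 + ‖deriv G 0‖) * ‖s‖ := by
      have e : G s = (G s - s • deriv G 0) + s • deriv G 0 := by ring
      rw [e]
      refine (norm_add_le _ _).trans ?_
      rw [norm_smul s]
      linarith
    rw [hGF s hs0', pow_succ', mul_assoc, norm_mul, mul_comm (1 + _)] at h2
    exact le_of_mul_le_mul_left h2 (norm_pos_iff.2 hs0')
  · have hpos := norm_pos_iff.2 hG0
    refine ⟨‖G 0‖ / 2, by positivity, ?_⟩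
    have h1 : ∀ᶠ s in 𝓝 (0 : ℂ), ‖G 0‖ / 2 < ‖G s‖ :=
      continuousAt_const.eventually_lt hG.continuousAt.norm (by linarith)
    filter_upwards [h1.filter_mono nhdsWithin_le_nhds, self_mem_nhdsWithin] with s hs hs0
    rw [hGF s hs0] at hs
    exact hs.le

section

variable {μ : Measure ℂ} [IsFiniteMeasure μ] {z₀ : ℂ} {N : ℕ} {ρ : ℝ} {ι : Type*}
  {B : ι → ℂ → ℂ}

omit [IsFiniteMeasure μ] in
/-- the slope at a point off the support in terms of the Cauchy transform of the rest -/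
lemma PD.slope_val (h : PD μ z₀ N ρ B) {w : ℂ} (hw : w ≠ 0) {k : ι}
    (hk : CT μ (z₀ + w ^ N) = B k w)
    (hsplit : CT μ (z₀ + w ^ N) = ((μ {z₀}).toReal : ℂ) / (z₀ + w ^ N - z₀) +
      CT (μ.restrict {z₀}ᶜ) (z₀ + w ^ N)) :
    w * As μ z₀ N B k w = N * (w ^ N * CT (μ.restrict {z₀}ᶜ) (z₀ + w ^ N)) := by
  rw [add_sub_cancel_left] at hsplit
  have hwN : w ^ N ≠ 0 := pow_ne_zero _ hw
  unfold As
  rw [← hk, hsplit]
  have h1 : w ^ N = w * w ^ (N - 1) := by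
    rw [← pow_succ']
    congr 1
    have := h.hN
    omega
  have h2 : w ^ (N - 1) ≠ 0 := pow_ne_zero _ hw
  rw [mul_sub, h1]
  field_simp
  ring

variable {R₀ : ℝ} (hc : ∀ᵐ ζ ∂μ, ‖ζ‖ ≤ R₀)

include hc in
/-- all slopes which occur are bounded -/
theorem PD.bdd [Finite ι] (h : PD μ z₀ N ρ B) (hK : volume μ.support = 0)
    (hocc : ∀ j, ∃ᶠ s in 𝓝[≠] (0 : ℂ), z₀ + s ^ N ∉ μ.support ∧ CT μ (z₀ + s ^ N) = B j s)
    {M : ℕ} {b : ℝ} (hgrow : ∀ j s, s ≠ 0 → ‖s‖ < ρ → ‖s ^ M * B j s‖ ≤ b) :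
    ∀ j, ∃ b', ∀ᶠ s in 𝓝[≠] (0 : ℂ), ‖As μ z₀ N B j s‖ ≤ b' := by
  classical
  cases nonempty_fintype ι
  have hρ := h.hρ
  have hN := h.hN
  have hsmall : ∀ r > 0, ∀ᶠ s in 𝓝[≠] (0 : ℂ), s ≠ 0 ∧ ‖s‖ < r := by
    intro r hr
    filter_upwards [self_mem_nhdsWithin,
      mem_nhdsWithin_of_mem_nhds (ball_mem_nhds (0 : ℂ) hr)] with s hs1 hs2
    exact ⟨hs1, by rwa [mem_ball_zero_iff] at hs2⟩
  have hex : ∃ K : ℕ, ∀ j, ∃ b', ∀ᶠ s in 𝓝[≠] (0 : ℂ), ‖s ^ K * As μ z₀ N B j s‖ ≤ b' := by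
    refine ⟨M + 1, fun j => ⟨N * b + N * (μ {z₀}).toReal, ?_⟩⟩
    filter_upwards [hsmall (min ρ 1) (lt_min hρ one_pos)] with s hs
    have hs1 : ‖s‖ < ρ := hs.2.trans_le (min_le_left _ _)
    have hs2 : ‖s‖ ≤ 1 := (hs.2.trans_le (min_le_right _ _)).le
    have e : s ^ (M + 1) * As μ z₀ N B j s = N * s ^ (N - 1) * s * (s ^ M * B j s) -
        N * ((μ {z₀}).toReal : ℂ) * s ^ M := by
      unfold As
      have := hs.1
      rw [pow_succ]
      field_simp
    rw [e]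
    refine (norm_sub_le _ _).trans ?_
    have hg := hgrow j s hs.1 hs1
    have h1 : ‖s ^ (N - 1)‖ ≤ 1 := by
      rw [norm_pow]; exact pow_le_one₀ (norm_nonneg _) hs2
    have h2 : ‖s ^ M‖ ≤ 1 := by
      rw [norm_pow]; exact pow_le_one₀ (norm_nonneg _) hs2
    have hb0 : 0 ≤ b := (norm_nonneg _).trans hg
    apply add_le_add
    · rw [norm_mul, norm_mul, norm_mul, Complex.norm_natCast]
      calc (N : ℝ) * ‖s ^ (N - 1)‖ * ‖s‖ * ‖s ^ M * B j s‖ ≤ N * 1 * 1 * b := by gcongr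
        _ = N * b := by ring
    · rw [norm_mul, norm_mul, Complex.norm_natCast, Complex.norm_real,
        Real.norm_of_nonneg ENNReal.toReal_nonneg]
      calc (N : ℝ) * (μ {z₀}).toReal * ‖s ^ M‖ ≤ N * (μ {z₀}).toReal * 1 := by gcongr
        _ = _ := by ring
  set K₀ := Nat.find hex with hK₀
  have hK₀s := Nat.find_spec hex
  rw [← hK₀] at hK₀s
  rcases Nat.eq_zero_or_pos K₀ with hz | hpos
  · intro j
    obtain ⟨b', hb'⟩ := hK₀s j
    refine ⟨b', ?_⟩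
    filter_upwards [hb'] with s hs
    rwa [hz, pow_zero, one_mul] at hs
  exfalso
  obtain ⟨K, hKK⟩ : ∃ K, K₀ = K + 1 := ⟨K₀ - 1, by omega⟩
  have hnot := Nat.find_min hex (m := K) (by rw [← hK₀]; omega)
  obtain ⟨j₀, hj₀⟩ := not_forall.1 hnot
  have hj₀ := not_exists.1 hj₀
  rw [hKK] at hK₀s
  -- lower bound
  have hdiff : ∀ j, ∀ᶠ s in 𝓝[≠] (0 : ℂ), DifferentiableAt ℂ (As μ z₀ N B j) s := by
    intro j
    filter_upwards [hsmall ρ hρ] with s hs using h.As_diff j hs.1 hs.2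
  obtain ⟨b₀, hb₀⟩ := hK₀s j₀
  obtain ⟨c, hc0, hcl⟩ := lower_of_unbounded (hdiff j₀) hb₀ (fun b' => hj₀ b')
  -- uniform upper bound
  choose bj hbj using hK₀s
  set b₁ : ℝ := ∑ j, |bj j| with hb₁
  have hb₁0 : 0 ≤ b₁ := Finset.sum_nonneg fun j _ => abs_nonneg _
  have hup : ∀ᶠ s in 𝓝[≠] (0 : ℂ), ∀ j, ‖s ^ (K + 1) * As μ z₀ N B j s‖ ≤ b₁ := by
    rw [Filter.eventually_all]
    intro j
    filter_upwards [hbj j] with s hs
    refine (hs.trans (le_abs_self _)).trans ?_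
    exact Finset.single_le_sum (f := fun j => |bj j|) (fun i _ => abs_nonneg _) (Finset.mem_univ j)
  have hall := hcl.and hup
  rw [eventually_nhdsWithin_iff] at hall
  obtain ⟨ρ₀, hρ₀, hb0⟩ := Metric.eventually_nhds_iff_ball.1 hall
  clear_value b₁
  set ρ₁ := min ρ₀ (min ρ 1) with hρ₁
  have hρ₁0 : 0 < ρ₁ := lt_min hρ₀ (lt_min hρ one_pos)
  have hlow : ∀ s : ℂ, s ≠ 0 → ‖s‖ < ρ₁ → c ≤ ‖s‖ ^ (K + 1) * ‖As μ z₀ N B j₀ s‖ := by
    intro s hs hsρ
    have := (hb0 s (by rw [mem_ball_zero_iff]; exact hsρ.trans_le (min_le_left _ _)) hs).1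
    rwa [norm_mul, norm_pow] at this
  have hupp : ∀ j, ∀ s : ℂ, s ≠ 0 → ‖s‖ < ρ₁ → ‖s‖ ^ (K + 1) * ‖As μ z₀ N B j s‖ ≤ b₁ := by
    intro j s hs hsρ
    have := (hb0 s (by rw [mem_ball_zero_iff]; exact hsρ.trans_le (min_le_left _ _)) hs).2 j
    rwa [norm_mul, norm_pow] at this
  have hρρ : ∀ s : ℂ, ‖s‖ < ρ₁ → ‖s‖ < ρ := fun s hs =>
    hs.trans_le ((min_le_right _ _).trans (min_le_left _ _))
  -- derivative bound
  have hder : ∀ j, ∀ s : ℂ, s ≠ 0 → ‖s‖ < ρ₁ / 2 →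
      ‖deriv (As μ z₀ N B j) s‖ ≤ b₁ * (2 / ‖s‖) ^ (K + 2) := by
    intro j s hs hsρ
    have hsn : 0 < ‖s‖ := norm_pos_iff.2 hs
    have hpt : ∀ w ∈ closedBall s (‖s‖ / 2), ‖s‖ / 2 ≤ ‖w‖ ∧ ‖w‖ < ρ₁ := by
      intro w hw
      rw [mem_closedBall, dist_eq_norm] at hw
      constructor
      · have := norm_sub_norm_le s w
        rw [← norm_neg, neg_sub] at hw
        linarith
      · have := norm_sub_norm_le w s
        linarith
    have h0 : ∀ w ∈ closedBall s (‖s‖ / 2), w ≠ 0 := by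
      intro w hw h0
      have := (hpt w hw).1
      rw [h0, norm_zero] at this
      linarith
    have h1 := Complex.norm_deriv_le_of_forall_mem_sphere_norm_le (c := s) (R := ‖s‖ / 2)
      (C := b₁ / (‖s‖ / 2) ^ (K + 1)) (f := As μ z₀ N B j) (by positivity) (by
        apply DifferentiableOn.diffContOnCl
        intro w hw
        have hw' := closure_ball_subset_closedBall hw
        exact (h.As_diff j (h0 w hw') (hρρ w (hpt w hw').2)).differentiableWithinAt) (by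
        intro w hw
        have hw' := sphere_subset_closedBall hw
        have h2 := hupp j w (h0 w hw') (hpt w hw').2
        rw [le_div_iff₀ (by positivity), mul_comm]
        refine le_trans ?_ h2
        apply mul_le_mul_of_nonneg_right _ (norm_nonneg _)
        exact pow_le_pow_left₀ (by positivity) (hpt w hw').1 _)
    refine h1.trans (le_of_eq ?_)
    rw [div_div, ← pow_succ, div_eq_mul_inv, ← inv_pow, inv_div]
  -- the constants
  set C₁ : ℝ := (b₁ + 1) * 4 ^ (K + 2) with hC₁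
  have hC₁0 : 0 < C₁ := by positivity
  set δ : ℝ := min (1 / 4) (c / (64 * C₁)) with hδ
  have hδ0 : 0 < δ := lt_min (by norm_num) (by positivity)
  have hδ1 : δ ≤ 1 / 4 := min_le_left _ _
  have hδ2 : 8 * C₁ * δ ≤ c / 8 := by
    have h1 : δ ≤ c / (64 * C₁) := min_le_right _ _
    calc 8 * C₁ * δ ≤ 8 * C₁ * (c / (64 * C₁)) := by gcongr
      _ = c / 8 := by field_simp; norm_num
  have hNr : (0 : ℝ) < N := by exact_mod_cast hN
  set η : ℝ := c / (32 * N) with hη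
  have hη0 : 0 < η := by positivity
  have hη2 : 4 * N * η = c / 8 := by rw [hη]; field_simp; norm_num
  -- the rest measure
  set ν : Measure ℂ := μ.restrict {z₀}ᶜ with hν
  have hν0 : ν {z₀} = 0 := by
    rw [hν, Measure.restrict_apply (measurableSet_singleton z₀)]
    simp
  have hgood := good_near ν hν0 hN (δ := δ / 4) (η := η) (by positivity) hη0
  rw [eventually_nhdsWithin_iff] at hgood
  obtain ⟨ρ₂, hρ₂, hb2⟩ := Metric.eventually_nhds_iff_ball.1 hgood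
  -- the point
  obtain ⟨p, ⟨hpoff, hpv⟩, hp0, hpρ⟩ := ((hocc j₀).and_eventually
    (hsmall (min (ρ₁ / 4) (ρ₂ / 2)) (lt_min (by positivity) (by positivity)))).exists
  set t := ‖p‖ with ht
  have ht0 : 0 < t := norm_pos_iff.2 hp0
  have ht1 : t < ρ₁ / 4 := hpρ.trans_le (min_le_left _ _)
  have ht2 : t < ρ₂ / 2 := hpρ.trans_le (min_le_right _ _)
  have hρ₁1 : ρ₁ ≤ 1 := (min_le_right _ _).trans (min_le_right _ _)
  have htle : t ≤ 1 := by linarith
  set A := As μ z₀ N B j₀ p with hA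
  have hAlow : c ≤ t ^ (K + 1) * ‖A‖ := hlow p hp0 (by linarith)
  have hA0 : 0 < ‖A‖ := by
    by_contra hcon
    have : ‖A‖ = 0 := le_antisymm (not_lt.1 hcon) (norm_nonneg _)
    rw [this, mul_zero] at hAlow
    linarith
  -- the centre
  set e : ℂ := conj A / ‖A‖ with he
  have hen : ‖e‖ = 1 := by
    rw [he, norm_div, Complex.norm_conj, Complex.norm_real, norm_norm, div_self hA0.ne']
  have hAe : A * e = (‖A‖ : ℂ) := by
    rw [he, mul_div_assoc', Complex.mul_conj, Complex.normSq_eq_norm_sq, div_eq_iff (by exact_mod_cast hA0.ne')]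
    push_cast
    ring
  set w₀ : ℂ := p + ((δ * t : ℝ) : ℂ) * e with hw₀
  have hw₀p : ‖w₀ - p‖ = δ * t := by
    rw [hw₀, add_sub_cancel_left, norm_mul, hen, mul_one, Complex.norm_real,
      Real.norm_of_nonneg (by positivity)]
  have hδt : δ * t ≤ t / 4 := by
    calc δ * t ≤ 1 / 4 * t := mul_le_mul_of_nonneg_right hδ1 ht0.le
      _ = t / 4 := by ring
  have hw₀u : ‖w₀‖ ≤ 2 * t := by
    have := norm_sub_norm_le w₀ p
    linarith
  have hw₀l : 0 < ‖w₀‖ := by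
    have h1 := norm_sub_norm_le p w₀
    rw [norm_sub_rev] at h1
    linarith
  obtain ⟨w, hww, ⟨hwoff, hwsp⟩, hwη⟩ := hb2 w₀ (by rw [mem_ball_zero_iff]; linarith)
    (norm_pos_iff.1 hw₀l)
    (fun z => z ∉ μ.support ∧ CT μ z = ((μ {z₀}).toReal : ℂ) / (z - z₀) + CT ν z) (by
      filter_upwards [ae_notMem_support hK, CT_split μ z₀] with z h1 h2 using ⟨h1, h2⟩)
  have hwd : ‖w - w₀‖ ≤ δ * t / 2 := by
    refine hww.le.trans ?_
    calc δ / 4 * ‖w₀‖ ≤ δ / 4 * (2 * t) := mul_le_mul_of_nonneg_left hw₀u (by positivity)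
      _ = δ * t / 2 := by ring
  have hwp : ‖w - p‖ ≤ 2 * (δ * t) := by
    have e1 : w - p = (w - w₀) + (w₀ - p) := by ring
    rw [e1]
    refine (norm_add_le _ _).trans ?_
    have : 0 < δ * t := by positivity
    linarith
  have hwp2 : ‖w - p‖ < t / 2 := by
    have e1 : w - p = (w - w₀) + (w₀ - p) := by ring
    rw [e1]
    refine (norm_add_le _ _).trans_lt ?_
    linarith
  have hball : ∀ y ∈ ball p (t / 2), t / 2 < ‖y‖ ∧ ‖y‖ < ρ₁ / 2 ∧ y ≠ 0 := by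
    intro y hy
    rw [mem_ball, dist_eq_norm] at hy
    have h1 : t / 2 < ‖y‖ := by
      have := norm_sub_norm_le p y
      rw [norm_sub_rev] at this
      linarith
    refine ⟨h1, ?_, ?_⟩
    · have := norm_sub_norm_le y p
      linarith
    · intro h0
      rw [h0, norm_zero] at h1
      linarith
  have hwball : w ∈ ball p (t / 2) := by rw [mem_ball, dist_eq_norm]; exact hwp2
  have hpball : p ∈ ball p (t / 2) := mem_ball_self (by positivity)
  have hρh : ∀ y ∈ ball p (t / 2), ‖y‖ < ρ := fun y hy => hρρ y (by linarith [(hball y hy).2.1])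
  obtain ⟨k, hk⟩ := h.val_off (hball w hwball).2.2 (hρh w hwball) hwoff
  -- the derivative constant
  set Cp : ℝ := C₁ / t ^ (K + 2) with hCp
  have hCp0 : 0 < Cp := by positivity
  have hCder : ∀ j, ∀ y ∈ ball p (t / 2), ‖deriv (As μ z₀ N B j) y‖ < Cp := by
    intro j y hy
    obtain ⟨g1, g2, g3⟩ := hball y hy
    have hy0 : 0 < ‖y‖ := norm_pos_iff.2 g3
    refine (hder j y g3 g2).trans_lt ?_
    have h4 : 2 / ‖y‖ ≤ 4 / t := by
      rw [div_le_div_iff₀ hy0 ht0]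
      linarith
    calc b₁ * (2 / ‖y‖) ^ (K + 2) ≤ b₁ * (4 / t) ^ (K + 2) := by gcongr
      _ < (b₁ + 1) * (4 / t) ^ (K + 2) := by
          apply mul_lt_mul_of_pos_right (by linarith) (by positivity)
      _ = Cp := by rw [hCp, hC₁, div_pow]; ring
  have hcontu : ContinuousOn (us μ z₀ N) (ball p (t / 2)) := fun y hy =>
    (h.us_cont hc (hball y hy).2.2 (hρh y hy)).continuousWithinAt
  have hloc : ∀ y ∈ ball p (t / 2), ∃ q : ℂ, ∀ᶠ w in 𝓝 y,
      us μ z₀ N y + (q * (w - y)).re - Cp * ‖w - y‖ ^ 2 ≤ us μ z₀ N w := by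
    intro y hy
    obtain ⟨j, hj⟩ := h.slope hc hK (hball y hy).2.2 (hρh y hy)
    exact ⟨_, hj Cp (hCder j y hy)⟩
  have t1 := sub_of_local (convex_ball p (t / 2)) hcontu hloc hpball
    (h.slope_off hc hp0 (hρh p hpball) hpoff hpv (hCder j₀ p hpball)) w hwball
  have t2 := sub_of_local (convex_ball p (t / 2)) hcontu hloc hwball
    (h.slope_off hc (hball w hwball).2.2 (hρh w hwball) hwoff hk (hCder k w hwball)) p hpball
  rw [norm_sub_rev p w] at t2
  -- the slope at `w`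
  have hsl := h.slope_val (hball w hwball).2.2 hk hwsp
  have hsl2 : ‖w‖ * ‖As μ z₀ N B k w‖ ≤ N * η := by
    rw [← norm_mul, hsl, norm_mul, norm_mul, norm_pow, Complex.norm_natCast]
    exact mul_le_mul_of_nonneg_left hwη.le hNr.le
  have hsl3 : ‖As μ z₀ N B k w‖ ≤ 2 * (N * η) / t := by
    rw [le_div_iff₀ ht0]
    have h1 := (hball w hwball).1
    calc ‖As μ z₀ N B k w‖ * t ≤ ‖As μ z₀ N B k w‖ * (2 * ‖w‖) :=
          mul_le_mul_of_nonneg_left (by linarith only [h1]) (norm_nonneg _)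
      _ = 2 * (‖w‖ * ‖As μ z₀ N B k w‖) := by ring
      _ ≤ 2 * (N * η) := by linarith only [hsl2]
  have hre1 : ‖A‖ * (δ * t / 2) ≤ (A * (w - p)).re := by
    have e1 : A * (w - p) = ((δ * t * ‖A‖ : ℝ) : ℂ) + A * (w - w₀) := by
      have : w - p = (w - w₀) + (w₀ - p) := by ring
      rw [this, mul_add, add_comm]
      congr 1
      rw [hw₀, add_sub_cancel_left]
      calc A * (((δ * t : ℝ) : ℂ) * e) = ((δ * t : ℝ) : ℂ) * (A * e) := by ring
        _ = _ := by rw [hAe]; push_cast; ring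
    rw [e1, Complex.add_re, Complex.ofReal_re]
    have h1 : -(‖A‖ * (δ * t / 2)) ≤ (A * (w - w₀)).re := by
      have h2 := (abs_le.1 (Complex.abs_re_le_norm (A * (w - w₀)))).1
      rw [norm_mul] at h2
      have h3 : ‖A‖ * ‖w - w₀‖ ≤ ‖A‖ * (δ * t / 2) := mul_le_mul_of_nonneg_left hwd hA0.le
      linarith
    linarith
  have hre2 : -(2 * (N * η) / t * (2 * (δ * t))) ≤ (As μ z₀ N B k w * (p - w)).re := by
    have h2 := (abs_le.1 (Complex.abs_re_le_norm (As μ z₀ N B k w * (p - w)))).1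
    rw [norm_mul, norm_sub_rev p w] at h2
    have h3 : ‖As μ z₀ N B k w‖ * ‖w - p‖ ≤ 2 * (N * η) / t * (2 * (δ * t)) :=
      mul_le_mul hsl3 hwp (norm_nonneg _) (by positivity)
    linarith
  have hsq : Cp * ‖w - p‖ ^ 2 ≤ Cp * (2 * (δ * t)) ^ 2 := by
    apply mul_le_mul_of_nonneg_left _ hCp0.le
    exact pow_le_pow_left₀ (norm_nonneg _) hwp 2
  have hfin : ‖A‖ * (δ * t / 2) ≤ 2 * (N * η) / t * (2 * (δ * t)) + 2 * (Cp * (2 * (δ * t)) ^ 2) := by
    linarith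
  -- multiply by `t ^ (K + 1) / (δ t)`
  have hmul : t ^ (K + 1) * ‖A‖ / 2 ≤ 4 * N * η * t ^ K + 8 * C₁ * δ := by
    have h1 := mul_le_mul_of_nonneg_left hfin (show 0 ≤ t ^ (K + 1) / (δ * t) by positivity)
    have e1 : t ^ (K + 1) / (δ * t) * (‖A‖ * (δ * t / 2)) = t ^ (K + 1) * ‖A‖ / 2 := by
      field_simp
    have e2 : t ^ (K + 1) / (δ * t) * (2 * (N * η) / t * (2 * (δ * t)) + 2 * (Cp * (2 * (δ * t)) ^ 2)) =
        4 * N * η * t ^ K + 8 * C₁ * δ := by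
      rw [hCp]
      field_simp
      ring
    rw [e1, e2] at h1
    exact h1
  have htK : t ^ K ≤ 1 := pow_le_one₀ ht0.le htle
  have h5 : 4 * N * η * t ^ K ≤ 4 * N * η := mul_le_of_le_one_right (by positivity) htK
  linarith

end

end Pool.Agent.T2h27.SA
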