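import Mathlib
import Pool.Agent.T2h27.SA.S17

/-!
# Extension of the touching property over the origin
-/

set_option autoImplicit false

open MeasureTheory Metric Set Filter Topology Complex
open scoped ENNReal ComplexConjugate Real NNReal

namespace Pool.Agent.T2h27.SA

open Pool.Agent.H586R3.CT

/-- perturbed segments avoid the origin -/
lemma seg_avoid {z : ℂ} (hz : z ≠ 0) (w : ℂ) :
    ∀ᶠ ε : ℝ in 𝓝[>] (0 : ℝ), ∀ y ∈ segment ℝ z (w + ε * (I * z)), y ≠ 0 := by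
  have h1 : ∀ᶠ ε : ℝ in 𝓝[>] (0 : ℝ), ε ≠ -(w / z).im := by
    rcases lt_or_ge (-(w / z).im) 0 with h | h
    · filter_upwards [self_mem_nhdsWithin] with ε hε
      have : (0 : ℝ) < ε := hε
      linarith
    · rcases h.eq_or_lt with h | h
      · filter_upwards [self_mem_nhdsWithin] with ε hε
        have : (0 : ℝ) < ε := hε
        rw [← h]
        exact this.ne'
      · filter_upwards [Ioo_mem_nhdsGT h] with ε hε
        exact hε.2.ne
  filter_upwards [h1] with ε hε y hy h0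
  rw [h0] at hy
  obtain ⟨a, b, ha, hb, hab, h2⟩ := hy
  have h3 : (a : ℂ) + b * (w / z + ε * I) = 0 := by
    rw [Complex.real_smul, Complex.real_smul] at h2
    have : (a : ℂ) + b * (w / z + ε * I) = ((a : ℂ) * z + b * (w + ε * (I * z))) / z := by
      field_simp
    rw [this, h2, zero_div]
  have h4 := congrArg Complex.im h3
  simp only [Complex.add_im, Complex.ofReal_im, Complex.im_ofReal_mul, zero_add, Complex.zero_im,
    Complex.I_im, mul_one] at h4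
  rcases mul_eq_zero.1 h4 with h5 | h5
  · rw [h5] at h3 hab
    simp only [Complex.ofReal_zero, zero_mul, add_zero] at h3
    have : a = 0 := by exact_mod_cast h3
    linarith
  · apply hε
    linarith

theorem extend_touch {ι : Type*} [Finite ι] {R L C : ℝ} (hR : 0 < R) (hL : 0 ≤ L) (hC : 0 ≤ C)
    {v : ℂ → ℝ} {G : ι → ℂ → ℂ}
    (hv : ∀ s ∈ ball (0 : ℂ) R, s ≠ 0 → ContinuousAt v s)
    (hG : ∀ j, ContinuousOn (G j) (ball 0 R)) (hGL : ∀ j, ∀ s ∈ ball (0 : ℂ) R, ‖G j s‖ ≤ L)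
    (hloc : ∀ s ∈ ball (0 : ℂ) R, s ≠ 0 → ∃ j, ∀ᶠ w in 𝓝 s,
      v s + (G j s * (w - s)).re - C * ‖w - s‖ ^ 2 ≤ v w) :
    ∃ u : ℂ → ℝ, Continuous u ∧ (∀ s ∈ ball (0 : ℂ) R, s ≠ 0 → u s = v s) ∧
      ∀ z ∈ ball (0 : ℂ) R, ∃ j, Lt u R C (G j z) z := by
  classical
  have hconv := convex_ball (0 : ℂ) R
  -- global touching away from the origin
  have hglob : ∀ z ∈ ball (0 : ℂ) R, z ≠ 0 → ∀ p : ℂ, (∀ᶠ w in 𝓝 z,
      v z + (p * (w - z)).re - C * ‖w - z‖ ^ 2 ≤ v w) → ∀ w ∈ ball (0 : ℂ) R, w ≠ 0 →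
      v z + (p * (w - z)).re - C * ‖w - z‖ ^ 2 ≤ v w := by
    intro z hz hz0 p hp w hw hw0
    have hy : Tendsto (fun ε : ℝ => w + ε * (I * z)) (𝓝[>] (0 : ℝ)) (𝓝 w) := by
      have h1 : Continuous fun ε : ℝ => w + ε * (I * z) := by fun_prop
      have := h1.tendsto 0
      simp only [Complex.ofReal_zero, zero_mul, add_zero] at this
      exact this.mono_left nhdsWithin_le_nhds
    have hev : ∀ᶠ ε : ℝ in 𝓝[>] (0 : ℝ), v z + (p * (w + ε * (I * z) - z)).re -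
        C * ‖w + ε * (I * z) - z‖ ^ 2 ≤ v (w + ε * (I * z)) := by
      filter_upwards [seg_avoid hz0 w, hy (isOpen_ball.mem_nhds hw)] with ε h1 h2
      have hseg : segment ℝ z (w + ε * (I * z)) ⊆ ball 0 R := hconv.segment_subset hz h2
      exact sub_of_local (Ω := segment ℝ z (w + ε * (I * z))) (convex_segment _ _)
        (fun y hy => (hv y (hseg hy) (h1 y hy)).continuousWithinAt)
        (fun y hy => by
          obtain ⟨j, hj⟩ := hloc y (hseg hy) (h1 y hy)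
          exact ⟨_, hj⟩) (left_mem_segment _ _ _) hp _ (right_mem_segment _ _ _)
    have hcl : Tendsto (fun y : ℂ => v z + (p * (y - z)).re - C * ‖y - z‖ ^ 2) (𝓝 w)
        (𝓝 (v z + (p * (w - z)).re - C * ‖w - z‖ ^ 2)) := by
      have : Continuous (fun y : ℂ => v z + (p * (y - z)).re - C * ‖y - z‖ ^ 2) := by
        have h1 : Continuous fun y : ℂ => (p * (y - z)).re := Complex.continuous_re.comp (by fun_prop)
        fun_prop
      exact this.tendsto w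
    exact le_of_tendsto_of_tendsto (hcl.comp hy) ((hv w hw hw0).tendsto.comp hy) hev
  -- Lipschitz bound
  have hdiam : ∀ z ∈ ball (0 : ℂ) R, ∀ w ∈ ball (0 : ℂ) R, ‖w - z‖ ≤ 2 * R := by
    intro z hz w hw
    rw [mem_ball_zero_iff] at hz hw
    refine (norm_sub_le _ _).trans ?_
    linarith
  have hone : ∀ z ∈ ball (0 : ℂ) R, z ≠ 0 → ∀ w ∈ ball (0 : ℂ) R, w ≠ 0 →
      v z - v w ≤ (L + 2 * R * C) * ‖w - z‖ := by
    intro z hz hz0 w hw hw0
    obtain ⟨j, hj⟩ := hloc z hz hz0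
    have h1 := hglob z hz hz0 _ hj w hw hw0
    have h2 := (abs_le.1 (Complex.abs_re_le_norm (G j z * (w - z)))).1
    rw [norm_mul] at h2
    have h3 : ‖G j z‖ * ‖w - z‖ ≤ L * ‖w - z‖ :=
      mul_le_mul_of_nonneg_right (hGL j z hz) (norm_nonneg _)
    have h4 : C * ‖w - z‖ ^ 2 ≤ 2 * R * C * ‖w - z‖ := by
      have := hdiam z hz w hw
      calc C * ‖w - z‖ ^ 2 = C * ‖w - z‖ * ‖w - z‖ := by ring
        _ ≤ C * (2 * R) * ‖w - z‖ := by gcongr
        _ = _ := by ring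
    linarith
  have hLip : LipschitzOnWith (L + 2 * R * C).toNNReal v (ball (0 : ℂ) R \ {0}) := by
    apply LipschitzOnWith.of_dist_le_mul
    intro z hz w hw
    rw [Real.coe_toNNReal _ (by positivity), Real.dist_eq, abs_le]
    have h1 := hone z hz.1 hz.2 w hw.1 hw.2
    have h2 := hone w hw.1 hw.2 z hz.1 hz.2
    rw [dist_eq_norm]
    rw [norm_sub_rev] at h1
    constructor <;> linarith
  obtain ⟨u, hu, huv⟩ := hLip.extend_real
  have huv' : ∀ s ∈ ball (0 : ℂ) R, s ≠ 0 → u s = v s := fun s hs hs0 => (huv ⟨hs, hs0⟩).symm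
  have huc : Continuous u := hu.continuous
  have hne : ∀ w : ℂ, Tendsto (fun y : ℂ => y) (𝓝[≠] w) (𝓝 w) := fun w => tendsto_id.mono_left nhdsWithin_le_nhds
  -- touching at the other points
  have hLt : ∀ z ∈ ball (0 : ℂ) R, z ≠ 0 → ∃ j, Lt u R C (G j z) z := by
    intro z hz hz0
    obtain ⟨j, hj⟩ := hloc z hz hz0
    refine ⟨j, fun w hw => ?_⟩
    by_cases hw0 : w = 0
    · have hcont : Continuous (fun y : ℂ => u z + (G j z * (y - z)).re - C * ‖y - z‖ ^ 2) := by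
        have h1 : Continuous fun y : ℂ => (G j z * (y - z)).re := Complex.continuous_re.comp (by fun_prop)
        fun_prop
      have hev : ∀ᶠ y in 𝓝[≠] w, u z + (G j z * (y - z)).re - C * ‖y - z‖ ^ 2 ≤ u y := by
        filter_upwards [self_mem_nhdsWithin,
          mem_nhdsWithin_of_mem_nhds (isOpen_ball.mem_nhds hw)] with y hy1 hy2
        rw [hw0, mem_compl_singleton_iff] at hy1
        rw [huv' z hz hz0, huv' y hy2 hy1]
        exact hglob z hz hz0 _ hj y hy2 hy1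
      exact le_of_tendsto_of_tendsto ((hcont.tendsto w).comp (hne w)) ((huc.tendsto w).comp (hne w)) hev
    · rw [huv' z hz hz0, huv' w hw hw0]
      exact hglob z hz hz0 _ hj w hw hw0
  refine ⟨u, huc, huv', fun z hz => ?_⟩
  by_cases hz0 : z = 0
  · subst hz0
    -- a frequent type
    have hfr : ∃ j, ∃ᶠ z in 𝓝[≠] (0 : ℂ), Lt u R C (G j z) z := by
      by_contra hcon
      push Not at hcon
      have h1 : ∀ᶠ z in 𝓝[≠] (0 : ℂ), ∀ j, ¬ Lt u R C (G j z) z := by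
        rw [Filter.eventually_all]
        intro j
        exact hcon j
      obtain ⟨z, hz1, hz2, hz3⟩ := (h1.and (eventually_mem_nhdsWithin.and
        (mem_nhdsWithin_of_mem_nhds (isOpen_ball.mem_nhds hz)))).exists
      obtain ⟨j, hj⟩ := hLt z hz3 hz2
      exact hz1 j hj
    obtain ⟨j, hj⟩ := hfr
    refine ⟨j, fun w hw => ?_⟩
    have hcont : ContinuousAt (fun y => u y + (G j y * (w - y)).re - C * ‖w - y‖ ^ 2) 0 := by
      have h1 := huc.continuousAt (x := (0 : ℂ))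
      have h2 := (hG j).continuousAt (isOpen_ball.mem_nhds hz)
      apply ContinuousAt.sub
      · apply h1.add
        exact Complex.continuous_re.continuousAt.comp (h2.mul (by fun_prop))
      · fun_prop
    by_contra hcon
    rw [not_le] at hcon
    have h3 := (hcont.eventually (lt_mem_nhds hcon)).filter_mono (nhdsWithin_le_nhds (s := {0}ᶜ))
    obtain ⟨y, hy1, hy2⟩ := (hj.and_eventually h3).exists
    have := hy1 w hw
    linarith
  · exact hLt z hz hz0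

section

variable {μ : Measure ℂ} [IsFiniteMeasure μ] {z₀ : ℂ} {N : ℕ} {ρ : ℝ} {ι : Type*}
  {B : ι → ℂ → ℂ}
variable {R₀ : ℝ} (hc : ∀ᵐ ζ ∂μ, ‖ζ‖ ≤ R₀)

include hc in
/-- the local model at every point -/
theorem PD.kloc [Finite ι] (h : PD μ z₀ N ρ B) (hK : volume μ.support = 0)
    (hocc : ∀ j, ∃ᶠ s in 𝓝[≠] (0 : ℂ), z₀ + s ^ N ∉ μ.support ∧ CT μ (z₀ + s ^ N) = B j s)
    {M : ℕ} {b : ℝ} (hgrow : ∀ j s, s ≠ 0 → ‖s‖ < ρ → ‖s ^ M * B j s‖ ≤ b) :
    ∃ (u : ℂ → ℝ) (A H : ι → ℂ → ℂ) (R C : ℝ), KLoc ι u A H R C {s : ℂ | z₀ + s ^ N ∈ μ.support} := by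
  classical
  cases nonempty_fintype ι
  have hbdd := h.bdd hc hK hocc hgrow
  have hpun : ∀ᶠ s in 𝓝[≠] (0 : ℂ), s ≠ 0 ∧ ‖s‖ < ρ := by
    filter_upwards [self_mem_nhdsWithin,
      mem_nhdsWithin_of_mem_nhds (ball_mem_nhds (0 : ℂ) h.hρ)] with s hs1 hs2
    exact ⟨hs1, by rwa [mem_ball_zero_iff] at hs2⟩
  -- the extensions
  have hex : ∀ j, ∃ G : ℂ → ℂ, AnalyticAt ℂ G 0 ∧ ∀ s, s ≠ 0 → G s = As μ z₀ N B j s := by
    intro j
    obtain ⟨b', hb'⟩ := hbdd j
    apply exists_extension _ hb'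
    filter_upwards [hpun] with s hs using h.As_diff j hs.1 hs.2
  choose G hGa hGs using hex
  -- the radius and the constants
  have h1 : ∀ᶠ s in 𝓝 (0 : ℂ), ∀ j, DifferentiableAt ℂ (G j) s ∧ ‖G j s‖ < ‖G j 0‖ + 1 ∧
      ‖deriv (G j) s‖ < ‖deriv (G j) 0‖ + 1 := by
    rw [Filter.eventually_all]
    intro j
    have g1 : ∀ᶠ s in 𝓝 (0 : ℂ), DifferentiableAt ℂ (G j) s :=
      Complex.analyticAt_iff_eventually_differentiableAt.1 (hGa j)
    have g2 : ∀ᶠ s in 𝓝 (0 : ℂ), ‖G j s‖ < ‖G j 0‖ + 1 :=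
      (hGa j).continuousAt.norm.eventually_lt continuousAt_const (by linarith)
    have g3 : ∀ᶠ s in 𝓝 (0 : ℂ), ‖deriv (G j) s‖ < ‖deriv (G j) 0‖ + 1 :=
      (hGa j).deriv.continuousAt.norm.eventually_lt continuousAt_const (by linarith)
    filter_upwards [g1, g2, g3] with s a1 a2 a3 using ⟨a1, a2, a3⟩
  obtain ⟨r, hr, hb⟩ := Metric.eventually_nhds_iff_ball.1 h1
  set R := min r ρ with hRdef
  have hR : 0 < R := lt_min hr h.hρ
  have hRr : ball (0 : ℂ) R ⊆ ball 0 r := ball_subset_ball (min_le_left _ _)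
  have hRρ : ∀ s ∈ ball (0 : ℂ) R, ‖s‖ < ρ := fun s hs => by
    rw [mem_ball_zero_iff] at hs
    exact hs.trans_le (min_le_right _ _)
  set L : ℝ := ∑ j, (‖G j 0‖ + 1) with hLdef
  set C : ℝ := ∑ j, (‖deriv (G j) 0‖ + 1) with hCdef
  have hL0 : 0 ≤ L := Finset.sum_nonneg fun j _ => by positivity
  have hC0 : 0 ≤ C := Finset.sum_nonneg fun j _ => by positivity
  have hLj : ∀ j, ‖G j 0‖ + 1 ≤ L := fun j =>
    Finset.single_le_sum (f := fun j => ‖G j 0‖ + 1) (fun i _ => by positivity) (Finset.mem_univ j)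
  have hCj : ∀ j, ‖deriv (G j) 0‖ + 1 ≤ C := fun j =>
    Finset.single_le_sum (f := fun j => ‖deriv (G j) 0‖ + 1) (fun i _ => by positivity) (Finset.mem_univ j)
  clear_value L C
  have hGd : ∀ j, DifferentiableOn ℂ (G j) (ball 0 R) := fun j s hs =>
    (hb s (hRr hs) j).1.differentiableWithinAt
  have hderiv : ∀ j, ∀ s : ℂ, s ≠ 0 → deriv (As μ z₀ N B j) s = deriv (G j) s := by
    intro j s hs
    apply Filter.EventuallyEq.deriv_eq
    filter_upwards [isOpen_ne.mem_nhds hs] with w hw using (hGs j w hw).symm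
  obtain ⟨u, huc, huv, huL⟩ := extend_touch (v := us μ z₀ N) (G := G) (L := L) (C := C) hR hL0 hC0
    (fun s hs hs0 => h.us_cont hc hs0 (hRρ s hs)) (fun j => (hGd j).continuousOn)
    (fun j s hs => (hb s (hRr hs) j).2.1.le.trans (hLj j))
    (fun s hs hs0 => by
      obtain ⟨j, hj⟩ := h.slope hc hK hs0 (hRρ s hs)
      refine ⟨j, ?_⟩
      rw [hGs j s hs0]
      apply hj
      rw [hderiv j s hs0]
      exact (hb s (hRr hs) j).2.2.trans_le (hCj j))
  -- primitives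
  have hprim : ∀ j, ∃ H : ℂ → ℂ, H 0 = 0 ∧ ∀ z ∈ ball (0 : ℂ) R, HasDerivAt H (G j z) z := by
    intro j
    obtain ⟨H, hH⟩ := (hGd j).isExactOn_ball
    refine ⟨fun z => H z - H 0, by simp, fun z hz => ?_⟩
    exact (hH z hz).sub_const _
  choose H hH0 hH using hprim
  have hpt : ∀ i j, i ≠ j → ∀ z ∈ ball (0 : ℂ) R, z ≠ 0 → G i z ≠ G j z := by
    intro i j hij z hz hz0 heq
    rw [hGs i z hz0, hGs j z hz0] at heq
    unfold As at heq
    have h2 : (N : ℂ) * z ^ (N - 1) ≠ 0 :=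
      mul_ne_zero (by exact_mod_cast h.hN.ne') (pow_ne_zero _ hz0)
    exact h.hne i j hij z hz0 (hRρ z hz) (mul_left_cancel₀ h2 (sub_left_inj.1 heq))
  have hHs : ∀ j, ∀ z ∈ ball (0 : ℂ) R, z ≠ 0 →
      ∀ᶠ s in 𝓝 z, HasDerivAt (H j) (As μ z₀ N B j s) s := by
    intro j z hz hz0
    filter_upwards [isOpen_ball.mem_nhds hz, isOpen_ne.mem_nhds hz0] with s hs hs0
    rw [← hGs j s hs0]
    exact hH j s hs
  have huev : ∀ z ∈ ball (0 : ℂ) R, z ≠ 0 → ∀ᶠ s in 𝓝 z, u s = us μ z₀ N s := by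
    intro z hz hz0
    filter_upwards [isOpen_ball.mem_nhds hz, isOpen_ne.mem_nhds hz0] with s hs hs0
    exact huv s hs hs0
  refine ⟨u, G, H, R, C, ⟨⟨hR, huc.continuousOn, hGd, hH, hH0, ?_, huL⟩, ?_, ?_, ?_, ?_, hpt⟩⟩
  · intro i j hij hev
    obtain ⟨s, hs1, hs2, hs3⟩ := ((hev.filter_mono nhdsWithin_le_nhds).and
      (eventually_mem_nhdsWithin.and (mem_nhdsWithin_of_mem_nhds
        (ball_mem_nhds (0 : ℂ) hR)) : ∀ᶠ s in 𝓝[≠] (0 : ℂ), s ∈ ({0}ᶜ : Set ℂ) ∧ s ∈ ball (0 : ℂ) R)).exists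
    exact hpt i j hij s hs3 hs2 hs1
  · exact Measure.isClosed_support.preimage (by fun_prop)
  · intro z hz hz0 hzK
    obtain ⟨j, hj⟩ := h.val_off hz0 (hRρ z hz) hzK
    refine ⟨j, ?_⟩
    filter_upwards [h.off' hc hz0 (hRρ z hz) hzK hj (hHs j z hz hz0), huev z hz hz0] with w hw1 hw2
    rw [hw2, huv z hz hz0]
    exact hw1
  · intro z hz hz0 j hj
    apply h.on' hc hK hz0 (hRρ z hz) (hHs j z hz hz0)
    filter_upwards [hj, huev z hz hz0] with w hw1 hw2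
    rw [← hw2, ← huv z hz hz0]
    exact hw1
  · intro z hz V hV
    -- a nonzero point of the interior
    obtain ⟨w₀, hw₀V, hw₀0⟩ : ∃ w₀ ∈ interior V, w₀ ≠ 0 := by
      have h2 : ∀ᶠ y in 𝓝[≠] z, y ∈ interior V ∧ y ≠ 0 := by
        by_cases hz0 : z = 0
        · subst hz0
          filter_upwards [self_mem_nhdsWithin, mem_nhdsWithin_of_mem_nhds (interior_mem_nhds.2 hV)]
            with y hy1 hy2 using ⟨hy2, hy1⟩
        · filter_upwards [mem_nhdsWithin_of_mem_nhds (isOpen_ne.mem_nhds hz0),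
            mem_nhdsWithin_of_mem_nhds (interior_mem_nhds.2 hV)] with y hy1 hy2 using ⟨hy2, hy1⟩
      obtain ⟨y, hy⟩ := h2.exists
      exact ⟨y, hy.1, hy.2⟩
    obtain ⟨δ, hδ, hδV⟩ := Metric.isOpen_iff.1 isOpen_interior w₀ hw₀V
    have hwn : 0 < ‖w₀‖ := norm_pos_iff.2 hw₀0
    obtain ⟨ε, hε, hcov⟩ := pow_cover z₀ h.hN (δ := δ / ‖w₀‖) (by positivity)
    obtain ⟨y, hy, hyK⟩ := exists_of_ae (ae_notMem_support hK) (z₀ + w₀ ^ N)
      (r := ε * ‖w₀‖ ^ N) (by positivity)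
    obtain ⟨w, hw1, hw2⟩ := hcov w₀ hw₀0 y hy
    refine ⟨w, interior_subset (hδV ?_), ?_⟩
    · rw [mem_ball, dist_eq_norm]
      rwa [div_mul_cancel₀ _ hwn.ne'] at hw1
    · intro hwK
      have : z₀ + w ^ N ∈ μ.support := hwK
      rw [hw2] at this
      exact hyK this

end

end Pool.Agent.T2h27.SA
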