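import Mathlib
import Pool.Agent.T2h27.SA.S18

/-!
# The support near a point is a finite union of curve germs
-/

set_option autoImplicit false

open MeasureTheory Metric Set Filter Topology Complex
open scoped ENNReal ComplexConjugate Real Polynomial

namespace Pool.Agent.T2h27.SA

open Pool.Agent.H586R3.CT

section

variable {μ : Measure ℂ} [IsFiniteMeasure μ] {z₀ : ℂ} {N : ℕ} {ρ : ℝ} {ι : Type*}
  {B : ι → ℂ → ℂ}

omit [IsFiniteMeasure μ] in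
/-- restriction to the branches which occur -/
lemma PD.restrict [Finite ι] (h : PD μ z₀ N ρ B) (hK : volume μ.support = 0) :
    ∃ ρ' > 0, ρ' ≤ ρ ∧ PD μ z₀ N ρ' (fun j : {j : ι // ∃ᶠ s in 𝓝[≠] (0 : ℂ),
      z₀ + s ^ N ∉ μ.support ∧ CT μ (z₀ + s ^ N) = B j s} => B j) := by
  have h1 : ∀ᶠ s in 𝓝[≠] (0 : ℂ), ∀ j : ι, (¬ ∃ᶠ s in 𝓝[≠] (0 : ℂ),
      z₀ + s ^ N ∉ μ.support ∧ CT μ (z₀ + s ^ N) = B j s) →
      ¬ (z₀ + s ^ N ∉ μ.support ∧ CT μ (z₀ + s ^ N) = B j s) := by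
    rw [Filter.eventually_all]
    intro j
    by_cases hj : ∃ᶠ s in 𝓝[≠] (0 : ℂ), z₀ + s ^ N ∉ μ.support ∧ CT μ (z₀ + s ^ N) = B j s
    · exact Eventually.of_forall fun s h => absurd hj h
    · filter_upwards [not_frequently.1 hj] with s hs _ using hs
  rw [eventually_nhdsWithin_iff] at h1
  obtain ⟨r, hr, hb⟩ := Metric.eventually_nhds_iff_ball.1 h1
  refine ⟨min r ρ, lt_min hr h.hρ, min_le_right _ _, h.hN, lt_min hr h.hρ, ?_, ?_, ?_⟩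
  · intro j s hs hsρ
    exact h.hB j s hs (hsρ.trans_le (min_le_right _ _))
  · intro i j hij s hs hsρ
    exact h.hne i j (fun h => hij (Subtype.ext h)) s hs (hsρ.trans_le (min_le_right _ _))
  · filter_upwards [h.hval, ae_notMem_support hK] with z hz1 hz2 s hs hsρ hsz
    obtain ⟨j, hj⟩ := hz1 s hs (hsρ.trans_le (min_le_right _ _)) hsz
    refine ⟨⟨j, ?_⟩, hj⟩
    by_contra hcon
    apply hb s (by rw [mem_ball_zero_iff]; exact hsρ.trans_le (min_le_left _ _)) hs j hcon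
    rw [hsz]
    exact ⟨hz2, hj⟩

end

/-- **local structure of the support** -/
theorem local_curves (μ : Measure ℂ) [IsFiniteMeasure μ] {R₀ : ℝ} (hc : ∀ᵐ ζ ∂μ, ‖ζ‖ ≤ R₀)
    (P : ℂ[X][X]) (hP : P ≠ 0) (h : ∀ᵐ z : ℂ, P.evalEval z (CT μ z) = 0) (z₀ : ℂ) :
    ∃ (N : ℕ) (F : Set (ℂ → ℂ)), 0 < N ∧ F.Finite ∧
      (∀ f ∈ F, AnalyticAt ℂ f 0 ∧ f 0 = 0 ∧ deriv f 0 ≠ 0 ∧
        ∀ᶠ t : ℝ in 𝓝[>] (0 : ℝ), z₀ + (f t) ^ N ∈ μ.support) ∧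
      ∀ ε > 0, ∀ᶠ z in 𝓝 z₀, z ∈ μ.support → z ≠ z₀ →
        ∃ f ∈ F, ∃ t ∈ Ioo (0 : ℝ) ε, z = z₀ + (f t) ^ N := by
  have hK := support_null μ P hP h
  obtain ⟨Q, hQ0, ⟨R, hR, U, V, hUV⟩, t, ht, hPQ⟩ := exists_sep P hP
  have hQ : ∀ᵐ z : ℂ, Q.evalEval z (CT μ z) = 0 := by
    have h1 : volume {z : ℂ | t.eval z = 0} = 0 := (finite_zeros ht).measure_zero _
    filter_upwards [h, compl_mem_ae_iff.2 h1] with z hz1 hz2 using hPQ z _ hz1 hz2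
  obtain ⟨N, ρ, B, M, b, hN, hρ, -, hBd, hBZ, hBne, hBg⟩ := poly_puiseux Q hQ0 hR hUV z₀
  have hPD : PD μ z₀ N ρ B := by
    refine ⟨hN, hρ, hBd, hBne, ?_⟩
    filter_upwards [hQ] with z hz s hs hsρ hsz
    apply (hBZ s hs hsρ _).1
    rw [hsz]
    exact hz
  obtain ⟨ρ', hρ', hρρ, hPD'⟩ := hPD.restrict hK
  obtain ⟨u, A, H, R', C, hL⟩ := hPD'.kloc hc hK (fun j => j.2) (M := M) (b := b)
    (fun j s hs hsρ => hBg j s hs (hsρ.trans_le hρρ))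
  obtain ⟨F, hF, hF1, hF2⟩ := hL.curves
  refine ⟨N, F, hN, hF, hF1, ?_⟩
  intro ε hε
  obtain ⟨r, hr, hb⟩ := Metric.eventually_nhds_iff_ball.1 (hF2 ε hε)
  filter_upwards [ball_mem_nhds z₀ (show 0 < r ^ N by positivity)] with z hz hzs hzne
  obtain ⟨s, hs⟩ := IsAlgClosed.exists_pow_nat_eq (z - z₀) hN
  have hsz : z₀ + s ^ N = z := by rw [hs]; ring
  have hs0 : s ≠ 0 := by
    rintro rfl
    apply hzne
    rw [← hsz, zero_pow hN.ne', add_zero]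
  have hsr : ‖s‖ < r := by
    rw [mem_ball, dist_eq_norm, ← hs, norm_pow] at hz
    exact lt_of_pow_lt_pow_left₀ N hr.le hz
  obtain ⟨f, hf, t, ht, hst⟩ := hb s (by rwa [mem_ball_zero_iff]) (by
    show z₀ + s ^ N ∈ μ.support
    rw [hsz]; exact hzs) hs0
  refine ⟨f, hf, t, ht, ?_⟩
  rw [← hst, hsz]

end Pool.Agent.T2h27.SA
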