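import Mathlib
import Pool.Agent.T2h27.SA.S19

/-!
# Curve germs are compact analytic arcs
-/

set_option autoImplicit false

open MeasureTheory Metric Set Filter Topology Complex
open scoped ENNReal ComplexConjugate Real

namespace Pool.Agent.T2h27.SA

/-- compact analytic arcs -/
def IsArc (A : Set ℂ) : Prop :=
  ∃ (a b : ℝ) (g : ℝ → ℂ), a < 0 ∧ 1 < b ∧ AnalyticOnNhd ℝ g (Ioo a b) ∧ InjOn g (Ioo a b) ∧
    A = g '' Icc 0 1

lemma sqrt_norm {x : ℂ} (hx : x ≠ 0) : ‖Complex.exp (Complex.log x / 2)‖ ^ 2 = ‖x‖ ∧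
    Complex.exp (Complex.log x / 2) ^ 2 = x := by
  have h1 : Complex.exp (Complex.log x / 2) ^ 2 = x := by
    rw [← Complex.exp_nat_mul]
    push_cast
    rw [mul_div_cancel₀ _ (two_ne_zero), Complex.exp_log hx]
  exact ⟨by rw [← norm_pow, h1], h1⟩

/-- even germs are germs in the square -/
lemma even_germ {e : ℂ → ℂ} (he : AnalyticAt ℂ e 0) (hev : ∀ᶠ w in 𝓝 (0 : ℂ), e (-w) = e w) :
    ∃ E : ℂ → ℂ, AnalyticAt ℂ E 0 ∧ ∀ᶠ w in 𝓝 (0 : ℂ), e w = E (w ^ 2) := by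
  have h1 : ∀ᶠ w in 𝓝 (0 : ℂ), DifferentiableAt ℂ e w :=
    Complex.analyticAt_iff_eventually_differentiableAt.1 he
  have h2 : ∀ᶠ w in 𝓝 (0 : ℂ), ‖e w‖ < ‖e 0‖ + 1 :=
    he.continuousAt.norm.eventually_lt continuousAt_const (by linarith)
  obtain ⟨r, hr, hb⟩ := Metric.eventually_nhds_iff_ball.1 (h1.and (h2.and hev))
  set rt : ℂ → ℂ := fun x => Complex.exp (Complex.log x / 2) with hrt
  have hrtb : ∀ x : ℂ, x ≠ 0 → ‖x‖ < r ^ 2 → rt x ∈ ball (0 : ℂ) r := by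
    intro x hx hxr
    rw [mem_ball_zero_iff]
    have h3 := (sqrt_norm hx).1
    rw [← h3] at hxr
    exact lt_of_pow_lt_pow_left₀ 2 hr.le hxr
  have hrt2 : ∀ x : ℂ, x ≠ 0 → rt x ^ 2 = x := fun x hx => (sqrt_norm hx).2
  have hpun : ∀ᶠ x in 𝓝[≠] (0 : ℂ), x ≠ 0 ∧ ‖x‖ < r ^ 2 := by
    filter_upwards [self_mem_nhdsWithin,
      mem_nhdsWithin_of_mem_nhds (ball_mem_nhds (0 : ℂ) (show 0 < r ^ 2 by positivity))] with s hs1 hs2
    exact ⟨hs1, by rwa [mem_ball_zero_iff] at hs2⟩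
  have heq : ∀ a b : ℂ, a ∈ ball (0 : ℂ) r → b ∈ ball (0 : ℂ) r → a ^ 2 = b ^ 2 → e a = e b := by
    intro a b ha hb' hab
    rcases sq_eq_sq_iff_eq_or_eq_neg.1 hab with h | h
    · rw [h]
    · rw [h]; exact (hb b hb').2.2
  obtain ⟨E, hE, hEs⟩ := exists_extension (F := fun x => e (rt x)) (b := ‖e 0‖ + 1) (by
    filter_upwards [hpun] with x hx
    obtain ⟨hx0, hxr⟩ := hx
    have hs0 : rt x ≠ 0 := Complex.exp_ne_zero _
    obtain ⟨σ, g1, g2, g3, -⟩ := local_inv 0 (N := 2) (by norm_num) hs0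
    have hx' : 0 + rt x ^ 2 = x := by rw [hrt2 x hx0, zero_add]
    rw [hx'] at g1 g2 g3
    have g4 : ∀ᶠ z in 𝓝 x, σ z ∈ ball (0 : ℂ) r := by
      apply g1.continuousAt
      rw [g2]
      exact isOpen_ball.mem_nhds (hrtb x hx0 hxr)
    have g5 : ∀ᶠ z in 𝓝 x, z ≠ 0 ∧ ‖z‖ < r ^ 2 :=
      (isOpen_ne.eventually_mem hx0).and
        ((isOpen_lt continuous_norm continuous_const).eventually_mem hxr)
    have g6 : (fun x => e (rt x)) =ᶠ[𝓝 x] fun z => e (σ z) := by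
      filter_upwards [g3, g4, g5] with z h3 h4 h5
      apply heq _ _ (hrtb z h5.1 h5.2) h4
      rw [hrt2 z h5.1]
      rw [zero_add] at h3
      exact h3.symm
    have g7 : DifferentiableAt ℂ (fun z => e (σ z)) x := by
      have : DifferentiableAt ℂ e (σ x) := by
        rw [g2]; exact (hb _ (hrtb x hx0 hxr)).1
      exact this.comp x g1.differentiableAt
    exact g7.congr_of_eventuallyEq g6) (by
    filter_upwards [hpun] with x hx
    exact (hb _ (hrtb x hx.1 hx.2)).2.1.le)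
  refine ⟨E, hE, ?_⟩
  have hoff : ∀ w ∈ ball (0 : ℂ) r, w ≠ 0 → e w = E (w ^ 2) := by
    intro w hw hw0
    rw [hEs _ (pow_ne_zero 2 hw0)]
    have hw2 : ‖w ^ 2‖ < r ^ 2 := by
      rw [norm_pow]
      rw [mem_ball_zero_iff] at hw
      exact pow_lt_pow_left₀ hw (norm_nonneg _) two_ne_zero
    exact heq _ _ hw (hrtb _ (pow_ne_zero 2 hw0) hw2) (hrt2 _ (pow_ne_zero 2 hw0)).symm
  have h0 : e 0 = E (0 ^ 2) := by
    have t1 : Tendsto e (𝓝[≠] 0) (𝓝 (e 0)) := he.continuousAt.tendsto.mono_left nhdsWithin_le_nhds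
    have t2 : Tendsto (fun w : ℂ => E (w ^ 2)) (𝓝[≠] 0) (𝓝 (E (0 ^ 2))) := by
      have hE' : ContinuousAt E ((0 : ℂ) ^ 2) := by
        rw [zero_pow two_ne_zero]; exact hE.continuousAt
      have : ContinuousAt (fun w : ℂ => E (w ^ 2)) 0 :=
        ContinuousAt.comp (f := fun w : ℂ => w ^ 2) hE' (by fun_prop)
      exact this.tendsto.mono_left nhdsWithin_le_nhds
    refine tendsto_nhds_unique_of_eventuallyEq t1 t2 ?_
    filter_upwards [self_mem_nhdsWithin, mem_nhdsWithin_of_mem_nhds (ball_mem_nhds (0 : ℂ) hr)]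
      with w hw1 hw2 using hoff w hw2 hw1
  filter_upwards [ball_mem_nhds (0 : ℂ) hr] with w hw
  by_cases hw0 : w = 0
  · rw [hw0]; exact h0
  · exact hoff w hw hw0

/-- local inverse of a germ fixing the origin -/
lemma germ_inv {f : ℂ → ℂ} (hf : AnalyticAt ℂ f 0) (hf0 : f 0 = 0) (hd : deriv f 0 ≠ 0) :
    ∃ G : ℂ → ℂ, AnalyticAt ℂ G 0 ∧ G 0 = 0 ∧ deriv G 0 = (deriv f 0)⁻¹ ∧
      (∀ᶠ z in 𝓝 (0 : ℂ), G (f z) = z) ∧ (∀ᶠ w in 𝓝 (0 : ℂ), f (G w) = w) := by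
  set G := hf.hasStrictDerivAt.localInverse _ _ _ hd with hG
  have hGa : AnalyticAt ℂ G 0 := by
    have := hf.analyticAt_localInverse hd
    rwa [hf0] at this
  have hleft : ∀ᶠ z in 𝓝 (0 : ℂ), G (f z) = z :=
    HasStrictDerivAt.eventually_left_inverse hf.hasStrictDerivAt hd
  have hright : ∀ᶠ w in 𝓝 (0 : ℂ), f (G w) = w := by
    have := HasStrictDerivAt.eventually_right_inverse hf.hasStrictDerivAt hd
    rwa [hf0] at this
  have hG0 : G 0 = 0 := by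
    have := hleft.self_of_nhds
    rwa [hf0] at this
  refine ⟨G, hGa, hG0, ?_, hleft, hright⟩
  have h1 := HasStrictDerivAt.to_localInverse hf.hasStrictDerivAt hd
  rw [hf0] at h1
  exact h1.hasDerivAt.deriv

/-- a nonreal rotation does not identify points of a curve germ -/
lemma nonreal_rot {f : ℂ → ℂ} (hf : AnalyticAt ℂ f 0) (hf0 : f 0 = 0) (hd : deriv f 0 ≠ 0) {ω : ℂ}
    (hω1 : ‖ω‖ = 1) (hω : ω.im ≠ 0) : ∃ ε > 0, ∀ t₁ ∈ Ioo (-ε) ε, ∀ t₂ ∈ Ioo (-ε) ε,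
      f (t₂ : ℝ) = ω * f (t₁ : ℝ) → t₁ = t₂ := by
  set c := deriv f 0 with hc
  have hc0 : 0 < ‖c‖ := norm_pos_iff.2 hd
  have hω0 : 0 < |ω.im| := abs_pos.2 hω
  set η : ℝ := ‖c‖ * |ω.im| / 4 with hη
  have hη0 : 0 < η := by positivity
  have h1 := (hasDerivAt_iff_isLittleO.1 hf.differentiableAt.hasDerivAt).def hη0
  obtain ⟨ε, hε, hb⟩ := Metric.eventually_nhds_iff_ball.1 h1
  have hb' : ∀ t ∈ Ioo (-ε) ε, ‖f (t : ℝ) - c * (t : ℝ)‖ ≤ η * |t| := by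
    intro t ht
    have h2 := hb (t : ℝ) (by
      rw [mem_ball_zero_iff, Complex.norm_real, Real.norm_eq_abs, abs_lt]; exact ht)
    rw [hf0, sub_zero, sub_zero, smul_eq_mul, Complex.norm_real, Real.norm_eq_abs] at h2
    rw [mul_comm c]
    exact h2
  refine ⟨ε, hε, fun t₁ ht₁ t₂ ht₂ hft => ?_⟩
  have e1 := hb' t₁ ht₁
  have e2 := hb' t₂ ht₂
  have hω' : ω * conj ω = 1 := by
    rw [Complex.mul_conj, Complex.normSq_eq_norm_sq, hω1]; simp
  set T : ℂ := (t₂ : ℂ) - ω * t₁ with hT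
  have k1 : |ω.im| * |t₁| ≤ ‖T‖ := by
    have h3 := Complex.abs_im_le_norm T
    have h4 : T.im = -(ω.im * t₁) := by
      rw [hT, Complex.sub_im, Complex.ofReal_im, mul_comm ω, Complex.im_ofReal_mul]
      ring
    rwa [h4, abs_neg, abs_mul] at h3
  have k2 : |ω.im| * |t₂| ≤ ‖T‖ := by
    have h3 := Complex.abs_im_le_norm (conj ω * T)
    have h4 : (conj ω * T).im = -(ω.im * t₂) := by
      have : conj ω * T = (t₂ : ℂ) * conj ω - t₁ := by
        rw [hT, mul_sub, mul_comm (conj ω), ← mul_assoc, mul_comm (conj ω), hω', one_mul]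
      rw [this, Complex.sub_im, Complex.ofReal_im, Complex.im_ofReal_mul, Complex.conj_im]
      ring
    rw [h4, abs_neg, abs_mul, norm_mul, Complex.norm_conj, hω1, one_mul] at h3
    exact h3
  have k3 : ‖c‖ * ‖T‖ ≤ η * (|t₁| + |t₂|) := by
    rw [← norm_mul]
    have e3 : c * T = -(f (t₂ : ℝ) - c * (t₂ : ℝ)) + ω * (f (t₁ : ℝ) - c * (t₁ : ℝ)) := by
      rw [hT, hft]; ring
    rw [e3]
    refine (norm_add_le _ _).trans ?_
    rw [norm_neg, norm_mul, hω1, one_mul]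
    linarith
  have k4 : ‖c‖ * (|ω.im| * (|t₁| + |t₂|) / 2) ≤ ‖c‖ * ‖T‖ := by
    apply mul_le_mul_of_nonneg_left _ hc0.le
    linarith
  have k5 : |t₁| + |t₂| ≤ 0 := by
    by_contra hcon
    rw [not_le] at hcon
    have : ‖c‖ * |ω.im| * (|t₁| + |t₂|) > 0 := by positivity
    have e4 : η * (|t₁| + |t₂|) = ‖c‖ * |ω.im| * (|t₁| + |t₂|) / 4 := by rw [hη]; ring
    rw [e4] at k3
    linarith
  have h5 : |t₁| = 0 := le_antisymm (by have := abs_nonneg t₂; linarith) (abs_nonneg _)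
  have h6 : |t₂| = 0 := le_antisymm (by have := abs_nonneg t₁; linarith) (abs_nonneg _)
  rw [abs_eq_zero.1 h5, abs_eq_zero.1 h6]

end Pool.Agent.T2h27.SA
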