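import Mathlib
import Pool.Agent.T2h27.SA.S20

/-!
# Curve germs are compact analytic arcs, II
-/

set_option autoImplicit false

open MeasureTheory Metric Set Filter Topology Complex
open scoped ENNReal ComplexConjugate Real

namespace Pool.Agent.T2h27.SA

lemma norm_one_real {ω : ℂ} (hω1 : ‖ω‖ = 1) (him : ω.im = 0) : ω = 1 ∨ ω = -1 := by
  have h1 : ω.re ^ 2 = 1 := by
    have := Complex.sq_norm ω
    rw [hω1, Complex.normSq_apply, him] at this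
    linarith
  have h2 : ω = (ω.re : ℂ) := by
    apply Complex.ext <;> simp [him]
  rcases sq_eq_sq_iff_eq_or_eq_neg.1 (h1.trans (one_pow 2).symm) with h | h
  · left; rw [h2, h]; simp
  · right; rw [h2, h]; simp

/-- the only possible identifications are by `-1` -/
lemma collision {f : ℂ → ℂ} (hf : AnalyticAt ℂ f 0) (hf0 : f 0 = 0) (hd : deriv f 0 ≠ 0) {N : ℕ}
    (hN : 0 < N) (hni : ∀ ε > 0, ¬ InjOn (fun t : ℝ => (f t) ^ N) (Ioo (-ε) ε)) :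
    Even N ∧ ∀ ε > 0, ∃ t₁ ∈ Ioo (-ε) ε, t₁ ≠ 0 ∧ ∃ t₂ ∈ Ioo (-ε) ε, f (t₂ : ℝ) = -f (t₁ : ℝ) := by
  obtain ⟨V, hV, hVinj⟩ := inj_near hf hd
  obtain ⟨r, hr, hrV⟩ := Metric.mem_nhds_iff.1 hV
  have hmem : ∀ t ∈ Ioo (-r) r, ((t : ℝ) : ℂ) ∈ V := by
    intro t ht
    apply hrV
    rw [mem_ball_zero_iff, Complex.norm_real, Real.norm_eq_abs, abs_lt]
    exact ht
  have hinj : ∀ t₁ ∈ Ioo (-r) r, ∀ t₂ ∈ Ioo (-r) r, f (t₁ : ℝ) = f (t₂ : ℝ) → t₁ = t₂ := by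
    intro t₁ h1 t₂ h2 h12
    exact_mod_cast hVinj (hmem t₁ h1) (hmem t₂ h2) h12
  have hfin : {ω : ℂ | ω ^ N = 1}.Finite := by
    have hp : (Polynomial.X ^ N - Polynomial.C (1 : ℂ)) ≠ 0 := Polynomial.X_pow_sub_C_ne_zero hN _
    refine ((Polynomial.X ^ N - Polynomial.C (1 : ℂ)).roots.toFinset.finite_toSet).subset ?_
    intro ω hω
    rw [Finset.mem_coe, Multiset.mem_toFinset, Polynomial.mem_roots hp, Polynomial.IsRoot,
      Polynomial.eval_sub, Polynomial.eval_pow, Polynomial.eval_X, Polynomial.eval_C]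
    have : ω ^ N = 1 := hω
    rw [this]; ring
  -- the good scale for every root of unity
  have hω : ∀ ω ∈ {ω : ℂ | ω ^ N = 1}, ∃ ε > 0, ω ≠ -1 → ∀ t₁ ∈ Ioo (-ε) ε, ∀ t₂ ∈ Ioo (-ε) ε,
      f (t₂ : ℝ) = ω * f (t₁ : ℝ) → t₁ = t₂ := by
    intro ω hω
    have hω1 : ‖ω‖ = 1 := by
      have h1 : ‖ω‖ ^ N = 1 := by rw [← norm_pow, show ω ^ N = 1 from hω, norm_one]
      exact (pow_eq_one_iff_of_nonneg (norm_nonneg _) hN.ne').1 h1
    by_cases him : ω.im = 0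
    · refine ⟨r, hr, fun hne t₁ h1 t₂ h2 h12 => ?_⟩
      rcases norm_one_real hω1 him with h | h
      · rw [h, one_mul] at h12
        exact (hinj t₂ h2 t₁ h1 h12).symm
      · exact absurd h hne
    · obtain ⟨ε, hε, h⟩ := nonreal_rot hf hf0 hd hω1 him
      exact ⟨ε, hε, fun _ => h⟩
  choose! sc hsc hscp using hω
  obtain ⟨ε₀, hε₀, hε₀'⟩ : ∃ ε₀ > 0, ∀ ω ∈ {ω : ℂ | ω ^ N = 1}, ε₀ ≤ sc ω := by
    have hne : (hfin.toFinset).Nonempty := ⟨1, by simp⟩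
    obtain ⟨ω, hω, hmin⟩ := hfin.toFinset.exists_min_image sc hne
    exact ⟨sc ω, hsc ω (by simpa using hω), fun ω' hω' => hmin ω' (by simpa using hω')⟩
  have key : ∀ ε > 0, ∃ t₁ ∈ Ioo (-ε) ε, t₁ ≠ 0 ∧ ∃ t₂ ∈ Ioo (-ε) ε, f (t₂ : ℝ) = -f (t₁ : ℝ) ∧
      Even N := by
    intro ε hε
    have h1 := hni (min ε (min ε₀ r)) (lt_min hε (lt_min hε₀ hr))
    unfold InjOn at h1
    push Not at h1
    obtain ⟨t₁, ht₁, t₂, ht₂, h12, hne⟩ := h1
    have hsub1 : Ioo (-(min ε (min ε₀ r))) (min ε (min ε₀ r)) ⊆ Ioo (-ε) ε :=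
      Ioo_subset_Ioo (by have := min_le_left ε (min ε₀ r); linarith) (min_le_left _ _)
    have hle2 : min ε (min ε₀ r) ≤ ε₀ := (min_le_right _ _).trans (min_le_left _ _)
    have hle3 : min ε (min ε₀ r) ≤ r := (min_le_right _ _).trans (min_le_right _ _)
    have hsub3 : Ioo (-(min ε (min ε₀ r))) (min ε (min ε₀ r)) ⊆ Ioo (-r) r :=
      Ioo_subset_Ioo (by linarith) hle3
    have hft : f (t₁ : ℝ) ≠ 0 := by
      intro h0
      have h2 : f (t₂ : ℝ) = 0 := by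
        have h3 : f (t₁ : ℝ) ^ N = f (t₂ : ℝ) ^ N := h12
        rw [h0, zero_pow hN.ne'] at h3
        exact pow_eq_zero_iff hN.ne' |>.1 h3.symm
      exact hne (hinj t₁ (hsub3 ht₁) t₂ (hsub3 ht₂) (by rw [h0, h2]))
    set ω : ℂ := f (t₂ : ℝ) / f (t₁ : ℝ) with hωdef
    have hωN : ω ^ N = 1 := by
      rw [hωdef, div_pow, div_eq_one_iff_eq (pow_ne_zero _ hft)]
      exact h12.symm
    have hfω : f (t₂ : ℝ) = ω * f (t₁ : ℝ) := by rw [hωdef, div_mul_cancel₀ _ hft]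
    have hω1 : ω = -1 := by
      by_contra hcon
      have hle : min ε (min ε₀ r) ≤ sc ω := hle2.trans (hε₀' ω hωN)
      have hsub : Ioo (-(min ε (min ε₀ r))) (min ε (min ε₀ r)) ⊆ Ioo (-(sc ω)) (sc ω) :=
        Ioo_subset_Ioo (by linarith) hle
      exact hne (hscp ω hωN hcon t₁ (hsub ht₁) t₂ (hsub ht₂) hfω)
    refine ⟨t₁, hsub1 ht₁, ?_, t₂, hsub1 ht₂, ?_, ?_⟩
    · rintro rfl
      apply hft
      rw [Complex.ofReal_zero, hf0]
    · rw [hfω, hω1]; ring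
    · rw [hω1] at hωN
      by_contra hodd
      rw [Nat.not_even_iff_odd] at hodd
      rw [hodd.neg_one_pow] at hωN
      have := congrArg Complex.re hωN
      norm_num at this
  obtain ⟨_, _, _, _, _, _, hE⟩ := key 1 one_pos
  refine ⟨hE, fun ε hε => ?_⟩
  obtain ⟨t₁, h1, h2, t₂, h3, h4, -⟩ := key ε hε
  exact ⟨t₁, h1, h2, t₂, h3, h4⟩

/-- real analyticity of the imaginary part on the real line -/
lemma im_analytic {ψ : ℂ → ℂ} (hψ : AnalyticAt ℂ ψ 0) :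
    AnalyticAt ℝ (fun t : ℝ => (ψ t).im) 0 := by
  have h1 : AnalyticAt ℝ ψ ((0 : ℝ) : ℂ) := by
    rw [Complex.ofReal_zero]
    exact hψ.restrictScalars
  have h2 : AnalyticAt ℝ (fun t : ℝ => ψ (t : ℂ)) 0 :=
    h1.comp (Complex.ofRealCLM.analyticAt (0 : ℝ))
  exact (Complex.imCLM.analyticAt _).comp h2

/-- symmetric germs: reparametrisation by the square -/
lemma symmetric_germ {f : ℂ → ℂ} (hf : AnalyticAt ℂ f 0) (hf0 : f 0 = 0) (hd : deriv f 0 ≠ 0)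
    (hcol : ∀ ε > 0, ∃ t₁ ∈ Ioo (-ε) ε, t₁ ≠ 0 ∧ ∃ t₂ ∈ Ioo (-ε) ε, f (t₂ : ℝ) = -f (t₁ : ℝ)) :
    ∃ (τ F : ℂ → ℂ), AnalyticAt ℂ τ 0 ∧ τ 0 = 0 ∧ deriv τ 0 = 1 ∧
      (∀ᶠ t : ℝ in 𝓝 0, (τ t).im = 0) ∧ AnalyticAt ℂ F 0 ∧ F 0 = 0 ∧ deriv F 0 ≠ 0 ∧
      ∀ᶠ z in 𝓝 (0 : ℂ), f z ^ 2 = F (τ z ^ 2) := by
  obtain ⟨G, hG, hG0, hGd, hGf, hfG⟩ := germ_inv hf hf0 hd
  have hfc : Tendsto f (𝓝 0) (𝓝 0) := by
    have := hf.continuousAt.tendsto
    rwa [hf0] at this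
  have hnf : AnalyticAt ℂ (fun z => -f z) 0 := hf.neg
  set ψ : ℂ → ℂ := fun z => G (-f z) with hψ
  have hψa : AnalyticAt ℂ ψ 0 := by
    apply AnalyticAt.fun_comp_of_eq (f := fun z => -f z) (g := G) hG hnf
    rw [hf0, neg_zero]
  have hψ0 : ψ 0 = 0 := by simp only [hψ]; rw [hf0, neg_zero, hG0]
  have hψc : Tendsto ψ (𝓝 0) (𝓝 0) := by
    have := hψa.continuousAt.tendsto
    rwa [hψ0] at this
  have hnfc : Tendsto (fun z => -f z) (𝓝 0) (𝓝 0) := by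
    have := hfc.neg
    rwa [neg_zero] at this
  have hfψ : ∀ᶠ z in 𝓝 (0 : ℂ), f (ψ z) = -f z := hnfc.eventually hfG
  have hψψ : ∀ᶠ z in 𝓝 (0 : ℂ), ψ (ψ z) = z := by
    filter_upwards [hfψ, hGf] with z h1 h2
    simp only [hψ] at h1 ⊢
    rw [h1, neg_neg, h2]
  -- `ψ` is real on the real line
  have hreal : ∀ᶠ t : ℝ in 𝓝 0, (ψ t).im = 0 := by
    have h1 := (im_analytic hψa).frequently_zero_iff_eventually_zero
    apply h1.1
    rw [Filter.frequently_iff]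
    intro U hU
    have h2 : ∀ᶠ t : ℝ in 𝓝 (0 : ℝ), t ≠ 0 → t ∈ U := by
      rw [mem_nhdsWithin_iff_eventually] at hU
      filter_upwards [hU] with t ht h0 using ht h0
    have h3 : ∀ᶠ t : ℝ in 𝓝 (0 : ℝ), G (f (t : ℝ)) = t := tendsto_ofReal0.eventually hGf
    obtain ⟨ε, hε, hb⟩ := Metric.eventually_nhds_iff_ball.1 (h2.and h3)
    obtain ⟨t₁, ht₁, ht₁0, t₂, ht₂, h12⟩ := hcol ε hε
    have hmem : ∀ t ∈ Ioo (-ε) ε, t ∈ ball (0 : ℝ) ε := by
      intro t ht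
      rw [mem_ball_zero_iff, Real.norm_eq_abs, abs_lt]
      exact ht
    refine ⟨t₁, (hb t₁ (hmem t₁ ht₁)).1 ht₁0, ?_⟩
    have h4 : ψ (t₁ : ℝ) = (t₂ : ℝ) := by
      simp only [hψ]
      rw [← h12]
      exact (hb t₂ (hmem t₂ ht₂)).2
    rw [h4, Complex.ofReal_im]
  -- the derivative of `ψ`
  have hψd : HasDerivAt ψ (-1) 0 := by
    have h1 : HasDerivAt G (deriv f 0)⁻¹ (-f 0) := by
      rw [hf0, neg_zero, ← hGd]
      exact hG.differentiableAt.hasDerivAt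
    have h2 := h1.comp (0 : ℂ) hf.differentiableAt.hasDerivAt.neg
    refine h2.congr_deriv ?_
    rw [mul_neg, inv_mul_cancel₀ hd]
  set τ : ℂ → ℂ := fun z => (z - ψ z) / 2 with hτ
  have hτa : AnalyticAt ℂ τ 0 := by
    have : AnalyticAt ℂ (fun z : ℂ => z - ψ z) 0 := analyticAt_id.sub hψa
    exact this.div_const
  have hτ0 : τ 0 = 0 := by simp [hτ, hψ0]
  have hτd : HasDerivAt τ 1 0 := by
    have := ((hasDerivAt_id (0 : ℂ)).sub hψd).div_const 2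
    refine this.congr_deriv ?_
    norm_num
  have hτne : deriv τ 0 ≠ 0 := by rw [hτd.deriv]; exact one_ne_zero
  have hτψ : ∀ᶠ z in 𝓝 (0 : ℂ), τ (ψ z) = -τ z := by
    filter_upwards [hψψ] with z hz
    simp only [hτ]
    rw [hz]; ring
  obtain ⟨θ, hθ, hθ0, hθd, hθτ, hτθ⟩ := germ_inv hτa hτ0 hτne
  have hθc : Tendsto θ (𝓝 0) (𝓝 0) := by
    have := hθ.continuousAt.tendsto
    rwa [hθ0] at this
  have hτc : Tendsto τ (𝓝 0) (𝓝 0) := by
    have := hτa.continuousAt.tendsto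
    rwa [hτ0] at this
  set k : ℂ → ℂ := fun w => f (θ w) with hk
  have hka : AnalyticAt ℂ k 0 := AnalyticAt.fun_comp_of_eq (f := θ) (g := f) hf hθ hθ0
  have hk0 : k 0 = 0 := by simp only [hk]; rw [hθ0, hf0]
  -- oddness
  have hodd : ∀ᶠ w in 𝓝 (0 : ℂ), k (-w) = -k w := by
    have g1 := hθc.eventually hτψ
    have g2 := hθc.eventually hfψ
    have g3 : ∀ᶠ w in 𝓝 (0 : ℂ), θ (τ (ψ (θ w))) = ψ (θ w) := (hψc.comp hθc).eventually hθτ
    filter_upwards [g1, g2, g3, hτθ] with w h1 h2 h3 h4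
    simp only [hk]
    rw [h4] at h1
    rw [← h1, h3, h2]
  obtain ⟨F, hF, hFk⟩ := even_germ (e := fun w => k w ^ 2) (hka.pow 2) (by
    filter_upwards [hodd] with w hw
    show k (-w) ^ 2 = k w ^ 2
    rw [hw, neg_sq])
  have hF0 : F 0 = 0 := by
    have h1 := hFk.self_of_nhds
    have h2 : k 0 ^ 2 = F (0 ^ 2) := h1
    rw [hk0, zero_pow two_ne_zero] at h2
    exact h2.symm
  -- the derivative of `F`
  have hkd : HasDerivAt k (deriv f 0) 0 := by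
    have h1 : HasDerivAt f (deriv f 0) (θ 0) := by
      rw [hθ0]; exact hf.differentiableAt.hasDerivAt
    have h2 := h1.comp (0 : ℂ) hθ.differentiableAt.hasDerivAt
    rw [hθd, hτd.deriv, inv_one, mul_one] at h2
    exact h2
  have hFd : deriv F 0 = (deriv f 0) ^ 2 := by
    have t1 : Tendsto (fun w : ℂ => w⁻¹ * k w) (𝓝[≠] 0) (𝓝 (deriv f 0)) := by
      have := hasDerivAt_iff_tendsto_slope_zero.1 hkd
      simpa [hk0, smul_eq_mul] using this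
    have t2 : Tendsto (fun x : ℂ => x⁻¹ * F x) (𝓝[≠] 0) (𝓝 (deriv F 0)) := by
      have := hasDerivAt_iff_tendsto_slope_zero.1 hF.differentiableAt.hasDerivAt
      simpa [hF0, smul_eq_mul] using this
    have t3 : Tendsto (fun w : ℂ => w ^ 2) (𝓝[≠] 0) (𝓝[≠] 0) := by
      apply tendsto_nhdsWithin_of_tendsto_nhds_of_eventually_within
      · have : Continuous fun w : ℂ => w ^ 2 := by fun_prop
        have h2 := this.tendsto 0
        rw [zero_pow two_ne_zero] at h2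
        exact h2.mono_left nhdsWithin_le_nhds
      · filter_upwards [self_mem_nhdsWithin] with w hw
        rw [mem_compl_singleton_iff] at hw ⊢
        exact pow_ne_zero 2 hw
    have t4 := t2.comp t3
    have t5 := t1.pow 2
    refine tendsto_nhds_unique_of_eventuallyEq t4 t5 ?_
    filter_upwards [hFk.filter_mono nhdsWithin_le_nhds] with w hw
    show (w ^ 2)⁻¹ * F (w ^ 2) = (w⁻¹ * k w) ^ 2
    rw [← hw, mul_pow, inv_pow]
  refine ⟨τ, F, hτa, hτ0, hτd.deriv, ?_, hF, hF0, ?_, ?_⟩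
  · filter_upwards [hreal] with t ht
    simp only [hτ]
    have e : (((t : ℝ) : ℂ) - ψ t) / 2 = ((2⁻¹ : ℝ) : ℂ) * ((t : ℂ) - ψ t) := by push_cast; ring
    rw [e, Complex.im_ofReal_mul, Complex.sub_im, Complex.ofReal_im, ht]
    ring
  · rw [hFd]; exact pow_ne_zero 2 hd
  · filter_upwards [hτc.eventually hFk, hθτ] with z h1 h2
    simp only [hk] at h1
    rw [h2] at h1
    exact h1

end Pool.Agent.T2h27.SA
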