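import Mathlib
import Pool.Agent.T2h27.SA.S21

/-!
# The support of a measure with algebraic Cauchy transform is a finite union of arcs and points
-/

set_option autoImplicit false

open MeasureTheory Metric Set Filter Topology Complex
open scoped ENNReal ComplexConjugate Real Polynomial

namespace Pool.Agent.T2h27.SA

open Pool.Agent.H586R3.CT

/-- curve germs are compact analytic arcs -/
theorem germ_arc (N : ℕ) : 0 < N → ∀ f : ℂ → ℂ, AnalyticAt ℂ f 0 → f 0 = 0 → deriv f 0 ≠ 0 →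
    ∀ z₀ : ℂ, ∀ δ₀ > 0, ∃ δ ∈ Ioo (0 : ℝ) δ₀, IsArc ((fun t : ℝ => z₀ + (f t) ^ N) '' Icc 0 δ) := by
  induction N using Nat.strong_induction_on with
  | _ N ih =>
  intro hN f hf hf0 hd z₀ δ₀ hδ₀
  by_cases hinj : ∃ ε > 0, InjOn (fun t : ℝ => (f t) ^ N) (Ioo (-ε) ε)
  · obtain ⟨ε, hε, hinj⟩ := hinj
    obtain ⟨r, hr, hb⟩ := Metric.eventually_nhds_iff_ball.1 hf.eventually_analyticAt
    set m := min δ₀ (min ε r) with hm
    have hm0 : 0 < m := lt_min hδ₀ (lt_min hε hr)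
    have hm1 : m ≤ δ₀ := min_le_left _ _
    have hm2 : m ≤ ε := (min_le_right _ _).trans (min_le_left _ _)
    have hm3 : m ≤ r := (min_le_right _ _).trans (min_le_right _ _)
    set δ := m / 2 with hδ
    have hδ0 : 0 < δ := by positivity
    refine ⟨δ, ⟨hδ0, by linarith⟩, -1, 2, fun t => z₀ + (f ((δ * t : ℝ) : ℂ)) ^ N, by norm_num,
      by norm_num, ?_, ?_, ?_⟩
    · intro t ht
      have h1 : |δ * t| < r := by
        rw [abs_mul, abs_of_pos hδ0]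
        have : |t| < 2 := abs_lt.2 ⟨by linarith [ht.1], ht.2⟩
        calc δ * |t| < δ * 2 := by gcongr
          _ = m := by rw [hδ]; ring
          _ ≤ r := hm3
      have h2 : AnalyticAt ℝ f ((δ * t : ℝ) : ℂ) := by
        have := hb ((δ * t : ℝ) : ℂ) (by
          rw [mem_ball_zero_iff, Complex.norm_real, Real.norm_eq_abs]; exact h1)
        exact this.restrictScalars
      have h3 : AnalyticAt ℝ (fun t : ℝ => ((δ * t : ℝ) : ℂ)) t := by
        have e1 : AnalyticAt ℝ (fun t : ℝ => δ * t) t := analyticAt_const.mul analyticAt_id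
        exact (Complex.ofRealCLM.analyticAt (δ * t)).comp e1
      have h4 : AnalyticAt ℝ (fun t : ℝ => f ((δ * t : ℝ) : ℂ)) t :=
        AnalyticAt.comp (f := fun t : ℝ => ((δ * t : ℝ) : ℂ)) (g := f) h2 h3
      exact analyticAt_const.add (h4.pow N)
    · intro a ha b hb' hab
      have h1 : (f ((δ * a : ℝ) : ℂ)) ^ N = (f ((δ * b : ℝ) : ℂ)) ^ N := add_left_cancel hab
      have hmem : ∀ t ∈ Ioo (-1 : ℝ) 2, δ * t ∈ Ioo (-ε) ε := by
        intro t ht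
        have h5 : |t| < 2 := abs_lt.2 ⟨by linarith [ht.1], ht.2⟩
        have h6 : |δ * t| < ε := by
          rw [abs_mul, abs_of_pos hδ0]
          calc δ * |t| < δ * 2 := by gcongr
            _ = m := by rw [hδ]; ring
            _ ≤ ε := hm2
        exact abs_lt.1 h6
      have h2 := hinj (hmem a ha) (hmem b hb') h1
      exact mul_left_cancel₀ hδ0.ne' h2
    · apply Subset.antisymm
      · rintro _ ⟨t, ht, rfl⟩
        refine ⟨t / δ, ⟨by have := ht.1; positivity, ?_⟩, ?_⟩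
        · rw [div_le_one hδ0]; exact ht.2
        · show z₀ + (f ((δ * (t / δ) : ℝ) : ℂ)) ^ N = z₀ + (f (t : ℂ)) ^ N
          rw [mul_div_cancel₀ _ hδ0.ne']
      · rintro _ ⟨t, ht, rfl⟩
        refine ⟨δ * t, ⟨by have := ht.1; positivity, ?_⟩, rfl⟩
        calc δ * t ≤ δ * 1 := by gcongr; exact ht.2
          _ = δ := mul_one _
  · push Not at hinj
    obtain ⟨hE, hcol⟩ := collision hf hf0 hd hN hinj
    obtain ⟨τ, F, hτ, hτ0, hτd, hτr, hF, hF0, hFd, hFτ⟩ := symmetric_germ hf hf0 hd hcol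
    obtain ⟨N', hN'⟩ := hE
    have hN'0 : 0 < N' := by omega
    have hN'lt : N' < N := by omega
    -- a good interval
    have h1 : ∀ᶠ t : ℝ in 𝓝 (0 : ℝ), AnalyticAt ℂ τ (t : ℂ) :=
      tendsto_ofReal0.eventually hτ.eventually_analyticAt
    have h2 : ∀ᶠ t : ℝ in 𝓝 (0 : ℝ), 0 < (deriv τ (t : ℂ)).re := by
      have hc : ContinuousAt (fun z => (deriv τ z).re) 0 :=
        Complex.continuous_re.continuousAt.comp hτ.deriv.continuousAt
      have h0 : ∀ᶠ z in 𝓝 (0 : ℂ), 0 < (deriv τ z).re := by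
        apply continuousAt_const.eventually_lt hc
        rw [hτd, Complex.one_re]
        exact one_pos
      exact tendsto_ofReal0.eventually h0
    have h3 : ∀ᶠ t : ℝ in 𝓝 (0 : ℝ), f (t : ℂ) ^ 2 = F (τ (t : ℂ) ^ 2) :=
      tendsto_ofReal0.eventually hFτ
    obtain ⟨r, hr, hb⟩ := Metric.eventually_nhds_iff_ball.1 (h1.and (h2.and (h3.and hτr)))
    set δ₁ := min δ₀ r / 2 with hδ₁
    have hδ₁0 : 0 < δ₁ := by have := lt_min hδ₀ hr; positivity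
    have hδ₁δ : δ₁ < δ₀ := by
      have := lt_min hδ₀ hr
      have := min_le_left δ₀ r
      linarith
    have hδ₁r : δ₁ < r := by
      have := lt_min hδ₀ hr
      have := min_le_right δ₀ r
      linarith
    have hmem : ∀ t ∈ Icc (0 : ℝ) δ₁, t ∈ ball (0 : ℝ) r := by
      intro t ht
      rw [mem_ball_zero_iff, Real.norm_eq_abs, abs_of_nonneg ht.1]
      exact ht.2.trans_lt hδ₁r
    set T : ℝ → ℝ := fun t => (τ (t : ℂ)).re with hT
    have hTd : ∀ t ∈ Icc (0 : ℝ) δ₁, HasDerivAt T (deriv τ (t : ℂ)).re t := by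
      intro t ht
      have g1 : HasDerivAt (fun y : ℝ => (y : ℂ)) 1 t := Complex.ofRealCLM.hasDerivAt (x := t)
      have g2 : HasDerivAt (fun y : ℝ => τ (y : ℂ)) (deriv τ (t : ℂ) * 1) t :=
        ((hb t (hmem t ht)).1.differentiableAt.hasDerivAt).comp_of_eq t g1 rfl
      rw [mul_one] at g2
      exact hasDerivAt_re g2
    have hTc : ContinuousOn T (Icc 0 δ₁) := fun t ht => (hTd t ht).continuousAt.continuousWithinAt
    have hTm : StrictMonoOn T (Icc 0 δ₁) := by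
      apply strictMonoOn_of_deriv_pos (convex_Icc 0 δ₁) hTc
      intro t ht
      have ht' := interior_subset ht
      rw [(hTd t ht').deriv]
      exact (hb t (hmem t ht')).2.1
    have hT0 : T 0 = 0 := by simp [hT, hτ0]
    have hTτ : ∀ t ∈ Icc (0 : ℝ) δ₁, τ (t : ℂ) = (T t : ℂ) := by
      intro t ht
      apply Complex.ext
      · simp [hT]
      · rw [(hb t (hmem t ht)).2.2.2, Complex.ofReal_im]
    have h0mem : (0 : ℝ) ∈ Icc 0 δ₁ := ⟨le_rfl, hδ₁0.le⟩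
    have h1mem : δ₁ ∈ Icc (0 : ℝ) δ₁ := ⟨hδ₁0.le, le_rfl⟩
    have hT1 : 0 < T δ₁ := by
      rw [← hT0]
      exact hTm h0mem h1mem hδ₁0
    obtain ⟨δ', hδ', harc⟩ := ih N' hN'lt hN'0 F hF hF0 hFd z₀ (T δ₁ ^ 2) (by positivity)
    have hsq : Real.sqrt δ' ∈ Icc (T 0) (T δ₁) := by
      rw [hT0]
      refine ⟨Real.sqrt_nonneg _, ?_⟩
      rw [Real.sqrt_le_left hT1.le]
      exact hδ'.2.le
    obtain ⟨δ, hδ, hTδ⟩ := intermediate_value_Icc hδ₁0.le hTc hsq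
    have hsq0 : 0 < Real.sqrt δ' := Real.sqrt_pos.2 hδ'.1
    have hδ0 : 0 < δ := by
      rcases hδ.1.eq_or_lt with h | h
      · rw [← h, hT0] at hTδ
        linarith
      · exact h
    refine ⟨δ, ⟨hδ0, hδ.2.trans_lt hδ₁δ⟩, ?_⟩
    convert harc using 1
    have hval : ∀ t ∈ Icc (0 : ℝ) δ₁, z₀ + (f (t : ℂ)) ^ N = z₀ + (F (((T t) ^ 2 : ℝ) : ℂ)) ^ N' := by
      intro t ht
      have e1 := (hb t (hmem t ht)).2.2.1
      rw [hTτ t ht] at e1
      have e2 : (f (t : ℂ)) ^ N = ((f (t : ℂ)) ^ 2) ^ N' := by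
        rw [← pow_mul]
        congr 1
        omega
      rw [e2, e1]
      push_cast
      rfl
    apply Subset.antisymm
    · rintro _ ⟨t, ht, rfl⟩
      have ht' : t ∈ Icc (0 : ℝ) δ₁ := ⟨ht.1, ht.2.trans hδ.2⟩
      refine ⟨(T t) ^ 2, ⟨by positivity, ?_⟩, (hval t ht').symm⟩
      have g1 : 0 ≤ T t := by rw [← hT0]; exact hTm.monotoneOn h0mem ht' ht.1
      have g2 : T t ≤ Real.sqrt δ' := by rw [← hTδ]; exact hTm.monotoneOn ht' hδ ht.2
      calc (T t) ^ 2 ≤ (Real.sqrt δ') ^ 2 := by gcongr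
        _ = δ' := Real.sq_sqrt hδ'.1.le
    · rintro _ ⟨x, hx, rfl⟩
      have hx' : Real.sqrt x ∈ Icc (T 0) (T δ) := by
        rw [hT0, hTδ]
        exact ⟨Real.sqrt_nonneg _, Real.sqrt_le_sqrt hx.2⟩
      obtain ⟨t, ht, hTt⟩ := intermediate_value_Icc hδ.1
        (hTc.mono (Icc_subset_Icc le_rfl hδ.2)) hx'
      refine ⟨t, ht, ?_⟩
      have ht' : t ∈ Icc (0 : ℝ) δ₁ := ⟨ht.1, ht.2.trans hδ.2⟩
      show z₀ + (f (t : ℂ)) ^ N = z₀ + (F (x : ℂ)) ^ N'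
      rw [hval t ht', hTt, Real.sq_sqrt hx.1]

/-- local form: near a point of the support the support is a finite union of arcs or the point is
isolated -/
theorem local_arcs (μ : Measure ℂ) [IsFiniteMeasure μ] {R₀ : ℝ} (hc : ∀ᵐ ζ ∂μ, ‖ζ‖ ≤ R₀)
    (P : ℂ[X][X]) (hP : P ≠ 0) (h : ∀ᵐ z : ℂ, P.evalEval z (CT μ z) = 0) {z₀ : ℂ}
    (hz₀ : z₀ ∈ μ.support) :
    ∃ (r : ℝ) (𝒜 : Set (Set ℂ)), 0 < r ∧ 𝒜.Finite ∧ (∀ A ∈ 𝒜, IsArc A ∧ A ⊆ μ.support ∧ z₀ ∈ A) ∧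
      ∀ z ∈ μ.support, z ∈ ball z₀ r → z ≠ z₀ → ∃ A ∈ 𝒜, z ∈ A := by
  classical
  obtain ⟨N, F, hN, hF, hF1, hF2⟩ := local_curves μ hc P hP h z₀
  have hex : ∀ f ∈ F, ∃ δ > 0, IsArc ((fun t : ℝ => z₀ + (f t) ^ N) '' Icc 0 δ) ∧
      (fun t : ℝ => z₀ + (f t) ^ N) '' Icc 0 δ ⊆ μ.support := by
    intro f hf
    obtain ⟨h1, h2, h3, h4⟩ := hF1 f hf
    obtain ⟨δ₀, hδ₀, hs⟩ := mem_nhdsGT_iff_exists_Ioo_subset.1 h4
    obtain ⟨δ, hδ, harc⟩ := germ_arc N hN f h1 h2 h3 z₀ δ₀ hδ₀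
    refine ⟨δ, hδ.1, harc, ?_⟩
    rintro _ ⟨t, ht, rfl⟩
    rcases ht.1.eq_or_lt with h0 | h0
    · rw [← h0]
      show z₀ + (f ((0 : ℝ) : ℂ)) ^ N ∈ μ.support
      rw [Complex.ofReal_zero, h2, zero_pow hN.ne', add_zero]
      exact hz₀
    · exact hs ⟨h0, ht.2.trans_lt hδ.2⟩
  choose! δ hδ hδarc hδsub using hex
  obtain ⟨ε, hε, hε'⟩ : ∃ ε > 0, ∀ f ∈ F, ε ≤ δ f := by
    by_cases hne : hF.toFinset.Nonempty
    · obtain ⟨f, hf, hmin⟩ := hF.toFinset.exists_min_image δ hne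
      exact ⟨δ f, hδ f (by simpa using hf), fun f' hf' => hmin f' (by simpa using hf')⟩
    · refine ⟨1, one_pos, fun f hf => ?_⟩
      exact absurd ⟨f, by simpa using hf⟩ hne
  obtain ⟨r, hr, hb⟩ := Metric.eventually_nhds_iff_ball.1 (hF2 ε hε)
  refine ⟨r, (fun f : ℂ → ℂ => (fun t : ℝ => z₀ + (f t) ^ N) '' Icc 0 (δ f)) '' F, hr,
    hF.image _, ?_, ?_⟩
  · rintro _ ⟨f, hf, rfl⟩
    refine ⟨hδarc f hf, hδsub f hf, 0, ⟨le_rfl, (hδ f hf).le⟩, ?_⟩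
    show z₀ + (f ((0 : ℝ) : ℂ)) ^ N = z₀
    rw [Complex.ofReal_zero, (hF1 f hf).2.1, zero_pow hN.ne', add_zero]
  · intro z hz hzr hzne
    obtain ⟨f, hf, t, ht, hzt⟩ := hb z hzr hz hzne
    exact ⟨_, ⟨f, hf, rfl⟩, t, ⟨ht.1.le, (ht.2.trans_le (hε' f hf)).le⟩, hzt.symm⟩

/-- **The support of a compactly supported positive measure with algebraic Cauchy transform is a
finite union of compact analytic arcs and isolated points.** -/
theorem support_arcs (μ : Measure ℂ) [IsFiniteMeasure μ] (hcomp : IsCompact μ.support)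
    (P : ℂ[X][X]) (hP : P ≠ 0) (h : ∀ᵐ z : ℂ, P.evalEval z (CT μ z) = 0) :
    ∃ (𝒜 : Set (Set ℂ)) (D : Set ℂ), 𝒜.Finite ∧ D.Finite ∧ (∀ A ∈ 𝒜, IsArc A) ∧
      (∀ p ∈ D, ∃ ε > 0, μ.support ∩ ball p ε = {p}) ∧ μ.support = ⋃₀ 𝒜 ∪ D := by
  obtain ⟨R₀, hR₀⟩ := hcomp.isBounded.subset_closedBall (0 : ℂ)
  have hc : ∀ᵐ ζ ∂μ, ‖ζ‖ ≤ R₀ := by
    filter_upwards [Measure.support_mem_ae (μ := μ)] with ζ hζ
    have := hR₀ hζ
    rwa [mem_closedBall_zero_iff] at this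
  have key : ∃ (𝒜 : Set (Set ℂ)) (D : Set ℂ), 𝒜.Finite ∧ D.Finite ∧
      (∀ A ∈ 𝒜, IsArc A ∧ A ⊆ μ.support) ∧
      (∀ p ∈ D, ∃ ε > 0, μ.support ∩ ball p ε = {p}) ∧ μ.support ⊆ ⋃₀ 𝒜 ∪ D := by
    refine hcomp.induction_on (p := fun S => ∃ (𝒜 : Set (Set ℂ)) (D : Set ℂ), 𝒜.Finite ∧ D.Finite ∧
      (∀ A ∈ 𝒜, IsArc A ∧ A ⊆ μ.support) ∧
      (∀ p ∈ D, ∃ ε > 0, μ.support ∩ ball p ε = {p}) ∧ S ⊆ ⋃₀ 𝒜 ∪ D) ?_ ?_ ?_ ?_
    · exact ⟨∅, ∅, finite_empty, finite_empty, by simp, by simp, empty_subset _⟩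
    · rintro S T hST ⟨𝒜, D, h1, h2, h3, h4, h5⟩
      exact ⟨𝒜, D, h1, h2, h3, h4, hST.trans h5⟩
    · rintro S T ⟨𝒜, D, h1, h2, h3, h4, h5⟩ ⟨𝒜', D', h1', h2', h3', h4', h5'⟩
      refine ⟨𝒜 ∪ 𝒜', D ∪ D', h1.union h1', h2.union h2', ?_, ?_, ?_⟩
      · rintro A (hA | hA)
        · exact h3 A hA
        · exact h3' A hA
      · rintro p (hp | hp)
        · exact h4 p hp
        · exact h4' p hp
      · rintro z (hz | hz)
        · rcases h5 hz with ⟨A, hA, hzA⟩ | h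
          · exact Or.inl ⟨A, Or.inl hA, hzA⟩
          · exact Or.inr (Or.inl h)
        · rcases h5' hz with ⟨A, hA, hzA⟩ | h
          · exact Or.inl ⟨A, Or.inr hA, hzA⟩
          · exact Or.inr (Or.inr h)
    · intro z₀ hz₀
      obtain ⟨r, 𝒜, hr, h𝒜, h1, h2⟩ := local_arcs μ hc P hP h hz₀
      refine ⟨μ.support ∩ ball z₀ r,
        inter_mem self_mem_nhdsWithin (mem_nhdsWithin_of_mem_nhds (ball_mem_nhds z₀ hr)), ?_⟩
      rcases 𝒜.eq_empty_or_nonempty with hem | ⟨A₀, hA₀⟩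
      · refine ⟨∅, {z₀}, finite_empty, finite_singleton _, by simp, ?_, ?_⟩
        · rintro p rfl
          refine ⟨r, hr, ?_⟩
          apply Subset.antisymm
          · rintro z ⟨hz, hzr⟩
            by_contra hne
            obtain ⟨A, hA, -⟩ := h2 z hz hzr hne
            rw [hem] at hA
            exact hA
          · rintro z rfl
            exact ⟨hz₀, mem_ball_self hr⟩
        · rintro z ⟨hz, hzr⟩
          right
          by_contra hne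
          obtain ⟨A, hA, -⟩ := h2 z hz hzr hne
          rw [hem] at hA
          exact hA
      · refine ⟨𝒜, ∅, h𝒜, finite_empty, fun A hA => ⟨(h1 A hA).1, (h1 A hA).2.1⟩, by simp, ?_⟩
        rintro z ⟨hz, hzr⟩
        left
        by_cases hne : z = z₀
        · exact ⟨A₀, hA₀, by rw [hne]; exact (h1 A₀ hA₀).2.2⟩
        · obtain ⟨A, hA, hzA⟩ := h2 z hz hzr hne
          exact ⟨A, hA, hzA⟩
  obtain ⟨𝒜, D, h1, h2, h3, h4, h5⟩ := key
  refine ⟨𝒜, D, h1, h2, fun A hA => (h3 A hA).1, h4, Subset.antisymm h5 ?_⟩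
  rintro z (⟨A, hA, hzA⟩ | hz)
  · exact (h3 A hA).2 hzA
  · obtain ⟨ε, _, hε⟩ := h4 z hz
    have : z ∈ μ.support ∩ ball z ε := by rw [hε]; rfl
    exact this.1

end Pool.Agent.T2h27.SA
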